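import Pool.Agent.Y370.Q32

set_option autoImplicit false

namespace Pool.Agent.Y370.Q

open MeasureTheory Complex

/-- the Euclidean plane -/
abbrev E2 : Type := EuclideanSpace ℝ (Fin 2)

/-- the identification of the two planes -/
noncomputable def Phi : ℂ ≃ₗᵢ[ℝ] E2 := Complex.orthonormalBasisOneI.repr

lemma vol_Phi (s : Set ℂ) : volume (Phi '' s) = volume s := by
  have h := Phi.symm.measurePreserving
  have h1 : Phi '' s = Phi.symm ⁻¹' s := Phi.toEquiv.image_eq_preimage_symm s
  rw [h1]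
  exact h.measure_preimage_equiv (f := Phi.symm.toHomeomorph.toMeasurableEquiv) s

lemma int_Phi (s : Set ℂ) : interior (Phi '' s) = Phi '' interior s :=
  (Phi.toHomeomorph.image_interior s).symm

lemma disj_Phi (s t : Set ℂ) : Disjoint (interior (Phi '' s)) (interior (Phi '' t)) ↔
    Disjoint (interior s) (interior t) := by
  rw [int_Phi, int_Phi, Set.disjoint_image_iff Phi.injective]

lemma par_Phi (u w : ℂ) : volume (parallelepiped ![Phi u, Phi w]) =
    volume (parallelepiped ![u, w]) := by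
  have h := image_parallelepiped (Phi.toLinearEquiv.toLinearMap : ℂ →ₗ[ℝ] E2) ![u, w]
  have h2 : (Phi.toLinearEquiv.toLinearMap : ℂ →ₗ[ℝ] E2) ∘ ![u, w] = ![Phi u, Phi w] := by
    funext i; fin_cases i <;> rfl
  rw [h2] at h
  rw [← h]
  exact vol_Phi _

lemma lin_Phi (u w : ℂ) : LinearIndependent ℝ ![Phi u, Phi w] ↔ LinearIndependent ℝ ![u, w] := by
  have h2 : (Phi.toLinearEquiv.toLinearMap : ℂ →ₗ[ℝ] E2) ∘ ![u, w] = ![Phi u, Phi w] := by
    funext i; fin_cases i <;> rfl
  rw [← h2]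
  exact LinearMap.linearIndependent_iff _ (LinearMap.ker_eq_bot.2 Phi.injective)

lemma toC {F : Fam} {n : ℕ} (g : Fin n → (E2 ≃ᵢ E2)) (u w : E2)
    (hlin : LinearIndependent ℝ ![u, w])
    (hdisj : ∀ i j : Fin n, ∀ a b c e : ℤ, (i, a, b) ≠ (j, c, e) →
      Disjoint (interior ((fun x => g i x + ((a : ℝ) • u + (b : ℝ) • w)) '' (Phi '' F.K)))
        (interior ((fun x => g j x + ((c : ℝ) • u + (e : ℝ) • w)) '' (Phi '' F.K)))) :
    ∃ P : Pack F n, volume (parallelepiped ![P.u, P.w]) = volume (parallelepiped ![u, w]) := by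
  have key : ∀ (i : Fin n) (a b : ℤ),
      (fun x => g i x + ((a : ℝ) • u + (b : ℝ) • w)) '' (Phi '' F.K) =
      Phi '' ((fun x => (Phi.toIsometryEquiv.trans ((g i).trans Phi.symm.toIsometryEquiv)) x +
        ((a : ℝ) • Phi.symm u + (b : ℝ) • Phi.symm w)) '' F.K) := by
    intro i a b
    rw [Set.image_image, Set.image_image]
    apply Set.image_congr
    intro x _
    simp only [IsometryEquiv.trans_apply, LinearIsometryEquiv.coe_toIsometryEquiv, map_add,
      map_smul, LinearIsometryEquiv.apply_symm_apply]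
  refine ⟨⟨fun i => Phi.toIsometryEquiv.trans ((g i).trans Phi.symm.toIsometryEquiv),
    Phi.symm u, Phi.symm w, ?_, ?_⟩, ?_⟩
  · rw [← lin_Phi]
    simpa using hlin
  · intro i j a b c e hne
    have := hdisj i j a b c e hne
    rw [key, key, disj_Phi] at this
    exact this
  · rw [← par_Phi]
    simp

lemma toE {F : Fam} {n : ℕ} (P : Pack F n) :
    ∃ g : Fin n → (E2 ≃ᵢ E2), ∃ u w : E2, LinearIndependent ℝ ![u, w] ∧
    (∀ i j : Fin n, ∀ a b c e : ℤ, (i, a, b) ≠ (j, c, e) →
      Disjoint (interior ((fun x => g i x + ((a : ℝ) • u + (b : ℝ) • w)) '' (Phi '' F.K)))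
        (interior ((fun x => g j x + ((c : ℝ) • u + (e : ℝ) • w)) '' (Phi '' F.K)))) ∧
    volume (parallelepiped ![u, w]) = volume (parallelepiped ![P.u, P.w]) := by
  refine ⟨fun i => Phi.symm.toIsometryEquiv.trans ((P.g i).trans Phi.toIsometryEquiv),
    Phi P.u, Phi P.w, (lin_Phi _ _).2 P.lin, ?_, par_Phi _ _⟩
  have key : ∀ (i : Fin n) (a b : ℤ),
      (fun x => (Phi.symm.toIsometryEquiv.trans ((P.g i).trans Phi.toIsometryEquiv)) x +
        ((a : ℝ) • Phi P.u + (b : ℝ) • Phi P.w)) '' (Phi '' F.K) =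
      Phi '' ((fun x => P.g i x + ((a : ℝ) • P.u + (b : ℝ) • P.w)) '' F.K) := by
    intro i a b
    rw [Set.image_image, Set.image_image]
    apply Set.image_congr
    intro x _
    simp only [IsometryEquiv.trans_apply, LinearIsometryEquiv.coe_toIsometryEquiv, map_add,
      map_smul, LinearIsometryEquiv.symm_apply_apply]
  intro i j a b c e hne
  rw [key, key, disj_Phi]
  exact P.disj i j a b c e hne

/-- the set of densities of periodic packings -/
def dens (K : Set E2) : Set ℝ :=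
  {d : ℝ | ∃ n : ℕ, ∃ g : Fin n → (E2 ≃ᵢ E2), ∃ u w : E2,
        LinearIndependent ℝ ![u, w] ∧
        (∀ i j : Fin n, ∀ a b c e : ℤ, (i, a, b) ≠ (j, c, e) →
          Disjoint (interior ((fun x => g i x + ((a : ℝ) • u + (b : ℝ) • w)) '' K))
                   (interior ((fun x => g j x + ((c : ℝ) • u + (e : ℝ) • w)) '' K))) ∧
        d = (n : ℝ) * (MeasureTheory.volume K).toReal
              / (MeasureTheory.volume (parallelepiped ![u, w])).toReal}

lemma Pack.area_pos {F : Fam} {n : ℕ} (P : Pack F n) :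
    0 < (volume (parallelepiped ![P.u, P.w])).toReal := by
  rw [← P.fa_eq]
  apply ENNReal.toReal_pos _ P.fa_ne_top
  exact ZSpan.measure_fundamentalDomain_ne_zero P.bas

lemma Pack.area_ge {F : Fam} {n : ℕ} (P : Pack F n) :
    (n : ℝ) * (2 * Real.sqrt 3) ≤ (volume (parallelepiped ![P.u, P.w])).toReal := by
  rw [← P.fa_eq, ← ENNReal.ofReal_le_iff_le_toReal P.fa_ne_top]
  exact P.area_bound

lemma Pack.area_gt {F : Fam} {n : ℕ} (P : Pack F n) (hn : 0 < n) :
    (n : ℝ) * (2 * Real.sqrt 3) < (volume (parallelepiped ![P.u, P.w])).toReal := by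
  rw [← P.fa_eq]
  have := P.no_tight hn
  push Not at this
  rwa [ENNReal.ofReal_lt_iff_lt_toReal (by positivity) P.fa_ne_top] at this

/-- the main theorem -/
theorem not_attained (F : Fam) : sSup (dens (Phi '' F.K)) ∉ dens (Phi '' F.K) := by
  intro h
  set S := dens (Phi '' F.K) with hS
  set V := (volume (Phi '' F.K)).toReal with hV
  have hcomp : IsCompact (Phi '' F.K) := F.K_compact.image Phi.continuous
  have hint : (interior (Phi '' F.K)).Nonempty := by
    rw [int_Phi]
    exact F.K_interior.image _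
  have hVpos : 0 < V := by
    apply ENNReal.toReal_pos _ hcomp.measure_lt_top.ne
    exact (Measure.measure_pos_of_nonempty_interior _ hint).ne'
  have hs3 : 0 < Real.sqrt 3 := by positivity
  have hub : ∀ d ∈ S, d ≤ V / (2 * Real.sqrt 3) := by
    rintro d ⟨n, g, u, w, hlin, hdisj, rfl⟩
    obtain ⟨P, hP⟩ := toC g u w hlin hdisj
    have h1 := P.area_ge
    have h2 := P.area_pos
    rw [hP] at h1 h2
    rw [div_le_div_iff₀ h2 (by positivity)]
    nlinarith
  have hbdd : BddAbove S := ⟨_, hub⟩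
  have hpatch : ∀ N : ℕ, ((N : ℝ) / ((N : ℝ) + 2)) ^ 2 * (V / (2 * Real.sqrt 3)) ∈ S := by
    intro N
    obtain ⟨g, u, w, hlin, hdisj, hvol⟩ := toE (F.patch N)
    refine ⟨N * N, g, u, w, hlin, hdisj, ?_⟩
    rw [hvol, F.patch_vol, ENNReal.toReal_ofReal (by positivity)]
    push_cast
    rw [← hV]
    field_simp
  have hlim : V / (2 * Real.sqrt 3) ≤ sSup S := by
    have ht : Filter.Tendsto (fun N : ℕ => ((N : ℝ) / ((N : ℝ) + 2)) ^ 2 * (V / (2 * Real.sqrt 3)))
        Filter.atTop (nhds ((1 : ℝ) ^ 2 * (V / (2 * Real.sqrt 3)))) :=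
      ((tendsto_natCast_div_add_atTop (2 : ℝ)).pow 2).mul_const _
    rw [one_pow, one_mul] at ht
    exact le_of_tendsto' ht fun N => le_csSup hbdd (hpatch N)
  obtain ⟨n, g, u, w, hlin, hdisj, he⟩ := h
  obtain ⟨P, hP⟩ := toC g u w hlin hdisj
  rw [he] at hlim
  have h2 := P.area_pos
  rw [hP] at h2
  rcases Nat.eq_zero_or_pos n with h0 | h0
  · subst h0
    rw [Nat.cast_zero, zero_mul, zero_div] at hlim
    have : 0 < V / (2 * Real.sqrt 3) := by positivity
    linarith
  · have h1 := P.area_gt h0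
    rw [hP] at h1
    rw [div_le_div_iff₀ (by positivity) h2] at hlim
    have h3 : V * ((n : ℝ) * (2 * Real.sqrt 3)) <
        V * (volume (parallelepiped ![u, w])).toReal := mul_lt_mul_of_pos_left h1 hVpos
    have h4 : (n : ℝ) * V * (2 * Real.sqrt 3) = V * ((n : ℝ) * (2 * Real.sqrt 3)) := by ring
    rw [← hV, h4] at hlim
    linarith

end Pool.Agent.Y370.Q
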