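import Mathlib

set_option autoImplicit false

namespace Pool.Agent.Y370.Q

open MeasureTheory Complex

/-- cross product in the plane -/
def crs (z w : ℂ) : ℝ := z.re * w.im - z.im * w.re

/-- scalar product in the plane -/
def dot (z w : ℂ) : ℝ := z.re * w.re + z.im * w.im

lemma dot_comm (z w : ℂ) : dot z w = dot w z := by unfold dot; ring
lemma crs_anti (z w : ℂ) : crs z w = - crs w z := by unfold crs; ring
lemma dot_add_left (x y z : ℂ) : dot (x + y) z = dot x z + dot y z := by
  simp [dot]; ring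
lemma dot_add_right (x y z : ℂ) : dot x (y + z) = dot x y + dot x z := by
  simp [dot]; ring
lemma dot_sub_left (x y z : ℂ) : dot (x - y) z = dot x z - dot y z := by
  simp [dot]; ring
lemma dot_sub_right (x y z : ℂ) : dot x (y - z) = dot x y - dot x z := by
  simp [dot]; ring
lemma dot_smul_left (a : ℝ) (y z : ℂ) : dot (a • y) z = a * dot y z := by
  simp [dot]; ring
lemma dot_smul_right (a : ℝ) (y z : ℂ) : dot y (a • z) = a * dot y z := by
  simp [dot]; ring
lemma crs_add_left (x y z : ℂ) : crs (x + y) z = crs x z + crs y z := by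
  simp [crs]; ring
lemma crs_add_right (x y z : ℂ) : crs x (y + z) = crs x y + crs x z := by
  simp [crs]; ring
lemma crs_sub_left (x y z : ℂ) : crs (x - y) z = crs x z - crs y z := by
  simp [crs]; ring
lemma crs_sub_right (x y z : ℂ) : crs x (y - z) = crs x y - crs x z := by
  simp [crs]; ring
lemma crs_smul_left (a : ℝ) (y z : ℂ) : crs (a • y) z = a * crs y z := by
  simp [crs]; ring
lemma crs_smul_right (a : ℝ) (y z : ℂ) : crs y (a • z) = a * crs y z := by
  simp [crs]; ring
lemma crs_self (z : ℂ) : crs z z = 0 := by unfold crs; ring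

lemma dot_self (z : ℂ) : dot z z = ‖z‖ ^ 2 := by
  rw [Complex.sq_norm, Complex.normSq_apply]; rfl

lemma dot_eq_inner (z w : ℂ) : dot z w = inner ℝ z w := by
  rw [Complex.inner]; simp [dot]; ring

lemma crs_sq_add_dot_sq (z w : ℂ) : crs z w ^ 2 + dot z w ^ 2 = ‖z‖ ^ 2 * ‖w‖ ^ 2 := by
  rw [← dot_self, ← dot_self]; unfold crs dot; ring

lemma abs_dot_le (z w : ℂ) : |dot z w| ≤ ‖z‖ * ‖w‖ := by
  apply abs_le_of_sq_le_sq _ (by positivity)
  have := crs_sq_add_dot_sq z w
  nlinarith [sq_nonneg (crs z w)]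

lemma abs_crs_le (z w : ℂ) : |crs z w| ≤ ‖z‖ * ‖w‖ := by
  apply abs_le_of_sq_le_sq _ (by positivity)
  have := crs_sq_add_dot_sq z w
  nlinarith [sq_nonneg (dot z w)]

/-- the linear map sending 1, I to A, B -/
noncomputable def lmap (A B : ℂ) : ℂ →ₗ[ℝ] ℂ where
  toFun z := z.re • A + z.im • B
  map_add' x y := by simp only [add_re, add_im, add_smul]; ring
  map_smul' a x := by
    simp only [real_smul, mul_re, ofReal_re, ofReal_im, zero_mul, sub_zero, mul_im, add_zero,
      RingHom.id_apply, ofReal_mul]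
    ring

lemma lmap_apply (A B z : ℂ) : lmap A B z = z.re • A + z.im • B := rfl

lemma det_lmap (A B : ℂ) : LinearMap.det (lmap A B) = crs A B := by
  rw [← LinearMap.det_toMatrix Complex.basisOneI, Matrix.det_fin_two]
  simp [LinearMap.toMatrix_apply, lmap_apply, crs]
  ring

/-- the open triangle with vertices 0, A, B -/
def tri (A B : ℂ) : Set ℂ :=
  {z | ∃ a b : ℝ, 0 < a ∧ 0 < b ∧ a + b < 1 ∧ z = a • A + b • B}

/-- the standard open triangle -/
def stri : Set ℂ := {z | 0 < z.re ∧ 0 < z.im ∧ z.re + z.im < 1}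

lemma tri_eq (A B : ℂ) : tri A B = lmap A B '' stri := by
  ext z
  constructor
  · rintro ⟨a, b, ha, hb, hab, rfl⟩
    exact ⟨⟨a, b⟩, ⟨ha, hb, hab⟩, rfl⟩
  · rintro ⟨w, ⟨h1, h2, h3⟩, rfl⟩
    exact ⟨w.re, w.im, h1, h2, h3, rfl⟩

lemma volume_stri : volume stri = ENNReal.ofReal (1 / 2) := by
  have h1 : stri = measurableEquivRealProd ⁻¹'
      (regionBetween (fun _ => (0:ℝ)) (fun x => 1 - x) (Set.Ioo 0 1)) := by
    ext z
    simp only [stri, Set.mem_ofPred_eq, Set.mem_preimage, regionBetween,
      measurableEquivRealProd_apply, Set.mem_Ioo]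
    constructor
    · rintro ⟨h1, h2, h3⟩
      exact ⟨⟨h1, by linarith⟩, h2, by linarith⟩
    · rintro ⟨⟨h1, h2⟩, h3, h4⟩
      exact ⟨h1, h3, by linarith⟩
  rw [h1, volume_preserving_equiv_real_prod.measure_preimage_equiv]
  rw [Measure.volume_eq_prod, volume_regionBetween_eq_integral]
  · congr 1
    rw [← integral_Ioc_eq_integral_Ioo, ← intervalIntegral.integral_of_le zero_le_one]
    have h2 : ∫ (x : ℝ) in (0:ℝ)..1, (1 - x) = 1 / 2 := by
      rw [intervalIntegral.integral_sub (by simp) (by simp)]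
      simp only [intervalIntegral.integral_const, integral_id]
      norm_num
    rw [← h2]
    apply intervalIntegral.integral_congr
    intro x _
    simp
  · exact (integrableOn_const (by simp))
  · apply (Continuous.integrableOn_Icc (a := 0) (b := 1) (by fun_prop)).mono_set
    exact Set.Ioo_subset_Icc_self
  · exact measurableSet_Ioo
  · intro x hx
    simp only [Set.mem_Ioo] at hx
    linarith [hx.2]

lemma volume_tri (A B : ℂ) : volume (tri A B) = ENNReal.ofReal (|crs A B| / 2) := by
  rw [tri_eq, Measure.addHaar_image_linearMap, det_lmap, volume_stri,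
    ← ENNReal.ofReal_mul (abs_nonneg _)]
  congr 1
  ring

lemma measurableSet_stri : MeasurableSet stri := by
  apply IsOpen.measurableSet
  have : stri = {z : ℂ | 0 < z.re} ∩ ({z : ℂ | 0 < z.im} ∩ {z : ℂ | z.re + z.im < 1}) := by
    ext z; simp [stri]
  rw [this]
  refine IsOpen.inter ?_ (IsOpen.inter ?_ ?_)
  · exact isOpen_lt continuous_const Complex.continuous_re
  · exact isOpen_lt continuous_const Complex.continuous_im
  · exact isOpen_lt (Complex.continuous_re.add Complex.continuous_im) continuous_const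

end Pool.Agent.Y370.Q
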