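import Pool.Agent.Y370.Q0

set_option autoImplicit false

namespace Pool.Agent.Y370.Q

open MeasureTheory Complex

lemma measurableSet_tri {A B : ℂ} (h : crs A B ≠ 0) : MeasurableSet (tri A B) := by
  rw [tri_eq]
  have hd : LinearMap.det (lmap A B) ≠ 0 := by rw [det_lmap]; exact h
  let e := (LinearMap.equivOfDetNeZero (lmap A B) hd).toContinuousLinearEquiv
  have : lmap A B '' stri = e '' stri := rfl
  rw [this]
  exact (e.toHomeomorph.measurableEmbedding.measurableSet_image).2 measurableSet_stri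

lemma tri_subset {A B : ℂ} {D : Set ℂ} (hD : Convex ℝ D) (h0 : (0:ℂ) ∈ D) (hA : A ∈ D)
    (hB : B ∈ D) : tri A B ⊆ D := by
  rintro z ⟨a, b, ha, hb, hab, rfl⟩
  have := hD.sum_mem (t := Finset.univ) (w := ![1 - a - b, a, b]) (z := ![0, A, B]) ?_ ?_ ?_
  · simpa [Fin.sum_univ_succ] using this
  · intro i _
    fin_cases i <;> simp <;> linarith
  · simp [Fin.sum_univ_succ]
  · intro i _
    fin_cases i <;> simp [h0, hA, hB]

/-- lower bound for the area of a convex set containing a hexagon around the origin -/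
theorem poly_area (n W : Fin 6 → ℂ) (h : Fin 6 → ℝ) (hh : ∀ κ, 0 < h κ)
    (hW1 : ∀ κ, dot (W κ) (n κ) = h κ) (hW2 : ∀ κ, dot (W κ) (n (κ + 1)) = h (κ + 1))
    (hW3 : ∀ κ j, j ≠ κ → j ≠ κ + 1 → dot (W κ) (n j) < h j)
    (hc : ∀ κ, 0 < crs (W κ) (W (κ + 1)))
    {D : Set ℂ} (hD : Convex ℝ D) (h0 : (0:ℂ) ∈ D) (hWD : ∀ κ, W κ ∈ D) :
    ENNReal.ofReal ((1 / 2) * ∑ κ, crs (W κ) (W (κ + 1))) ≤ volume D := by
  have hle : ∀ κ j, dot (W κ) (n j) ≤ h j := by
    intro κ j
    by_cases h1 : j = κ
    · rw [h1, hW1]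
    by_cases h2 : j = κ + 1
    · rw [h2, hW2]
    exact (hW3 κ j h1 h2).le
  -- triangles T κ = tri (W κ) (W (κ+1)), on the side κ + 1
  have key : ∀ κ z, z ∈ tri (W κ) (W (κ + 1)) → ∀ j, j ≠ κ + 1 →
      dot z (n j) / h j < dot z (n (κ + 1)) / h (κ + 1) := by
    rintro κ z ⟨a, b, ha, hb, hab, rfl⟩ j hj
    have e1 : dot (a • W κ + b • W (κ + 1)) (n (κ + 1)) / h (κ + 1) = a + b := by
      rw [dot_add_left, dot_smul_left, dot_smul_left, hW2, hW1]
      have := (hh (κ + 1)).ne'
      field_simp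
    rw [e1, div_lt_iff₀ (hh j), dot_add_left, dot_smul_left, dot_smul_left]
    have g1 := hle κ j
    have g2 := hle (κ + 1) j
    by_cases h1 : j = κ
    · have g3 : dot (W (κ + 1)) (n j) < h j := by
        apply hW3 (κ + 1) j hj
        rw [h1]
        intro h5
        revert h5
        clear * -
        revert κ
        decide
      nlinarith
    · have g3 : dot (W κ) (n j) < h j := hW3 κ j h1 hj
      nlinarith
  have hdisj : Pairwise (Function.onFun Disjoint fun κ : Fin 6 => tri (W κ) (W (κ + 1))) := by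
    intro κ j hκj
    rw [Function.onFun, Set.disjoint_left]
    intro z hz hz'
    have h1 := key κ z hz (j + 1) (fun h5 => hκj (add_right_cancel h5).symm)
    have h2 := key j z hz' (κ + 1) (fun h5 => hκj (add_right_cancel h5))
    exact absurd (h1.trans h2) (lt_irrefl _)
  calc ENNReal.ofReal ((1 / 2) * ∑ κ, crs (W κ) (W (κ + 1)))
      = ∑ κ, volume (tri (W κ) (W (κ + 1))) := by
        rw [Finset.mul_sum, ENNReal.ofReal_sum_of_nonneg]
        · apply Finset.sum_congr rfl
          intro κ _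
          rw [volume_tri, abs_of_pos (hc κ)]
          congr 1
          ring
        · intro κ _
          have := (hc κ).le
          positivity
    _ = volume (⋃ κ, tri (W κ) (W (κ + 1))) := by
        rw [measure_iUnion hdisj (fun κ => measurableSet_tri (hc κ).ne'), tsum_fintype]
    _ ≤ volume D := by
        apply measure_mono
        apply Set.iUnion_subset
        intro κ
        exact tri_subset hD h0 (hWD _) (hWD _)

end Pool.Agent.Y370.Q
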