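import Pool.Agent.Y370.Q9

set_option autoImplicit false

namespace Pool.Agent.Y370.Q

open MeasureTheory Complex

/-- data of the nearly round body -/
structure BodyHyp (M : ℕ) (σ ρ d : ℝ) (V : Fin M → Fin 6 → ℂ) (K : Set ℂ) : Prop where
  hM : 10000 ≤ M
  hσ : (M : ℝ) * σ = Real.pi / 3
  hρ : ρ = Real.sqrt 3 / 5 * σ
  hd0 : 0 ≤ d
  hd : d ≤ σ ^ 2 / 100000
  hV : ∀ (t : Fin M) (κ : Fin 6), ‖V t κ - (2 / Real.sqrt 3) •
    ev ((t : ℕ) * σ + (κ : ℕ) * (Real.pi / 3) - Real.pi / 6)‖ ≤ d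
  hP1 : ∀ t κ, V t κ + (1 / 2 + ρ) • (V t (κ + 1) - V t κ) ∈ K
  hP2 : ∀ t κ, V t κ + (1 / 2 - ρ) • (V t (κ + 1) - V t κ) ∈ K
  harea : ∀ t, ∑ κ, crs (V t κ) (V t (κ + 1)) = 4 * Real.sqrt 3

/-- reduction of an integer modulo 6 -/
def fk (k : ℤ) : Fin 6 := ⟨(k % 6).toNat, by omega⟩

lemma fk_val (k : ℤ) : ((fk k : ℕ) : ℤ) = k % 6 := by
  simp only [fk]; omega

lemma fk_add_one (k : ℤ) : fk (k + 1) = fk k + 1 := by
  apply Fin.ext
  rw [Fin.val_add]
  have h1 := fk_val k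
  have h2 := fk_val (k + 1)
  have : ((1 : Fin 6) : ℕ) = 1 := rfl
  rw [this]
  omega

lemma fk_add_nat (k : ℤ) (κ : Fin 6) : fk (k + (κ : ℕ)) = κ + fk k := by
  apply Fin.ext
  rw [Fin.val_add]
  have h1 := fk_val k
  have h2 := fk_val (k + (κ : ℕ))
  omega

lemma norm_le_of_dots (X n n' : ℂ) (hn : ‖n‖ = 1) (hn' : ‖n'‖ = 1) :
    |crs n n'| * ‖X‖ ≤ |dot X n| + |dot X n'| := by
  have h1 : (crs n n') • X = (-dot X n) • (I * n') + (dot X n') • (I * n) := by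
    apply Complex.ext
    · simp only [crs, dot, real_smul, mul_re, ofReal_re, ofReal_im, I_re, I_im, mul_im, add_re]
      ring
    · simp only [crs, dot, real_smul, mul_re, ofReal_re, ofReal_im, I_re, I_im, mul_im, add_im]
      ring
  have h2 : |crs n n'| * ‖X‖ = ‖(crs n n') • X‖ := by rw [norm_smul, Real.norm_eq_abs]
  rw [h2, h1]
  refine (norm_add_le _ _).trans ?_
  rw [norm_smul, norm_smul, norm_mul, norm_mul, Complex.norm_I, hn, hn', Real.norm_eq_abs,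
    Real.norm_eq_abs, abs_neg]
  linarith

lemma two_div_sqrt3 : (2 / Real.sqrt 3) * (Real.sqrt 3 / 2) = 1 := by
  have : Real.sqrt 3 ≠ 0 := by positivity
  field_simp

lemma two_div_sqrt3_bd : 2 / Real.sqrt 3 ≤ 1.155 ∧ 1.154 ≤ 2 / Real.sqrt 3 := by
  have h1 := sqrt3_lo
  have h2 := sqrt3_hi
  constructor
  · rw [div_le_iff₀ (by linarith)]; linarith
  · rw [le_div_iff₀ (by linarith)]; linarith

/-- the vertex of almost regular lines -/
lemma Wclose {θ δ δ' h h' ξ : ℝ} (hξ : ξ ≤ 0.01) (h1 : |δ| ≤ ξ) (h2 : |δ'| ≤ ξ)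
    (h3 : |h - 1| ≤ ξ) (h4 : |h' - 1| ≤ ξ) :
    ‖Wv (ev (θ + δ)) (ev (θ + Real.pi / 3 + δ')) h h' - (2 / Real.sqrt 3) •
      ev (θ + Real.pi / 6)‖ ≤ 6 * ξ := by
  have hp1 := Real.pi_gt_d4
  have hp2 := Real.pi_lt_d4
  have ha := two_div_sqrt3_bd
  have hξ0 : 0 ≤ ξ := (abs_nonneg _).trans h1
  have habs1 := abs_le.1 h1
  have habs2 := abs_le.1 h2
  set n := ev (θ + δ) with hn
  set n' := ev (θ + Real.pi / 3 + δ') with hn'
  have hcrs : crs n n' = Real.sin (Real.pi / 3 + (δ' - δ)) := by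
    rw [hn, hn', crs_ev]; congr 1; ring
  have hs : 0.8 ≤ crs n n' := by
    rw [hcrs]
    have e1 : Real.sin (Real.pi / 3 + (δ' - δ)) = Real.cos (Real.pi / 6 - (δ' - δ)) := by
      rw [← Real.cos_pi_div_two_sub]; congr 1; ring
    rw [e1]
    have e2 := Real.one_sub_sq_div_two_le_cos (x := Real.pi / 6 - (δ' - δ))
    have e3 : (Real.pi / 6 - (δ' - δ)) ^ 2 ≤ 0.55 ^ 2 := by
      apply sq_le_sq' <;> linarith
    norm_num at e3
    linarith
  set W := Wv n n' h h' with hW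
  have hd1 : dot W n = h := dot_Wv_left (norm_ev _) _ _
  have hd2 : dot W n' = h' := dot_Wv_right (by linarith) _ _
  have hcos6 : Real.cos (Real.pi / 6) = Real.sqrt 3 / 2 := Real.cos_pi_div_six
  have hlip : ∀ x y : ℝ, |Real.cos x - Real.cos y| ≤ |x - y| := by
    intro x y
    have := norm_ev_sub x y
    have h5 : |(ev x - ev y).re| ≤ ‖ev x - ev y‖ := Complex.abs_re_le_norm _
    exact h5.trans this
  have e1 : |dot (W - (2 / Real.sqrt 3) • ev (θ + Real.pi / 6)) n| ≤ 2.16 * ξ := by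
    rw [dot_sub_left, dot_smul_left, hd1, hn, dot_ev]
    have e2 : h - 2 / Real.sqrt 3 * Real.cos (θ + δ - (θ + Real.pi / 6)) =
        (h - 1) - 2 / Real.sqrt 3 * (Real.cos (θ + δ - (θ + Real.pi / 6)) -
          Real.cos (-(Real.pi / 6))) := by
      rw [Real.cos_neg, hcos6, mul_sub, two_div_sqrt3]; ring
    rw [e2]
    have e3 := hlip (θ + δ - (θ + Real.pi / 6)) (-(Real.pi / 6))
    have e4 : θ + δ - (θ + Real.pi / 6) - -(Real.pi / 6) = δ := by ring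
    rw [e4] at e3
    calc |(h - 1) - 2 / Real.sqrt 3 * (Real.cos (θ + δ - (θ + Real.pi / 6)) -
          Real.cos (-(Real.pi / 6)))| ≤ |h - 1| + |2 / Real.sqrt 3 *
          (Real.cos (θ + δ - (θ + Real.pi / 6)) - Real.cos (-(Real.pi / 6)))| := abs_sub _ _
      _ ≤ ξ + 1.155 * ξ := by
          apply add_le_add h3
          rw [abs_mul, abs_of_pos (by positivity)]
          exact mul_le_mul ha.1 (e3.trans h1) (abs_nonneg _) (by norm_num)
      _ ≤ 2.16 * ξ := by linarith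
  have e1' : |dot (W - (2 / Real.sqrt 3) • ev (θ + Real.pi / 6)) n'| ≤ 2.16 * ξ := by
    rw [dot_sub_left, dot_smul_left, hd2, hn', dot_ev]
    have e2 : h' - 2 / Real.sqrt 3 * Real.cos (θ + Real.pi / 3 + δ' - (θ + Real.pi / 6)) =
        (h' - 1) - 2 / Real.sqrt 3 * (Real.cos (θ + Real.pi / 3 + δ' - (θ + Real.pi / 6)) -
          Real.cos (Real.pi / 6)) := by
      rw [hcos6, mul_sub, two_div_sqrt3]; ring
    rw [e2]
    have e3 := hlip (θ + Real.pi / 3 + δ' - (θ + Real.pi / 6)) (Real.pi / 6)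
    have e4 : θ + Real.pi / 3 + δ' - (θ + Real.pi / 6) - (Real.pi / 6) = δ' := by ring
    rw [e4] at e3
    calc |(h' - 1) - 2 / Real.sqrt 3 * (Real.cos (θ + Real.pi / 3 + δ' - (θ + Real.pi / 6)) -
          Real.cos (Real.pi / 6))| ≤ |h' - 1| + |2 / Real.sqrt 3 *
          (Real.cos (θ + Real.pi / 3 + δ' - (θ + Real.pi / 6)) - Real.cos (Real.pi / 6))| :=
          abs_sub _ _
      _ ≤ ξ + 1.155 * ξ := by
          apply add_le_add h4
          rw [abs_mul, abs_of_pos (by positivity)]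
          exact mul_le_mul ha.1 (e3.trans h2) (abs_nonneg _) (by norm_num)
      _ ≤ 2.16 * ξ := by linarith
  have e5 := norm_le_of_dots (W - (2 / Real.sqrt 3) • ev (θ + Real.pi / 6)) n n' (norm_ev _)
    (norm_ev _)
  rw [abs_of_pos (by linarith)] at e5
  have e6 : 0.8 * ‖W - (2 / Real.sqrt 3) • ev (θ + Real.pi / 6)‖ ≤
      crs n n' * ‖W - (2 / Real.sqrt 3) • ev (θ + Real.pi / 6)‖ :=
    mul_le_mul_of_nonneg_right hs (norm_nonneg _)
  linarith

/-- growth of the support function -/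
lemma g_lower {σ δ : ℝ} (hσ0 : 0 < σ) (hσ : σ ≤ 0.001) (hδ : |δ| ≤ σ / 2) :
    1 + σ / 8 * |δ| ≤ Real.cos δ + 2 / 5 * σ * |Real.sin δ| := by
  have h1 := Real.one_sub_sq_div_two_le_cos (x := δ)
  have h2 : 0.99 * |δ| ≤ |Real.sin δ| := by
    have e1 : |Real.sin δ| = Real.sin |δ| := by
      rcases abs_cases δ with ⟨h, h'⟩ | ⟨h, h'⟩
      · rw [h, abs_of_nonneg]
        exact Real.sin_nonneg_of_nonneg_of_le_pi h' (by
          have := Real.pi_gt_three; rw [h] at hδ; linarith)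
      · rw [h, Real.sin_neg, abs_of_nonpos]
        exact Real.sin_nonpos_of_nonpos_of_neg_pi_le h'.le (by
          have := Real.pi_gt_three; rw [h] at hδ; linarith)
    rw [e1]
    rcases (abs_nonneg δ).eq_or_lt with h0 | h0
    · rw [← h0]; simp
    · have e2 := Real.sin_gt_sub_cube h0
      have e3 : |δ| ^ 3 ≤ 0.01 * |δ| := by
        have : |δ| ^ 2 ≤ 0.01 := by nlinarith
        calc |δ| ^ 3 = |δ| ^ 2 * |δ| := by ring
          _ ≤ 0.01 * |δ| := mul_le_mul_of_nonneg_right this h0.le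
      linarith
  have h3 : δ ^ 2 ≤ σ / 2 * |δ| := by
    rw [← sq_abs]
    nlinarith [abs_nonneg δ]
  have h4 : 2 / 5 * σ * (0.99 * |δ|) ≤ 2 / 5 * σ * |Real.sin δ| :=
    mul_le_mul_of_nonneg_left h2 (by positivity)
  nlinarith [mul_nonneg hσ0.le (abs_nonneg δ)]

lemma exists_round {σ : ℝ} (hσ : 0 < σ) (x : ℝ) : ∃ k : ℤ, |x - k * σ| ≤ σ / 2 := by
  refine ⟨round (x / σ), ?_⟩
  have h := abs_sub_round (x / σ)
  have h2 : x - round (x / σ) * σ = (x / σ - round (x / σ)) * σ := by field_simp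
  rw [h2, abs_mul, abs_of_pos hσ]
  nlinarith

namespace BodyHyp

variable {M : ℕ} {σ ρ d : ℝ} {V : Fin M → Fin 6 → ℂ} {K : Set ℂ}

lemma Mpos (B : BodyHyp M σ ρ d V K) : 0 < M := by have := B.hM; omega

lemma σpos (B : BodyHyp M σ ρ d V K) : 0 < σ := by
  have h1 := B.hσ
  have h2 : (0:ℝ) < M := by exact_mod_cast B.Mpos
  have h3 := Real.pi_pos
  by_contra hc
  push Not at hc
  nlinarith

lemma σ_le (B : BodyHyp M σ ρ d V K) : σ ≤ 0.00011 := by
  have h1 := B.hσ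
  have h2 : (10000:ℝ) ≤ M := by exact_mod_cast B.hM
  have h3 := Real.pi_lt_d4
  have h4 := B.σpos
  nlinarith

lemma ρ_bd (B : BodyHyp M σ ρ d V K) : 0.34 * σ ≤ ρ ∧ ρ ≤ 0.35 * σ := by
  have h1 := sqrt3_lo
  have h2 := sqrt3_hi
  have h4 := B.σpos
  rw [B.hρ]
  constructor <;> nlinarith

lemma d_le (B : BodyHyp M σ ρ d V K) : d ≤ 1e-6 := by
  have h1 := B.hd
  have h2 := B.σ_le
  have h3 := B.σpos
  nlinarith

lemma V_close (B : BodyHyp M σ ρ d V K) (t : Fin M) (k : ℤ) :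
    ‖V t (fk k) - (2 / Real.sqrt 3) • ev ((t : ℕ) * σ + k * (Real.pi / 3) - Real.pi / 6)‖ ≤ d := by
  have h1 := B.hV t (fk k)
  have h2 : (k : ℝ) = ((fk k : ℕ) : ℝ) + 6 * ((k / 6 : ℤ) : ℝ) := by
    have h3 := fk_val k
    have h4 : k = k % 6 + 6 * (k / 6) := (Int.emod_add_mul_ediv k 6).symm
    rw [← h3] at h4
    have h5 : (k : ℝ) = (((fk k : ℕ) : ℤ) + 6 * (k / 6) : ℤ) := by
      exact_mod_cast h4
    rw [h5]
    push_cast
    ring
  have h3 : ev ((t : ℕ) * σ + k * (Real.pi / 3) - Real.pi / 6) =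
      ev ((t : ℕ) * σ + (fk k : ℕ) * (Real.pi / 3) - Real.pi / 6) := by
    rw [← ev_add_int ((t : ℕ) * σ + (fk k : ℕ) * (Real.pi / 3) - Real.pi / 6) (k / 6)]
    congr 1
    rw [h2]
    ring
  rw [h3]
  exact h1

/-- decomposition of a multiple of σ -/
lemma split (B : BodyHyp M σ ρ d V K) (k : ℤ) : ∃ (t : Fin M) (q : ℤ),
    k = (t : ℕ) + M * q ∧ (k : ℝ) * σ = (t : ℕ) * σ + q * (Real.pi / 3) := by
  have hM := B.Mpos
  have h0 : 0 ≤ k % M := Int.emod_nonneg _ (by omega)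
  have h1 : k % M < M := Int.emod_lt_of_pos _ (by omega)
  refine ⟨⟨(k % M).toNat, by omega⟩, k / M, ?_, ?_⟩
  · simp only
    rw [Int.toNat_of_nonneg h0]
    exact (Int.emod_add_mul_ediv k M).symm
  · simp only
    have h2 : (k : ℝ) = ((k % M).toNat : ℝ) + M * ((k / M : ℤ) : ℝ) := by
      have h3 : k = ((k % M).toNat : ℤ) + M * (k / M) := by
        rw [Int.toNat_of_nonneg h0]
        exact (Int.emod_add_mul_ediv k M).symm
      exact_mod_cast h3
    rw [h2, ← B.hσ]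
    ring

/-- lower bound of the support function of the body -/
lemma support (B : BodyHyp M σ ρ d V K) (φ : ℝ) (k : ℤ) :
    ∃ x ∈ K, Real.cos (φ - k * σ) + 2 / 5 * σ * |Real.sin (φ - k * σ)| - d ≤ dot x (ev φ) := by
  obtain ⟨t, q, -, hk⟩ := B.split k
  set θ := (k : ℝ) * σ with hθ
  have hρb := B.ρ_bd
  have hσp := B.σpos
  have hσl := B.σ_le
  have c1 := B.V_close t q
  have c2 := B.V_close t (q + 1)
  rw [fk_add_one] at c2
  have e1 : (t : ℕ) * σ + (q : ℝ) * (Real.pi / 3) - Real.pi / 6 = θ - Real.pi / 6 := by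
    rw [hk]
  have e2 : (t : ℕ) * σ + ((q + 1 : ℤ) : ℝ) * (Real.pi / 3) - Real.pi / 6 = θ + Real.pi / 6 := by
    rw [hk]; push_cast; ring
  rw [e1] at c1
  rw [e2] at c2
  set V1 := V t (fk q)
  set V2 := V t (fk q + 1)
  have d1 : 2 / Real.sqrt 3 * Real.cos (φ - θ + Real.pi / 6) - d ≤ dot V1 (ev φ) := by
    have g1 := abs_dot_le (V1 - (2 / Real.sqrt 3) • ev (θ - Real.pi / 6)) (ev φ)
    rw [norm_ev, mul_one, dot_sub_left, dot_smul_left, dot_ev] at g1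
    have g2 := (abs_le.1 (g1.trans c1)).1
    have g3 : φ - (θ - Real.pi / 6) = φ - θ + Real.pi / 6 := by ring
    rw [g3] at g2
    linarith
  have d2 : 2 / Real.sqrt 3 * Real.cos (φ - θ - Real.pi / 6) - d ≤ dot V2 (ev φ) := by
    have g1 := abs_dot_le (V2 - (2 / Real.sqrt 3) • ev (θ + Real.pi / 6)) (ev φ)
    rw [norm_ev, mul_one, dot_sub_left, dot_smul_left, dot_ev] at g1
    have g2 := (abs_le.1 (g1.trans c2)).1
    have g3 : φ - (θ + Real.pi / 6) = φ - θ - Real.pi / 6 := by ring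
    rw [g3] at g2
    linarith
  have hs3 := two_div_sqrt3
  have hs3' : (2 / Real.sqrt 3) * (Real.sqrt 3 / 5) = 2 / 5 := by
    have : Real.sqrt 3 ≠ 0 := by positivity
    field_simp
  have key : ∀ τ : ℝ, |τ| ≤ 1 / 2 → 2 / Real.sqrt 3 * τ * Real.sin (φ - θ) +
      Real.cos (φ - θ) - d ≤ dot (V1 + (1 / 2 + τ) • (V2 - V1)) (ev φ) := by
    intro τ hτ
    rw [abs_le] at hτ
    rw [dot_add_left, dot_smul_left, dot_sub_left]
    rw [Real.cos_add, Real.cos_pi_div_six, Real.sin_pi_div_six] at d1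
    rw [Real.cos_sub, Real.cos_pi_div_six, Real.sin_pi_div_six] at d2
    have f1 := mul_le_mul_of_nonneg_left d1 (by linarith : 0 ≤ 1 / 2 - τ)
    have f2 := mul_le_mul_of_nonneg_left d2 (by linarith : 0 ≤ 1 / 2 + τ)
    have f3 : (1 / 2 - τ) * (2 / Real.sqrt 3 * (Real.cos (φ - θ) * (Real.sqrt 3 / 2) -
        Real.sin (φ - θ) * (1 / 2)) - d) + (1 / 2 + τ) * (2 / Real.sqrt 3 *
        (Real.cos (φ - θ) * (Real.sqrt 3 / 2) + Real.sin (φ - θ) * (1 / 2)) - d) =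
        2 / Real.sqrt 3 * τ * Real.sin (φ - θ) + Real.cos (φ - θ) - d := by
      linear_combination Real.cos (φ - θ) * hs3
    linarith
  rcases le_total 0 (Real.sin (φ - θ)) with hs | hs
  · refine ⟨V1 + (1 / 2 + ρ) • (V2 - V1), B.hP1 t (fk q), ?_⟩
    refine le_trans (le_of_eq ?_) (key ρ (by rw [abs_le]; constructor <;> nlinarith))
    rw [abs_of_nonneg hs, B.hρ]
    linear_combination (-σ * Real.sin (φ - θ)) * hs3'
  · refine ⟨V1 + (1 / 2 - ρ) • (V2 - V1), B.hP2 t (fk q), ?_⟩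
    have := key (-ρ) (by rw [abs_le]; constructor <;> nlinarith)
    rw [← sub_eq_add_neg] at this
    refine le_trans (le_of_eq ?_) this
    rw [abs_of_nonpos hs, B.hρ]
    linear_combination (σ * Real.sin (φ - θ)) * hs3'

end BodyHyp

end Pool.Agent.Y370.Q
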