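import Pool.Agent.Y370.Q10

set_option autoImplicit false

namespace Pool.Agent.Y370.Q

open MeasureTheory Complex

namespace BodyHyp

variable {M : ℕ} {σ ρ d : ℝ} {V : Fin M → Fin 6 → ℂ} {K : Set ℂ}

lemma eta_lower (B : BodyHyp M σ ρ d V K) {ι : Type*} {ν : ι → ℂ} {η : ι → ℝ}
    (hK : ∀ j, ∀ x ∈ K, dot x (ν j) ≤ η j) (j : ι) (φ : ℝ) (hφ : ν j = ev φ) (k : ℤ)
    (hk : |φ - k * σ| ≤ σ / 2) : 1 + σ / 8 * |φ - k * σ| - d ≤ η j := by
  obtain ⟨x, hx, h⟩ := B.support φ k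
  have h1 := hK j x hx
  rw [hφ] at h1
  have h2 := g_lower B.σpos (by have := B.σ_le; linarith) hk
  linarith

lemma eta_lower' (B : BodyHyp M σ ρ d V K) {ι : Type*} {ν : ι → ℂ} {η : ι → ℝ}
    (hν : ∀ j, ‖ν j‖ = 1) (hK : ∀ j, ∀ x ∈ K, dot x (ν j) ≤ η j) (j : ι) : 1 - d ≤ η j := by
  obtain ⟨k, hk⟩ := exists_round B.σpos (arg (ν j))
  have h1 := B.eta_lower hK j _ (eq_ev_arg (hν j)) k hk
  have h2 : 0 ≤ σ / 8 * |arg (ν j) - k * σ| := by
    have := B.σpos
    positivity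
  linarith

/-- side vectors of the hexagons -/
lemma side_close (B : BodyHyp M σ ρ d V K) (t : Fin M) (k : ℤ) :
    ‖(V t (fk k + 1) - V t (fk k)) - (2 / Real.sqrt 3) •
      ev ((t : ℕ) * σ + k * (Real.pi / 3) + Real.pi / 2)‖ ≤ 2 * d := by
  have c1 := B.V_close t k
  have c2 := B.V_close t (k + 1)
  rw [fk_add_one] at c2
  set x := (t : ℕ) * σ + (k : ℝ) * (Real.pi / 3) with hx
  have e2 : (t : ℕ) * σ + ((k + 1 : ℤ) : ℝ) * (Real.pi / 3) - Real.pi / 6 = x + Real.pi / 6 := by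
    rw [hx]; push_cast; ring
  rw [e2] at c2
  have e3 : ev (x + Real.pi / 2) = ev (x + Real.pi / 6) - ev (x - Real.pi / 6) := by
    apply Complex.ext
    · simp only [ev, sub_re, Real.cos_add, Real.cos_sub, Real.cos_pi_div_six,
        Real.sin_pi_div_six, Real.cos_pi_div_two, Real.sin_pi_div_two]
      ring
    · simp only [ev, sub_im, Real.sin_add, Real.sin_sub, Real.cos_pi_div_six,
        Real.sin_pi_div_six, Real.cos_pi_div_two, Real.sin_pi_div_two]
      ring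
  rw [e3]
  have e4 : (V t (fk k + 1) - V t (fk k)) - (2 / Real.sqrt 3) •
      (ev (x + Real.pi / 6) - ev (x - Real.pi / 6)) =
      (V t (fk k + 1) - (2 / Real.sqrt 3) • ev (x + Real.pi / 6)) -
      (V t (fk k) - (2 / Real.sqrt 3) • ev (x - Real.pi / 6)) := by
    rw [smul_sub]; ring
  rw [e4]
  refine (norm_sub_le _ _).trans ?_
  linarith

lemma side_norm (B : BodyHyp M σ ρ d V K) (t : Fin M) (k : ℤ) :
    ‖V t (fk k + 1) - V t (fk k)‖ ≤ 1.156 := by
  have h1 := B.side_close t k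
  have h2 := B.d_le
  have h3 := two_div_sqrt3_bd
  set e := (2 / Real.sqrt 3) • ev ((t : ℕ) * σ + k * (Real.pi / 3) + Real.pi / 2)
  have h4 : ‖e‖ = 2 / Real.sqrt 3 := by
    rw [norm_smul, norm_ev, mul_one, Real.norm_eq_abs, abs_of_pos (by positivity)]
  calc ‖V t (fk k + 1) - V t (fk k)‖ = ‖((V t (fk k + 1) - V t (fk k)) - e) + e‖ := by
        congr 1; ring
    _ ≤ ‖(V t (fk k + 1) - V t (fk k)) - e‖ + ‖e‖ := norm_add_le _ _
    _ ≤ 1.156 := by rw [h4]; linarith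

lemma side_crs (B : BodyHyp M σ ρ d V K) (t : Fin M) (k : ℤ) :
    1.15 ≤ crs (V t (fk k + 1) - V t (fk k)) (V t (fk k + 1 + 1) - V t (fk k + 1)) := by
  have h1 := B.side_close t k
  have h1' := B.side_close t (k + 1)
  rw [fk_add_one] at h1'
  have h2 := B.d_le
  have h20 := B.hd0
  have h3 := two_div_sqrt3_bd
  have h5 := B.side_norm t (k + 1)
  rw [fk_add_one] at h5
  set E := V t (fk k + 1) - V t (fk k)
  set E' := V t (fk k + 1 + 1) - V t (fk k + 1)
  set e := (2 / Real.sqrt 3) • ev ((t : ℕ) * σ + k * (Real.pi / 3) + Real.pi / 2) with he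
  set e' := (2 / Real.sqrt 3) • ev ((t : ℕ) * σ + ((k + 1 : ℤ) : ℝ) * (Real.pi / 3) +
    Real.pi / 2) with he'
  have h4 : crs e e' = 2 / Real.sqrt 3 := by
    rw [he, he', crs_smul_left, crs_smul_right, crs_ev]
    have e1 : (t : ℕ) * σ + ((k + 1 : ℤ) : ℝ) * (Real.pi / 3) + Real.pi / 2 -
        ((t : ℕ) * σ + k * (Real.pi / 3) + Real.pi / 2) = Real.pi / 3 := by push_cast; ring
    rw [e1, Real.sin_pi_div_three, two_div_sqrt3, mul_one]
  have h6 : crs E E' = crs e e' + crs (E - e) E' + crs e (E' - e') := by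
    rw [crs_sub_left E e E', crs_sub_right e E' e']; ring
  have h7 := abs_crs_le (E - e) E'
  have h8 := abs_crs_le e (E' - e')
  have h9 : ‖e‖ = 2 / Real.sqrt 3 := by
    rw [he, norm_smul, norm_ev, mul_one, Real.norm_eq_abs, abs_of_pos (by positivity)]
  have h10 : ‖E - e‖ * ‖E'‖ ≤ 2 * d * 1.156 :=
    mul_le_mul h1 h5 (norm_nonneg _) (by positivity)
  have h11 : ‖e‖ * ‖E' - e'‖ ≤ 1.155 * (2 * d) := by
    rw [h9]; exact mul_le_mul h3.1 h1' (norm_nonneg _) (by norm_num)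
  rw [h6, h4]
  have h12 := (abs_le.1 (h7.trans h10)).1
  have h13 := (abs_le.1 (h8.trans h11)).1
  linarith

end BodyHyp

/-- the local theorem -/
theorem local_main {M : ℕ} {σ ρ d : ℝ} {V : Fin M → Fin 6 → ℂ} {K : Set ℂ}
    (B : BodyHyp M σ ρ d V K) {ι : Type*} {c ν : ι → ℂ} {η : ι → ℝ} (H : NbHyp c ν η)
    (hK : ∀ j, ∀ x ∈ K, dot x (ν j) ≤ η j)
    (hvol : volume (cell ν η) ≤ ENNReal.ofReal (2 * Real.sqrt 3)) :
    ENNReal.ofReal (2 * Real.sqrt 3) ≤ volume (cell ν η) ∧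
    ∃ (t : Fin M) (J : Fin 6 → ι), Function.Injective J ∧
      (∀ κ, dot (V t κ) (ν (J κ)) = η (J κ)) ∧
      (∀ κ, dot (V t (κ + 1)) (ν (J κ)) = η (J κ)) ∧
      (∀ κ, ‖c (J κ) - (2:ℝ) • ev ((t : ℕ) * σ + (κ : ℕ) * (Real.pi / 3))‖ ≤ 0.02) ∧
      (∀ j, ‖c j‖ < 2.8 → ∃ κ, J κ = j) := by
  have hp1 := Real.pi_gt_d4
  have hp2 := Real.pi_lt_d4
  have hσp := B.σpos
  have hσl := B.σ_le
  have hd0 := B.hd0
  have hdl := B.d_le
  have hdd := B.hd
  have hρb := B.ρ_bd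
  obtain ⟨J, φ, γ, hJ, hJν, hsum, hγ1, hγ2, hg1, hg2, hη, hnear⟩ := H.setup hvol
  obtain ⟨hC, hA1, hA2⟩ := H.hexagon hJν hJ hγ1 hγ2 hg1 hg2 hη hnear
  set h : Fin 6 → ℝ := fun κ => η (J κ) with hh
  set W : Fin 6 → ℂ := fun κ => Wv (ev (φ κ)) (ev (φ (κ + 1))) (h κ) (h (κ + 1)) with hW
  change ENNReal.ofReal ((1 / 2) * ∑ κ, crs (W κ) (W (κ + 1))) ≤ volume (cell ν η) at hA1
  change (1 / 2) * ∑ κ, crs (W κ) (W (κ + 1)) =
      ∑ κ, Fk (h κ) (h (κ + 1)) (Real.cos (γ κ)) (Real.sin (γ κ)) at hA2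
  have hgap := gap_formula hg1 hg2
  have hlow : ∀ j, 1 - d ≤ η j := B.eta_lower' H.hν hK
  have hWle : (1 / 2) * ∑ κ, crs (W κ) (W (κ + 1)) ≤ 2 * Real.sqrt 3 := by
    have := hA1.trans hvol
    rwa [ENNReal.ofReal_le_ofReal_iff (by positivity)] at this
  obtain ⟨hup, hgam⟩ := coarse γ h (ζ := d) hd0 (by linarith) hγ1
    (fun κ => by linarith [hγ2 κ]) hsum hC
    (fun κ => cos_gap_lower (by linarith [hγ1 κ]) (hγ2 κ)) (fun κ => hlow (J κ)) hη
    (by rw [← hA2]; exact hWle)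
  -- approximation of the directions
  choose k hk using fun κ => exists_round hσp (φ κ)
  have hδ : ∀ κ, |φ κ - k κ * σ| ≤ 0.0006 * σ := by
    intro κ
    have e1 := B.eta_lower hK (J κ) (φ κ) (hJν κ) (k κ) (hk κ)
    have e2 := hup κ
    change η (J κ) ≤ 1 + 6 * d at e2
    have e3 : σ / 8 * |φ κ - k κ * σ| ≤ 7 * (σ ^ 2 / 100000) := by linarith
    have e4 : σ * |φ κ - k κ * σ| ≤ σ * (0.0006 * σ) := by nlinarith
    exact le_of_mul_le_mul_left e4 hσp
  have hγ3 : ∀ κ, |γ κ - Real.pi / 3| ≤ 0.03 * σ := by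
    intro κ
    apply abs_le_of_sq_le_sq _ (by positivity)
    have := hgam κ
    nlinarith
  have hMσ := B.hσ
  have hstep : ∀ κ : Fin 6, (κ : ℕ) < 5 → k (κ + 1) = k κ + M := by
    intro κ hκ
    have e1 := hg1 κ hκ
    have e2 := abs_le.1 (hδ κ)
    have e3 := abs_le.1 (hδ (κ + 1))
    have e4 := abs_le.1 (hγ3 κ)
    have e5 : ((k (κ + 1) : ℝ) - k κ - M) * σ < 1 * σ := by linarith [e2.1, e3.1, e4.2]
    have e6 : (-1) * σ < ((k (κ + 1) : ℝ) - k κ - M) * σ := by linarith [e2.2, e3.2, e4.1]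
    have e7 := lt_of_mul_lt_mul_right e5 hσp.le
    have e8 := lt_of_mul_lt_mul_right e6 hσp.le
    have e9 : ((k (κ + 1) - k κ - M : ℤ) : ℝ) < ((1 : ℤ) : ℝ) := by push_cast; exact e7
    have e10 : (((-1 : ℤ)) : ℝ) < ((k (κ + 1) - k κ - M : ℤ) : ℝ) := by push_cast; exact e8
    have e11 := Int.cast_lt.1 e9
    have e12 := Int.cast_lt.1 e10
    omega
  have hkκ : ∀ κ : Fin 6, k κ = k 0 + M * (κ : ℕ) := by
    have s0 := hstep 0 (by decide)
    have s1 := hstep 1 (by decide)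
    have s2 := hstep 2 (by decide)
    have s3 := hstep 3 (by decide)
    have s4 := hstep 4 (by decide)
    rw [show (0 : Fin 6) + 1 = 1 from rfl] at s0
    rw [show (1 : Fin 6) + 1 = 2 from rfl] at s1
    rw [show (2 : Fin 6) + 1 = 3 from rfl] at s2
    rw [show (3 : Fin 6) + 1 = 4 from rfl] at s3
    rw [show (4 : Fin 6) + 1 = 5 from rfl] at s4
    intro κ
    fin_cases κ
    · simp
    · change k 1 = k 0 + M * (1 : ℕ); push_cast; linarith
    · change k 2 = k 0 + M * (2 : ℕ); push_cast; linarith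
    · change k 3 = k 0 + M * (3 : ℕ); push_cast; linarith
    · change k 4 = k 0 + M * (4 : ℕ); push_cast; linarith
    · change k 5 = k 0 + M * (5 : ℕ); push_cast; linarith
  obtain ⟨t, q, -, hkt⟩ := B.split (k 0)
  have hθ : ∀ κ : Fin 6, (k κ : ℝ) * σ = (t : ℕ) * σ + ((q + (κ : ℕ) : ℤ) : ℝ) * (Real.pi / 3) := by
    intro κ
    rw [hkκ κ]
    push_cast
    rw [add_mul, hkt]
    linear_combination (κ : ℕ) * hMσ
  set Q := fk q with hQ
  have hidx : ∀ κ : Fin 6, fk (q + (κ : ℕ)) = κ + Q := fun κ => fk_add_nat q κ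
  -- the vertices are close
  have hφ1 : ∀ κ, ev (φ κ) = ev (k κ * σ + (φ κ - k κ * σ)) := fun κ => by congr 1; ring
  have hφ2 : ∀ κ : Fin 6, ev (φ (κ + 1)) =
      ev (k κ * σ + Real.pi / 3 + (φ (κ + 1) - k (κ + 1) * σ)) := by
    intro κ
    by_cases hκ : (κ : ℕ) < 5
    · rw [hstep κ hκ]
      congr 1
      push_cast
      linear_combination hMσ
    · have : κ = 5 := by
        apply Fin.ext
        have := κ.2
        simp only [show ((5 : Fin 6) : ℕ) = 5 from rfl]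
        omega
      subst this
      rw [show (5 : Fin 6) + 1 = 0 from rfl, ← ev_add_int (φ 0) 1]
      congr 1
      have := hkκ 5
      rw [this]
      push_cast
      simp only [show ((5 : Fin 6) : ℕ) = 5 from rfl]
      push_cast
      linear_combination (-5) * hMσ
  have hh1 : ∀ κ, |h κ - 1| ≤ 0.0006 * σ := by
    intro κ
    have e1 := hlow (J κ)
    have e2 := hup κ
    change 1 - d ≤ h κ at e1
    rw [abs_le]
    constructor <;> nlinarith
  have hWV0 : ∀ κ : Fin 6, ‖W κ - (2 / Real.sqrt 3) • ev (k κ * σ + Real.pi / 6)‖ ≤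
      6 * (0.0006 * σ) := by
    intro κ
    simp only [hW]
    rw [hφ2 κ, hφ1 κ]
    exact Wclose (by linarith) (hδ κ) (hδ (κ + 1)) (hh1 κ) (hh1 (κ + 1))
  have hWV : ∀ κ : Fin 6, ‖W κ - V t (κ + (Q + 1))‖ ≤ 0.01 * σ := by
    intro κ
    have e1 := B.V_close t (q + (κ : ℕ) + 1)
    rw [fk_add_one, hidx κ] at e1
    have e2 : (t : ℕ) * σ + ((q + (κ : ℕ) + 1 : ℤ) : ℝ) * (Real.pi / 3) - Real.pi / 6 =
        k κ * σ + Real.pi / 6 := by
      rw [hθ κ]; push_cast; ring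
    rw [e2, add_assoc] at e1
    have e3 : W κ - V t (κ + (Q + 1)) =
        (W κ - (2 / Real.sqrt 3) • ev (k κ * σ + Real.pi / 6)) -
        (V t (κ + (Q + 1)) - (2 / Real.sqrt 3) • ev (k κ * σ + Real.pi / 6)) := by ring
    rw [e3]
    refine (norm_sub_le _ _).trans ?_
    have e4 := hWV0 κ
    nlinarith
  -- application of the fine lemma
  have hcrspos : ∀ κ, 0 < Real.sin (γ κ) := fun κ =>
    Real.sin_pos_of_pos_of_lt_pi (by linarith [hγ1 κ]) (by linarith [hγ2 κ])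
  have hW1 : ∀ κ, dot (W κ) (ev (φ κ)) = h κ := fun κ => dot_Wv_left (norm_ev _) _ _
  have hW2 : ∀ κ, dot (W κ) (ev (φ (κ + 1))) = h (κ + 1) := fun κ =>
    dot_Wv_right (by rw [(hgap κ).2]; exact (hcrspos κ).ne') _ _
  have hside : ∀ κ, ∃ b : ℝ, 0 ≤ b ∧ W (κ + 1) - W κ = b • (I * ev (φ (κ + 1))) := by
    intro κ
    refine ⟨(h (κ + 1 + 1) - h (κ + 1) * dot (ev (φ (κ + 1))) (ev (φ (κ + 1 + 1)))) /
      crs (ev (φ (κ + 1))) (ev (φ (κ + 1 + 1))) +
      (h κ - h (κ + 1) * dot (ev (φ κ)) (ev (φ (κ + 1)))) / crs (ev (φ κ)) (ev (φ (κ + 1))),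
      ?_, ?_⟩
    · rw [(hgap κ).1, (hgap κ).2, (hgap (κ + 1)).1, (hgap (κ + 1)).2]
      have g3 : h κ ≤ 1.04 := hη κ
      have g4 : h (κ + 1) ≤ 1.04 := hη (κ + 1)
      have g4' : h (κ + 1 + 1) ≤ 1.04 := hη (κ + 1 + 1)
      have g5 : 1 - d ≤ h κ := hlow _
      have g6 : 1 - d ≤ h (κ + 1) := hlow _
      have g6' : 1 - d ≤ h (κ + 1 + 1) := hlow _
      have g7 := hC κ
      have g8 := hC (κ + 1)
      have k1 : 0 ≤ h (κ + 1 + 1) - h (κ + 1) * Real.cos (γ (κ + 1)) := by nlinarith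
      have k2 : 0 ≤ h κ - h (κ + 1) * Real.cos (γ κ) := by nlinarith
      have k3 := hcrspos κ
      have k4 := hcrspos (κ + 1)
      positivity
    · have e1 : W κ = _ := Wv_alt (norm_ev (φ κ)) (norm_ev (φ (κ + 1)))
        (by rw [(hgap κ).2]; exact (hcrspos κ).ne') (h κ) (h (κ + 1))
      rw [e1]
      simp only [hW, Wv]
      module
  have hpt : ∀ κ P, P ∈ K → 0 ≤ crs (W (κ + 1) - W κ) (P - W κ) := by
    intro κ P hP
    obtain ⟨b, hb, hb2⟩ := hside κ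
    rw [hb2, crs_smul_left]
    apply mul_nonneg hb
    have e1 : crs (I * ev (φ (κ + 1))) (P - W κ) = - dot (ev (φ (κ + 1))) (P - W κ) := by
      simp only [crs, dot, mul_re, mul_im, I_re, I_im]; ring
    rw [e1, dot_comm, dot_sub_left, hW2]
    have e2 := hK (J (κ + 1)) P hP
    rw [hJν] at e2
    change _ ≤ h (κ + 1) at e2
    linarith
  have hfine := fine (fun κ => V t (κ + (Q + 1))) W (ρ := ρ) (η := 0.01 * σ) (by linarith)
    (by linarith) (by linarith) ?_ ?_ ?_ ?_ hWV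
  · have hareaV : ∑ κ : Fin 6, crs (V t (κ + (Q + 1))) (V t (κ + 1 + (Q + 1))) =
        4 * Real.sqrt 3 := by
      rw [← B.harea t]
      have e1 : ∀ κ : Fin 6, κ + 1 + (Q + 1) = κ + (Q + 1) + 1 := by
        intro κ; rw [add_right_comm]
      simp only [e1]
      exact Equiv.sum_comp (Equiv.addRight (Q + 1)) (fun κ => crs (V t κ) (V t (κ + 1)))
    obtain ⟨f1, f2⟩ := hfine
    rw [hareaV] at f1 f2
    have hWVeq : W = fun κ => V t (κ + (Q + 1)) := f2 (by linarith)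
    refine ⟨?_, t, fun κ => J (κ - Q), ?_, ?_, ?_, ?_, ?_⟩
    · refine le_trans ?_ hA1
      apply ENNReal.ofReal_le_ofReal
      linarith
    · intro a b hab
      have := hJ hab
      exact sub_left_injective this
    · intro κ
      have e1 := hW2 (κ - Q - 1)
      rw [hWVeq] at e1
      simp only at e1
      rw [show κ - Q - 1 + (Q + 1) = κ by abel, show κ - Q - 1 + 1 = κ - Q by abel] at e1
      rw [hJν]
      exact e1
    · intro κ
      have e1 := hW1 (κ - Q)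
      rw [hWVeq] at e1
      simp only at e1
      rw [show κ - Q + (Q + 1) = κ + 1 by abel] at e1
      rw [hJν]
      exact e1
    · intro κ
      -- direction of the centre
      set κ' := κ - Q with hκ'
      have e1 : ‖c (J κ') - ‖c (J κ')‖ • ν (J κ')‖ ≤ 0.0041 := H.normal_close _
      have e2 : |‖c (J κ')‖ - 2| ≤ 0.0001 := by
        have g1 := H.norm_ge (J κ')
        have g2 := hup κ'
        change η (J κ') ≤ _ at g2
        rw [abs_le]
        constructor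
        · linarith
        · by_contra hcon
          push Not at hcon
          have := (H.hfar (J κ') (by linarith)).2
          linarith
      have e3 : ev ((t : ℕ) * σ + (κ : ℕ) * (Real.pi / 3)) = ev (k κ' * σ) := by
        have g1 := fk_val (q + (κ' : ℕ))
        rw [hidx κ', show κ' + Q = κ by rw [hκ']; abel] at g1
        rw [hθ κ']
        have g2 := Int.emod_add_mul_ediv (q + (κ' : ℕ)) 6
        rw [← g1] at g2
        rw [← ev_add_int ((t : ℕ) * σ + (κ : ℕ) * (Real.pi / 3)) ((q + (κ' : ℕ)) / 6)]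
        congr 1
        have g3 : ((q + (κ' : ℕ) : ℤ) : ℝ) = (κ : ℕ) + 6 * (((q + (κ' : ℕ)) / 6 : ℤ) : ℝ) := by
          have g4 : (q + (κ' : ℕ) : ℤ) = (κ : ℕ) + 6 * ((q + (κ' : ℕ)) / 6) := g2.symm
          exact_mod_cast congrArg (Int.cast : ℤ → ℝ) g4
        rw [g3]
        ring
      rw [e3]
      have e4 : ‖ν (J κ') - ev (k κ' * σ)‖ ≤ 0.0001 := by
        rw [hJν]
        refine (norm_ev_sub _ _).trans ((hδ κ').trans ?_)
        linarith
      have e5 : c (J κ') - (2:ℝ) • ev (k κ' * σ) = (c (J κ') - ‖c (J κ')‖ • ν (J κ')) +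
          (‖c (J κ')‖ - 2) • ν (J κ') + (2:ℝ) • (ν (J κ') - ev (k κ' * σ)) := by
        module
      rw [e5]
      refine (norm_add₃_le).trans ?_
      rw [norm_smul, norm_smul, H.hν, mul_one, Real.norm_eq_abs, Real.norm_eq_abs, abs_two]
      linarith
    · intro j hj
      obtain ⟨κ, rfl⟩ := hnear j hj
      exact ⟨κ + Q, by simp⟩
  · intro κ
    have e1 := B.side_norm t (q + (κ : ℕ) + 1)
    rw [fk_add_one, hidx κ] at e1
    rw [show κ + 1 + (Q + 1) = κ + Q + 1 + 1 by abel, show κ + (Q + 1) = κ + Q + 1 by abel]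
    linarith
  · intro κ
    have e1 := B.side_crs t (q + (κ : ℕ) + 1)
    rw [fk_add_one, hidx κ] at e1
    rw [show κ + 1 + 1 + (Q + 1) = κ + Q + 1 + 1 + 1 by abel,
      show κ + 1 + (Q + 1) = κ + Q + 1 + 1 by abel, show κ + (Q + 1) = κ + Q + 1 by abel]
    linarith
  · intro κ
    have e1 := hpt κ _ (B.hP1 t (κ + (Q + 1)))
    rw [show κ + 1 + (Q + 1) = κ + (Q + 1) + 1 by abel]
    exact e1
  · intro κ
    have e1 := hpt κ _ (B.hP2 t (κ + (Q + 1)))
    rw [show κ + 1 + (Q + 1) = κ + (Q + 1) + 1 by abel]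
    exact e1

end Pool.Agent.Y370.Q
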