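import Pool.Agent.Y370.Q0

set_option autoImplicit false

namespace Pool.Agent.Y370.Q

open MeasureTheory Complex

/-- the trapezoid region a < x ≤ b, |y| < p - q x -/
def trap (a b p q : ℝ) : Set ℂ := {z | a < z.re ∧ z.re ≤ b ∧ |z.im| < p - q * z.re}

lemma volume_trap {a b p q : ℝ} (hab : a ≤ b) (hq : 0 ≤ q) (hp : 0 ≤ p - q * b) :
    volume (trap a b p q) = ENNReal.ofReal ((b - a) * (2 * p - q * (a + b))) := by
  have h1 : trap a b p q = measurableEquivRealProd ⁻¹'
      (regionBetween (fun x => -(p - q * x)) (fun x => p - q * x) (Set.Ioc a b)) := by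
    ext z
    simp only [trap, Set.mem_ofPred_eq, Set.mem_preimage, regionBetween,
      measurableEquivRealProd_apply, Set.mem_Ioo, Set.mem_Ioc, abs_lt]
    tauto
  rw [h1, volume_preserving_equiv_real_prod.measure_preimage_equiv]
  rw [Measure.volume_eq_prod, volume_regionBetween_eq_integral]
  · congr 1
    rw [← intervalIntegral.integral_of_le hab]
    have h2 : ∫ (x : ℝ) in a..b, (2 * p - 2 * q * x) = (b - a) * (2 * p - q * (a + b)) := by
      rw [intervalIntegral.integral_sub (by simp) (by
        apply Continuous.intervalIntegrable; fun_prop)]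
      rw [intervalIntegral.integral_const_mul (2 * q), integral_id,
        intervalIntegral.integral_const]
      simp only [smul_eq_mul]
      ring
    rw [← h2]
    apply intervalIntegral.integral_congr
    intro x _
    simp
    ring
  · apply (Continuous.integrableOn_Icc (a := a) (b := b) (by fun_prop)).mono_set
    exact Set.Ioc_subset_Icc_self
  · apply (Continuous.integrableOn_Icc (a := a) (b := b) (by fun_prop)).mono_set
    exact Set.Ioc_subset_Icc_self
  · exact measurableSet_Ioc
  · intro x hx
    simp only [Set.mem_Ioc] at hx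
    nlinarith [hx.2]

/-- circular segment -/
def cap (ρ h : ℝ) (n : ℂ) : Set ℂ := {z | ‖z‖ < ρ ∧ h < dot z n}

lemma cap_eq (ρ h : ℝ) {n : ℂ} (hn : ‖n‖ = 1) :
    cap ρ h n = lmap n (I * n) '' {z : ℂ | ‖z‖ < ρ ∧ h < z.re} := by
  have hn2 : n.re * n.re + n.im * n.im = 1 := by
    have := dot_self n
    rw [hn] at this
    simpa [dot] using this
  ext z
  constructor
  · rintro ⟨h1, h2⟩
    refine ⟨⟨dot z n, crs n z⟩, ⟨?_, h2⟩, ?_⟩
    · have : ‖(⟨dot z n, crs n z⟩ : ℂ)‖ ^ 2 = ‖z‖ ^ 2 := by
        rw [← dot_self, ← dot_self]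
        simp only [dot, crs]
        linear_combination (z.re * z.re + z.im * z.im) * hn2
      have h3 : ‖(⟨dot z n, crs n z⟩ : ℂ)‖ = ‖z‖ := by
        rwa [sq_eq_sq₀ (norm_nonneg _) (norm_nonneg _)] at this
      rw [h3]
      exact h1
    · apply Complex.ext
      · simp only [lmap_apply, dot, crs, real_smul, add_re, mul_re, ofReal_re, ofReal_im, I_re,
          I_im, mul_im]
        linear_combination (z.re) * hn2
      · simp only [lmap_apply, dot, crs, real_smul, add_im, mul_re, ofReal_re, ofReal_im, I_re,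
          I_im, mul_im]
        linear_combination (z.im) * hn2
  · rintro ⟨w, ⟨h1, h2⟩, rfl⟩
    refine ⟨?_, ?_⟩
    · have : ‖lmap n (I * n) w‖ ^ 2 = ‖w‖ ^ 2 := by
        rw [← dot_self, ← dot_self]
        simp only [lmap_apply, dot, real_smul, add_re, add_im, mul_re, mul_im, ofReal_re,
          ofReal_im, I_re, I_im]
        linear_combination (w.re * w.re + w.im * w.im) * hn2
      have h3 : ‖lmap n (I * n) w‖ = ‖w‖ := by
        rwa [sq_eq_sq₀ (norm_nonneg _) (norm_nonneg _)] at this
      rw [h3]
      exact h1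
    · have : dot (lmap n (I * n) w) n = w.re := by
        simp only [lmap_apply, dot, real_smul, add_re, add_im, mul_re, mul_im, ofReal_re,
          ofReal_im, I_re, I_im]
        linear_combination w.re * hn2
      rw [this]
      exact h2

lemma volume_cap (ρ h : ℝ) {n : ℂ} (hn : ‖n‖ = 1) :
    volume (cap ρ h n) = volume {z : ℂ | ‖z‖ < ρ ∧ h < z.re} := by
  rw [cap_eq ρ h hn, Measure.addHaar_image_linearMap, det_lmap]
  have hn2 : n.re * n.re + n.im * n.im = 1 := by
    have := dot_self n
    rw [hn] at this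
    simpa [dot] using this
  have : crs n (I * n) = 1 := by
    simp only [crs, mul_re, mul_im, I_re, I_im]
    linear_combination hn2
  rw [this]
  simp

lemma cap_sub {c s : ℝ} (hs : 0 < s) (hcs : c ^ 2 + s ^ 2 = 1) {z : ℂ} {ρ : ℝ} (hz : ‖z‖ < ρ) :
    |z.im| < ρ / s - c / s * z.re := by
  have h1 : c * z.re + s * |z.im| ≤ ‖z‖ := by
    apply le_of_sq_le_sq _ (norm_nonneg _)
    rw [← dot_self]
    simp only [dot]
    have e1 := sq_abs z.im
    have e2 : (c * z.re + s * |z.im|) ^ 2 = (c ^ 2 + s ^ 2) * (z.re ^ 2 + |z.im| ^ 2) -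
        (c * |z.im| - s * z.re) ^ 2 := by ring
    rw [e2, hcs, e1]
    nlinarith [sq_nonneg (c * |z.im| - s * z.re)]
  have h2 : s * |z.im| < ρ - c * z.re := by linarith
  have h3 : |z.im| < (ρ - c * z.re) / s := by
    rw [lt_div_iff₀ hs]; linarith
  calc |z.im| < (ρ - c * z.re) / s := h3
    _ = ρ / s - c / s * z.re := by ring

/-- explicit upper bound of the area of a circular segment of the disc of radius 1.11 -/
theorem volume_cap_le {n : ℂ} (hn : ‖n‖ = 1) {h : ℝ} (h1 : h ≤ 1.078) :
    volume (cap 1.11 h n) ≤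
      ENNReal.ofReal ((1.078 - h) * (2 * (165.39 / 51) - 140 / 51 * (h + 1.078)) +
        (1.11 - 1.078) * (2 * (160.95 / 24) - 143 / 24 * (1.078 + 1.11))) := by
  rw [volume_cap _ _ hn]
  have hsub : {z : ℂ | ‖z‖ < 1.11 ∧ h < z.re} ⊆
      trap h 1.078 (165.39 / 51) (140 / 51) ∪ trap 1.078 1.11 (160.95 / 24) (143 / 24) := by
    rintro z ⟨hz1, hz2⟩
    by_cases hc : z.re ≤ 1.078
    · left
      refine ⟨hz2, hc, ?_⟩
      have := cap_sub (c := 140 / 149) (s := 51 / 149) (by norm_num) (by norm_num) hz1
      convert this using 2 <;> norm_num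
    · right
      refine ⟨by linarith, ?_, ?_⟩
      · have := Complex.re_le_norm z
        linarith
      · have := cap_sub (c := 143 / 145) (s := 24 / 145) (by norm_num) (by norm_num) hz1
        convert this using 2 <;> norm_num
  refine (measure_mono hsub).trans ((measure_union_le _ _).trans ?_)
  rw [volume_trap h1 (by norm_num) (by norm_num), volume_trap (by norm_num) (by norm_num)
    (by norm_num), ← ENNReal.ofReal_add]
  · apply mul_nonneg (by linarith)
    linarith
  · norm_num

end Pool.Agent.Y370.Q
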