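import Mathlib

set_option autoImplicit false

namespace Pool.Agent.Y370.Q

/-- labels: colour, type of the row, carry, digit -/
abbrev Lab : Type := ZMod 3 × Bool × Fin 6 × Fin 3

/-- colour -/
def Lab.col (l : Lab) : ZMod 3 := l.1
/-- three times the multiplier of the row -/
def Lab.Q (l : Lab) : ℤ := if l.2.1 then 6 else 2
/-- three times the carry -/
def Lab.a (l : Lab) : ℤ := (l.2.2.1 : ℕ) - 3
/-- digit -/
def Lab.b (l : Lab) : ℤ := (l.2.2.2 : ℕ) + 1

/-- admissible quadruples left, right, top, bottom -/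
def Allowed (L R T B : Lab) : Prop :=
  R.col = L.col + 1 ∧ T.col = L.col + 2 ∧ B.col = L.col + 2 ∧ L.2.1 = R.2.1 ∧
    R.Q * B.b + L.a = 3 * T.b + R.a

lemma Lab.b_pos (l : Lab) : 0 < l.b := by unfold Lab.b; positivity

/-- no finite arrangement -/
theorem no_periodic {X : Type*} [Finite X] [Nonempty X] (N : Fin 6 → X → X) (R : X → Lab)
    (h3 : ∀ κ x, N (κ + 3) (N κ x) = x) (h2 : ∀ κ x, N (κ + 2) (N κ x) = N (κ + 1) x)
    (hall : ∀ x, Allowed (R (N 3 x)) (R x) (R (N 3 (N 1 x))) (R (N 4 x))) : False := by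
  classical
  haveI := Fintype.ofFinite X
  let ρ : Equiv.Perm X := ⟨N 0, N 3, h3 0, h3 3⟩
  let υ : Equiv.Perm X := ⟨N 1, N 4, h3 1, h3 4⟩
  have e1 : ∀ x, N 1 x = N 0 (N 2 x) := by
    intro x
    have g1 : N 3 (N 1 x) = N 2 x := h2 1 x
    rw [← g1]
    exact (h3 3 (N 1 x)).symm
  have hcomm : ∀ x, ρ (υ x) = υ (ρ x) := by
    intro x
    change N 0 (N 1 x) = N 1 (N 0 x)
    have g1 : N 2 (N 0 x) = N 1 x := h2 0 x
    rw [← g1, ← e1]
  have hcomm' : ∀ (j : ℕ) x, (ρ ^ j) (υ x) = υ ((ρ ^ j) x) := by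
    intro j
    induction j with
    | zero => intro x; simp
    | succ j ih =>
      intro x
      rw [pow_succ', Equiv.Perm.mul_apply, Equiv.Perm.mul_apply, ih, hcomm]
  set m := orderOf ρ with hm
  have hm0 : 0 < m := orderOf_pos ρ
  have hρm : ρ ^ m = 1 := pow_orderOf_eq_one ρ
  -- row sums
  have shift : ∀ (f : X → ℤ) (x : X), ∑ j ∈ Finset.range m, f ((ρ ^ j) (ρ x)) =
      ∑ j ∈ Finset.range m, f ((ρ ^ j) x) := by
    intro f x
    have g1 : ∀ j, f ((ρ ^ j) (ρ x)) = (fun j => f ((ρ ^ j) x)) (j + 1) := by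
      intro j
      simp only
      rw [pow_succ, Equiv.Perm.mul_apply]
    rw [Finset.sum_congr rfl (fun j _ => g1 j)]
    have g2 := Finset.sum_range_succ (fun j => f ((ρ ^ j) x)) m
    have g3 := Finset.sum_range_succ' (fun j => f ((ρ ^ j) x)) m
    simp only [hρm, pow_zero] at g2 g3
    linarith
  let S : X → ℤ := fun x => ∑ j ∈ Finset.range m, (R ((ρ ^ j) x)).b
  have hS0 : ∀ x, 0 < S x := by
    intro x
    apply Finset.sum_pos (fun j _ => Lab.b_pos _)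
    exact ⟨0, Finset.mem_range.2 hm0⟩
  have hQ : ∀ (x : X), (R (ρ x)).Q = (R x).Q := by
    intro x
    have := (hall (N 0 x)).2.2.2.1
    rw [show N 3 (N 0 x) = x from h3 0 x] at this
    unfold Lab.Q
    rw [this]
    rfl
  have hQ' : ∀ (j : ℕ) (x : X), (R ((ρ ^ j) x)).Q = (R x).Q := by
    intro j
    induction j with
    | zero => intro x; simp
    | succ j ih =>
      intro x
      rw [pow_succ', Equiv.Perm.mul_apply, hQ, ih]
  have pull : ∀ (j : ℕ) (y : X), ρ ((ρ ^ j) y) = (ρ ^ j) (ρ y) := by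
    intro j y
    rw [← Equiv.Perm.mul_apply, ← Equiv.Perm.mul_apply, ← pow_succ, ← pow_succ']
  -- main relation
  have hrel : ∀ z, (R (υ z)).Q * S z = 3 * S (υ (υ z)) := by
    intro z
    have g1 : ∀ j ∈ Finset.range m, (R (υ z)).Q * (R ((ρ ^ j) z)).b +
        (R ((ρ ^ j) (ρ.symm (υ z)))).a =
        3 * (R ((ρ ^ j) (ρ.symm (υ (υ z))))).b + (R ((ρ ^ j) (υ z))).a := by
      intro j _
      have g2 := (hall ((ρ ^ j) (υ z))).2.2.2.2
      have g3 : N 4 ((ρ ^ j) (υ z)) = (ρ ^ j) z := by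
        rw [hcomm']
        exact h3 1 _
      have g4 : N 3 ((ρ ^ j) (υ z)) = (ρ ^ j) (ρ.symm (υ z)) := by
        change ρ.symm ((ρ ^ j) (υ z)) = _
        rw [Equiv.symm_apply_eq, pull, Equiv.apply_symm_apply]
      have g5 : N 3 (N 1 ((ρ ^ j) (υ z))) = (ρ ^ j) (ρ.symm (υ (υ z))) := by
        change ρ.symm (υ ((ρ ^ j) (υ z))) = _
        rw [← hcomm', Equiv.symm_apply_eq, pull, Equiv.apply_symm_apply]
      rw [g3, g4, g5, hQ'] at g2
      exact g2
    have g2 := Finset.sum_congr rfl g1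
    rw [Finset.sum_add_distrib, Finset.sum_add_distrib, ← Finset.mul_sum, ← Finset.mul_sum] at g2
    have g3 := shift (fun x => (R x).a) (ρ.symm (υ z))
    have g4 := shift (fun x => (R x).b) (ρ.symm (υ (υ z)))
    rw [Equiv.apply_symm_apply] at g3 g4
    change (R (υ z)).Q * S z = 3 * ∑ j ∈ Finset.range m, (R ((ρ ^ j) (υ (υ z)))).b
    rw [g4]
    have g5 : (R (υ z)).Q * S z = (R (υ z)).Q * ∑ j ∈ Finset.range m, (R ((ρ ^ j) z)).b := rfl
    rw [g5]
    linarith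
  have hQev : ∀ x, (2 : ℤ) ∣ (R x).Q := by
    intro x
    unfold Lab.Q
    split_ifs <;> decide
  -- iterate
  have hiter : ∀ (k : ℕ) z, ∃ P : ℤ, (1 ≤ k → (2 : ℤ) ∣ P) ∧
      P * S z = 3 ^ k * S (((υ ^ 2) ^ k) z) := by
    intro k
    induction k with
    | zero => intro z; exact ⟨1, by simp, by simp⟩
    | succ k ih =>
      intro z
      obtain ⟨P, _, hP⟩ := ih z
      refine ⟨P * (R (υ (((υ ^ 2) ^ k) z))).Q, fun _ => dvd_mul_of_dvd_right (hQev _) _, ?_⟩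
      have g1 := hrel (((υ ^ 2) ^ k) z)
      have g2 : ((υ ^ 2) ^ (k + 1)) z = υ (υ (((υ ^ 2) ^ k) z)) := by
        rw [pow_succ' (υ ^ 2) k, Equiv.Perm.mul_apply, pow_two, Equiv.Perm.mul_apply]
      rw [g2, pow_succ (3 : ℤ) k]
      linear_combination (R (υ (((υ ^ 2) ^ k) z))).Q * hP + 3 ^ k * g1
  obtain ⟨z⟩ := (inferInstance : Nonempty X)
  set k := orderOf (υ ^ 2) with hk
  have hk0 : 0 < k := orderOf_pos _
  obtain ⟨P, hP2, hP⟩ := hiter k z
  rw [hk, pow_orderOf_eq_one, Equiv.Perm.one_apply, ← hk] at hP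
  have hP3 : P = 3 ^ k := mul_right_cancel₀ (hS0 z).ne' hP
  have h4 := hP2 hk0
  rw [hP3] at h4
  have h5 : (2 : ℤ) ∣ 3 := Int.prime_two.dvd_of_dvd_pow h4
  revert h5
  decide

end Pool.Agent.Y370.Q
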