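import Pool.Agent.Y370.Q20

set_option autoImplicit false

namespace Pool.Agent.Y370.Q

/-- the slopes of the rows -/
noncomputable def slope : ℕ → ℝ
  | 0 => 1
  | 1 => 1
  | (r + 2) => if slope r ≤ 3 / 2 then 2 * slope r else 2 / 3 * slope r

open Classical in
/-- the type of the row r + 1 -/
noncomputable def flag : ℕ → Bool
  | 0 => true
  | (r + 1) => decide (slope r ≤ 3 / 2)

lemma slope_bd (r : ℕ) : 1 ≤ slope r ∧ slope r ≤ 3 := by
  induction r using Nat.strong_induction_on with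
  | _ r ih =>
    match r with
    | 0 => simp [slope]
    | 1 => simp [slope]
    | (r + 2) =>
      obtain ⟨h1, h2⟩ := ih r (by omega)
      rw [slope]
      split_ifs with h
      · constructor <;> linarith
      · push Not at h
        constructor <;> linarith

/-- three times the multiplier -/
noncomputable def Qr (r : ℕ) : ℤ := if flag r then 6 else 2

lemma slope_succ (r : ℕ) : 3 * slope (r + 2) = Qr (r + 1) * slope r := by
  rw [slope, Qr, flag]
  by_cases h : slope r ≤ 3 / 2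
  · simp [h]; ring
  · simp [h]; ring

/-- digits -/
noncomputable def dig (n : ℤ) (r : ℕ) : ℤ :=
  ⌊((n + (r / 2 : ℕ) : ℤ) : ℝ) * slope r⌋ - ⌊((n + (r / 2 : ℕ) - 1 : ℤ) : ℝ) * slope r⌋

/-- carries -/
noncomputable def car (n : ℤ) : ℕ → ℤ
  | 0 => 0
  | (r + 1) => Qr (r + 1) * ⌊((n + (r / 2 : ℕ) : ℤ) : ℝ) * slope r⌋ -
      3 * ⌊((n + (r / 2 : ℕ) : ℤ) : ℝ) * slope (r + 2)⌋

lemma dig_bd (n : ℤ) (r : ℕ) : 1 ≤ dig n r ∧ dig n r ≤ 3 := by
  obtain ⟨h1, h2⟩ := slope_bd r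
  unfold dig
  have e : ((n + (r / 2 : ℕ) - 1 : ℤ) : ℝ) * slope r =
      ((n + (r / 2 : ℕ) : ℤ) : ℝ) * slope r - slope r := by push_cast; ring
  rw [e]
  set y := ((n + (r / 2 : ℕ) : ℤ) : ℝ) * slope r
  have a1 := Int.floor_le y
  have a2 := Int.lt_floor_add_one y
  have a3 := Int.floor_le (y - slope r)
  have a4 := Int.lt_floor_add_one (y - slope r)
  constructor
  · have : (0 : ℝ) < ((⌊y⌋ - ⌊y - slope r⌋ : ℤ) : ℝ) := by push_cast; linarith
    have := Int.cast_pos.1 this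
    omega
  · have : ((⌊y⌋ - ⌊y - slope r⌋ : ℤ) : ℝ) < ((4 : ℤ) : ℝ) := by push_cast; linarith
    have := Int.cast_lt.1 this
    omega

lemma car_bd (n : ℤ) (r : ℕ) : -3 ≤ car n r ∧ car n r ≤ 2 := by
  match r with
  | 0 => simp [car]
  | (r + 1) =>
    rw [car]
    have hs := slope_succ r
    have e : ((n + (r / 2 : ℕ) : ℤ) : ℝ) * slope (r + 2) =
      Qr (r + 1) * (((n + (r / 2 : ℕ) : ℤ) : ℝ) * slope r) / 3 := by
      linear_combination ((n + (r / 2 : ℕ) : ℤ) : ℝ) / 3 * hs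
    rw [e]
    set y := ((n + (r / 2 : ℕ) : ℤ) : ℝ) * slope r
    unfold Qr
    split_ifs
    · have a1 := Int.floor_le y
      have a2 := Int.lt_floor_add_one y
      have a3 := Int.floor_le (((6 : ℤ) : ℝ) * y / 3)
      have a4 := Int.lt_floor_add_one (((6 : ℤ) : ℝ) * y / 3)
      push_cast at a3 a4
      have c1 : ((2 * ⌊y⌋ - ⌊((6 : ℤ) : ℝ) * y / 3⌋ : ℤ) : ℝ) < ((1 : ℤ) : ℝ) := by
        push_cast; linarith
      have c2 : ((-2 : ℤ) : ℝ) < ((2 * ⌊y⌋ - ⌊((6 : ℤ) : ℝ) * y / 3⌋ : ℤ) : ℝ) := by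
        push_cast; linarith
      have := Int.cast_lt.1 c1
      have := Int.cast_lt.1 c2
      constructor <;> omega
    · have a1 := Int.floor_le y
      have a2 := Int.lt_floor_add_one y
      have a3 := Int.floor_le (((2 : ℤ) : ℝ) * y / 3)
      have a4 := Int.lt_floor_add_one (((2 : ℤ) : ℝ) * y / 3)
      push_cast at a3 a4
      have c1 : ((2 * ⌊y⌋ - 3 * ⌊((2 : ℤ) : ℝ) * y / 3⌋ : ℤ) : ℝ) < ((3 : ℤ) : ℝ) := by
        push_cast; linarith
      have c2 : ((-2 : ℤ) : ℝ) < ((2 * ⌊y⌋ - 3 * ⌊((2 : ℤ) : ℝ) * y / 3⌋ : ℤ) : ℝ) := by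
        push_cast; linarith
      have := Int.cast_lt.1 c1
      have := Int.cast_lt.1 c2
      constructor <;> omega

/-- the labels -/
noncomputable def vlab (n : ℤ) (r : ℕ) : Lab :=
  (((n - r : ℤ) : ZMod 3), flag r,
    ⟨(car n r + 3).toNat, by have := car_bd n r; omega⟩,
    ⟨(dig n r - 1).toNat, by have := dig_bd n r; omega⟩)

lemma vlab_a (n : ℤ) (r : ℕ) : (vlab n r).a = car n r := by
  have := car_bd n r
  simp only [vlab, Lab.a]
  omega

lemma vlab_b (n : ℤ) (r : ℕ) : (vlab n r).b = dig n r := by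
  have := dig_bd n r
  simp only [vlab, Lab.b]
  omega

lemma vlab_Q (n : ℤ) (r : ℕ) : (vlab n r).Q = Qr r := rfl

theorem patch_allowed (n : ℤ) (r : ℕ) :
    Allowed (vlab (n - 1) (r + 1)) (vlab n (r + 1)) (vlab (n - 1) (r + 2)) (vlab n r) := by
  refine ⟨?_, ?_, ?_, rfl, ?_⟩
  · simp only [vlab, Lab.col]; push_cast; ring
  · simp only [vlab, Lab.col]; push_cast
    have : (3 : ZMod 3) = 0 := by decide
    linear_combination -this
  · simp only [vlab, Lab.col]; push_cast; ring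
  · rw [vlab_Q, vlab_a, vlab_a, vlab_b, vlab_b]
    simp only [car, dig]
    have e1 : (r + 2) / 2 = r / 2 + 1 := by omega
    rw [e1]
    have e2 : (n - 1 + ((r / 2 + 1 : ℕ) : ℤ) : ℤ) = n + ((r / 2 : ℕ) : ℤ) := by push_cast; ring
    have e3 : (n - 1 + ((r / 2 + 1 : ℕ) : ℤ) - 1 : ℤ) = n + ((r / 2 : ℕ) : ℤ) - 1 := by
      push_cast; ring
    have e4 : (n - 1 + ((r / 2 : ℕ) : ℤ) : ℤ) = n + ((r / 2 : ℕ) : ℤ) - 1 := by ring
    rw [e3, e2, e4]
    ring

end Pool.Agent.Y370.Q
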