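import Pool.Agent.Y370.Q11

set_option autoImplicit false

namespace Pool.Agent.Y370.Q

open MeasureTheory Complex

/-- region to the left of the sides of a hexagon -/
def HR (V : Fin 6 → ℂ) : Set ℂ := {z | ∀ κ, 0 ≤ crs (V (κ + 1) - V κ) (z - V κ)}

lemma sin_gap {σ x : ℝ} (hσ0 : 0 < σ) (hσ : σ ≤ 0.001) (h1 : σ / 2 ≤ x)
    (h2 : x ≤ Real.pi - σ / 2) : 0.499 * σ ≤ Real.sin x := by
  have hp := Real.pi_gt_three
  have h3 : 0.499 * σ ≤ Real.sin (σ / 2) := by
    have := Real.sin_gt_sub_cube (x := σ / 2) (by linarith)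
    have e : (σ / 2) ^ 3 ≤ 0.001 * σ := by
      have : σ ^ 2 ≤ 0.001 := by nlinarith
      nlinarith
    linarith
  refine h3.trans ?_
  rcases le_total x (Real.pi / 2) with h | h
  · exact Real.sin_le_sin_of_le_of_le_pi_div_two (by linarith) h h1
  · rw [← Real.sin_pi_sub x]
    exact Real.sin_le_sin_of_le_of_le_pi_div_two (by linarith) (by linarith) (by linarith)

/-- strict gap at the other contact directions -/
lemma gap_dir {σ Δ : ℝ} (hσ0 : 0 < σ) (hσ : σ ≤ 0.001) (h1 : σ ≤ |Δ|)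
    (h2 : |Δ| ≤ 2 * Real.pi - σ) : Real.cos Δ + 2 / 5 * σ * |Real.sin Δ| ≤ 1 - 0.09 * σ ^ 2 := by
  set x := |Δ| / 2 with hx
  have hs := sin_gap (x := x) hσ0 hσ (by linarith) (by linarith)
  have hc : Real.cos Δ = 1 - 2 * Real.sin x ^ 2 := by
    have e1 : Real.cos Δ = Real.cos (2 * x) := by
      rw [hx, ← Real.cos_abs Δ]; congr 1; ring
    rw [e1, Real.cos_two_mul]
    have := Real.sin_sq_add_cos_sq x
    linarith
  have hsin : |Real.sin Δ| ≤ 2 * Real.sin x := by
    have hsx : 0 ≤ Real.sin x := by nlinarith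
    have e1 : |Real.sin Δ| = |Real.sin (2 * x)| := by
      rw [hx]
      rcases abs_cases Δ with ⟨h, _⟩ | ⟨h, _⟩ <;> rw [h]
      · congr 2; ring
      · rw [show 2 * (-Δ / 2) = -Δ by ring, Real.sin_neg, abs_neg]
    rw [e1, Real.sin_two_mul, abs_mul, abs_mul, abs_two, abs_of_nonneg hsx]
    have := Real.abs_cos_le_one x
    nlinarith
  rw [hc]
  have h3 : 2 / 5 * σ * |Real.sin Δ| ≤ 2 / 5 * σ * (2 * Real.sin x) :=
    mul_le_mul_of_nonneg_left hsin (by positivity)
  nlinarith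

namespace BodyHyp

variable {M : ℕ} {σ ρ d : ℝ} {V : Fin M → Fin 6 → ℂ} {K : Set ℂ}

/-- the side functional up to a small error -/
lemma margin (B : BodyHyp M σ ρ d V K) (t : Fin M) (k : ℤ) (z : ℂ) :
    |crs (V t (fk k + 1) - V t (fk k)) (z - V t (fk k)) -
      2 / Real.sqrt 3 * (1 - dot z (ev ((t : ℕ) * σ + k * (Real.pi / 3))))| ≤
      (2 * ‖z‖ + 4) * d := by
  have h1 := B.side_close t k
  have h2 := B.V_close t k
  have h3 := two_div_sqrt3_bd
  have hd0 := B.hd0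
  have hdl := B.d_le
  set x := (t : ℕ) * σ + (k : ℝ) * (Real.pi / 3) with hx
  set E := V t (fk k + 1) - V t (fk k)
  set V1 := V t (fk k)
  set e := (2 / Real.sqrt 3) • ev (x + Real.pi / 2) with he
  set v := (2 / Real.sqrt 3) • ev (x - Real.pi / 6) with hv
  have hnv : ‖v‖ = 2 / Real.sqrt 3 := by
    rw [hv, norm_smul, norm_ev, mul_one, Real.norm_eq_abs, abs_of_pos (by positivity)]
  have hne : ‖e‖ = 2 / Real.sqrt 3 := by
    rw [he, norm_smul, norm_ev, mul_one, Real.norm_eq_abs, abs_of_pos (by positivity)]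
  have hnV : ‖V1‖ ≤ 1.156 := by
    calc ‖V1‖ = ‖(V1 - v) + v‖ := by congr 1; ring
      _ ≤ ‖V1 - v‖ + ‖v‖ := norm_add_le _ _
      _ ≤ 1.156 := by rw [hnv]; linarith
  have e1 : crs e z = -(2 / Real.sqrt 3) * dot z (ev x) := by
    rw [he, crs_smul_left, ← I_mul_ev]
    simp only [crs, dot, mul_re, mul_im, I_re, I_im]
    ring
  have e2 : crs e v = -(2 / Real.sqrt 3) := by
    rw [he, hv, crs_smul_left, crs_smul_right, crs_ev]
    have : x - Real.pi / 6 - (x + Real.pi / 2) = -(Real.pi - Real.pi / 3) := by ring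
    rw [this, Real.sin_neg, Real.sin_pi_sub, Real.sin_pi_div_three]
    have h4 := two_div_sqrt3
    linear_combination -(2 / Real.sqrt 3) * h4
  have e3 : crs E (z - V1) - 2 / Real.sqrt 3 * (1 - dot z (ev x)) =
      crs (E - e) (z - V1) + crs e (v - V1) := by
    rw [crs_sub_left E e, crs_sub_right e v V1, crs_sub_right e z V1, e1, e2]
    ring
  rw [e3]
  have e4 := abs_crs_le (E - e) (z - V1)
  have e5 := abs_crs_le e (v - V1)
  have e6 : ‖z - V1‖ ≤ ‖z‖ + 1.156 := (norm_sub_le _ _).trans (by linarith)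
  have e7 : ‖v - V1‖ ≤ d := by rw [norm_sub_rev]; exact h2
  have e8 : ‖E - e‖ * ‖z - V1‖ ≤ (2 * d) * (‖z‖ + 1.156) :=
    mul_le_mul h1 e6 (norm_nonneg _) (by positivity)
  have e9 : ‖e‖ * ‖v - V1‖ ≤ 1.155 * d := by
    rw [hne]; exact mul_le_mul h3.1 e7 (norm_nonneg _) (by norm_num)
  refine (abs_add_le _ _).trans ?_
  nlinarith

lemma ball_sub (B : BodyHyp M σ ρ d V K) (t : Fin M) {z : ℂ} (hz : ‖z‖ ≤ 1 - 1e-6) :
    z ∈ HR (V t) := by
  intro κ
  have h0 : fk ((κ : ℕ) : ℤ) = κ := by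
    apply Fin.ext
    have := fk_val ((κ : ℕ) : ℤ)
    have := κ.2
    omega
  have h1 := B.margin t (κ : ℕ) z
  rw [h0] at h1
  have h2 := (abs_le.1 h1).1
  have h3 := (le_abs_self _).trans (abs_dot_le z (ev ((t : ℕ) * σ +
    (((κ : ℕ) : ℤ) : ℝ) * (Real.pi / 3))))
  rw [norm_ev, mul_one] at h3
  have h4 := two_div_sqrt3_bd
  have h5 := B.hd
  have h6 := B.σ_le
  have h7 := B.σpos
  have hd0 := B.hd0
  have h8 : d ≤ 1e-10 := by nlinarith
  have h9 : (2 * ‖z‖ + 4) * d ≤ 6 * d := by nlinarith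
  have h10 : 1e-6 ≤ 1 - dot z (ev ((t : ℕ) * σ + (((κ : ℕ) : ℤ) : ℝ) * (Real.pi / 3))) := by
    linarith
  nlinarith

/-- upper bound of the size -/
lemma norm_le (B : BodyHyp M σ ρ d V K) {z : ℂ} (hz : ∀ t, z ∈ HR (V t)) :
    ‖z‖ ≤ 1 + 1e-6 := by
  by_contra hcon
  push Not at hcon
  obtain ⟨k, hk⟩ := exists_round B.σpos (arg z)
  obtain ⟨t, q, -, hkt⟩ := B.split k
  have h1 := B.margin t q z
  rw [← hkt] at h1
  have h2 := (abs_le.1 h1).2
  have h3 := hz t (fk q)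
  have h4 := two_div_sqrt3_bd
  have h5 := B.hd
  have h6 := B.σ_le
  have h7 := B.σpos
  have hd0 := B.hd0
  have h8 : d ≤ 1e-10 := by nlinarith
  have h9 : dot z (ev (k * σ)) = ‖z‖ * Real.cos (k * σ - arg z) := by
    have e1 : z = ‖z‖ • ev (arg z) := by
      apply Complex.ext
      · simp [ev, Complex.norm_mul_cos_arg]
      · simp [ev, Complex.norm_mul_sin_arg]
    conv_lhs => rw [e1]
    rw [dot_smul_left, dot_ev]
  have h10 := Real.one_sub_sq_div_two_le_cos (x := k * σ - arg z)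
  have h11 : (k * σ - arg z) ^ 2 ≤ σ ^ 2 / 4 := by
    have : (k * σ - arg z) ^ 2 = |arg z - k * σ| ^ 2 := by rw [sq_abs]; ring
    rw [this]
    nlinarith [abs_nonneg (arg z - k * σ)]
  have h12 : 1 - 1e-8 ≤ Real.cos (k * σ - arg z) := by nlinarith
  have h13 : ‖z‖ * (1 - 1e-8) ≤ dot z (ev (k * σ)) := by
    rw [h9]
    exact mul_le_mul_of_nonneg_left h12 (norm_nonneg _)
  have h14 : 2 / Real.sqrt 3 * (dot z (ev (k * σ)) - 1) ≤ (2 * ‖z‖ + 4) * d := by linarith
  have h15 : (dot z (ev (k * σ)) - 1) ≤ 2 / Real.sqrt 3 * (dot z (ev (k * σ)) - 1) := by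
    nlinarith
  nlinarith

/-- the contact segments belong to all hexagons -/
lemma contact (B : BodyHyp M σ ρ d V K) (t t' : Fin M) (κ : Fin 6) {τ : ℝ} (hτ : |τ| ≤ ρ) :
    V t κ + (1 / 2 + τ) • (V t (κ + 1) - V t κ) ∈ HR (V t') := by
  intro κ'
  have hρb := B.ρ_bd
  have hσp := B.σpos
  have hσl := B.σ_le
  have hdd := B.hd
  have hd0 := B.hd0
  have h0 : ∀ κ : Fin 6, fk ((κ : ℕ) : ℤ) = κ := by
    intro κ
    apply Fin.ext
    have := fk_val ((κ : ℕ) : ℤ)
    have := κ.2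
    omega
  by_cases hsame : t = t' ∧ κ = κ'
  · obtain ⟨rfl, rfl⟩ := hsame
    have : V t κ + (1 / 2 + τ) • (V t (κ + 1) - V t κ) - V t κ =
      (1 / 2 + τ) • (V t (κ + 1) - V t κ) := by ring
    rw [this, crs_smul_right, crs_self, mul_zero]
  · set P := V t κ + (1 / 2 + τ) • (V t (κ + 1) - V t κ) with hP
    -- difference of the directions
    set k : ℤ := (t : ℕ) + M * (κ : ℕ) with hk
    set k' : ℤ := (t' : ℕ) + M * (κ' : ℕ) with hk'
    have hkσ : ∀ (t : Fin M) (κ : Fin 6), (((t : ℕ) + M * (κ : ℕ) : ℤ) : ℝ) * σ =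
        (t : ℕ) * σ + (((κ : ℕ) : ℤ) : ℝ) * (Real.pi / 3) := by
      intro t κ
      rw [← B.hσ]; push_cast; ring
    have hne : k' - k ≠ 0 := by
      intro h
      have h1 : k' = k := by omega
      have ht := t.2
      have ht' := t'.2
      have hκ := κ.2
      have hκ' := κ'.2
      have h2 : (κ : ℕ) = κ' := by
        have e1 : k / M = (κ : ℕ) := by
          rw [hk, Int.add_mul_ediv_left _ _ (by omega), Int.ediv_eq_zero_of_lt (by omega)
            (by omega)]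
          simp
        have e2 : k' / M = (κ' : ℕ) := by
          rw [hk', Int.add_mul_ediv_left _ _ (by omega), Int.ediv_eq_zero_of_lt (by omega)
            (by omega)]
          simp
        rw [h1] at e2
        omega
      have h3 : κ = κ' := Fin.ext h2
      have h4 : (t : ℕ) = t' := by
        rw [h3] at hk
        omega
      exact hsame ⟨Fin.ext h4, h3⟩
    have hbd : |k' - k| ≤ 6 * M - 1 := by
      have ht := t.2
      have ht' := t'.2
      have hκ := κ.2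
      have hκ' := κ'.2
      have g1 : (M : ℤ) * (κ : ℕ) ≤ M * 5 := by
        apply mul_le_mul_of_nonneg_left _ (by omega); omega
      have g2 : (M : ℤ) * (κ' : ℕ) ≤ M * 5 := by
        apply mul_le_mul_of_nonneg_left _ (by omega); omega
      have g3 : 0 ≤ (M : ℤ) * (κ : ℕ) := by positivity
      have g4 : 0 ≤ (M : ℤ) * (κ' : ℕ) := by positivity
      rw [abs_le]
      constructor <;> omega
    have habs1 : (1 : ℤ) ≤ |k' - k| := Int.one_le_abs hne
    have hΔ1 : σ ≤ |(k' : ℝ) * σ - k * σ| := by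
      rw [← sub_mul, abs_mul, abs_of_pos hσp]
      have : (1 : ℝ) ≤ |(k' : ℝ) - k| := by exact_mod_cast habs1
      nlinarith
    have hΔ2 : |(k' : ℝ) * σ - k * σ| ≤ 2 * Real.pi - σ := by
      rw [← sub_mul, abs_mul, abs_of_pos hσp]
      have g1 : |(k' : ℝ) - k| ≤ 6 * M - 1 := by exact_mod_cast hbd
      have g2 := B.hσ
      nlinarith
    have hgap := gap_dir hσp (by linarith) hΔ1 hΔ2
    -- the point P
    have c1 := B.V_close t (κ : ℕ)
    have c2 := B.V_close t ((κ : ℕ) + 1)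
    rw [fk_add_one, h0] at c2
    rw [h0] at c1
    set θ := (k : ℝ) * σ with hθ
    set θ' := (k' : ℝ) * σ with hθ'
    have e1 : (t : ℕ) * σ + (((κ : ℕ) : ℤ) : ℝ) * (Real.pi / 3) - Real.pi / 6 =
        θ - Real.pi / 6 := by
      rw [hθ, hk, hkσ t κ]
    have e2 : (t : ℕ) * σ + ((((κ : ℕ) : ℤ) + 1 : ℤ) : ℝ) * (Real.pi / 3) - Real.pi / 6 =
        θ + Real.pi / 6 := by
      rw [hθ, hk, hkσ t κ]; push_cast; ring
    rw [e1] at c1
    rw [e2] at c2
    set V1 := V t κ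
    set V2 := V t (κ + 1)
    have d1 : dot V1 (ev θ') ≤ 2 / Real.sqrt 3 * Real.cos (θ' - θ + Real.pi / 6) + d := by
      have g1 := abs_dot_le (V1 - (2 / Real.sqrt 3) • ev (θ - Real.pi / 6)) (ev θ')
      rw [norm_ev, mul_one, dot_sub_left, dot_smul_left, dot_ev] at g1
      have g2 := (abs_le.1 (g1.trans c1)).2
      have g3 : θ' - (θ - Real.pi / 6) = θ' - θ + Real.pi / 6 := by ring
      rw [g3] at g2
      linarith
    have d2 : dot V2 (ev θ') ≤ 2 / Real.sqrt 3 * Real.cos (θ' - θ - Real.pi / 6) + d := by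
      have g1 := abs_dot_le (V2 - (2 / Real.sqrt 3) • ev (θ + Real.pi / 6)) (ev θ')
      rw [norm_ev, mul_one, dot_sub_left, dot_smul_left, dot_ev] at g1
      have g2 := (abs_le.1 (g1.trans c2)).2
      have g3 : θ' - (θ + Real.pi / 6) = θ' - θ - Real.pi / 6 := by ring
      rw [g3] at g2
      linarith
    have hs3 := two_div_sqrt3
    have hτ2 : |τ| ≤ 1 / 2 := by linarith
    rw [abs_le] at hτ2
    have hdot : dot P (ev θ') ≤ Real.cos (θ' - θ) + 2 / Real.sqrt 3 * τ * Real.sin (θ' - θ) + d := by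
      rw [hP, dot_add_left, dot_smul_left, dot_sub_left]
      rw [Real.cos_add, Real.cos_pi_div_six, Real.sin_pi_div_six] at d1
      rw [Real.cos_sub, Real.cos_pi_div_six, Real.sin_pi_div_six] at d2
      have f1 := mul_le_mul_of_nonneg_left d1 (by linarith : 0 ≤ 1 / 2 - τ)
      have f2 := mul_le_mul_of_nonneg_left d2 (by linarith : 0 ≤ 1 / 2 + τ)
      have f3 : (1 / 2 - τ) * (2 / Real.sqrt 3 * (Real.cos (θ' - θ) * (Real.sqrt 3 / 2) -
          Real.sin (θ' - θ) * (1 / 2)) + d) + (1 / 2 + τ) * (2 / Real.sqrt 3 *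
          (Real.cos (θ' - θ) * (Real.sqrt 3 / 2) + Real.sin (θ' - θ) * (1 / 2)) + d) =
          2 / Real.sqrt 3 * τ * Real.sin (θ' - θ) + Real.cos (θ' - θ) + d := by
        linear_combination Real.cos (θ' - θ) * hs3
      linarith
    have hτs : 2 / Real.sqrt 3 * τ * Real.sin (θ' - θ) ≤ 2 / 5 * σ * |Real.sin (θ' - θ)| := by
      have g1 : 2 / Real.sqrt 3 * τ * Real.sin (θ' - θ) ≤
          2 / Real.sqrt 3 * (|τ| * |Real.sin (θ' - θ)|) := by
        rw [mul_assoc, ← abs_mul]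
        exact mul_le_mul_of_nonneg_left (le_abs_self _) (by positivity)
      have g2 : 2 / Real.sqrt 3 * (|τ| * |Real.sin (θ' - θ)|) ≤
          2 / Real.sqrt 3 * (ρ * |Real.sin (θ' - θ)|) := by
        apply mul_le_mul_of_nonneg_left _ (by positivity)
        exact mul_le_mul_of_nonneg_right hτ (abs_nonneg _)
      have g3 : 2 / Real.sqrt 3 * (ρ * |Real.sin (θ' - θ)|) =
          2 / 5 * σ * |Real.sin (θ' - θ)| := by
        rw [B.hρ]
        have : Real.sqrt 3 ≠ 0 := by positivity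
        field_simp
      linarith
    have hPn : ‖P‖ ≤ 2 := by
      have g1 : P = (1 / 2 - τ) • V1 + (1 / 2 + τ) • V2 := by
        rw [hP]; module
      have g2 := two_div_sqrt3_bd
      have hdl := B.d_le
      have g3 : ∀ (X : ℂ) (x : ℝ), ‖X - (2 / Real.sqrt 3) • ev x‖ ≤ d → ‖X‖ ≤ 2 := by
        intro X x hX
        calc ‖X‖ = ‖(X - (2 / Real.sqrt 3) • ev x) + (2 / Real.sqrt 3) • ev x‖ := by
              congr 1; ring
          _ ≤ ‖X - (2 / Real.sqrt 3) • ev x‖ + ‖(2 / Real.sqrt 3) • ev x‖ := norm_add_le _ _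
          _ ≤ 2 := by
            rw [norm_smul, norm_ev, mul_one, Real.norm_eq_abs, abs_of_pos (by positivity)]
            linarith
      rw [g1]
      refine (norm_add_le _ _).trans ?_
      rw [norm_smul, norm_smul, Real.norm_eq_abs, Real.norm_eq_abs,
        abs_of_nonneg (by linarith), abs_of_nonneg (by linarith)]
      have g4 := g3 V1 _ c1
      have g5 := g3 V2 _ c2
      nlinarith
    have hm := B.margin t' (κ' : ℕ) P
    rw [h0] at hm
    have e3 : (t' : ℕ) * σ + (((κ' : ℕ) : ℤ) : ℝ) * (Real.pi / 3) = θ' := by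
      rw [hθ', hk', hkσ t' κ']
    rw [e3] at hm
    have hm1 := (abs_le.1 hm).1
    have g2 := two_div_sqrt3_bd
    have g6 : (2 * ‖P‖ + 4) * d ≤ 8 * d := by nlinarith
    have g7 : 0.09 * σ ^ 2 - d ≤ 1 - dot P (ev θ') := by linarith
    have g8 : 0 ≤ 0.09 * σ ^ 2 - d := by nlinarith
    have g9 : 0.09 * σ ^ 2 - d ≤ 2 / Real.sqrt 3 * (1 - dot P (ev θ')) := by nlinarith
    nlinarith

end BodyHyp

end Pool.Agent.Y370.Q
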