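import Pool.Agent.Y370.Q22
import Pool.Agent.Y370.Q21

set_option autoImplicit false

namespace Pool.Agent.Y370.Q

open MeasureTheory Complex

/-- vertices of the hexagon with (real) labels left, right, top, bottom -/
noncomputable def hexV (L R T B : ℝ) : Fin 6 → ℂ :=
  ![⟨1 - R, -(1 / Real.sqrt 3)⟩, ⟨1 + R, 1 / Real.sqrt 3⟩, ⟨-T, 2 / Real.sqrt 3⟩,
    ⟨-1 + L, 1 / Real.sqrt 3⟩, ⟨-1 - L, -(1 / Real.sqrt 3)⟩, ⟨B, -(2 / Real.sqrt 3)⟩]

lemma ev_add (x y : ℝ) : ev (x + y) = ev x * ev y := by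
  apply Complex.ext
  · simp [ev, Real.cos_add]
  · simp [ev, Real.sin_add]; ring

lemma crs_mul (u z w : ℂ) : crs (u * z) (u * w) = ‖u‖ ^ 2 * crs z w := by
  rw [← dot_self]; simp only [crs, dot, mul_re, mul_im]; ring

lemma dot_mul (u z w : ℂ) : dot (u * z) (u * w) = ‖u‖ ^ 2 * dot z w := by
  rw [← dot_self]; simp only [dot, mul_re, mul_im]; ring

lemma hexV_ideal (κ : Fin 6) : (2 / Real.sqrt 3) •
    ev ((κ : ℕ) * (Real.pi / 3) - Real.pi / 6) = hexV 0 0 0 0 κ := by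
  have h3 : Real.sqrt 3 ≠ 0 := by positivity
  have h4 := two_div_sqrt3
  have h5 : 2 / Real.sqrt 3 * (1 / 2) = 1 / Real.sqrt 3 := by field_simp
  have key : ∀ x c s : ℝ, Real.cos x = c → Real.sin x = s →
      (2 / Real.sqrt 3) • ev x = ⟨2 / Real.sqrt 3 * c, 2 / Real.sqrt 3 * s⟩ := by
    intro x c s hc hs
    apply Complex.ext <;> simp [ev, hc, hs]
  fin_cases κ
  · have : ((((⟨0, by omega⟩ : Fin 6)) : ℕ) : ℝ) * (Real.pi / 3) - Real.pi / 6 =
      -(Real.pi / 6) := by push_cast; ring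
    simp only at this ⊢
    rw [this, key _ (Real.sqrt 3 / 2) (-(1 / 2))
      (by rw [Real.cos_neg, Real.cos_pi_div_six]) (by rw [Real.sin_neg, Real.sin_pi_div_six])]
    apply Complex.ext
    · simp [hexV, h4]
    · simp [hexV]; field_simp
  · have : ((((⟨1, by omega⟩ : Fin 6)) : ℕ) : ℝ) * (Real.pi / 3) - Real.pi / 6 =
      Real.pi / 6 := by push_cast; ring
    simp only at this ⊢
    rw [this, key _ (Real.sqrt 3 / 2) (1 / 2) Real.cos_pi_div_six Real.sin_pi_div_six]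
    apply Complex.ext
    · simp [hexV, h4]
    · simp [hexV]; field_simp
  · have : ((((⟨2, by omega⟩ : Fin 6)) : ℕ) : ℝ) * (Real.pi / 3) - Real.pi / 6 =
      Real.pi / 2 := by push_cast; ring
    simp only at this ⊢
    rw [this, key _ 0 1 Real.cos_pi_div_two Real.sin_pi_div_two]
    apply Complex.ext <;> simp [hexV]
  · have : ((((⟨3, by omega⟩ : Fin 6)) : ℕ) : ℝ) * (Real.pi / 3) - Real.pi / 6 =
      Real.pi - Real.pi / 6 := by push_cast; ring
    simp only at this ⊢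
    rw [this, key _ (-(Real.sqrt 3 / 2)) (1 / 2)
      (by rw [Real.cos_pi_sub, Real.cos_pi_div_six])
      (by rw [Real.sin_pi_sub, Real.sin_pi_div_six])]
    apply Complex.ext
    · simp only [hexV]
      have : 2 / Real.sqrt 3 * -(Real.sqrt 3 / 2) = -1 := by rw [mul_neg, h4]
      rw [this]; simp
    · simp [hexV]; field_simp
  · have : ((((⟨4, by omega⟩ : Fin 6)) : ℕ) : ℝ) * (Real.pi / 3) - Real.pi / 6 =
      Real.pi / 6 + Real.pi := by push_cast; ring
    simp only at this ⊢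
    rw [this, key _ (-(Real.sqrt 3 / 2)) (-(1 / 2))
      (by rw [Real.cos_add_pi, Real.cos_pi_div_six])
      (by rw [Real.sin_add_pi, Real.sin_pi_div_six])]
    apply Complex.ext
    · simp only [hexV]
      have : 2 / Real.sqrt 3 * -(Real.sqrt 3 / 2) = -1 := by rw [mul_neg, h4]
      rw [this]; simp
    · simp [hexV]; field_simp
  · have : ((((⟨5, by omega⟩ : Fin 6)) : ℕ) : ℝ) * (Real.pi / 3) - Real.pi / 6 =
      Real.pi / 2 + Real.pi := by push_cast; ring
    simp only at this ⊢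
    rw [this, key _ 0 (-1) (by rw [Real.cos_add_pi, Real.cos_pi_div_two, neg_zero])
      (by rw [Real.sin_add_pi, Real.sin_pi_div_two])]
    apply Complex.ext <;> simp [hexV]

lemma hexV_close {L R T B d : ℝ} (hL : |L| ≤ d) (hR : |R| ≤ d) (hT : |T| ≤ d) (hB : |B| ≤ d)
    (κ : Fin 6) : ‖hexV L R T B κ - hexV 0 0 0 0 κ‖ ≤ d := by
  have key : ∀ (x y x' : ℝ), |x - x'| ≤ d → ‖(⟨x, y⟩ : ℂ) - ⟨x', y⟩‖ ≤ d := by
    intro x y x' h
    have : (⟨x, y⟩ : ℂ) - ⟨x', y⟩ = ((x - x' : ℝ) : ℂ) := by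
      apply Complex.ext <;> simp
    rw [this, Complex.norm_real]
    exact h
  fin_cases κ
  · exact key _ _ _ (by rw [show 1 - R - (1 - 0) = -R by ring, abs_neg]; exact hR)
  · exact key _ _ _ (by rw [show 1 + R - (1 + 0) = R by ring]; exact hR)
  · exact key _ _ _ (by rw [show -T - -0 = -T by ring, abs_neg]; exact hT)
  · exact key _ _ _ (by rw [show -1 + L - (-1 + 0) = L by ring]; exact hL)
  · exact key _ _ _ (by rw [show -1 - L - (-1 - 0) = -L by ring, abs_neg]; exact hL)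
  · exact key _ _ _ (by rw [show B - 0 = B by ring]; exact hB)

lemma hexV_area (L R T B : ℝ) :
    ∑ κ, crs (hexV L R T B κ) (hexV L R T B (κ + 1)) = 4 * Real.sqrt 3 := by
  have h3 : Real.sqrt 3 ≠ 0 := by positivity
  have hs := sqrt3_sq
  rw [Fin.sum_univ_six]
  rw [show (0 : Fin 6) + 1 = 1 from rfl, show (1 : Fin 6) + 1 = 2 from rfl,
    show (2 : Fin 6) + 1 = 3 from rfl, show (3 : Fin 6) + 1 = 4 from rfl,
    show (4 : Fin 6) + 1 = 5 from rfl, show (5 : Fin 6) + 1 = 0 from rfl]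
  simp only [crs, hexV, Matrix.cons_val_zero, Matrix.cons_val_one, Matrix.cons_val]
  field_simp
  rw [hs]
  ring

/-- a family of hexagons -/
structure Fam where
  M : ℕ
  σ : ℝ
  ρ : ℝ
  d : ℝ
  l : Lab → ℝ
  τ : Fin M → Lab × Lab × Lab × Lab
  hM : 10000 ≤ M
  hσ : (M : ℝ) * σ = Real.pi / 3
  hρ : ρ = Real.sqrt 3 / 5 * σ
  hd : d ≤ σ ^ 2 / 100000
  lpos : ∀ a, 0 < l a
  lle : ∀ a, l a ≤ d
  linj : Function.Injective l
  lsidon : ∀ a b c e, l a + l b = l c + l e → (a = c ∧ b = e) ∨ (a = e ∧ b = c)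
  lsep : ∀ a, d ^ 2 < l a
  τall : ∀ t, Allowed (τ t).1 (τ t).2.1 (τ t).2.2.1 (τ t).2.2.2
  τsurj : ∀ L R T B, Allowed L R T B → ∃ t, τ t = (L, R, T, B)

namespace Fam

variable (F : Fam)

/-- the hexagon number t in standard position -/
noncomputable def H (t : Fin F.M) : Fin 6 → ℂ :=
  hexV (F.l (F.τ t).1) (F.l (F.τ t).2.1) (F.l (F.τ t).2.2.1) (F.l (F.τ t).2.2.2)

/-- the rotated hexagon -/
noncomputable def V (t : Fin F.M) (κ : Fin 6) : ℂ := ev ((t : ℕ) * F.σ) * F.H t κ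

/-- the body -/
noncomputable def K : Set ℂ := ⋂ t, HR (F.V t)

lemma body0 : BodyHyp F.M F.σ F.ρ F.d F.V Set.univ where
  hM := F.hM
  hσ := F.hσ
  hρ := F.hρ
  hd0 := (F.lpos default).le.trans (F.lle default)
  hd := F.hd
  hV := by
    intro t κ
    have e1 : ev ((t : ℕ) * F.σ + (κ : ℕ) * (Real.pi / 3) - Real.pi / 6) =
        ev ((t : ℕ) * F.σ) * ev ((κ : ℕ) * (Real.pi / 3) - Real.pi / 6) := by
      rw [← ev_add]; congr 1; ring
    rw [e1, ← mul_smul_comm, hexV_ideal, V, ← mul_sub, norm_mul, norm_ev, one_mul]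
    have habs : ∀ a, |F.l a| ≤ F.d := fun a => by rw [abs_of_pos (F.lpos a)]; exact F.lle a
    exact hexV_close (habs _) (habs _) (habs _) (habs _) κ
  hP1 := fun _ _ => Set.mem_univ _
  hP2 := fun _ _ => Set.mem_univ _
  harea := by
    intro t
    rw [← hexV_area (F.l (F.τ t).1) (F.l (F.τ t).2.1) (F.l (F.τ t).2.2.1) (F.l (F.τ t).2.2.2)]
    apply Finset.sum_congr rfl
    intro κ _
    simp only [V, crs_mul, norm_ev]
    simp [H]

lemma body : BodyHyp F.M F.σ F.ρ F.d F.V F.K where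
  hM := F.hM
  hσ := F.hσ
  hρ := F.hρ
  hd0 := F.body0.hd0
  hd := F.hd
  hV := F.body0.hV
  hP1 := by
    intro t κ
    refine Set.mem_iInter.2 fun t' => F.body0.contact t t' κ ?_
    have := F.body0.ρ_bd
    have := F.body0.σpos
    rw [abs_of_nonneg (by nlinarith)]
  hP2 := by
    intro t κ
    refine Set.mem_iInter.2 fun t' => ?_
    have := F.body0.ρ_bd
    have := F.body0.σpos
    have h := F.body0.contact t t' κ (τ := -F.ρ) (by rw [abs_neg, abs_of_nonneg (by nlinarith)])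
    rwa [← sub_eq_add_neg] at h
  harea := F.body0.harea

lemma mem_K {z : ℂ} : z ∈ F.K ↔ ∀ t, z ∈ HR (F.V t) := by simp [K]

lemma K_ball {z : ℂ} (hz : ‖z‖ ≤ 1 - 1e-6) : z ∈ F.K :=
  F.mem_K.2 fun t => F.body.ball_sub t hz

lemma K_norm {z : ℂ} (hz : z ∈ F.K) : ‖z‖ ≤ 1 + 1e-6 := F.body.norm_le (F.mem_K.1 hz)

lemma convex_HR (V : Fin 6 → ℂ) : Convex ℝ (HR V) := by
  intro x hx y hy a b ha hb hab κ
  have h1 := hx κ
  have h2 := hy κ
  have e : a • x + b • y - V κ = a • (x - V κ) + b • (y - V κ) := by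
    have : V κ = (a + b) • V κ := by rw [hab, one_smul]
    conv_lhs => rw [this]
    module
  rw [e, crs_add_right, crs_smul_right, crs_smul_right]
  positivity

lemma continuous_crs (E : ℂ) : Continuous fun z => crs E z := by
  unfold crs
  fun_prop

lemma isClosed_HR (V : Fin 6 → ℂ) : IsClosed (HR V) := by
  have : HR V = ⋂ κ, {z | 0 ≤ crs (V (κ + 1) - V κ) (z - V κ)} := by ext z; simp [HR]
  rw [this]
  apply isClosed_iInter
  intro κ
  exact isClosed_le continuous_const ((continuous_crs _).comp (continuous_id.sub continuous_const))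

lemma K_convex : Convex ℝ F.K := convex_iInter fun _ => convex_HR _

lemma K_closed : IsClosed F.K := isClosed_iInter fun _ => isClosed_HR _

lemma K_compact : IsCompact F.K := by
  apply Metric.isCompact_of_isClosed_isBounded F.K_closed
  apply (Metric.isBounded_closedBall (x := (0:ℂ)) (r := 1 + 1e-6)).subset
  intro z hz
  simpa using F.K_norm hz

lemma K_interior : (interior F.K).Nonempty := by
  refine ⟨0, ?_⟩
  rw [mem_interior]
  refine ⟨Metric.ball 0 (1 - 1e-6), ?_, Metric.isOpen_ball, Metric.mem_ball_self (by norm_num)⟩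
  intro z hz
  apply F.K_ball
  simpa using (Metric.mem_ball.1 hz).le

end Fam

lemma sidon_aux {i j k m : ℕ} (hij : i ≤ j) (hkm : k ≤ m) (h : 3 ^ i + 3 ^ j = 3 ^ k + 3 ^ m) :
    i = k ∧ j = m := by
  have key : ∀ {i j k m : ℕ}, i ≤ j → k ≤ m → 3 ^ i + 3 ^ j = 3 ^ k + 3 ^ m → ¬ i < k := by
    intro i j k m hij hkm h hik
    obtain ⟨a, rfl⟩ := Nat.exists_eq_add_of_le hij
    obtain ⟨b, rfl⟩ := Nat.exists_eq_add_of_lt hik
    obtain ⟨c, rfl⟩ := Nat.exists_eq_add_of_le hkm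
    have h1 : 3 ^ i * (1 + 3 ^ a) = 3 ^ i * (3 * (3 ^ b * (1 + 3 ^ c))) := by
      have e1 : 3 ^ i + 3 ^ (i + a) = 3 ^ i * (1 + 3 ^ a) := by rw [pow_add]; ring
      have e2 : 3 ^ (i + b + 1) + 3 ^ (i + b + 1 + c) = 3 ^ i * (3 * (3 ^ b * (1 + 3 ^ c))) := by
        rw [pow_add, pow_add, pow_add, pow_one]; ring
      rw [← e1, h, e2]
    have h2 : 1 + 3 ^ a = 3 * (3 ^ b * (1 + 3 ^ c)) :=
      Nat.eq_of_mul_eq_mul_left (by positivity) h1
    rcases a with _ | a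
    · simp at h2; omega
    · rw [pow_succ] at h2; omega
  have h1 := key hij hkm h
  have h2 := key hkm hij h.symm
  have h3 : i = k := by omega
  subst h3
  refine ⟨rfl, ?_⟩
  have h4 : 3 ^ j = 3 ^ m := by omega
  exact Nat.pow_right_injective (by norm_num : 2 ≤ 3) h4

lemma sidon3 {i j k m : ℕ} (h : 3 ^ i + 3 ^ j = 3 ^ k + 3 ^ m) :
    (i = k ∧ j = m) ∨ (i = m ∧ j = k) := by
  rcases le_total i j with h1 | h1 <;> rcases le_total k m with h2 | h2
  · left; exact sidon_aux h1 h2 h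
  · right; exact sidon_aux h1 h2 (by rw [h]; ring)
  · right
    have := sidon_aux h1 h2 (by rw [add_comm, h])
    exact ⟨this.2, this.1⟩
  · left
    have := sidon_aux h1 h2 (by rw [add_comm, h]; ring)
    exact ⟨this.2, this.1⟩

theorem fam_exists : Nonempty Fam := by
  classical
  let A : Type := {x : Lab × Lab × Lab × Lab // Allowed x.1 x.2.1 x.2.2.1 x.2.2.2}
  haveI : Finite A := inferInstance
  haveI : Fintype A := Fintype.ofFinite A
  have hA : Nonempty A := ⟨⟨(_, _, _, _), patch_allowed 0 0⟩⟩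
  set c := Fintype.card A with hc
  have hc0 : 0 < c := Fintype.card_pos
  let eA : A ≃ Fin c := Fintype.equivFin A
  set M : ℕ := 10000 * c with hM
  have hMpos : 0 < M := by positivity
  have hcM : c ≤ M := by omega
  let τ : Fin M → Lab × Lab × Lab × Lab := fun t =>
    (eA.symm ⟨(t : ℕ) % c, Nat.mod_lt _ hc0⟩).1
  let eL : Lab ≃ Fin (Fintype.card Lab) := Fintype.equivFin Lab
  set m := Fintype.card Lab with hm
  set σ : ℝ := Real.pi / 3 / M with hσ
  have hMr : (0:ℝ) < M := by exact_mod_cast hMpos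
  have hσ0 : 0 < σ := by have := Real.pi_pos; positivity
  -- the scale
  set s : ℝ := min (σ ^ 2 / 100000 / 3 ^ m) (1 / 3 ^ (2 * m + 1)) with hs
  have hs0 : 0 < s := by positivity
  have hs1 : s * 3 ^ m ≤ σ ^ 2 / 100000 := by
    have : s ≤ σ ^ 2 / 100000 / 3 ^ m := min_le_left _ _
    rwa [le_div_iff₀ (by positivity)] at this
  have hs2 : s * 3 ^ (2 * m + 1) ≤ 1 := by
    have : s ≤ 1 / 3 ^ (2 * m + 1) := min_le_right _ _
    rwa [le_div_iff₀ (by positivity)] at this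
  refine ⟨⟨M, σ, Real.sqrt 3 / 5 * σ, s * 3 ^ m, fun a => s * 3 ^ ((eL a : Fin m) : ℕ), τ, ?_, ?_,
    rfl, hs1, ?_, ?_, ?_, ?_, ?_, ?_, ?_⟩⟩
  · omega
  · rw [hσ]; field_simp
  · intro a; positivity
  · intro a
    apply mul_le_mul_of_nonneg_left _ hs0.le
    exact pow_le_pow_right₀ (by norm_num) (eL a).2.le
  · intro a b hab
    simp only at hab
    have h1 : (3:ℝ) ^ ((eL a : Fin m) : ℕ) = 3 ^ ((eL b : Fin m) : ℕ) := by
      exact mul_left_cancel₀ hs0.ne' hab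
    have h2 : (3:ℕ) ^ ((eL a : Fin m) : ℕ) = 3 ^ ((eL b : Fin m) : ℕ) := by exact_mod_cast h1
    have h3 := Nat.pow_right_injective (by norm_num : 2 ≤ 3) h2
    exact eL.injective (Fin.ext h3)
  · intro a b c e h
    simp only [← mul_add] at h
    have h1 := mul_left_cancel₀ hs0.ne' h
    have h2 : (3:ℕ) ^ ((eL a : Fin m) : ℕ) + 3 ^ ((eL b : Fin m) : ℕ) =
      3 ^ ((eL c : Fin m) : ℕ) + 3 ^ ((eL e : Fin m) : ℕ) := by exact_mod_cast h1
    rcases sidon3 h2 with ⟨g1, g2⟩ | ⟨g1, g2⟩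
    · left; exact ⟨eL.injective (Fin.ext g1), eL.injective (Fin.ext g2)⟩
    · right; exact ⟨eL.injective (Fin.ext g1), eL.injective (Fin.ext g2)⟩
  · intro a
    have h1 : (s * 3 ^ m) ^ 2 = s * (s * 3 ^ (2 * m)) := by ring
    have h2 : s * 3 ^ (2 * m) * 3 ≤ 1 := by
      have : s * 3 ^ (2 * m + 1) = s * 3 ^ (2 * m) * 3 := by rw [pow_succ]; ring
      rwa [this] at hs2
    have h3 : (1:ℝ) ≤ 3 ^ ((eL a : Fin m) : ℕ) := one_le_pow₀ (by norm_num)
    rw [h1]
    apply mul_lt_mul_of_pos_left _ hs0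
    linarith
  · intro t
    exact (eA.symm ⟨(t : ℕ) % c, Nat.mod_lt _ hc0⟩).2
  · intro L R T B h
    let x : A := ⟨(L, R, T, B), h⟩
    have hlt : ((eA x : Fin c) : ℕ) < M := lt_of_lt_of_le (eA x).2 hcM
    refine ⟨⟨((eA x : Fin c) : ℕ), hlt⟩, ?_⟩
    simp only [τ]
    have : (⟨((eA x : Fin c) : ℕ) % c, Nat.mod_lt _ hc0⟩ : Fin c) = eA x := by
      apply Fin.ext
      exact Nat.mod_eq_of_lt (eA x).2
    rw [this, Equiv.symm_apply_apply]

end Pool.Agent.Y370.Q
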