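import Pool.Agent.Y370.Q23

set_option autoImplicit false

namespace Pool.Agent.Y370.Q

open MeasureTheory Complex

/-- parity function of the sides -/
def fpar : Fin 6 → ZMod 3 := ![1, 0, 1, 0, 1, 0]

/-- sign of the sides -/
def sg : Fin 6 → ℝ := ![0, 1, -1, 0, 1, -1]

theorem comb_aux (κ lam lam' μ μ' : Fin 6) (ci cj ck : ZMod 3)
    (h1 : lam = κ ∨ lam = κ + 3) (h2 : lam' = κ + 1 ∨ lam' = κ + 1 + 3)
    (h3 : μ = lam + 1 ∨ lam = μ + 1) (h4 : μ' = lam' + 1 ∨ lam' = μ' + 1)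
    (h5 : μ' = μ ∨ μ' = μ + 3)
    (c1 : ci + fpar κ = cj + fpar lam) (c2 : ci + fpar (κ + 1) = ck + fpar lam')
    (c3 : cj + fpar μ = ck + fpar μ') : lam = κ + 3 ∧ lam = μ + 1 := by
  obtain ⟨x, hx⟩ : ∃ x, cj = ci + x := ⟨cj - ci, by ring⟩
  obtain ⟨y, hy⟩ : ∃ y, ck = ci + y := ⟨ck - ci, by ring⟩
  subst hx hy
  have c1' : fpar κ = x + fpar lam := by
    have := c1; rw [add_assoc] at this; exact add_left_cancel this
  have c2' : fpar (κ + 1) = y + fpar lam' := by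
    have := c2; rw [add_assoc] at this; exact add_left_cancel this
  have c3' : x + fpar μ = y + fpar μ' := by
    have := c3; rw [add_assoc, add_assoc] at this; exact add_left_cancel this
  clear c1 c2 c3
  have h1' : κ = lam ∨ κ + 3 = lam := h1.imp Eq.symm Eq.symm
  have h2' : κ + 1 = lam' ∨ κ + 1 + 3 = lam' := h2.imp Eq.symm Eq.symm
  have h5' : μ = μ' ∨ μ + 3 = μ' := h5.imp Eq.symm Eq.symm
  clear h1 h2 h5
  rcases h1' with rfl | rfl <;> rcases h2' with rfl | rfl <;> rcases h5' with rfl | rfl <;>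
    rcases h3 with h3 | h3 <;> rcases h4 with h4 | h4 <;>
    revert h3 h4 c1' c2' c3' <;> revert κ μ x y <;> clear ci <;> decide

namespace Fam

variable (F : Fam)

/-- labels seen on a side -/
def par (t : Fin F.M) : Fin 6 → Lab × Lab :=
  ![((F.τ t).2.1, (F.τ t).2.1), ((F.τ t).2.1, (F.τ t).2.2.1), ((F.τ t).1, (F.τ t).2.2.1),
    ((F.τ t).1, (F.τ t).1), ((F.τ t).1, (F.τ t).2.2.2), ((F.τ t).2.1, (F.τ t).2.2.2)]

lemma side_sq (t : Fin F.M) (κ : Fin 6) :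
    ‖F.V t (κ + 1) - F.V t κ‖ ^ 2 = 4 / 3 +
      (F.l (F.par t κ).1 + F.l (F.par t κ).2) ^ 2 +
      2 * sg κ * (F.l (F.par t κ).1 + F.l (F.par t κ).2) := by
  have e1 : F.V t (κ + 1) - F.V t κ = ev ((t : ℕ) * F.σ) * (F.H t (κ + 1) - F.H t κ) := by
    simp only [V]; ring
  rw [e1, norm_mul, norm_ev, one_mul, ← dot_self]
  have h3 : Real.sqrt 3 ≠ 0 := by positivity
  have hs := sqrt3_sq
  have h4 : (1 / Real.sqrt 3) ^ 2 = 1 / 3 := by rw [div_pow, hs]; norm_num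
  have h5 : 2 / Real.sqrt 3 = 2 * (1 / Real.sqrt 3) := by ring
  have hκ : κ = 0 ∨ κ = 1 ∨ κ = 2 ∨ κ = 3 ∨ κ = 4 ∨ κ = 5 := by clear * -; revert κ; decide
  have p0 : F.par t 0 = ((F.τ t).2.1, (F.τ t).2.1) := rfl
  have p1 : F.par t 1 = ((F.τ t).2.1, (F.τ t).2.2.1) := rfl
  have p2 : F.par t 2 = ((F.τ t).1, (F.τ t).2.2.1) := rfl
  have p3 : F.par t 3 = ((F.τ t).1, (F.τ t).1) := rfl
  have p4 : F.par t 4 = ((F.τ t).1, (F.τ t).2.2.2) := rfl
  have p5 : F.par t 5 = ((F.τ t).2.1, (F.τ t).2.2.2) := rfl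
  have v0 : F.H t 0 = ⟨1 - F.l (F.τ t).2.1, -(1 / Real.sqrt 3)⟩ := rfl
  have v1 : F.H t 1 = ⟨1 + F.l (F.τ t).2.1, 1 / Real.sqrt 3⟩ := rfl
  have v2 : F.H t 2 = ⟨-F.l (F.τ t).2.2.1, 2 / Real.sqrt 3⟩ := rfl
  have v3 : F.H t 3 = ⟨-1 + F.l (F.τ t).1, 1 / Real.sqrt 3⟩ := rfl
  have v4 : F.H t 4 = ⟨-1 - F.l (F.τ t).1, -(1 / Real.sqrt 3)⟩ := rfl
  have v5 : F.H t 5 = ⟨F.l (F.τ t).2.2.2, -(2 / Real.sqrt 3)⟩ := rfl
  have s0 : sg 0 = 0 := rfl
  have s1 : sg 1 = 1 := rfl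
  have s2 : sg 2 = -1 := rfl
  have s3 : sg 3 = 0 := rfl
  have s4 : sg 4 = 1 := rfl
  have s5 : sg 5 = -1 := rfl
  rcases hκ with rfl | rfl | rfl | rfl | rfl | rfl
  · rw [show (0 : Fin 6) + 1 = 1 from rfl, p0, v0, v1, s0]
    simp only [dot, sub_re, sub_im, h5]
    linear_combination 4 * h4
  · rw [show (1 : Fin 6) + 1 = 2 from rfl, p1, v1, v2, s1]
    simp only [dot, sub_re, sub_im, h5]
    linear_combination h4
  · rw [show (2 : Fin 6) + 1 = 3 from rfl, p2, v2, v3, s2]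
    simp only [dot, sub_re, sub_im, h5]
    linear_combination h4
  · rw [show (3 : Fin 6) + 1 = 4 from rfl, p3, v3, v4, s3]
    simp only [dot, sub_re, sub_im, h5]
    linear_combination 4 * h4
  · rw [show (4 : Fin 6) + 1 = 5 from rfl, p4, v4, v5, s4]
    simp only [dot, sub_re, sub_im, h5]
    linear_combination h4
  · rw [show (5 : Fin 6) + 1 = 0 from rfl, p5, v5, v0, s5]
    simp only [dot, sub_re, sub_im, h5]
    linear_combination h4

/-- equal side lengths: same class and same labels -/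
theorem same_length {t t' : Fin F.M} {κ κ' : Fin 6}
    (h : ‖F.V t (κ + 1) - F.V t κ‖ = ‖F.V t' (κ' + 1) - F.V t' κ'‖) :
    (κ' = κ ∨ κ' = κ + 3) ∧
    (((F.par t κ).1 = (F.par t' κ').1 ∧ (F.par t κ).2 = (F.par t' κ').2) ∨
     ((F.par t κ).1 = (F.par t' κ').2 ∧ (F.par t κ).2 = (F.par t' κ').1)) := by
  have hsq : ‖F.V t (κ + 1) - F.V t κ‖ ^ 2 = ‖F.V t' (κ' + 1) - F.V t' κ'‖ ^ 2 := by rw [h]
  rw [F.side_sq, F.side_sq] at hsq
  have hd1 : F.d ≤ 1e-6 := F.body0.d_le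
  have hd0 : 0 ≤ F.d := F.body0.hd0
  have hsid := F.lsidon (F.par t κ).1 (F.par t κ).2 (F.par t' κ').1 (F.par t' κ').2
  have a1 := F.lpos (F.par t κ).1
  have a2 := F.lpos (F.par t κ).2
  have a3 := F.lpos (F.par t' κ').1
  have a4 := F.lpos (F.par t' κ').2
  have b1 := F.lle (F.par t κ).1
  have b2 := F.lle (F.par t κ).2
  have b3 := F.lle (F.par t' κ').1
  have b4 := F.lle (F.par t' κ').2
  have c1 := F.lsep (F.par t κ).1
  have c2 := F.lsep (F.par t κ).2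
  have c3 := F.lsep (F.par t' κ').1
  have c4 := F.lsep (F.par t' κ').2
  set x := F.l (F.par t κ).1 + F.l (F.par t κ).2 with hx
  set y := F.l (F.par t' κ').1 + F.l (F.par t' κ').2 with hy
  have x0 : 0 < x := by linarith
  have y0 : 0 < y := by linarith
  have x1 : x ≤ 2 * F.d := by linarith
  have y1 : y ≤ 2 * F.d := by linarith
  have x2 : 2 * F.d ^ 2 < x := by linarith
  have y2 : 2 * F.d ^ 2 < y := by linarith
  have x3 : x ^ 2 ≤ 4 * F.d ^ 2 := by nlinarith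
  have y3 : y ^ 2 ≤ 4 * F.d ^ 2 := by nlinarith
  have hsgv : ∀ κ : Fin 6, (sg κ = 0 ∧ (κ = 0 ∨ κ = 3)) ∨ (sg κ = 1 ∧ (κ = 1 ∨ κ = 4)) ∨
      (sg κ = -1 ∧ (κ = 2 ∨ κ = 5)) := by
    intro κ
    fin_cases κ <;> simp [sg]
  have hfin0 : ∀ κ κ' : Fin 6, (κ = 0 ∨ κ = 3) → (κ' = 0 ∨ κ' = 3) → (κ' = κ ∨ κ' = κ + 3) := by
    decide
  have hfin1 : ∀ κ κ' : Fin 6, (κ = 1 ∨ κ = 4) → (κ' = 1 ∨ κ' = 4) → (κ' = κ ∨ κ' = κ + 3) := by
    decide
  have hfin2 : ∀ κ κ' : Fin 6, (κ = 2 ∨ κ = 5) → (κ' = 2 ∨ κ' = 5) → (κ' = κ ∨ κ' = κ + 3) := by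
    decide
  rcases hsgv κ with ⟨g1, g2⟩ | ⟨g1, g2⟩ | ⟨g1, g2⟩ <;>
    rcases hsgv κ' with ⟨g3, g4⟩ | ⟨g3, g4⟩ | ⟨g3, g4⟩ <;> rw [g1, g3] at hsq
  · have hxy : x = y := by
      have : (x - y) * (x + y) = 0 := by linarith
      rcases mul_eq_zero.1 this with h | h <;> linarith
    exact ⟨hfin0 _ _ g2 g4, hsid hxy⟩
  · exfalso; nlinarith
  · exfalso; nlinarith
  · exfalso; nlinarith
  · have hxy : x = y := by
      have : (x - y) * (x + y + 2) = 0 := by linarith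
      rcases mul_eq_zero.1 this with h | h <;> linarith
    exact ⟨hfin1 _ _ g2 g4, hsid hxy⟩
  · exfalso; nlinarith
  · exfalso; nlinarith
  · exfalso; nlinarith
  · have hxy : x = y := by
      have : (x - y) * (x + y - 2) = 0 := by linarith
      rcases mul_eq_zero.1 this with h | h
      · linarith
      · linarith
    exact ⟨hfin2 _ _ g2 g4, hsid hxy⟩

/-- the colours of a side -/
lemma col_par (t : Fin F.M) (κ : Fin 6) :
    -((F.par t κ).1.col + (F.par t κ).2.col) = (F.τ t).1.col + fpar κ := by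
  obtain ⟨h1, h2, h3, -, -⟩ := F.τall t
  have h3' : (3 : ZMod 3) = 0 := by decide
  fin_cases κ
  · change -((F.τ t).2.1.col + (F.τ t).2.1.col) = (F.τ t).1.col + 1
    rw [h1]; linear_combination (-(F.τ t).1.col - 1) * h3'
  · change -((F.τ t).2.1.col + (F.τ t).2.2.1.col) = (F.τ t).1.col + 0
    rw [h1, h2]; linear_combination (-(F.τ t).1.col - 1) * h3'
  · change -((F.τ t).1.col + (F.τ t).2.2.1.col) = (F.τ t).1.col + 1
    rw [h2]; linear_combination (-(F.τ t).1.col - 1) * h3'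
  · change -((F.τ t).1.col + (F.τ t).1.col) = (F.τ t).1.col + 0
    linear_combination (-(F.τ t).1.col) * h3'
  · change -((F.τ t).1.col + (F.τ t).2.2.2.col) = (F.τ t).1.col + 1
    rw [h3]; linear_combination (-(F.τ t).1.col - 1) * h3'
  · change -((F.τ t).2.1.col + (F.τ t).2.2.2.col) = (F.τ t).1.col + 0
    rw [h1, h3]; linear_combination (-(F.τ t).1.col - 1) * h3'

lemma same_col {t t' : Fin F.M} {κ κ' : Fin 6}
    (h : ‖F.V t (κ + 1) - F.V t κ‖ = ‖F.V t' (κ' + 1) - F.V t' κ'‖) :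
    (F.τ t).1.col + fpar κ = (F.τ t').1.col + fpar κ' := by
  rw [← F.col_par, ← F.col_par]
  rcases (F.same_length h).2 with ⟨h1, h2⟩ | ⟨h1, h2⟩
  · rw [h1, h2]
  · rw [h1, h2, add_comm]

end Fam

end Pool.Agent.Y370.Q
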