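import Pool.Agent.Y370.Q24

set_option autoImplicit false

namespace Pool.Agent.Y370.Q

open MeasureTheory Complex

lemma dot_lin (A : ℂ ≃ₗᵢ[ℝ] ℂ) (x y : ℂ) : dot (A x) (A y) = dot x y := by
  rw [dot_eq_inner, dot_eq_inner, LinearIsometryEquiv.inner_map_map]

/-- a periodic packing by congruent copies of the body -/
structure Pack (F : Fam) (n : ℕ) where
  g : Fin n → ℂ ≃ᵢ ℂ
  u : ℂ
  w : ℂ
  lin : LinearIndependent ℝ ![u, w]
  disj : ∀ i j : Fin n, ∀ a b c e : ℤ, (i, a, b) ≠ (j, c, e) →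
    Disjoint (interior ((fun x => g i x + ((a : ℝ) • u + (b : ℝ) • w)) '' F.K))
      (interior ((fun x => g j x + ((c : ℝ) • u + (e : ℝ) • w)) '' F.K))

/-- indices of the bodies -/
abbrev Idx (n : ℕ) : Type := Fin n × ℤ × ℤ

/-- shift of an index -/
def shift {n : ℕ} (i : Idx n) (s : ℤ × ℤ) : Idx n := (i.1, i.2.1 + s.1, i.2.2 + s.2)

namespace Pack

variable {F : Fam} {n : ℕ} (P : Pack F n)

/-- lattice vectors -/
noncomputable def lam (s : ℤ × ℤ) : ℂ := (s.1 : ℝ) • P.u + (s.2 : ℝ) • P.w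

lemma lam_add (s s' : ℤ × ℤ) : P.lam (s + s') = P.lam s + P.lam s' := by
  simp only [lam, Prod.fst_add, Prod.snd_add]; push_cast; module

lemma lam_neg (s : ℤ × ℤ) : P.lam (-s) = -P.lam s := by
  simp only [lam, Prod.fst_neg, Prod.snd_neg]; push_cast; module

lemma lam_zero : P.lam 0 = 0 := by simp [lam]

/-- linear part -/
noncomputable def A (i : Idx n) : ℂ ≃ₗᵢ[ℝ] ℂ := (P.g i.1).toRealLinearIsometryEquiv

/-- centre -/
noncomputable def cen (i : Idx n) : ℂ := P.g i.1 0 + P.lam i.2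

/-- placement -/
noncomputable def psi (i : Idx n) (x : ℂ) : ℂ := P.g i.1 x + P.lam i.2

lemma psi_eq (i : Idx n) (x : ℂ) : P.psi i x = P.cen i + P.A i x := by
  have : P.A i x = P.g i.1 x - P.g i.1 0 := IsometryEquiv.toRealLinearIsometryEquiv_apply _ _
  rw [psi, cen, this]; ring

lemma A_shift (i : Idx n) (s : ℤ × ℤ) : P.A (shift i s) = P.A i := rfl

lemma cen_shift (i : Idx n) (s : ℤ × ℤ) : P.cen (shift i s) = P.cen i + P.lam s := by
  have : P.lam (shift i s).2 = P.lam i.2 + P.lam s := by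
    rw [← P.lam_add]; rfl
  rw [cen, cen, this]
  simp only [shift]
  ring

lemma psi_shift (i : Idx n) (s : ℤ × ℤ) (x : ℂ) :
    P.psi (shift i s) x = P.psi i x + P.lam s := by
  rw [psi_eq, psi_eq, cen_shift, A_shift]; ring

/-- the bodies -/
def body (i : Idx n) : Set ℂ := P.psi i '' F.K

lemma body_disj {i j : Idx n} (h : i ≠ j) :
    Disjoint (interior (P.body i)) (interior (P.body j)) := by
  obtain ⟨i, a, b⟩ := i
  obtain ⟨j, c, e⟩ := j
  exact P.disj i j a b c e h

lemma ball_sub_body (i : Idx n) : Metric.ball (P.cen i) (1 - 1e-6) ⊆ P.body i := by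
  intro z hz
  refine ⟨(P.A i).symm (z - P.cen i), ?_, ?_⟩
  · apply F.K_ball
    rw [LinearIsometryEquiv.norm_map]
    rw [Metric.mem_ball, dist_eq_norm] at hz
    exact hz.le
  · rw [psi_eq, LinearIsometryEquiv.apply_symm_apply]; ring

lemma ball_sub_int (i : Idx n) : Metric.ball (P.cen i) (1 - 1e-6) ⊆ interior (P.body i) :=
  interior_maximal (P.ball_sub_body i) Metric.isOpen_ball

lemma cen_sep {i j : Idx n} (h : i ≠ j) : 2 * (1 - 1e-6) ≤ ‖P.cen i - P.cen j‖ := by
  by_contra hcon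
  push Not at hcon
  set m := (1 / 2 : ℝ) • (P.cen i + P.cen j) with hm
  have h1 : m ∈ Metric.ball (P.cen i) (1 - 1e-6) := by
    rw [Metric.mem_ball, dist_eq_norm]
    have : m - P.cen i = (-(1 / 2) : ℝ) • (P.cen i - P.cen j) := by rw [hm]; module
    rw [this, norm_smul]
    norm_num
    norm_num at hcon
    linarith
  have h2 : m ∈ Metric.ball (P.cen j) (1 - 1e-6) := by
    rw [Metric.mem_ball, dist_eq_norm]
    have : m - P.cen j = ((1 / 2) : ℝ) • (P.cen i - P.cen j) := by rw [hm]; module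
    rw [this, norm_smul]
    norm_num
    norm_num at hcon
    linarith
  exact Set.disjoint_left.1 (P.body_disj h) (P.ball_sub_int i h1) (P.ball_sub_int j h2)

/-- a separating line of two bodies, the bisector of the centres for bodies that are not close -/
def Sep (i j : Idx n) (p : ℂ × ℝ) : Prop :=
  ‖p.1‖ = 1 ∧ (∀ x ∈ P.body i, dot x p.1 ≤ p.2) ∧ (∀ x ∈ P.body j, p.2 ≤ dot x p.1) ∧
  (2 * (1 + 1e-6) ≤ ‖P.cen j - P.cen i‖ → ‖P.cen j - P.cen i‖ • p.1 = P.cen j - P.cen i ∧
    p.2 = dot (P.cen i) p.1 + ‖P.cen j - P.cen i‖ / 2)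

lemma exists_sep_aux {i j : Idx n} (h : i ≠ j) : ∃ (ν : ℂ) (η : ℝ), ‖ν‖ = 1 ∧
    (∀ x ∈ P.body i, dot x ν ≤ η) ∧ (∀ x ∈ P.body j, η ≤ dot x ν) := by
  have hconv : ∀ i, Convex ℝ (P.body i) := by
    intro i
    have : P.body i = (fun z => P.cen i + z) '' ((P.A i).toLinearEquiv.toLinearMap '' F.K) := by
      rw [Set.image_image]
      apply Set.image_congr
      intro x _
      exact P.psi_eq i x
    rw [this]
    exact (F.K_convex.linear_image _).translate _
  have hne : ∀ i, (interior (P.body i)).Nonempty := fun i =>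
    ⟨P.cen i, P.ball_sub_int i (Metric.mem_ball_self (by norm_num))⟩
  obtain ⟨f, c, h1, h2⟩ := geometric_hahn_banach_open (hconv i).interior isOpen_interior
    (hconv j).interior (P.body_disj h)
  have hcl : ∀ i, P.body i ⊆ closure (interior (P.body i)) := by
    intro i
    rw [(hconv i).closure_interior_eq_closure_of_nonempty_interior (hne i)]
    exact subset_closure
  have hf1 : ∀ x ∈ P.body i, f x ≤ c := by
    intro x hx
    have : closure (interior (P.body i)) ⊆ {x | f x ≤ c} :=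
      closure_minimal (fun y hy => (h1 y hy).le) (isClosed_le f.continuous continuous_const)
    exact this (hcl i hx)
  have hf2 : ∀ x ∈ P.body j, c ≤ f x := by
    intro x hx
    have : closure (interior (P.body j)) ⊆ {x | c ≤ f x} :=
      closure_minimal (fun y hy => (h2 y hy)) (isClosed_le continuous_const f.continuous)
    exact this (hcl j hx)
  set v : ℂ := ⟨f 1, f I⟩ with hv
  have hfv : ∀ x, f x = dot x v := by
    intro x
    have e1 : x = x.re • (1:ℂ) + x.im • I := by
      apply Complex.ext <;> simp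
    conv_lhs => rw [e1]
    rw [map_add, map_smul, map_smul]
    simp [dot, hv]
  have hv0 : v ≠ 0 := by
    intro h0
    obtain ⟨x, hx⟩ := hne i
    obtain ⟨y, hy⟩ := hne j
    have g1 := h1 x hx
    have g2 := h2 y hy
    rw [hfv, h0] at g1 g2
    simp [dot] at g1 g2
    linarith
  have hvn : 0 < ‖v‖ := norm_pos_iff.2 hv0
  refine ⟨(1 / ‖v‖) • v, c / ‖v‖, ?_, ?_, ?_⟩
  · rw [norm_smul, Real.norm_eq_abs, abs_of_pos (by positivity)]
    field_simp
  · intro x hx
    rw [dot_smul_right, ← hfv, div_mul_eq_mul_div, one_mul]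
    exact div_le_div_of_nonneg_right (hf1 x hx) hvn.le
  · intro x hx
    rw [dot_smul_right, ← hfv, div_mul_eq_mul_div, one_mul]
    exact div_le_div_of_nonneg_right (hf2 x hx) hvn.le

lemma exists_sep {i j : Idx n} (h : i ≠ j) : ∃ p, P.Sep i j p := by
  by_cases hfar : 2 * (1 + 1e-6) ≤ ‖P.cen j - P.cen i‖
  · have hpos : 0 < ‖P.cen j - P.cen i‖ := by linarith
    set D := ‖P.cen j - P.cen i‖ with hD
    set ν := (1 / D) • (P.cen j - P.cen i) with hν
    have hν1 : ‖ν‖ = 1 := by
      rw [hν, norm_smul, Real.norm_eq_abs, abs_of_pos (by positivity)]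
      field_simp
      exact hD.symm
    have hν2 : D • ν = P.cen j - P.cen i := by
      rw [hν, smul_smul, mul_one_div_cancel hpos.ne', one_smul]
    have hν3 : dot (P.cen j) ν - dot (P.cen i) ν = D := by
      rw [← dot_sub_left, ← hν2, dot_smul_left, dot_self, hν1]; ring
    refine ⟨(ν, dot (P.cen i) ν + D / 2), hν1, ?_, ?_, fun _ => ⟨hν2, rfl⟩⟩
    · rintro x ⟨y, hy, rfl⟩
      rw [psi_eq, dot_add_left]
      have g1 := (le_abs_self _).trans (abs_dot_le (P.A i y) ν)
      rw [hν1, mul_one, LinearIsometryEquiv.norm_map] at g1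
      have g2 := F.K_norm hy
      simp only
      linarith
    · rintro x ⟨y, hy, rfl⟩
      rw [psi_eq, dot_add_left]
      have g1 := (neg_abs_le _).trans' (neg_le_neg (abs_dot_le (P.A j y) ν))
      rw [hν1, mul_one, LinearIsometryEquiv.norm_map] at g1
      have g2 := F.K_norm hy
      simp only
      linarith
  · obtain ⟨ν, η, h1, h2, h3⟩ := P.exists_sep_aux h
    exact ⟨(ν, η), h1, h2, h3, fun h4 => absurd h4 hfar⟩

lemma Sep.symm {i j : Idx n} {p : ℂ × ℝ} (h : P.Sep i j p) : P.Sep j i (-p.1, -p.2) := by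
  obtain ⟨h1, h2, h3, h4⟩ := h
  have hneg : ∀ x, dot x (-p.1) = - dot x p.1 := by intro x; simp [dot]; ring
  refine ⟨by simpa using h1, ?_, ?_, ?_⟩
  · intro x hx
    simp only [hneg]
    linarith [h3 x hx]
  · intro x hx
    simp only [hneg]
    linarith [h2 x hx]
  · intro hfar
    rw [norm_sub_rev] at hfar
    obtain ⟨g1, g2⟩ := h4 hfar
    have g3 : dot (P.cen j) p.1 - dot (P.cen i) p.1 = ‖P.cen j - P.cen i‖ := by
      rw [← dot_sub_left]
      conv_lhs => rw [← g1]
      rw [dot_smul_left, dot_self, h1]; ring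
    rw [norm_sub_rev]
    refine ⟨?_, ?_⟩
    · rw [smul_neg, g1]; ring
    · simp only [hneg]
      linarith

lemma Sep.shift {i j : Idx n} {p : ℂ × ℝ} (h : P.Sep i j p) (s : ℤ × ℤ) :
    P.Sep (shift i s) (shift j s) (p.1, p.2 + dot (P.lam s) p.1) := by
  obtain ⟨h1, h2, h3, h4⟩ := h
  refine ⟨h1, ?_, ?_, ?_⟩
  · rintro x ⟨y, hy, rfl⟩
    rw [psi_shift, dot_add_left]
    have := h2 _ ⟨y, hy, rfl⟩
    simp only
    linarith
  · rintro x ⟨y, hy, rfl⟩
    rw [psi_shift, dot_add_left]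
    have := h3 _ ⟨y, hy, rfl⟩
    simp only
    linarith
  · rw [cen_shift, cen_shift]
    have e1 : P.cen j + P.lam s - (P.cen i + P.lam s) = P.cen j - P.cen i := by ring
    rw [e1]
    intro hfar
    obtain ⟨g1, g2⟩ := h4 hfar
    refine ⟨g1, ?_⟩
    simp only
    rw [dot_add_left]
    linarith

/-- order on pairs of indices, invariant under shifts -/
def less (i j : Idx n) : Prop :=
  i.1 < j.1 ∨ (i.1 = j.1 ∧ (0 < j.2.1 - i.2.1 ∨ (j.2.1 - i.2.1 = 0 ∧ 0 < j.2.2 - i.2.2)))

lemma less_shift (i j : Idx n) (s : ℤ × ℤ) : less (Q.shift i s) (Q.shift j s) ↔ less i j := by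
  simp only [less, Q.shift]
  have e1 : j.2.1 + s.1 - (i.2.1 + s.1) = j.2.1 - i.2.1 := by ring
  have e2 : j.2.2 + s.2 - (i.2.2 + s.2) = j.2.2 - i.2.2 := by ring
  rw [e1, e2]

lemma less_tri {i j : Idx n} (h : i ≠ j) : (less i j ∧ ¬ less j i) ∨ (less j i ∧ ¬ less i j) := by
  obtain ⟨p, a, b⟩ := i
  obtain ⟨q, c, e⟩ := j
  simp only [less]
  have h' : ¬ (p = q ∧ a = c ∧ b = e) := by
    rintro ⟨rfl, rfl, rfl⟩; exact h rfl
  rcases lt_trichotomy p q with h1 | h1 | h1
  · left
    refine ⟨Or.inl h1, ?_⟩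
    rintro (h2 | ⟨h2, _⟩)
    · exact absurd h1 (lt_asymm h2)
    · exact h1.ne h2.symm
  · subst h1
    have h'' : ¬ (a = c ∧ b = e) := fun g => h' ⟨rfl, g⟩
    have hi : ¬ p < p := lt_irrefl p
    by_cases hac : a = c
    · have hbe : b ≠ e := fun g => h'' ⟨hac, g⟩
      rcases lt_or_gt_of_ne hbe with g | g
      · left
        refine ⟨Or.inr ⟨rfl, Or.inr ⟨by omega, by omega⟩⟩, ?_⟩
        rintro (h2 | ⟨_, h2 | h2⟩)
        · exact hi h2
        · omega
        · omega
      · right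
        refine ⟨Or.inr ⟨rfl, Or.inr ⟨by omega, by omega⟩⟩, ?_⟩
        rintro (h2 | ⟨_, h2 | h2⟩)
        · exact hi h2
        · omega
        · omega
    · rcases lt_or_gt_of_ne hac with g | g
      · left
        refine ⟨Or.inr ⟨rfl, Or.inl (by omega)⟩, ?_⟩
        rintro (h2 | ⟨_, h2 | h2⟩)
        · exact hi h2
        · omega
        · omega
      · right
        refine ⟨Or.inr ⟨rfl, Or.inl (by omega)⟩, ?_⟩
        rintro (h2 | ⟨_, h2 | h2⟩)
        · exact hi h2
        · omega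
        · omega
  · right
    refine ⟨Or.inl h1, ?_⟩
    rintro (h2 | ⟨h2, _⟩)
    · exact absurd h1 (lt_asymm h2)
    · exact h1.ne h2.symm

open Classical in
/-- raw choice for normalised pairs -/
noncomputable def raw (p : Fin n) (j : Idx n) : ℂ × ℝ :=
  if h : ∃ x, P.Sep (p, 0, 0) j x then h.choose else 0

lemma raw_spec {p : Fin n} {j : Idx n} (h : (p, 0, 0) ≠ j) : P.Sep (p, 0, 0) j (P.raw p j) := by
  have := P.exists_sep h
  rw [raw, dif_pos this]
  exact this.choose_spec

/-- choice for the pair i, j, translated from the normalised pair -/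
noncomputable def pre (i j : Idx n) : ℂ × ℝ :=
  ((P.raw i.1 (Q.shift j (-i.2))).1, (P.raw i.1 (Q.shift j (-i.2))).2 +
    dot (P.lam i.2) (P.raw i.1 (Q.shift j (-i.2))).1)

lemma shift_shift (i : Idx n) (s s' : ℤ × ℤ) : Q.shift (Q.shift i s) s' = Q.shift i (s + s') := by
  simp only [Q.shift, Prod.fst_add, Prod.snd_add, Prod.mk.injEq, true_and]
  constructor <;> ring

lemma shift_zero (i : Idx n) : Q.shift i 0 = i := by
  simp [Q.shift]

lemma shift_inj {i j : Idx n} {s : ℤ × ℤ} (h : Q.shift i s = Q.shift j s) : i = j := by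
  have := congrArg (fun x => Q.shift x (-s)) h
  simpa [shift_shift, shift_zero] using this

lemma base_eq (i : Idx n) : Q.shift (i.1, 0, 0) i.2 = i := by
  simp [Q.shift]

lemma pre_spec {i j : Idx n} (h : i ≠ j) : P.Sep i j (P.pre i j) := by
  have h1 : (i.1, 0, 0) ≠ Q.shift j (-i.2) := by
    intro he
    apply h
    have := congrArg (fun x => Q.shift x i.2) he
    simpa [shift_shift, shift_zero, base_eq] using this
  have h2 := (P.raw_spec h1).shift P i.2
  rw [base_eq, shift_shift, neg_add_cancel, shift_zero] at h2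
  exact h2

lemma pre_shift (i j : Idx n) (s : ℤ × ℤ) : P.pre (Q.shift i s) (Q.shift j s) =
    ((P.pre i j).1, (P.pre i j).2 + dot (P.lam s) (P.pre i j).1) := by
  have e1 : Q.shift (Q.shift j s) (-(Q.shift i s).2) = Q.shift j (-i.2) := by
    rw [shift_shift]
    congr 1
    have : (Q.shift i s).2 = i.2 + s := rfl
    rw [this]; abel
  have e2 : P.lam (Q.shift i s).2 = P.lam i.2 + P.lam s := by rw [← lam_add]; rfl
  simp only [pre, e1, e2]
  have e3 : (Q.shift i s).1 = i.1 := rfl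
  rw [e3, dot_add_left]
  ext <;> simp
  ring

open Classical in
/-- normals and heights of the separating lines -/
noncomputable def sp (i j : Idx n) : ℂ × ℝ :=
  if less i j then P.pre i j else (-(P.pre j i).1, -(P.pre j i).2)

lemma sp_spec {i j : Idx n} (h : i ≠ j) : P.Sep i j (P.sp i j) := by
  unfold sp
  split_ifs
  · exact P.pre_spec h
  · exact (P.pre_spec h.symm).symm P

lemma sp_symm {i j : Idx n} (h : i ≠ j) : P.sp j i = (-(P.sp i j).1, -(P.sp i j).2) := by
  rcases less_tri h with ⟨h1, h2⟩ | ⟨h1, h2⟩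
  · rw [sp, sp, if_pos h1, if_neg h2]
  · rw [sp, sp, if_pos h1, if_neg h2]
    simp

lemma sp_shift (i j : Idx n) (s : ℤ × ℤ) : P.sp (Q.shift i s) (Q.shift j s) =
    ((P.sp i j).1, (P.sp i j).2 + dot (P.lam s) (P.sp i j).1) := by
  unfold sp
  by_cases h : less i j
  · rw [if_pos h, if_pos ((less_shift i j s).2 h), pre_shift]
  · rw [if_neg h, if_neg (fun g => h ((less_shift i j s).1 g)), pre_shift]
    apply Prod.ext
    · rfl
    · simp [dot]; ring

end Pack

end Pool.Agent.Y370.Q
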