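import Pool.Agent.Y370.Q25

set_option autoImplicit false

namespace Pool.Agent.Y370.Q

open MeasureTheory Complex

lemma volume_line {ν : ℂ} (hν : ‖ν‖ = 1) (c : ℝ) : volume {z : ℂ | dot z ν = c} = 0 := by
  let f : ℂ →ₗ[ℝ] ℝ :=
    { toFun := fun z => dot z ν
      map_add' := fun x y => dot_add_left x y ν
      map_smul' := fun a x => dot_smul_left a x ν }
  have h1 : {z : ℂ | dot z ν = c} = (fun z => z + c • ν) '' (LinearMap.ker f : Set ℂ) := by
    ext z
    constructor
    · intro hz
      refine ⟨z - c • ν, ?_, by simp⟩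
      change dot (z - c • ν) ν = 0
      have hz' : dot z ν = c := hz
      rw [dot_sub_left, dot_smul_left, dot_self, hν, hz']; ring
    · rintro ⟨y, hy, rfl⟩
      have hy' : dot y ν = 0 := hy
      change dot (y + c • ν) ν = c
      rw [dot_add_left, dot_smul_left, dot_self, hν, hy']; ring
  rw [h1, Set.image_add_right, measure_preimage_add_right]
  apply Measure.addHaar_submodule
  intro htop
  have h2 : ν ∈ LinearMap.ker f := by rw [htop]; trivial
  have h3 : dot ν ν = 0 := h2
  rw [dot_self, hν] at h3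
  norm_num at h3

lemma dot_symm_lin (A : ℂ ≃ₗᵢ[ℝ] ℂ) (x y : ℂ) : dot x (A.symm y) = dot (A x) y := by
  rw [← dot_lin A x (A.symm y), LinearIsometryEquiv.apply_symm_apply]

namespace Pack

variable {F : Fam} {n : ℕ} (P : Pack F n)

/-- normal -/
noncomputable def nu (i j : Idx n) : ℂ := (P.sp i j).1
/-- height -/
noncomputable def et (i j : Idx n) : ℝ := (P.sp i j).2

lemma nu_norm {i j : Idx n} (h : i ≠ j) : ‖P.nu i j‖ = 1 := (P.sp_spec h).1
lemma body_le {i j : Idx n} (h : i ≠ j) {x : ℂ} (hx : x ∈ P.body i) :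
    dot x (P.nu i j) ≤ P.et i j := (P.sp_spec h).2.1 x hx
lemma body_ge {i j : Idx n} (h : i ≠ j) {x : ℂ} (hx : x ∈ P.body j) :
    P.et i j ≤ dot x (P.nu i j) := (P.sp_spec h).2.2.1 x hx
lemma far {i j : Idx n} (h : i ≠ j) (h2 : 2 * (1 + 1e-6) ≤ ‖P.cen j - P.cen i‖) :
    ‖P.cen j - P.cen i‖ • P.nu i j = P.cen j - P.cen i ∧
    P.et i j = dot (P.cen i) (P.nu i j) + ‖P.cen j - P.cen i‖ / 2 := (P.sp_spec h).2.2.2 h2
lemma nu_symm {i j : Idx n} (h : i ≠ j) : P.nu j i = - P.nu i j := by
  rw [nu, P.sp_symm h]; rfl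
lemma et_symm {i j : Idx n} (h : i ≠ j) : P.et j i = - P.et i j := by
  rw [et, P.sp_symm h]; rfl
lemma nu_shift (i j : Idx n) (s : ℤ × ℤ) : P.nu (Q.shift i s) (Q.shift j s) = P.nu i j := by
  rw [nu, P.sp_shift]; rfl
lemma et_shift (i j : Idx n) (s : ℤ × ℤ) : P.et (Q.shift i s) (Q.shift j s) =
    P.et i j + dot (P.lam s) (P.nu i j) := by
  rw [et, P.sp_shift]; rfl

/-- the cell of a body -/
def D (i : Idx n) : Set ℂ := {z | ∀ j, j ≠ i → dot z (P.nu i j) ≤ P.et i j}

/-- centres of the other bodies in the frame of body i -/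
noncomputable def fc (i : Idx n) (j : {j // j ≠ i}) : ℂ := (P.A i).symm (P.cen j - P.cen i)
/-- normals in the frame of body i -/
noncomputable def fν (i : Idx n) (j : {j // j ≠ i}) : ℂ := (P.A i).symm (P.nu i j)
/-- heights in the frame of body i -/
noncomputable def fη (i : Idx n) (j : {j // j ≠ i}) : ℝ := P.et i j - dot (P.cen i) (P.nu i j)

lemma norm_fc (i : Idx n) (j : {j // j ≠ i}) : ‖P.fc i j‖ = ‖P.cen j - P.cen i‖ :=
  LinearIsometryEquiv.norm_map _ _

lemma fK (i : Idx n) (j : {j // j ≠ i}) (x : ℂ) (hx : x ∈ F.K) :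
    dot x (P.fν i j) ≤ P.fη i j := by
  have h1 := P.body_le j.2.symm (x := P.psi i x) ⟨x, hx, rfl⟩
  rw [psi_eq, dot_add_left] at h1
  rw [fν, dot_symm_lin, fη]
  linarith

lemma nbHyp (i : Idx n) : NbHyp (P.fc i) (P.fν i) (P.fη i) where
  hν := fun j => by rw [fν, LinearIsometryEquiv.norm_map]; exact P.nu_norm j.2.symm
  hη := fun j => by
    have h1 := F.body.eta_lower' (ν := P.fν i) (η := P.fη i)
      (fun j => by rw [fν, LinearIsometryEquiv.norm_map]; exact P.nu_norm j.2.symm)
      (fun j x hx => P.fK i j x hx) j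
    have h2 := F.body.d_le
    linarith
  hc := fun j => by
    have hn := P.nu_norm j.2.symm
    have h1 : ∀ ε : ℝ, 0 < ε → P.fη i j + (1 - 1e-6) ≤ dot (P.fc i j) (P.fν i j) + ε := by
      intro ε hε
      by_cases hε1 : 1 - 1e-6 < ε
      · have h1 := P.body_ge j.2.symm (x := P.cen j)
          (interior_subset (P.ball_sub_int j (Metric.mem_ball_self (by norm_num))))
        rw [fc, fν, dot_lin, fη, dot_sub_left]
        linarith
      push Not at hε1
      have h1 := P.body_ge j.2.symm (x := P.cen j - (1 - 1e-6 - ε) • P.nu i j)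
        (interior_subset (P.ball_sub_int j (by
          rw [Metric.mem_ball, dist_eq_norm]
          have : P.cen j - (1 - 1e-6 - ε) • P.nu i j - P.cen j =
            -((1 - 1e-6 - ε) • P.nu i j) := by ring
          rw [this, norm_neg, norm_smul, hn, mul_one, Real.norm_eq_abs,
            abs_of_nonneg (by linarith)]
          linarith)))
      rw [dot_sub_left, dot_smul_left, dot_self, hn] at h1
      rw [fc, fν, dot_lin, fη, dot_sub_left]
      linarith
    exact le_of_forall_pos_le_add h1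
  hsep := fun j k hjk => by
    have : P.fc i j - P.fc i k = (P.A i).symm (P.cen j - P.cen k) := by
      rw [fc, fc, ← map_sub]; congr 1; ring
    rw [this, LinearIsometryEquiv.norm_map]
    exact P.cen_sep (fun h => hjk (Subtype.ext h))
  hfar := fun j hj => by
    rw [norm_fc] at hj ⊢
    obtain ⟨h1, h2⟩ := P.far j.2.symm hj
    refine ⟨?_, ?_⟩
    · rw [fν, ← map_smul, h1, fc]
    · rw [fη, h2]; ring

lemma mem_D_iff (i : Idx n) (x : ℂ) : P.psi i x ∈ P.D i ↔ x ∈ cell (P.fν i) (P.fη i) := by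
  simp only [D, cell, Set.mem_ofPred_eq]
  constructor
  · intro h j
    have h1 := h j j.2
    rw [psi_eq, dot_add_left] at h1
    rw [fν, dot_symm_lin, fη]
    linarith
  · intro h j hj
    have h1 := h ⟨j, hj⟩
    rw [fν, dot_symm_lin, fη] at h1
    rw [psi_eq, dot_add_left]
    linarith

lemma D_eq (i : Idx n) : P.D i = P.psi i '' cell (P.fν i) (P.fη i) := by
  ext z
  constructor
  · intro hz
    refine ⟨(P.A i).symm (z - P.cen i), ?_, ?_⟩
    · rw [← mem_D_iff, psi_eq, LinearIsometryEquiv.apply_symm_apply]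
      simpa using hz
    · rw [psi_eq, LinearIsometryEquiv.apply_symm_apply]; ring
  · rintro ⟨x, hx, rfl⟩
    exact (P.mem_D_iff i x).2 hx

lemma vol_psi (i : Idx n) (s : Set ℂ) : volume (P.psi i '' s) = volume s := by
  have h1 : P.psi i '' s = (fun z => z + P.cen i) '' (P.A i '' s) := by
    rw [Set.image_image]
    apply Set.image_congr
    intro x _
    rw [psi_eq, add_comm]
  rw [h1, Set.image_add_right, measure_preimage_add_right]
  have h2 := (P.A i).symm.measurePreserving
  have h3 : P.A i '' s = (P.A i).symm ⁻¹' s := by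
    ext z
    constructor
    · rintro ⟨x, hx, rfl⟩
      simpa using hx
    · intro hz
      exact ⟨(P.A i).symm z, hz, by simp⟩
  rw [h3]
  exact h2.measure_preimage_equiv (f := (P.A i).symm.toHomeomorph.toMeasurableEquiv) s

lemma vol_D (i : Idx n) : volume (P.D i) = volume (cell (P.fν i) (P.fη i)) := by
  rw [D_eq, vol_psi]

/-- every cell has area at least 2√3 -/
lemma vol_D_ge (i : Idx n) : ENNReal.ofReal (2 * Real.sqrt 3) ≤ volume (P.D i) := by
  rw [vol_D]
  by_contra h
  push Not at h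
  exact absurd (local_main F.body (P.nbHyp i) (fun j x hx => P.fK i j x hx) h.le).1 (not_le.2 h)

lemma D_shift (i : Idx n) (s : ℤ × ℤ) (z : ℂ) :
    z + P.lam s ∈ P.D (Q.shift i s) ↔ z ∈ P.D i := by
  simp only [D, Set.mem_ofPred_eq]
  constructor
  · intro h j hj
    have h1 := h (Q.shift j s) (fun he => hj (shift_inj he))
    rw [nu_shift, et_shift, dot_add_left] at h1
    linarith
  · intro h j hj
    have e1 : Q.shift (Q.shift j (-s)) s = j := by
      rw [shift_shift, neg_add_cancel, shift_zero]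
    have h1 := h (Q.shift j (-s)) (fun he => hj (by rw [← e1, he]))
    rw [← e1, nu_shift, et_shift, dot_add_left]
    linarith

lemma D_closed (i : Idx n) : IsClosed (P.D i) := by
  have : P.D i = ⋂ j, ⋂ (_ : j ≠ i), {z | dot z (P.nu i j) ≤ P.et i j} := by
    ext z; simp [D]
  rw [this]
  refine isClosed_iInter fun j => isClosed_iInter fun _ => isClosed_le ?_ continuous_const
  unfold dot
  fun_prop

lemma D_inter {i j : Idx n} (h : i ≠ j) : volume (P.D i ∩ P.D j) = 0 := by
  apply measure_mono_null _ (volume_line (P.nu_norm h) (P.et i j))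
  rintro z ⟨h1, h2⟩
  have g1 := h1 j h.symm
  have g2 := h2 i h
  rw [P.nu_symm h, P.et_symm h] at g2
  have g3 : dot z (-P.nu i j) = - dot z (P.nu i j) := by simp [dot]; ring
  rw [g3] at g2
  exact le_antisymm g1 (by linarith)

end Pack

end Pool.Agent.Y370.Q
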