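import Pool.Agent.Y370.Q26

set_option autoImplicit false

namespace Pool.Agent.Y370.Q

open MeasureTheory Complex
open scoped Pointwise

namespace Pack

variable {F : Fam} {n : ℕ} (P : Pack F n)

/-- basis of the lattice -/
noncomputable def bas : Module.Basis (Fin 2) ℝ ℂ :=
  basisOfLinearIndependentOfCardEqFinrank P.lin (by simp)

lemma bas_coe : (P.bas : Fin 2 → ℂ) = ![P.u, P.w] := by
  simp [bas]

/-- area of the fundamental domain -/
noncomputable def fa : ENNReal := volume (ZSpan.fundamentalDomain P.bas)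

lemma fa_eq : P.fa = volume (parallelepiped ![P.u, P.w]) := by
  rw [fa, ← bas_coe]
  exact measure_congr (ZSpan.fundamentalDomain_ae_parallelepiped P.bas volume)

lemma fa_ne_top : P.fa ≠ ⊤ := by
  rw [fa]
  exact (ZSpan.fundamentalDomain_isBounded P.bas).measure_lt_top.ne

/-- the lattice -/
noncomputable abbrev Lat : AddSubgroup ℂ := (Submodule.span ℤ (Set.range P.bas)).toAddSubgroup

lemma lam_mem (s : ℤ × ℤ) : P.lam s ∈ P.Lat := by
  rw [Lat, Submodule.mem_toAddSubgroup, bas_coe]
  have h1 : P.u ∈ Submodule.span ℤ (Set.range ![P.u, P.w]) :=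
    Submodule.subset_span ⟨0, rfl⟩
  have h2 : P.w ∈ Submodule.span ℤ (Set.range ![P.u, P.w]) :=
    Submodule.subset_span ⟨1, rfl⟩
  have h3 : P.lam s = s.1 • P.u + s.2 • P.w := by
    rw [lam]; simp
  rw [h3]
  exact Submodule.add_mem _ (Submodule.smul_mem _ _ h1) (Submodule.smul_mem _ _ h2)

lemma exists_lam (x : P.Lat) : ∃ s, P.lam s = x := by
  have hx : (x : ℂ) ∈ Submodule.span ℤ (Set.range P.bas) := x.2
  rw [bas_coe, Submodule.mem_span_range_iff_exists_fun] at hx
  obtain ⟨c, hc⟩ := hx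
  refine ⟨(c 0, c 1), ?_⟩
  rw [lam, ← hc]
  simp [Fin.sum_univ_two]

/-- coordinates of a lattice vector -/
noncomputable def co (x : P.Lat) : ℤ × ℤ := (P.exists_lam x).choose

lemma lam_co (x : P.Lat) : P.lam (P.co x) = x := (P.exists_lam x).choose_spec

/-- piece of a cell in the fundamental domain -/
noncomputable def pc (x : Fin n × P.Lat) : Set ℂ :=
  P.D (x.1, P.co x.2) ∩ ZSpan.fundamentalDomain P.bas

lemma vadd_D (p : Fin n) (x : P.Lat) : x +ᵥ P.D (p, 0, 0) = P.D (p, P.co x) := by
  ext z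
  have h0 : Q.shift (p, 0, 0) (P.co x) = (p, P.co x) := base_eq (p, P.co x)
  constructor
  · rintro ⟨y, hy, rfl⟩
    have h1 := (P.D_shift (p, 0, 0) (P.co x) y).2 hy
    rw [h0, lam_co] at h1
    have h2 : (fun z => x +ᵥ z) y = y + x := by
      change (x : ℂ) + y = y + x
      exact add_comm _ _
    rw [h2]
    exact h1
  · intro hz
    refine ⟨z - x, ?_, ?_⟩
    · have h1 := (P.D_shift (p, 0, 0) (P.co x) (z - x)).1
      rw [h0, lam_co, sub_add_cancel] at h1
      exact h1 hz
    · change (x : ℂ) + (z - x) = z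
      exact add_sub_cancel _ _

lemma sum_eq : ∑ p, volume (P.D (p, 0, 0)) = volume (⋃ x, P.pc x) := by
  have : Countable P.Lat :=
    inferInstanceAs (Countable (Submodule.span ℤ (Set.range P.bas)))
  have hfd := ZSpan.isAddFundamentalDomain' P.bas (volume : Measure ℂ)
  have hpair : Pairwise (Function.onFun (AEDisjoint volume) P.pc) := by
    intro x y hxy
    have hne : (((x.1, P.co x.2) : Idx n)) ≠ ((y.1, P.co y.2) : Idx n) := by
      intro h
      apply hxy
      have h1 : x.1 = y.1 := (Prod.ext_iff.1 h).1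
      have h2 : P.co x.2 = P.co y.2 := (Prod.ext_iff.1 h).2
      have h3 : x.2 = y.2 := by
        apply Subtype.ext
        rw [← P.lam_co x.2, ← P.lam_co y.2, h2]
      exact Prod.ext h1 h3
    apply measure_mono_null _ (P.D_inter hne)
    rintro z ⟨hz1, hz2⟩
    exact ⟨hz1.1, hz2.1⟩
  have hmeas : ∀ x, NullMeasurableSet (P.pc x) volume := fun x =>
    ((P.D_closed _).measurableSet.inter
      (ZSpan.fundamentalDomain_measurableSet P.bas)).nullMeasurableSet
  rw [measure_iUnion₀ hpair hmeas, ENNReal.tsum_prod', tsum_fintype]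
  apply Finset.sum_congr rfl
  intro p _
  rw [hfd.measure_eq_tsum (P.D (p, 0, 0))]
  apply tsum_congr
  intro x
  rw [vadd_D]
  rfl

lemma sum_le : ∑ p, volume (P.D (p, 0, 0)) ≤ P.fa := by
  rw [sum_eq, fa]
  apply measure_mono
  apply Set.iUnion_subset
  intro x
  exact Set.inter_subset_right

/-- area bound -/
theorem area_bound : ENNReal.ofReal (n * (2 * Real.sqrt 3)) ≤ P.fa := by
  refine le_trans ?_ P.sum_le
  calc ENNReal.ofReal (n * (2 * Real.sqrt 3)) = ∑ _p : Fin n, ENNReal.ofReal (2 * Real.sqrt 3) := by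
        rw [Finset.sum_const, Finset.card_univ, Fintype.card_fin, nsmul_eq_mul,
          ENNReal.ofReal_mul (by positivity), ENNReal.ofReal_natCast]
    _ ≤ ∑ p, volume (P.D (p, 0, 0)) := Finset.sum_le_sum fun p _ => P.vol_D_ge _

/-- tightness: every cell has area exactly 2√3 -/
theorem tight_cell (h : P.fa ≤ ENNReal.ofReal (n * (2 * Real.sqrt 3))) (p : Fin n) :
    volume (P.D (p, 0, 0)) ≤ ENNReal.ofReal (2 * Real.sqrt 3) := by
  classical
  by_contra hcon
  push Not at hcon
  have h1 : ∑ _p : Fin n, ENNReal.ofReal (2 * Real.sqrt 3) < ∑ p, volume (P.D (p, 0, 0)) := by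
    rw [← Finset.add_sum_erase Finset.univ _ (Finset.mem_univ p),
      ← Finset.add_sum_erase Finset.univ (fun p => volume (P.D (p, 0, 0))) (Finset.mem_univ p)]
    apply ENNReal.add_lt_add_of_lt_of_le _ hcon
    · exact Finset.sum_le_sum fun p _ => P.vol_D_ge _
    · exact (ENNReal.sum_lt_top.2 fun _ _ => ENNReal.ofReal_lt_top).ne
  have h2 : ENNReal.ofReal (n * (2 * Real.sqrt 3)) =
      ∑ _p : Fin n, ENNReal.ofReal (2 * Real.sqrt 3) := by
    rw [Finset.sum_const, Finset.card_univ, Fintype.card_fin, nsmul_eq_mul,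
      ENNReal.ofReal_mul (by positivity), ENNReal.ofReal_natCast]
  rw [← h2] at h1
  exact absurd (h1.trans_le P.sum_le) (not_lt.2 h)

/-- tightness: the cells cover almost everything -/
theorem tight_cover (h : P.fa ≤ ENNReal.ofReal (n * (2 * Real.sqrt 3))) :
    volume (⋃ i, P.D i)ᶜ = 0 := by
  have : Countable P.Lat :=
    inferInstanceAs (Countable (Submodule.span ℤ (Set.range P.bas)))
  have hfd := ZSpan.isAddFundamentalDomain' P.bas (volume : Measure ℂ)
  have h1 : P.fa ≤ volume (⋃ x, P.pc x) := by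
    rw [← sum_eq]
    refine h.trans ?_
    calc ENNReal.ofReal (n * (2 * Real.sqrt 3)) = ∑ _p : Fin n, ENNReal.ofReal (2 * Real.sqrt 3) := by
          rw [Finset.sum_const, Finset.card_univ, Fintype.card_fin, nsmul_eq_mul,
            ENNReal.ofReal_mul (by positivity), ENNReal.ofReal_natCast]
      _ ≤ ∑ p, volume (P.D (p, 0, 0)) := Finset.sum_le_sum fun p _ => P.vol_D_ge _
  have hmeas : MeasurableSet (⋃ x, P.pc x) := by
    have : Countable P.Lat :=
    inferInstanceAs (Countable (Submodule.span ℤ (Set.range P.bas)))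
    apply MeasurableSet.iUnion
    intro x
    exact (P.D_closed _).measurableSet.inter (ZSpan.fundamentalDomain_measurableSet P.bas)
  have hsub : (⋃ x, P.pc x) ⊆ ZSpan.fundamentalDomain P.bas := by
    apply Set.iUnion_subset
    intro x
    exact Set.inter_subset_right
  have h2 : volume (ZSpan.fundamentalDomain P.bas \ ⋃ x, P.pc x) = 0 := by
    rw [measure_sdiff hsub hmeas.nullMeasurableSet]
    · exact tsub_eq_zero_of_le h1
    · exact ((measure_mono hsub).trans_lt (lt_top_iff_ne_top.2 P.fa_ne_top)).ne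
  apply hfd.measure_zero_of_invariant
  · intro x
    ext z
    constructor
    · rintro ⟨y, hy, rfl⟩
      intro hz
      apply hy
      rw [Set.mem_iUnion] at hz ⊢
      obtain ⟨i, hi⟩ := hz
      refine ⟨Q.shift i (-P.co x), ?_⟩
      rw [← P.D_shift _ (P.co x), shift_shift, neg_add_cancel, shift_zero, lam_co]
      have h2 : (fun z => x +ᵥ z) y = y + x := by
        change (x : ℂ) + y = y + x
        exact add_comm _ _
      rw [← h2]
      exact hi
    · intro hz
      refine ⟨z - x, ?_, ?_⟩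
      · intro hy
        apply hz
        rw [Set.mem_iUnion] at hy ⊢
        obtain ⟨i, hi⟩ := hy
        refine ⟨Q.shift i (P.co x), ?_⟩
        rw [← P.D_shift i (P.co x), lam_co, sub_add_cancel] at hi
        exact hi
      · change (x : ℂ) + (z - x) = z
        exact add_sub_cancel _ _
  · apply measure_mono_null _ h2
    rintro z ⟨hz1, hz2⟩
    refine ⟨hz2, ?_⟩
    intro hz3
    apply hz1
    rw [Set.mem_iUnion] at hz3 ⊢
    obtain ⟨x, hx⟩ := hz3
    exact ⟨_, hx.1⟩

/-- no open set avoids all the cells -/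
theorem tight_open (h : P.fa ≤ ENNReal.ofReal (n * (2 * Real.sqrt 3))) {U : Set ℂ}
    (hU : IsOpen U) (hne : U.Nonempty) : ∃ i, ∃ z ∈ U, z ∈ P.D i := by
  by_contra hcon
  push Not at hcon
  have h1 : U ⊆ (⋃ i, P.D i)ᶜ := by
    intro z hz hz2
    rw [Set.mem_iUnion] at hz2
    obtain ⟨i, hi⟩ := hz2
    exact hcon i z hz hi
  have h2 := measure_mono_null h1 (P.tight_cover h)
  exact (hU.measure_pos volume hne).ne' h2

end Pack

end Pool.Agent.Y370.Q
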