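import Pool.Agent.Y370.Q27

set_option autoImplicit false

namespace Pool.Agent.Y370.Q

open MeasureTheory Complex

/-- contact direction -/
noncomputable def dir (F : Fam) (t : Fin F.M) (κ : Fin 6) : ℂ :=
  ev ((t : ℕ) * F.σ + (κ : ℕ) * (Real.pi / 3))

lemma dir_add (F : Fam) (t : Fin F.M) (κ : Fin 6) (m : Fin 6) :
    dir F t (κ + m) = ev ((t : ℕ) * F.σ + (κ : ℕ) * (Real.pi / 3) + (m : ℕ) * (Real.pi / 3)) := by
  unfold dir
  obtain ⟨q, hq⟩ : ∃ q : ℕ, κ.val + m.val = (κ + m : Fin 6).val + 6 * q :=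
    ⟨(κ.val + m.val) / 6, by rw [Fin.val_add]; omega⟩
  rw [← ev_add_int _ (q : ℤ)]
  congr 1
  have h3 : ((κ.val : ℝ) + m.val) = ((κ + m : Fin 6).val : ℝ) + 6 * q := by exact_mod_cast hq
  push_cast
  linear_combination (-(Real.pi / 3)) * h3

lemma dot_dir (F : Fam) (t : Fin F.M) (κ : Fin 6) (m : Fin 6) :
    dot (dir F t κ) (dir F t (κ + m)) = Real.cos ((m : ℕ) * (Real.pi / 3)) := by
  rw [dir_add]
  unfold dir
  rw [dot_ev]
  congr 1
  ring

lemma norm_dir (F : Fam) (t : Fin F.M) (κ : Fin 6) : ‖dir F t κ‖ = 1 := norm_ev _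

/-- vertices are near the ideal vertices -/
lemma V_ideal (F : Fam) (t : Fin F.M) (κ : Fin 6) :
    ‖F.V t (κ + 1) - (2 / 3 : ℝ) • (dir F t κ + dir F t (κ + 1))‖ ≤ F.d := by
  have h1 := F.body.V_close t ((κ : ℕ) + 1)
  have h0 : fk ((κ : ℕ) : ℤ) = κ := by
    apply Fin.ext
    have := fk_val ((κ : ℕ) : ℤ)
    have := κ.2
    omega
  rw [fk_add_one, h0] at h1
  have e1 : (2 / Real.sqrt 3) • ev ((t : ℕ) * F.σ + ((((κ : ℕ) : ℤ) + 1 : ℤ) : ℝ) *
      (Real.pi / 3) - Real.pi / 6) = (2 / 3 : ℝ) • (dir F t κ + dir F t (κ + 1)) := by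
    rw [dir_add]
    unfold dir
    have e2 : ((1 : Fin 6) : ℕ) = 1 := rfl
    rw [e2]
    set x := (t : ℕ) * F.σ + (κ : ℕ) * (Real.pi / 3) with hx
    have e3 : (t : ℕ) * F.σ + ((((κ : ℕ) : ℤ) + 1 : ℤ) : ℝ) * (Real.pi / 3) - Real.pi / 6 =
        x + Real.pi / 6 := by rw [hx]; push_cast; ring
    have e4 : x + ((1 : ℕ) : ℝ) * (Real.pi / 3) = x + Real.pi / 3 := by push_cast; ring
    rw [e3, e4]
    have hs := sqrt3_sq
    have hne : Real.sqrt 3 ≠ 0 := by positivity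
    have h5 : 2 / Real.sqrt 3 = 2 / 3 * Real.sqrt 3 := by
      field_simp; linarith
    apply Complex.ext
    · simp only [ev, real_smul, mul_re, ofReal_re, ofReal_im, add_re, zero_mul, sub_zero,
        Real.cos_add, Real.cos_pi_div_six, Real.sin_pi_div_six, Real.cos_pi_div_three,
        Real.sin_pi_div_three, h5]
      linear_combination (1 / 3 * Real.cos x) * hs
    · simp only [ev, real_smul, mul_im, ofReal_re, ofReal_im, add_im, zero_mul, add_zero,
        Real.sin_add, Real.cos_pi_div_six, Real.sin_pi_div_six, Real.cos_pi_div_three,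
        Real.sin_pi_div_three, h5]
      linear_combination (1 / 3 * Real.sin x) * hs
  rw [e1] at h1
  exact h1

/-- some contact direction is within 30 degrees -/
lemma exists_dir (F : Fam) (t : Fin F.M) (z : ℂ) : ∃ κ, 0.86 * ‖z‖ ≤ dot z (dir F t κ) := by
  obtain ⟨k, hk⟩ := exists_round (σ := Real.pi / 3) (by positivity) (arg z - (t : ℕ) * F.σ)
  refine ⟨fk k, ?_⟩
  have h2 : dir F t (fk k) = ev ((t : ℕ) * F.σ + k * (Real.pi / 3)) := by
    unfold dir
    have h3 := fk_val k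
    have h4 := Int.emod_add_mul_ediv k 6
    rw [← h3] at h4
    rw [← ev_add_int ((t : ℕ) * F.σ + (fk k : ℕ) * (Real.pi / 3)) (k / 6)]
    congr 1
    have h5 : (k : ℝ) = ((fk k : ℕ) : ℝ) + 6 * ((k / 6 : ℤ) : ℝ) := by
      exact_mod_cast h4.symm
    rw [h5]; ring
  have e1 : z = ‖z‖ • ev (arg z) := by
    apply Complex.ext
    · simp [ev, Complex.norm_mul_cos_arg]
    · simp [ev, Complex.norm_mul_sin_arg]
  have h3 : dot z (dir F t (fk k)) = ‖z‖ * Real.cos (arg z - (t : ℕ) * F.σ - k * (Real.pi / 3)) := by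
    rw [h2]
    conv_lhs => rw [e1]
    rw [dot_smul_left, dot_ev, ← Real.cos_neg]
    congr 2
    ring
  rw [h3, mul_comm]
  apply mul_le_mul_of_nonneg_left _ (norm_nonneg _)
  have hp := Real.pi_lt_d4
  have h4 : Real.cos (Real.pi / 6) ≤ Real.cos (arg z - (t : ℕ) * F.σ - k * (Real.pi / 3)) := by
    rw [← Real.cos_abs (arg z - (t : ℕ) * F.σ - k * (Real.pi / 3))]
    apply Real.cos_le_cos_of_nonneg_of_le_pi (abs_nonneg _) (by linarith [Real.pi_pos])
    linarith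
  rw [Real.cos_pi_div_six] at h4
  have := sqrt3_lo
  linarith

namespace Pack

variable {F : Fam} {n : ℕ} (P : Pack F n)

/-- local structure at a body -/
structure Loc (i : Idx n) (t : Fin F.M) (J : Fin 6 → Idx n) : Prop where
  ne : ∀ κ, J κ ≠ i
  inj : Function.Injective J
  l2 : ∀ κ, dot (P.psi i (F.V t κ)) (P.nu i (J κ)) = P.et i (J κ)
  l3 : ∀ κ, dot (P.psi i (F.V t (κ + 1))) (P.nu i (J κ)) = P.et i (J κ)
  l4 : ∀ κ, ‖P.cen (J κ) - P.cen i - (2:ℝ) • P.A i (dir F t κ)‖ ≤ 0.02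
  l5 : ∀ j, j ≠ i → ‖P.cen j - P.cen i‖ < 2.8 → ∃ κ, J κ = j

lemma Loc.shift {i : Idx n} {t : Fin F.M} {J : Fin 6 → Idx n} (h : P.Loc i t J) (s : ℤ × ℤ) :
    P.Loc (Q.shift i s) t (fun κ => Q.shift (J κ) s) where
  ne := fun κ he => h.ne κ (shift_inj he)
  inj := fun a b hab => h.inj (shift_inj hab)
  l2 := fun κ => by
    rw [psi_shift, nu_shift, et_shift, dot_add_left, h.l2]
  l3 := fun κ => by
    rw [psi_shift, nu_shift, et_shift, dot_add_left, h.l3]
  l4 := fun κ => by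
    rw [cen_shift, cen_shift, A_shift, add_sub_add_right_eq_sub]
    exact h.l4 κ
  l5 := fun j hj hj2 => by
    have e1 : Q.shift (Q.shift j (-s)) s = j := by
      rw [shift_shift, neg_add_cancel, shift_zero]
    have e2 : P.cen j = P.cen (Q.shift j (-s)) + P.lam s := by rw [← cen_shift, e1]
    rw [e2, P.cen_shift i s, add_sub_add_right_eq_sub] at hj2
    obtain ⟨κ, hκ⟩ := h.l5 (Q.shift j (-s)) (fun he => hj (by rw [← e1, he])) hj2
    exact ⟨κ, by rw [hκ, e1]⟩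

lemma exists_loc (h : P.fa ≤ ENNReal.ofReal (n * (2 * Real.sqrt 3))) (p : Fin n) :
    ∃ t J, P.Loc (p, 0, 0) t J := by
  set i : Idx n := (p, 0, 0) with hi
  have h1 := P.tight_cell h p
  rw [← hi, vol_D] at h1
  obtain ⟨_, t, J, hJ, h2, h3, h4, h5⟩ := local_main F.body (P.nbHyp i)
    (fun j x hx => P.fK i j x hx) h1
  refine ⟨t, fun κ => (J κ).1, ⟨fun κ => (J κ).2, fun a b hab => hJ (Subtype.ext hab), ?_, ?_,
    ?_, ?_⟩⟩
  · intro κ
    have := h2 κ
    rw [fν, dot_symm_lin, fη] at this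
    rw [psi_eq, dot_add_left]
    linarith
  · intro κ
    have := h3 κ
    rw [fν, dot_symm_lin, fη] at this
    rw [psi_eq, dot_add_left]
    linarith
  · intro κ
    have := h4 κ
    rw [fc] at this
    have e1 : P.cen (J κ).1 - P.cen i - (2:ℝ) • P.A i (dir F t κ) =
        P.A i ((P.A i).symm (P.cen (J κ).1 - P.cen i) - (2:ℝ) •
          ev ((t : ℕ) * F.σ + (κ : ℕ) * (Real.pi / 3))) := by
      rw [map_sub, LinearIsometryEquiv.apply_symm_apply, map_smul]
      rfl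
    rw [e1, LinearIsometryEquiv.norm_map]
    exact this
  · intro j hj hj2
    obtain ⟨κ, hκ⟩ := h5 ⟨j, hj⟩ (by rw [norm_fc]; exact hj2)
    exact ⟨κ, congrArg Subtype.val hκ⟩

namespace Loc

variable {P} {i : Idx n} {t : Fin F.M} {J : Fin 6 → Idx n}

lemma nu_close (h : P.Loc i t J) (κ : Fin 6) :
    ‖P.nu i (J κ) - P.A i (dir F t κ)‖ ≤ 0.0221 := by
  have h1 := (P.nbHyp i).normal_close ⟨J κ, h.ne κ⟩
  rw [norm_fc] at h1
  have e1 : P.fc i ⟨J κ, h.ne κ⟩ - ‖P.cen (J κ) - P.cen i‖ • P.fν i ⟨J κ, h.ne κ⟩ =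
      (P.A i).symm (P.cen (J κ) - P.cen i - ‖P.cen (J κ) - P.cen i‖ • P.nu i (J κ)) := by
    rw [map_sub, map_smul]; rfl
  rw [e1, LinearIsometryEquiv.norm_map] at h1
  have h2 := h.l4 κ
  set X := P.cen (J κ) - P.cen i with hX
  have h3 : |‖X‖ - 2| ≤ 0.02 := by
    have h4 : ‖(2:ℝ) • P.A i (dir F t κ)‖ = 2 := by
      rw [norm_smul, LinearIsometryEquiv.norm_map, norm_dir]; norm_num
    have := abs_norm_sub_norm_le X ((2:ℝ) • P.A i (dir F t κ))
    rw [h4] at this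
    exact this.trans h2
  have h4 : (2:ℝ) • (P.nu i (J κ) - P.A i (dir F t κ)) =
      (X - (2:ℝ) • P.A i (dir F t κ)) - (X - ‖X‖ • P.nu i (J κ)) -
        (‖X‖ - 2) • P.nu i (J κ) := by module
  have h5 : ‖(2:ℝ) • (P.nu i (J κ) - P.A i (dir F t κ))‖ ≤ 0.02 + 0.0041 + 0.02 := by
    rw [h4]
    refine (norm_sub_le _ _).trans (add_le_add ((norm_sub_le _ _).trans (add_le_add h2 h1)) ?_)
    rw [norm_smul, P.nu_norm (h.ne κ).symm, mul_one]
    exact h3
  rw [norm_smul, Real.norm_eq_abs, abs_two] at h5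
  linarith

lemma near (h : P.Loc i t J) (κ : Fin 6) : ‖P.cen (J κ) - P.cen i‖ ≤ 2.02 := by
  have h2 := h.l4 κ
  have h4 : ‖(2:ℝ) • P.A i (dir F t κ)‖ = 2 := by
    rw [norm_smul, LinearIsometryEquiv.norm_map, norm_dir]; norm_num
  calc ‖P.cen (J κ) - P.cen i‖ = ‖(P.cen (J κ) - P.cen i - (2:ℝ) • P.A i (dir F t κ)) +
        (2:ℝ) • P.A i (dir F t κ)‖ := by congr 1; ring
    _ ≤ _ := norm_add_le _ _
    _ ≤ 2.02 := by rw [h4]; linarith

lemma near2 (h : P.Loc i t J) (κ : Fin 6) : ‖P.cen (J (κ + 1)) - P.cen (J κ)‖ ≤ 2.04 := by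
  have h1 := h.l4 κ
  have h2 := h.l4 (κ + 1)
  have h3 : ‖(2:ℝ) • P.A i (dir F t (κ + 1)) - (2:ℝ) • P.A i (dir F t κ)‖ = 2 := by
    rw [← smul_sub, ← map_sub, norm_smul, LinearIsometryEquiv.norm_map]
    have e1 : ‖dir F t (κ + 1) - dir F t κ‖ ^ 2 = 1 := by
      rw [← dot_self, dot_sub_left, dot_sub_right, dot_sub_right, dot_self, dot_self, norm_dir,
        norm_dir, dot_comm (dir F t (κ + 1)), dot_dir]
      have : ((1 : Fin 6) : ℕ) = 1 := rfl
      rw [this, Nat.cast_one, one_mul, Real.cos_pi_div_three]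
      norm_num
    have e2 : ‖dir F t (κ + 1) - dir F t κ‖ = 1 := by
      have := norm_nonneg (dir F t (κ + 1) - dir F t κ)
      nlinarith
    rw [e2]; norm_num
  have e3 : P.cen (J (κ + 1)) - P.cen (J κ) =
      (P.cen (J (κ + 1)) - P.cen i - (2:ℝ) • P.A i (dir F t (κ + 1))) -
      (P.cen (J κ) - P.cen i - (2:ℝ) • P.A i (dir F t κ)) +
      ((2:ℝ) • P.A i (dir F t (κ + 1)) - (2:ℝ) • P.A i (dir F t κ)) := by ring
  rw [e3]
  refine (norm_add_le _ _).trans ?_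
  rw [h3]
  have := norm_sub_le (P.cen (J (κ + 1)) - P.cen i - (2:ℝ) • P.A i (dir F t (κ + 1)))
    (P.cen (J κ) - P.cen i - (2:ℝ) • P.A i (dir F t κ))
  linarith

/-- size of the cell -/
lemma D_bounded (h : P.Loc i t J) {z : ℂ} (hz : z ∈ P.D i) : ‖z - P.cen i‖ ≤ 1.25 := by
  obtain ⟨κ, hκ⟩ := exists_dir F t ((P.A i).symm (z - P.cen i))
  rw [LinearIsometryEquiv.norm_map] at hκ
  have e1 : dot ((P.A i).symm (z - P.cen i)) (dir F t κ) =
      dot (z - P.cen i) (P.A i (dir F t κ)) := by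
    rw [← dot_lin (P.A i), LinearIsometryEquiv.apply_symm_apply]
  rw [e1] at hκ
  have h1 := h.nu_close κ
  have h2 := hz (J κ) (h.ne κ)
  have h3 := h.l2 κ
  rw [psi_eq, dot_add_left] at h3
  -- height
  have hnu := P.nu_norm (h.ne κ).symm
  have h4 : dot (P.A i (F.V t κ)) (P.nu i (J κ)) ≤ 1.03 := by
    have g1 := V_ideal F t (κ - 1)
    rw [sub_add_cancel] at g1
    have hd := F.body.d_le
    have g2 : dot (P.A i (F.V t κ)) (P.nu i (J κ)) = dot (F.V t κ) (dir F t κ) +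
        dot (P.A i (F.V t κ)) (P.nu i (J κ) - P.A i (dir F t κ)) := by
      rw [dot_sub_right, dot_lin]; ring
    have g3 : dot (F.V t κ) (dir F t κ) = 1 + dot (F.V t κ - (2 / 3 : ℝ) •
        (dir F t (κ - 1) + dir F t κ)) (dir F t κ) := by
      rw [dot_sub_left, dot_smul_left, dot_add_left, dot_self, norm_dir]
      have : dot (dir F t (κ - 1)) (dir F t κ) = 1 / 2 := by
        have e := dot_dir F t (κ - 1) 1
        rw [sub_add_cancel] at e
        have : ((1 : Fin 6) : ℕ) = 1 := rfl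
        rw [this, Nat.cast_one, one_mul, Real.cos_pi_div_three] at e
        exact e
      rw [this]; ring
    have g4 := (le_abs_self _).trans (abs_dot_le (F.V t κ - (2 / 3 : ℝ) •
        (dir F t (κ - 1) + dir F t κ)) (dir F t κ))
    rw [norm_dir, mul_one] at g4
    have g5 := (le_abs_self _).trans (abs_dot_le (P.A i (F.V t κ))
      (P.nu i (J κ) - P.A i (dir F t κ)))
    rw [LinearIsometryEquiv.norm_map] at g5
    have g6 : ‖F.V t κ‖ ≤ 1.34 := by
      calc ‖F.V t κ‖ = ‖(F.V t κ - (2 / 3 : ℝ) • (dir F t (κ - 1) + dir F t κ)) +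
            (2 / 3 : ℝ) • (dir F t (κ - 1) + dir F t κ)‖ := by congr 1; ring
        _ ≤ _ := norm_add_le _ _
        _ ≤ 1e-6 + (2 / 3) * (1 + 1) := by
          apply add_le_add (g1.trans hd)
          rw [norm_smul, Real.norm_eq_abs, abs_of_pos (by norm_num)]
          apply mul_le_mul_of_nonneg_left _ (by norm_num)
          refine (norm_add_le _ _).trans ?_
          rw [norm_dir, norm_dir]
        _ ≤ 1.34 := by norm_num
    have g7 : ‖F.V t κ‖ * ‖P.nu i (J κ) - P.A i (dir F t κ)‖ ≤ 1.34 * 0.0221 :=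
      mul_le_mul g6 h1 (norm_nonneg _) (by norm_num)
    rw [g2, g3]
    linarith
  have h5 : dot (z - P.cen i) (P.nu i (J κ)) ≤ 1.03 := by
    rw [dot_sub_left]; linarith
  have h6 : dot (z - P.cen i) (P.nu i (J κ)) = dot (z - P.cen i) (P.A i (dir F t κ)) +
      dot (z - P.cen i) (P.nu i (J κ) - P.A i (dir F t κ)) := by
    rw [dot_sub_right]; ring
  have h7 := neg_abs_le (dot (z - P.cen i) (P.nu i (J κ) - P.A i (dir F t κ)))
  have h8 := abs_dot_le (z - P.cen i) (P.nu i (J κ) - P.A i (dir F t κ))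
  have h9 : ‖z - P.cen i‖ * ‖P.nu i (J κ) - P.A i (dir F t κ)‖ ≤ ‖z - P.cen i‖ * 0.0221 :=
    mul_le_mul_of_nonneg_left h1 (norm_nonneg _)
  by_contra hcon
  push Not at hcon
  nlinarith

end Loc

end Pack

end Pool.Agent.Y370.Q
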