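import Pool.Agent.Y370.Q28

set_option autoImplicit false

namespace Pool.Agent.Y370.Q

open MeasureTheory Complex

lemma continuous_dot (ν : ℂ) : Continuous fun z => dot z ν := by
  unfold dot
  fun_prop

/-- an open region near v with prescribed sides -/
lemma open_gap {v ν1 ν2 ν3 : ℂ} {η1 η2 η3 : ℝ} (hn1 : ‖ν1‖ = 1) (hn2 : ‖ν2‖ = 1)
    (h12 : dot ν1 ν2 < 1) (h1 : dot v ν1 = η1) (h2 : dot v ν2 = η2) (h3 : η3 < dot v ν3) :
    ∃ U : Set ℂ, IsOpen U ∧ U.Nonempty ∧ ∀ z ∈ U, ‖z - v‖ < 0.04 ∧ η1 < dot z ν1 ∧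
      dot z ν2 < η2 ∧ η3 < dot z ν3 := by
  refine ⟨{z | ‖z - v‖ < 0.04} ∩ ({z | η1 < dot z ν1} ∩ ({z | dot z ν2 < η2} ∩
    {z | η3 < dot z ν3})), ?_, ?_, fun z hz => ⟨hz.1, hz.2.1, hz.2.2.1, hz.2.2.2⟩⟩
  · refine IsOpen.inter ?_ (IsOpen.inter ?_ (IsOpen.inter ?_ ?_))
    · exact isOpen_lt (by fun_prop) continuous_const
    · exact isOpen_lt continuous_const (continuous_dot _)
    · exact isOpen_lt (continuous_dot _) continuous_const
    · exact isOpen_lt continuous_const (continuous_dot _)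
  · -- the point v + τ (ν1 - ν2)
    set y := ν1 - ν2 with hy
    have hy2 : ‖y‖ ≤ 2 := (norm_sub_le _ _).trans (by rw [hn1, hn2]; norm_num)
    set δ := dot v ν3 - η3 with hδ
    have hδ0 : 0 < δ := by linarith
    obtain ⟨τ, hτ0, hτ1, hτ2⟩ : ∃ τ : ℝ, 0 < τ ∧ τ ≤ 0.01 ∧ τ * (|dot y ν3| + 1) ≤ δ / 2 := by
      refine ⟨min 0.01 (δ / 2 / (|dot y ν3| + 1)), by positivity, min_le_left _ _, ?_⟩
      have : min 0.01 (δ / 2 / (|dot y ν3| + 1)) ≤ δ / 2 / (|dot y ν3| + 1) := min_le_right _ _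
      rwa [le_div_iff₀ (by positivity)] at this
    refine ⟨v + τ • y, ?_, ?_, ?_, ?_⟩
    · change ‖v + τ • y - v‖ < 0.04
      rw [add_sub_cancel_left, norm_smul, Real.norm_eq_abs, abs_of_pos hτ0]
      nlinarith
    · change η1 < dot (v + τ • y) ν1
      rw [dot_add_left, dot_smul_left, h1, hy, dot_sub_left, dot_self, hn1, dot_comm ν2 ν1]
      have : 0 < τ * (1 ^ 2 - dot ν1 ν2) := mul_pos hτ0 (by linarith)
      linarith
    · change dot (v + τ • y) ν2 < η2
      rw [dot_add_left, dot_smul_left, h2, hy, dot_sub_left, dot_self, hn2]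
      have : τ * (dot ν1 ν2 - 1 ^ 2) < 0 := mul_neg_of_pos_of_neg hτ0 (by linarith)
      linarith
    · change η3 < dot (v + τ • y) ν3
      rw [dot_add_left, dot_smul_left]
      have g1 : -|dot y ν3| ≤ dot y ν3 := neg_abs_le _
      nlinarith

namespace Pack

variable {F : Fam} {n : ℕ} (P : Pack F n)

/-- concurrency, one half -/
lemma conc_aux (htight : P.fa ≤ ENNReal.ofReal (n * (2 * Real.sqrt 3))) {i j k : Idx n} {v : ℂ}
    (hij : i ≠ j) (hik : i ≠ k) (hjk : j ≠ k) (h1 : dot v (P.nu i j) = P.et i j)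
    (h2 : dot v (P.nu i k) = P.et i k) (h12 : dot (P.nu i j) (P.nu i k) < 1)
    (hoth : ∀ l, l ≠ i → l ≠ j → l ≠ k → ∀ z, ‖z - v‖ < 0.04 → z ∉ P.D l) :
    ¬ P.et j k < dot v (P.nu j k) := by
  intro h3
  obtain ⟨U, hU, hne, hUp⟩ := open_gap (P.nu_norm hij) (P.nu_norm hik) h12 h1 h2 h3
  obtain ⟨l, z, hz, hzl⟩ := P.tight_open htight hU hne
  obtain ⟨g1, g2, g3, g4⟩ := hUp z hz
  by_cases hli : l = i
  · subst hli
    exact absurd (hzl j hij.symm) (not_le.2 g2)
  by_cases hlj : l = j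
  · subst hlj
    exact absurd (hzl k hjk.symm) (not_le.2 g4)
  by_cases hlk : l = k
  · subst hlk
    have := hzl i hik
    rw [P.nu_symm hik, P.et_symm hik] at this
    have e : dot z (-P.nu i l) = -dot z (P.nu i l) := by simp [dot]; ring
    rw [e] at this
    linarith
  exact hoth l hli hlj hlk z g1 hzl

lemma conc (htight : P.fa ≤ ENNReal.ofReal (n * (2 * Real.sqrt 3))) {i j k : Idx n} {v : ℂ}
    (hij : i ≠ j) (hik : i ≠ k) (hjk : j ≠ k) (h1 : dot v (P.nu i j) = P.et i j)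
    (h2 : dot v (P.nu i k) = P.et i k) (h12 : dot (P.nu i j) (P.nu i k) < 1)
    (hoth : ∀ l, l ≠ i → l ≠ j → l ≠ k → ∀ z, ‖z - v‖ < 0.04 → z ∉ P.D l) :
    dot v (P.nu j k) = P.et j k := by
  have g1 := P.conc_aux htight hij hik hjk h1 h2 h12 hoth
  have g2 := P.conc_aux htight hik hij hjk.symm h2 h1 (by rw [dot_comm]; exact h12)
    (fun l a b c => hoth l a c b)
  rw [P.nu_symm hjk, P.et_symm hjk] at g2
  have e : dot v (-P.nu j k) = -dot v (P.nu j k) := by simp [dot]; ring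
  rw [e] at g2
  push Not at g1 g2
  linarith

/-- four centres around a point -/
lemma four_pts {i j k l : Idx n} {q1 q2 : ℂ} {v : ℂ} (hq1 : ‖q1‖ = 2) (hq2 : ‖q2‖ = 2)
    (hq : dot q1 q2 = 2) (hj : ‖P.cen j - P.cen i - q1‖ ≤ 0.02)
    (hk : ‖P.cen k - P.cen i - q2‖ ≤ 0.02)
    (hv : ‖v - P.cen i - (1 / 3 : ℝ) • (q1 + q2)‖ ≤ 0.001)
    (hli : l ≠ i) (hlj : l ≠ j) (hlk : l ≠ k) (hl : ‖v - P.cen l‖ ≤ 1.3) : False := by
  have s1 := P.cen_sep hli
  have s2 := P.cen_sep hlj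
  have s3 := P.cen_sep hlk
  set X := P.cen l - P.cen i with hX
  have t2 : 1.97 ≤ ‖X - q1‖ := by
    have : P.cen l - P.cen j = (X - q1) - (P.cen j - P.cen i - q1) := by rw [hX]; ring
    rw [this] at s2
    have := s2.trans (norm_sub_le _ _)
    linarith
  have t3 : 1.97 ≤ ‖X - q2‖ := by
    have : P.cen l - P.cen k = (X - q2) - (P.cen k - P.cen i - q2) := by rw [hX]; ring
    rw [this] at s3
    have := s3.trans (norm_sub_le _ _)
    linarith
  have t4 : ‖X - (1 / 3 : ℝ) • (q1 + q2)‖ ≤ 1.301 := by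
    have : X - (1 / 3 : ℝ) • (q1 + q2) = (v - P.cen i - (1 / 3 : ℝ) • (q1 + q2)) -
      (v - P.cen l) := by rw [hX]; ring
    rw [this]
    refine (norm_sub_le _ _).trans ?_
    linarith
  have hid : ‖X‖ ^ 2 + ‖X - q1‖ ^ 2 + ‖X - q2‖ ^ 2 =
      3 * ‖X - (1 / 3 : ℝ) • (q1 + q2)‖ ^ 2 + 4 := by
    have g1 : dot q1 q1 = 4 := by rw [dot_self, hq1]; norm_num
    have g2 : dot q2 q2 = 4 := by rw [dot_self, hq2]; norm_num
    rw [← dot_self, ← dot_self, ← dot_self, ← dot_self]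
    simp only [dot_sub_left, dot_sub_right, dot_smul_left, dot_smul_right, dot_add_left,
      dot_add_right, g1, g2, dot_comm q2 q1, hq, dot_comm q1 X, dot_comm q2 X]
    ring
  have u1 : 3.9 ≤ ‖X‖ ^ 2 := by nlinarith
  have u2 : 3.88 ≤ ‖X - q1‖ ^ 2 := by nlinarith
  have u3 : 3.88 ≤ ‖X - q2‖ ^ 2 := by nlinarith
  have u4 : ‖X - (1 / 3 : ℝ) • (q1 + q2)‖ ^ 2 ≤ 1.7 := by
    nlinarith [norm_nonneg (X - (1 / 3 : ℝ) • (q1 + q2))]
  linarith

/-- all cells with their local structure -/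
structure Glob (T : Idx n → Fin F.M) (nb : Idx n → Fin 6 → Idx n) : Prop where
  htight : P.fa ≤ ENNReal.ofReal (n * (2 * Real.sqrt 3))
  loc : ∀ i, P.Loc i (T i) (nb i)
  tsh : ∀ i j : Idx n, i.1 = j.1 → T i = T j
  nsh : ∀ (i j : Idx n) κ, i.1 = j.1 → (nb i κ).1 = (nb j κ).1

lemma exists_glob (h : P.fa ≤ ENNReal.ofReal (n * (2 * Real.sqrt 3))) :
    ∃ T nb, P.Glob T nb := by
  choose t J hJ using P.exists_loc h
  refine ⟨fun i => t i.1, fun i κ => Q.shift (J i.1 κ) i.2, h, ?_, ?_, ?_⟩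
  · intro i
    have := (hJ i.1).shift P i.2
    rw [base_eq] at this
    exact this
  · intro i j hij
    simp only [hij]
  · intro i j κ hij
    simp only [Q.shift, hij]

namespace Glob

variable {P} {T : Idx n → Fin F.M} {nb : Idx n → Fin 6 → Idx n}

lemma vert_close (i : Idx n) (κ : Fin 6) (t : Fin F.M) :
    ‖P.psi i (F.V t (κ + 1)) - P.cen i - (1 / 3 : ℝ) •
      ((2:ℝ) • P.A i (dir F t κ) + (2:ℝ) • P.A i (dir F t (κ + 1)))‖ ≤ 0.001 := by
  have h1 := V_ideal F t κ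
  have hd := F.body.d_le
  have e1 : P.psi i (F.V t (κ + 1)) - P.cen i - (1 / 3 : ℝ) •
      ((2:ℝ) • P.A i (dir F t κ) + (2:ℝ) • P.A i (dir F t (κ + 1))) =
      P.A i (F.V t (κ + 1) - (2 / 3 : ℝ) • (dir F t κ + dir F t (κ + 1))) := by
    rw [psi_eq, map_sub, map_smul, map_add]
    module
  rw [e1, LinearIsometryEquiv.norm_map]
  linarith

lemma dot_two (i : Idx n) (κ : Fin 6) (t : Fin F.M) :
    dot ((2:ℝ) • P.A i (dir F t κ)) ((2:ℝ) • P.A i (dir F t (κ + 1))) = 2 := by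
  rw [dot_smul_left, dot_smul_right, dot_lin, dot_dir]
  have : ((1 : Fin 6) : ℕ) = 1 := rfl
  rw [this, Nat.cast_one, one_mul, Real.cos_pi_div_three]
  norm_num

lemma norm_two (i : Idx n) (κ : Fin 6) (t : Fin F.M) : ‖(2:ℝ) • P.A i (dir F t κ)‖ = 2 := by
  rw [norm_smul, LinearIsometryEquiv.norm_map, norm_dir]; norm_num

/-- the common vertex is on the third line -/
lemma third (G : P.Glob T nb) (i : Idx n) (κ : Fin 6) (hne : nb i κ ≠ nb i (κ + 1)) :
    dot (P.psi i (F.V (T i) (κ + 1))) (P.nu (nb i κ) (nb i (κ + 1))) =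
      P.et (nb i κ) (nb i (κ + 1)) := by
  have L := G.loc i
  refine P.conc G.htight (L.ne κ).symm (L.ne (κ + 1)).symm hne (L.l3 κ) (L.l2 (κ + 1)) ?_ ?_
  · -- the normals are different
    have g1 := L.nu_close κ
    have g2 := L.nu_close (κ + 1)
    have g3 : dot (P.nu i (nb i κ)) (P.nu i (nb i (κ + 1))) =
        dot (P.A i (dir F (T i) κ)) (P.A i (dir F (T i) (κ + 1))) +
        dot (P.nu i (nb i κ) - P.A i (dir F (T i) κ)) (P.nu i (nb i (κ + 1))) +
        dot (P.A i (dir F (T i) κ)) (P.nu i (nb i (κ + 1)) - P.A i (dir F (T i) (κ + 1))) := by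
      rw [dot_sub_left, dot_sub_right]; ring
    have g4 := (le_abs_self _).trans (abs_dot_le (P.nu i (nb i κ) - P.A i (dir F (T i) κ))
      (P.nu i (nb i (κ + 1))))
    have g5 := (le_abs_self _).trans (abs_dot_le (P.A i (dir F (T i) κ))
      (P.nu i (nb i (κ + 1)) - P.A i (dir F (T i) (κ + 1))))
    rw [P.nu_norm (L.ne (κ + 1)).symm, mul_one] at g4
    rw [LinearIsometryEquiv.norm_map, norm_dir, one_mul] at g5
    have g6 : dot (P.A i (dir F (T i) κ)) (P.A i (dir F (T i) (κ + 1))) = 1 / 2 := by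
      rw [dot_lin, dot_dir]
      have : ((1 : Fin 6) : ℕ) = 1 := rfl
      rw [this, Nat.cast_one, one_mul, Real.cos_pi_div_three]
    rw [g3, g6]
    linarith
  · intro l hli hlj hlk z hz hzl
    have g1 := (G.loc l).D_bounded hzl
    refine P.four_pts (norm_two i κ (T i)) (norm_two i (κ + 1) (T i)) (dot_two i κ (T i))
      (L.l4 κ) (L.l4 (κ + 1)) (vert_close i κ (T i)) hli hlj hlk ?_
    have : P.psi i (F.V (T i) (κ + 1)) - P.cen l = (z - P.cen l) -
      (z - P.psi i (F.V (T i) (κ + 1))) := by ring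
    rw [this]
    refine (norm_sub_le _ _).trans ?_
    linarith

lemma nb_ne (G : P.Glob T nb) (i : Idx n) {κ κ' : Fin 6} (h : κ ≠ κ') : nb i κ ≠ nb i κ' :=
  fun he => h ((G.loc i).inj he)

/-- a point on two side lines near the centre is the common vertex of adjacent sides -/
lemma two_sides (G : P.Glob T nb) (j : Idx n) {a b : Fin 6} (hab : a ≠ b) {v : ℂ}
    (ha : dot v (P.nu j (nb j a)) = P.et j (nb j a))
    (hb : dot v (P.nu j (nb j b)) = P.et j (nb j b)) (hv : ‖v - P.cen j‖ ≤ 1.3) :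
    (b = a + 1 ∧ v = P.psi j (F.V (T j) (a + 1))) ∨
    (a = b + 1 ∧ v = P.psi j (F.V (T j) (b + 1))) := by
  have L := G.loc j
  obtain ⟨m, rfl⟩ : ∃ m, b = a + m := ⟨b - a, by abel⟩
  have hm0 : m ≠ 0 := by rintro rfl; exact hab (add_zero a).symm
  -- dot of the normals
  have hdotn : ∀ (x y : Fin 6), |dot (P.nu j (nb j x)) (P.nu j (nb j y)) -
      dot (dir F (T j) x) (dir F (T j) y)| ≤ 0.0442 := by
    intro x y
    have g3 : dot (P.nu j (nb j x)) (P.nu j (nb j y)) - dot (dir F (T j) x) (dir F (T j) y) =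
        dot (P.nu j (nb j x) - P.A j (dir F (T j) x)) (P.nu j (nb j y)) +
        dot (P.A j (dir F (T j) x)) (P.nu j (nb j y) - P.A j (dir F (T j) y)) := by
      rw [dot_sub_left, dot_sub_right, dot_lin]; ring
    have g4 := (abs_dot_le (P.nu j (nb j x) - P.A j (dir F (T j) x)) (P.nu j (nb j y)))
    have g5 := (abs_dot_le (P.A j (dir F (T j) x)) (P.nu j (nb j y) - P.A j (dir F (T j) y)))
    rw [P.nu_norm (L.ne y).symm, mul_one] at g4
    rw [LinearIsometryEquiv.norm_map, norm_dir, one_mul] at g5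
    rw [g3]
    refine (abs_add_le _ _).trans ?_
    have := L.nu_close x
    have := L.nu_close y
    linarith
  have hun : ∀ (x : Fin 6) (y : Fin 6), |dot (dir F (T j) x) (dir F (T j) y)| = 1 / 2 →
      ∀ p q : ℂ, dot p (P.nu j (nb j x)) = dot q (P.nu j (nb j x)) →
      dot p (P.nu j (nb j y)) = dot q (P.nu j (nb j y)) → p = q := by
    intro x y hxy p q h1 h2
    have g1 := norm_le_of_dots (p - q) (P.nu j (nb j x)) (P.nu j (nb j y))
      (P.nu_norm (L.ne x).symm) (P.nu_norm (L.ne y).symm)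
    rw [dot_sub_left, dot_sub_left, h1, h2, sub_self, sub_self, abs_zero, add_zero] at g1
    have g2 := crs_sq_add_dot_sq (P.nu j (nb j x)) (P.nu j (nb j y))
    rw [P.nu_norm (L.ne x).symm, P.nu_norm (L.ne y).symm] at g2
    have g3 := hdotn x y
    have g4 : |dot (P.nu j (nb j x)) (P.nu j (nb j y))| ≤ 0.5442 := by
      have := abs_sub_abs_le_abs_sub (dot (P.nu j (nb j x)) (P.nu j (nb j y)))
        (dot (dir F (T j) x) (dir F (T j) y))
      linarith
    have g5 : 0 < |crs (P.nu j (nb j x)) (P.nu j (nb j y))| := by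
      rw [abs_pos]
      intro h0
      rw [h0] at g2
      rw [abs_le] at g4
      nlinarith [g4.1, g4.2]
    have g6 : ‖p - q‖ ≤ 0 := by
      by_contra hc
      push Not at hc
      have := mul_pos g5 hc
      linarith
    exact sub_eq_zero.1 (norm_le_zero_iff.1 g6)
  -- heights
  have hht : ∀ x : Fin 6, dot v (P.nu j (nb j x)) = P.et j (nb j x) →
      0.9999 ≤ dot (v - P.cen j) (P.nu j (nb j x)) := by
    intro x hx
    have g1 := (P.nbHyp j).hη ⟨nb j x, L.ne x⟩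
    rw [fη] at g1
    rw [dot_sub_left, hx]
    linarith
  have excl : dot (dir F (T j) a) (dir F (T j) (a + m)) ≤ -(1 / 2) → False := by
    intro hd
    have g1 := hht a ha
    have g2 := hht (a + m) hb
    have g3 := (abs_le.1 (hdotn a (a + m))).2
    set s := P.nu j (nb j a) + P.nu j (nb j (a + m)) with hs
    have g4 : ‖s‖ ^ 2 ≤ 1.0884 := by
      rw [← dot_self, hs, dot_add_left, dot_add_right, dot_add_right, dot_self, dot_self,
        P.nu_norm (L.ne a).symm, P.nu_norm (L.ne (a + m)).symm,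
        dot_comm (P.nu j (nb j (a + m)))]
      linarith
    have g5 := (le_abs_self _).trans (abs_dot_le (v - P.cen j) s)
    rw [hs, dot_add_right, ← hs] at g5
    have g6 : ‖s‖ ≤ 1.05 := by
      by_contra hc
      push Not at hc
      nlinarith
    have g7 : ‖v - P.cen j‖ * ‖s‖ ≤ 1.3 * 1.05 :=
      mul_le_mul hv g6 (norm_nonneg _) (by norm_num)
    linarith
  have hcos3 := Real.cos_pi_div_three
  have hm : m = 1 ∨ m = 2 ∨ m = 3 ∨ m = 4 ∨ m = 5 := by
    clear * - hm0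
    revert m
    decide
  rcases hm with rfl | rfl | rfl | rfl | rfl
  · left
    refine ⟨rfl, hun a (a + 1) ?_ _ _ ?_ ?_⟩
    · rw [dot_dir, show ((1 : Fin 6) : ℕ) = 1 from rfl, Nat.cast_one, one_mul, hcos3]
      norm_num
    · rw [ha, L.l3]
    · rw [hb, L.l2]
  · exfalso; apply excl
    rw [dot_dir, show ((2 : Fin 6) : ℕ) = 2 from rfl]
    have : ((2 : ℕ) : ℝ) * (Real.pi / 3) = Real.pi - Real.pi / 3 := by push_cast; ring
    rw [this, Real.cos_pi_sub, hcos3]
  · exfalso; apply excl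
    rw [dot_dir, show ((3 : Fin 6) : ℕ) = 3 from rfl]
    have : ((3 : ℕ) : ℝ) * (Real.pi / 3) = Real.pi := by push_cast; ring
    rw [this, Real.cos_pi]; norm_num
  · exfalso; apply excl
    rw [dot_dir, show ((4 : Fin 6) : ℕ) = 4 from rfl]
    have : ((4 : ℕ) : ℝ) * (Real.pi / 3) = Real.pi / 3 + Real.pi := by push_cast; ring
    rw [this, Real.cos_add_pi, hcos3]
  · right
    have e1 : a = a + 5 + 1 := by
      clear * -
      revert a
      decide
    refine ⟨e1, hun a (a + 5) ?_ _ _ ?_ ?_⟩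
    · rw [dot_dir, show ((5 : Fin 6) : ℕ) = 5 from rfl]
      have : ((5 : ℕ) : ℝ) * (Real.pi / 3) = 2 * Real.pi - Real.pi / 3 := by push_cast; ring
      rw [this, Real.cos_two_pi_sub, hcos3]
      norm_num
    · rw [ha, ← e1, L.l2]
    · rw [hb, L.l3]

end Glob

end Pack

end Pool.Agent.Y370.Q
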