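import Pool.Agent.Y370.Q1

set_option autoImplicit false

namespace Pool.Agent.Y370.Q

open MeasureTheory Complex

/-! ### a quantitative convexity bound for the tangent -/

lemma tan_sub_ge {x y : ℝ} (hy : 0 ≤ y) (hyx : y ≤ x) (hx : x < Real.pi / 2) :
    x - y ≤ Real.tan x - Real.tan y := by
  have hcx : 0 < Real.cos x := Real.cos_pos_of_mem_Ioo ⟨by linarith [Real.pi_pos], hx⟩
  have hcy : 0 < Real.cos y := Real.cos_pos_of_mem_Ioo ⟨by linarith [Real.pi_pos], by linarith⟩
  have hsx : 0 ≤ Real.sin x := Real.sin_nonneg_of_nonneg_of_le_pi (by linarith) (by linarith)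
  have hsy : 0 ≤ Real.sin y := Real.sin_nonneg_of_nonneg_of_le_pi hy (by linarith)
  have hcd : 0 < Real.cos (x - y) :=
    Real.cos_pos_of_mem_Ioo ⟨by linarith [Real.pi_pos], by linarith⟩
  have h1 : x - y ≤ Real.tan (x - y) := Real.le_tan (by linarith) (by linarith)
  have hs : 0 ≤ Real.sin (x - y) :=
    Real.sin_nonneg_of_nonneg_of_le_pi (by linarith) (by linarith)
  have h2 : Real.tan x - Real.tan y = Real.sin (x - y) / (Real.cos x * Real.cos y) := by
    rw [Real.tan_eq_sin_div_cos, Real.tan_eq_sin_div_cos, Real.sin_sub]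
    field_simp
  have h3 : Real.tan (x - y) ≤ Real.sin (x - y) / (Real.cos x * Real.cos y) := by
    rw [Real.tan_eq_sin_div_cos]
    apply div_le_div_of_nonneg_left hs (by positivity)
    rw [Real.cos_sub]
    nlinarith [mul_nonneg hsx hsy]
  linarith

lemma tan_pi_six : Real.tan (Real.pi / 6) = 1 / Real.sqrt 3 := by
  rw [Real.tan_eq_sin_div_cos, Real.sin_pi_div_six, Real.cos_pi_div_six]
  field_simp

lemma sqrt3_sq : Real.sqrt 3 ^ 2 = 3 := Real.sq_sqrt (by norm_num)

lemma sqrt3_lo : (1.7320508 : ℝ) < Real.sqrt 3 := by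
  apply Real.lt_sqrt_of_sq_lt; norm_num

lemma sqrt3_hi : Real.sqrt 3 < (1.7320509 : ℝ) := by
  rw [Real.sqrt_lt' (by norm_num)]; norm_num

lemma tan_lower {x : ℝ} (h1 : 0.49 ≤ x) (h2 : x ≤ 0.7) :
    1 / Real.sqrt 3 + 4 / 3 * (x - Real.pi / 6) + 1 / 2 * (x - Real.pi / 6) ^ 2 ≤
      Real.tan x := by
  have hp1 := Real.pi_gt_d4
  have hp2 := Real.pi_lt_d4
  have hs1 := sqrt3_lo
  have hs2 := sqrt3_hi
  have hs := sqrt3_sq
  set r : ℝ := 1 / Real.sqrt 3 with hr
  have hrr : r * r = 1 / 3 := by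
    rw [hr]; field_simp; rw [hs]
  have hr0 : 0 < r := by positivity
  have hr1 : 0.577 < r := by
    by_contra hc; push Not at hc; nlinarith
  have hr2 : r < 0.578 := by
    by_contra hc; push Not at hc; nlinarith
  have ht6 : Real.tan (Real.pi / 6) = r := tan_pi_six
  have hcx : 0 < Real.cos x := Real.cos_pos_of_mem_Ioo ⟨by linarith, by linarith⟩
  have hc6 : 0 < Real.cos (Real.pi / 6) := Real.cos_pos_of_mem_Ioo ⟨by linarith, by linarith⟩
  rcases le_total (Real.pi / 6) x with hx | hx
  · set y := x - Real.pi / 6 with hy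
    have hy0 : 0 ≤ y := by linarith
    have h3 : y ≤ Real.tan x - r := by
      rw [← ht6]; exact tan_sub_ge (by linarith) hx (by linarith)
    -- tan x = (r + tan y) / (1 - r tan y)
    have h4 : Real.tan x - r = Real.tan y * (1 + Real.tan x * r) := by
      have hcy : 0 < Real.cos y := Real.cos_pos_of_mem_Ioo ⟨by linarith, by linarith⟩
      rw [← ht6, Real.tan_eq_sin_div_cos, Real.tan_eq_sin_div_cos, Real.tan_eq_sin_div_cos, hy,
        Real.sin_sub, Real.cos_sub]
      have : Real.cos x * Real.cos (Real.pi / 6) + Real.sin x * Real.sin (Real.pi / 6) ≠ 0 := by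
        rw [← Real.cos_sub]; rw [← hy]; exact hcy.ne'
      field_simp
    have h5 : y ≤ Real.tan y := Real.le_tan hy0 (by linarith)
    have h6 : 1 + (r + y) * r ≤ 1 + Real.tan x * r := by nlinarith
    have h7 : y * (1 + (r + y) * r) ≤ Real.tan y * (1 + Real.tan x * r) :=
      mul_le_mul h5 h6 (by positivity) (by linarith)
    have h8 : y * (1 + (r + y) * r) = 4 / 3 * y + r * y ^ 2 := by
      linear_combination y * hrr
    nlinarith [sq_nonneg y]
  · set t := Real.pi / 6 - x with ht
    have ht0 : 0 ≤ t := by linarith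
    have ht1 : t ≤ 0.034 := by linarith
    have h3 : t ≤ r - Real.tan x := by
      rw [← ht6]; exact tan_sub_ge (by linarith) hx (by linarith)
    have htx : 0 < Real.tan x := Real.tan_pos_of_pos_of_lt_pi_div_two (by linarith) (by linarith)
    have hct : 0 < Real.cos t := Real.cos_pos_of_mem_Ioo ⟨by linarith, by linarith⟩
    have h4 : r - Real.tan x = Real.tan t * (1 + Real.tan x * r) := by
      rw [← ht6, Real.tan_eq_sin_div_cos, Real.tan_eq_sin_div_cos, Real.tan_eq_sin_div_cos, ht,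
        Real.sin_sub, Real.cos_sub]
      have : Real.cos (Real.pi / 6) * Real.cos x + Real.sin (Real.pi / 6) * Real.sin x ≠ 0 := by
        rw [← Real.cos_sub]; rw [← ht]; exact hct.ne'
      field_simp
    have h5 : Real.tan t ≤ t + t ^ 2 / 20 := by
      rw [Real.tan_eq_sin_div_cos, div_le_iff₀ hct]
      have e1 : Real.sin t ≤ t := Real.sin_le ht0
      have e2 : 1 - t ^ 2 / 2 ≤ Real.cos t := Real.one_sub_sq_div_two_le_cos
      have e3 : t ≤ (t + t ^ 2 / 20) * (1 - t ^ 2 / 2) := by
        have e4 : (t + t ^ 2 / 20) * (1 - t ^ 2 / 2) - t =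
            t ^ 2 * (1 / 20 - t / 2 - t ^ 2 / 40) := by ring
        have e5 : 0 ≤ t ^ 2 * (1 / 20 - t / 2 - t ^ 2 / 40) := by
          apply mul_nonneg (by positivity)
          nlinarith
        linarith
      have e6 : (t + t ^ 2 / 20) * (1 - t ^ 2 / 2) ≤ (t + t ^ 2 / 20) * Real.cos t :=
        mul_le_mul_of_nonneg_left e2 (by positivity)
      linarith
    have h6 : 1 + Real.tan x * r ≤ 4 / 3 - t * r := by nlinarith
    have h7 : 0 < 1 + Real.tan x * r := by positivity
    have h8 : r - Real.tan x ≤ (t + t ^ 2 / 20) * (4 / 3 - t * r) := by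
      rw [h4]
      exact mul_le_mul h5 h6 h7.le (by positivity)
    have hxt : x - Real.pi / 6 = -t := by rw [ht]; ring
    rw [hxt]
    nlinarith [mul_nonneg ht0 ht0, mul_nonneg (mul_nonneg ht0 ht0) ht0]

end Pool.Agent.Y370.Q
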