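import Pool.Agent.Y370.Q29

set_option autoImplicit false

namespace Pool.Agent.Y370.Q

open MeasureTheory Complex

namespace Pack

variable {F : Fam} {n : ℕ} {P : Pack F n}

namespace Glob

variable {T : Idx n → Fin F.M} {nb : Idx n → Fin 6 → Idx n}

lemma dist_vert (G : P.Glob T nb) (i : Idx n) (κ : Fin 6) :
    ‖P.psi i (F.V (T i) (κ + 1)) - P.cen (nb i κ)‖ ≤ 1.3 ∧
    ‖P.psi i (F.V (T i) (κ + 1)) - P.cen (nb i (κ + 1))‖ ≤ 1.3 := by
  have L := G.loc i
  have h1 := vert_close (P := P) i κ (T i)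
  have h2 := L.l4 κ
  have h3 := L.l4 (κ + 1)
  have h4 := dot_two (P := P) i κ (T i)
  have h5 := norm_two (P := P) i κ (T i)
  have h6 := norm_two (P := P) i (κ + 1) (T i)
  set q1 := (2:ℝ) • P.A i (dir F (T i) κ)
  set q2 := (2:ℝ) • P.A i (dir F (T i) (κ + 1))
  set v := P.psi i (F.V (T i) (κ + 1))
  have g1 : dot q1 q1 = 4 := by rw [dot_self, h5]; norm_num
  have g2 : dot q2 q2 = 4 := by rw [dot_self, h6]; norm_num
  have k1 : ‖(1 / 3 : ℝ) • (q1 + q2) - q1‖ ≤ 1.2 := by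
    apply le_of_sq_le_sq _ (by norm_num)
    rw [← dot_self]
    simp only [dot_sub_left, dot_sub_right, dot_smul_left, dot_smul_right, dot_add_left,
      dot_add_right, g1, g2, dot_comm q2 q1, h4]
    norm_num
  have k2 : ‖(1 / 3 : ℝ) • (q1 + q2) - q2‖ ≤ 1.2 := by
    apply le_of_sq_le_sq _ (by norm_num)
    rw [← dot_self]
    simp only [dot_sub_left, dot_sub_right, dot_smul_left, dot_smul_right, dot_add_left,
      dot_add_right, g1, g2, dot_comm q2 q1, h4]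
    norm_num
  constructor
  · have e : v - P.cen (nb i κ) = (v - P.cen i - (1 / 3 : ℝ) • (q1 + q2)) -
      (P.cen (nb i κ) - P.cen i - q1) + ((1 / 3 : ℝ) • (q1 + q2) - q1) := by ring
    rw [e]
    refine (norm_add_le _ _).trans ?_
    have := norm_sub_le (v - P.cen i - (1 / 3 : ℝ) • (q1 + q2)) (P.cen (nb i κ) - P.cen i - q1)
    linarith
  · have e : v - P.cen (nb i (κ + 1)) = (v - P.cen i - (1 / 3 : ℝ) • (q1 + q2)) -
      (P.cen (nb i (κ + 1)) - P.cen i - q2) + ((1 / 3 : ℝ) • (q1 + q2) - q2) := by ring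
    rw [e]
    refine (norm_add_le _ _).trans ?_
    have := norm_sub_le (v - P.cen i - (1 / 3 : ℝ) • (q1 + q2))
      (P.cen (nb i (κ + 1)) - P.cen i - q2)
    linarith

lemma back (G : P.Glob T nb) (i : Idx n) (κ : Fin 6) : ∃ a, nb (nb i κ) a = i := by
  have L := G.loc i
  apply (G.loc (nb i κ)).l5 i (L.ne κ).symm
  rw [norm_sub_rev]
  have := L.near κ
  linarith

lemma cross (G : P.Glob T nb) (i : Idx n) (κ : Fin 6) :
    (∃ a, nb (nb i κ) a = nb i (κ + 1)) ∧ (∃ a, nb (nb i (κ + 1)) a = nb i κ) := by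
  have L := G.loc i
  have hne : nb i κ ≠ nb i (κ + 1) := G.nb_ne i (by clear * -; revert κ; decide)
  have := L.near2 κ
  constructor
  · apply (G.loc (nb i κ)).l5 _ hne.symm
    linarith
  · apply (G.loc (nb i (κ + 1))).l5 _ hne
    rw [norm_sub_rev]
    linarith

/-- structure at a vertex -/
lemma vertex (G : P.Glob T nb) (i : Idx n) (κ a b a' b' : Fin 6) (h1 : nb (nb i κ) a = i)
    (h2 : nb (nb i κ) b = nb i (κ + 1)) (h3 : nb (nb i (κ + 1)) a' = i)
    (h4 : nb (nb i (κ + 1)) b' = nb i κ) :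
    ((b = a + 1 ∧ P.psi i (F.V (T i) (κ + 1)) = P.psi (nb i κ) (F.V (T (nb i κ)) (a + 1))) ∨
     (a = b + 1 ∧ P.psi i (F.V (T i) (κ + 1)) = P.psi (nb i κ) (F.V (T (nb i κ)) (b + 1)))) ∧
    ((b' = a' + 1 ∧ P.psi i (F.V (T i) (κ + 1)) =
        P.psi (nb i (κ + 1)) (F.V (T (nb i (κ + 1))) (a' + 1))) ∨
     (a' = b' + 1 ∧ P.psi i (F.V (T i) (κ + 1)) =
        P.psi (nb i (κ + 1)) (F.V (T (nb i (κ + 1))) (b' + 1)))) := by
  have L := G.loc i
  have hκ : κ ≠ κ + 1 := by clear * -; revert κ; decide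
  have hne : nb i κ ≠ nb i (κ + 1) := G.nb_ne i hκ
  have hthird := G.third i κ hne
  obtain ⟨d1, d2⟩ := G.dist_vert i κ
  have hneg : ∀ x y : ℂ, dot x (-y) = -dot x y := by intro x y; simp [dot]; ring
  constructor
  · apply G.two_sides (nb i κ)
    · rintro rfl
      rw [h1] at h2
      exact L.ne (κ + 1) h2.symm
    · rw [h1, P.nu_symm (L.ne κ).symm, P.et_symm (L.ne κ).symm, hneg, L.l3 κ]
    · rw [h2]; exact hthird
    · exact d1
  · apply G.two_sides (nb i (κ + 1))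
    · rintro rfl
      rw [h3] at h4
      exact L.ne κ h4.symm
    · rw [h3, P.nu_symm (L.ne (κ + 1)).symm, P.et_symm (L.ne (κ + 1)).symm, hneg, L.l2 (κ + 1)]
    · rw [h4, P.nu_symm hne, P.et_symm hne, hneg, hthird]
    · exact d2

lemma psi_len (i : Idx n) (x y : ℂ) : ‖P.psi i x - P.psi i y‖ = ‖x - y‖ := by
  rw [psi_eq, psi_eq, add_sub_add_left_eq_sub, ← map_sub, LinearIsometryEquiv.norm_map]

/-- matched sides have the same length -/
lemma side_match (G : P.Glob T nb) (i : Idx n) (κ a : Fin 6) (h1 : nb (nb i κ) a = i) :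
    ‖F.V (T i) (κ + 1) - F.V (T i) κ‖ =
      ‖F.V (T (nb i κ)) (a + 1) - F.V (T (nb i κ)) a‖ := by
  obtain ⟨⟨b, hb⟩, ⟨b', hb'⟩⟩ := G.cross i κ
  obtain ⟨a', ha'⟩ := G.back i (κ + 1)
  obtain ⟨v1, -⟩ := G.vertex i κ a b a' b' h1 hb ha' hb'
  have eκ : κ - 1 + 1 = κ := sub_add_cancel κ 1
  obtain ⟨⟨c, hc⟩, ⟨c', hc'⟩⟩ := G.cross i (κ - 1)
  obtain ⟨e, he⟩ := G.back i (κ - 1)
  rw [eκ] at hc hc'
  obtain ⟨-, v2⟩ := G.vertex i (κ - 1) e c a c' he (by rw [eκ]; exact hc) (by rw [eκ]; exact h1)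
    (by rw [eκ]; exact hc')
  rw [eκ] at v2
  have hbc : b ≠ c' := by
    rintro rfl
    rw [hb] at hc'
    have h5 := (G.loc i).inj hc'
    revert h5
    clear * -
    revert κ
    decide
  rw [← psi_len (P := P) i (F.V (T i) (κ + 1)) (F.V (T i) κ),
    ← psi_len (P := P) (nb i κ) (F.V (T (nb i κ)) (a + 1)) (F.V (T (nb i κ)) a)]
  rcases v1 with ⟨g1, g2⟩ | ⟨g1, g2⟩ <;> rcases v2 with ⟨g3, g4⟩ | ⟨g3, g4⟩
  · exact absurd (g1.trans g3.symm) hbc
  · rw [g2, g4, g3]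
  · rw [g2, g4, g1, norm_sub_rev]
  · exact absurd (add_right_cancel (g1.symm.trans g3)) hbc

/-- opposite attachment -/
lemma opp (G : P.Glob T nb) (i : Idx n) (κ : Fin 6) :
    nb (nb i κ) (κ + 3) = i ∧ nb (nb i κ) (κ + 2) = nb i (κ + 1) := by
  obtain ⟨a, ha⟩ := G.back i κ
  obtain ⟨a', ha'⟩ := G.back i (κ + 1)
  obtain ⟨⟨b, hb⟩, ⟨b', hb'⟩⟩ := G.cross i κ
  obtain ⟨v1, v2⟩ := G.vertex i κ a b a' b' ha hb ha' hb'
  have m1 := G.side_match i κ a ha
  have m2 := G.side_match i (κ + 1) a' ha'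
  have m3 := G.side_match (nb i κ) b b' (by rw [hb]; exact hb')
  rw [hb] at m3
  have c1 := F.same_col m1
  have c2 := F.same_col m2
  have c3 := F.same_col m3
  have k1 := (F.same_length m1).1
  have k2 := (F.same_length m2).1
  have k3 := (F.same_length m3).1
  have h3 : b = a + 1 ∨ a = b + 1 := v1.imp And.left And.left
  have h4 : b' = a' + 1 ∨ a' = b' + 1 := v2.imp And.left And.left
  obtain ⟨r1, r2⟩ := comb_aux κ a a' b b' _ _ _ k1 k2 h3 h4 k3 c1 c2 c3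
  subst r1
  refine ⟨ha, ?_⟩
  have : b = κ + 2 := by
    clear * - r2
    revert r2
    revert κ b
    decide
  rw [← this]
  exact hb

end Glob

/-- there is no tight packing -/
theorem no_tight (P : Pack F n) (hn : 0 < n) :
    ¬ P.fa ≤ ENNReal.ofReal (n * (2 * Real.sqrt 3)) := by
  intro h
  obtain ⟨T, nb, G⟩ := P.exists_glob h
  haveI : Nonempty (Fin n) := ⟨⟨0, hn⟩⟩
  have hN : ∀ (i : Idx n) κ, (nb i κ).1 = (nb (i.1, 0, 0) κ).1 := fun i κ => G.nsh _ _ _ rfl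
  have hT : ∀ i : Idx n, T i = T (i.1, 0, 0) := fun i => G.tsh _ _ rfl
  refine no_periodic (X := Fin n) (fun κ p => (nb (p, 0, 0) κ).1)
    (fun p => (F.τ (T (p, 0, 0))).2.1) ?_ ?_ ?_
  · intro κ p
    rw [← hN, (G.opp (p, 0, 0) κ).1]
  · intro κ p
    rw [← hN, (G.opp (p, 0, 0) κ).2]
  · intro p
    set i : Idx n := (p, 0, 0) with hi
    -- labels of the neighbours
    have hR : ∀ j : Idx n, (F.τ (T (j.1, 0, 0))).2.1 = (F.τ (T j)).2.1 := fun j => by rw [← hT]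
    have side : ∀ (j : Idx n) (κ : Fin 6),
        ‖F.V (T j) (κ + 1) - F.V (T j) κ‖ =
          ‖F.V (T (nb j κ)) (κ + 3 + 1) - F.V (T (nb j κ)) (κ + 3)‖ :=
      fun j κ => G.side_match j κ (κ + 3) (G.opp j κ).1
    -- left labels
    have hL : ∀ j : Idx n, (F.τ (T j)).1 = (F.τ (T (nb j 3))).2.1 := by
      intro j
      have := (F.same_length (side j 3)).2
      rcases this with ⟨g, -⟩ | ⟨g, -⟩ <;> exact g
    have hTop : (F.τ (T i)).2.2.1 = (F.τ (T (nb i 1))).1 := by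
      have h2 := (F.same_length (side i 1)).2
      have h3 := F.same_col (side i 1)
      have a1 := F.τall (T i)
      have a2 := F.τall (T (nb i 1))
      change ((F.τ (T i)).2.1 = (F.τ (T (nb i 1))).1 ∧
        (F.τ (T i)).2.2.1 = (F.τ (T (nb i 1))).2.2.2) ∨
        ((F.τ (T i)).2.1 = (F.τ (T (nb i 1))).2.2.2 ∧
        (F.τ (T i)).2.2.1 = (F.τ (T (nb i 1))).1) at h2
      rcases h2 with ⟨g1, g2⟩ | ⟨g1, g2⟩
      · exfalso
        have b1 := a1.1
        rw [g1] at b1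
        change (F.τ (T i)).1.col + 0 = (F.τ (T (nb i 1))).1.col + 1 at h3
        rw [b1] at h3
        revert h3
        generalize (F.τ (T i)).1.col = x
        revert x
        decide
      · exact g2
    have hBot : (F.τ (T i)).2.2.2 = (F.τ (T (nb i 4))).2.1 := by
      have h2 := (F.same_length (side i 4)).2
      have h3 := F.same_col (side i 4)
      have a1 := F.τall (T i)
      have a2 := F.τall (T (nb i 4))
      change ((F.τ (T i)).1 = (F.τ (T (nb i 4))).2.1 ∧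
        (F.τ (T i)).2.2.2 = (F.τ (T (nb i 4))).2.2.1) ∨
        ((F.τ (T i)).1 = (F.τ (T (nb i 4))).2.2.1 ∧
        (F.τ (T i)).2.2.2 = (F.τ (T (nb i 4))).2.1) at h2
      rcases h2 with ⟨g1, g2⟩ | ⟨g1, g2⟩
      · exfalso
        have b1 := a2.1
        rw [← g1] at b1
        change (F.τ (T i)).1.col + 1 = (F.τ (T (nb i 4))).1.col + 0 at h3
        rw [b1] at h3
        revert h3
        generalize (F.τ (T (nb i 4))).1.col = x
        revert x
        decide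
      · exact g2
    have hall := F.τall (T i)
    rw [hTop, hL (nb i 1), hBot, hL i] at hall
    have e1 : (nb ((nb i 1).1, 0, 0) 3).1 = (nb (nb i 1) 3).1 := (hN (nb i 1) 3).symm
    change Allowed (F.τ (T ((nb i 3).1, 0, 0))).2.1 (F.τ (T i)).2.1
      (F.τ (T ((nb ((nb i 1).1, 0, 0) 3).1, 0, 0))).2.1 (F.τ (T ((nb i 4).1, 0, 0))).2.1
    rw [e1, hR, hR, hR]
    exact hall

end Pack

end Pool.Agent.Y370.Q
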