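import Pool.Agent.Y370.Q30

set_option autoImplicit false

namespace Pool.Agent.Y370.Q

open MeasureTheory Complex

lemma disj_of_crs {A B : Set ℂ} {E q : ℂ} (hE : E ≠ 0) (hA : ∀ x ∈ A, 0 ≤ crs E (x - q))
    (hB : ∀ x ∈ B, crs E (x - q) ≤ 0) : Disjoint (interior A) (interior B) := by
  rw [Set.disjoint_left]
  intro x hx1 hx2
  have h1 : x ∈ interior A ∩ interior B := ⟨hx1, hx2⟩
  have hopen : IsOpen (interior A ∩ interior B) := isOpen_interior.inter isOpen_interior
  obtain ⟨ε, hε, hball⟩ := Metric.isOpen_iff.1 hopen x h1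
  have hEn : 0 < ‖E‖ := norm_pos_iff.2 hE
  set τ := ε / (2 * ‖E‖) with hτ
  have hτ0 : 0 < τ := by positivity
  have h2 : x + τ • (I * E) ∈ interior A ∩ interior B := by
    apply hball
    rw [Metric.mem_ball, dist_eq_norm, add_sub_cancel_left, norm_smul, norm_mul, norm_I, one_mul,
      Real.norm_eq_abs, abs_of_pos hτ0, hτ]
    field_simp
    linarith
  have h3 := hB _ (interior_subset h2.2)
  have h4 := hA _ (interior_subset hx1)
  have e1 : x + τ • (I * E) - q = (x - q) + τ • (I * E) := by ring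
  rw [e1, crs_add_right, crs_smul_right] at h3
  have e2 : crs E (I * E) = ‖E‖ ^ 2 := by
    rw [← dot_self]; simp only [crs, dot, mul_re, mul_im, I_re, I_im]; ring
  rw [e2] at h3
  have : 0 < τ * ‖E‖ ^ 2 := by positivity
  linarith

namespace Fam

variable (F : Fam)

/-- the hexagon used at column c and row r -/
noncomputable def tt (c : ℤ) (r : ℕ) : Fin F.M :=
  (F.τsurj _ _ _ _ (patch_allowed c r)).choose

lemma tt_spec (c : ℤ) (r : ℕ) : F.τ (F.tt c r) =
    (vlab (c - 1) (r + 1), vlab c (r + 1), vlab (c - 1) (r + 2), vlab c r) :=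
  (F.τsurj _ _ _ _ (patch_allowed c r)).choose_spec

/-- real labels -/
noncomputable def rl (c : ℤ) (r : ℕ) : ℝ := F.l (vlab c r)

lemma H_tt (c : ℤ) (r : ℕ) : F.H (F.tt c r) =
    hexV (F.rl (c - 1) (r + 1)) (F.rl c (r + 1)) (F.rl (c - 1) (r + 2)) (F.rl c r) := by
  rw [H, F.tt_spec]; rfl

/-- position -/
noncomputable def pos (c r : ℤ) : ℂ := ⟨2 * c + r, Real.sqrt 3 * r⟩

/-- the rotation bringing the body into the hexagon -/
noncomputable def rot (c : ℤ) (r : ℕ) : ℂ ≃ₗᵢ[ℝ] ℂ :=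
  rotation (Circle.exp (-((F.tt c r : ℕ) * F.σ)))

lemma rot_apply (c : ℤ) (r : ℕ) (x : ℂ) :
    F.rot c r x = ev (-((F.tt c r : ℕ) * F.σ)) * x := by
  rw [rot, rotation_apply, Circle.coe_exp]
  congr 1
  apply Complex.ext
  · rw [Complex.exp_ofReal_mul_I_re]; rfl
  · rw [Complex.exp_ofReal_mul_I_im]; rfl

lemma rot_mem (c : ℤ) (r : ℕ) {x : ℂ} (hx : x ∈ F.K) (κ : Fin 6) :
    0 ≤ crs (F.H (F.tt c r) (κ + 1) - F.H (F.tt c r) κ) (F.rot c r x - F.H (F.tt c r) κ) := by
  have h1 := F.mem_K.1 hx (F.tt c r) κ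
  set θ := ((F.tt c r : ℕ) : ℝ) * F.σ with hθ
  have e1 : ∀ z : ℂ, ev (-θ) * (ev θ * z) = z := by
    intro z
    rw [← mul_assoc, ← ev_add, neg_add_cancel]
    simp [ev]
    have : (⟨1, 0⟩ : ℂ) = 1 := rfl
    rw [this, one_mul]
  have e2 : crs (ev (-θ) * (F.V (F.tt c r) (κ + 1) - F.V (F.tt c r) κ))
      (ev (-θ) * (x - F.V (F.tt c r) κ)) =
      crs (F.V (F.tt c r) (κ + 1) - F.V (F.tt c r) κ) (x - F.V (F.tt c r) κ) := by
    rw [crs_mul, norm_ev]; ring
  rw [← e2, mul_sub, mul_sub] at h1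
  simp only [V] at h1
  rw [← hθ, e1, e1] at h1
  rw [rot_apply]
  exact h1

/-- a body in the patch -/
def bd (c : ℤ) (r : ℕ) (z : ℂ) : Set ℂ := (fun x => F.rot c r x + z) '' F.K

/-- two bodies sharing a side have disjoint interiors -/
lemma bd_disj_adj {c c' : ℤ} {r r' : ℕ} {z z' : ℂ} (κ : Fin 6)
    (h1 : z' + F.H (F.tt c' r') (κ + 3) = z + F.H (F.tt c r) (κ + 1))
    (h2 : z' + F.H (F.tt c' r') (κ + 3 + 1) = z + F.H (F.tt c r) κ) :
    Disjoint (interior (F.bd c r z)) (interior (F.bd c' r' z')) := by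
  set E := F.H (F.tt c r) (κ + 1) - F.H (F.tt c r) κ with hE
  have hE0 : E ≠ 0 := by
    intro h0
    have e1 := F.body.side_crs (F.tt c r) ((κ : ℕ) : ℤ)
    have h0' : fk ((κ : ℕ) : ℤ) = κ := by
      apply Fin.ext
      have := fk_val ((κ : ℕ) : ℤ)
      have := κ.2
      omega
    rw [h0'] at e1
    have e2 : F.V (F.tt c r) (κ + 1) - F.V (F.tt c r) κ = ev ((F.tt c r : ℕ) * F.σ) * E := by
      rw [hE]; simp only [V]; ring
    rw [e2, h0, mul_zero] at e1
    simp [crs] at e1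
    norm_num at e1
  apply disj_of_crs (q := z + F.H (F.tt c r) κ) hE0
  · rintro x ⟨y, hy, rfl⟩
    have := F.rot_mem c r hy κ
    have e1 : (fun x => F.rot c r x + z) y - (z + F.H (F.tt c r) κ) =
        F.rot c r y - F.H (F.tt c r) κ := by simp only; ring
    rw [e1]
    exact this
  · rintro x ⟨y, hy, rfl⟩
    have h3 := F.rot_mem c' r' hy (κ + 3)
    have e1 : F.H (F.tt c' r') (κ + 3 + 1) - F.H (F.tt c' r') (κ + 3) = -E := by
      rw [hE]
      have : F.H (F.tt c' r') (κ + 3 + 1) - F.H (F.tt c' r') (κ + 3) =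
        (z' + F.H (F.tt c' r') (κ + 3 + 1)) - (z' + F.H (F.tt c' r') (κ + 3)) := by ring
      rw [this, h1, h2]; ring
    have e2 : (fun x => F.rot c' r' x + z') y - (z + F.H (F.tt c r) κ) =
        (F.rot c' r' y - F.H (F.tt c' r') (κ + 3)) + E := by
      have : z' + F.H (F.tt c' r') (κ + 3) = z + (E + F.H (F.tt c r) κ) := by
        rw [h1, hE]; ring
      simp only
      linear_combination this
    rw [e2, crs_add_right, crs_self, add_zero]
    rw [e1] at h3
    have e3 : ∀ w, crs (-E) w = -crs E w := by intro w; simp [crs]; ring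
    rw [e3] at h3
    linarith

lemma bd_ball (c : ℤ) (r : ℕ) (z : ℂ) {x : ℂ} (hx : x ∈ F.bd c r z) : ‖x - z‖ ≤ 1 + 1e-6 := by
  obtain ⟨y, hy, rfl⟩ := hx
  simp only [add_sub_cancel_right]
  rw [LinearIsometryEquiv.norm_map]
  exact F.K_norm hy

lemma bd_disj_far {c c' : ℤ} {r r' : ℕ} {z z' : ℂ} (h : 3 ≤ ‖z - z'‖) :
    Disjoint (interior (F.bd c r z)) (interior (F.bd c' r' z')) := by
  rw [Set.disjoint_left]
  intro x hx1 hx2
  have h1 := F.bd_ball c r z (interior_subset hx1)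
  have h2 := F.bd_ball c' r' z' (interior_subset hx2)
  have e : z - z' = (x - z') - (x - z) := by ring
  rw [e] at h
  have := h.trans (norm_sub_le _ _)
  linarith

lemma sqrt3_inv : Real.sqrt 3 = 3 * (1 / Real.sqrt 3) ∧ 2 / Real.sqrt 3 = 2 * (1 / Real.sqrt 3) := by
  have hs := sqrt3_sq
  have hne : Real.sqrt 3 ≠ 0 := by positivity
  constructor
  · field_simp; exact hs
  · ring

/-- right neighbour -/
lemma disj_right (c : ℤ) (r : ℕ) (z : ℂ) :
    Disjoint (interior (F.bd c r z)) (interior (F.bd (c + 1) r (z + ⟨2, 0⟩))) := by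
  apply F.bd_disj_adj 0
  · rw [H_tt, H_tt, show c + 1 - 1 = c by ring]
    change z + ⟨2, 0⟩ + ⟨-1 + F.rl c (r + 1), 1 / Real.sqrt 3⟩ =
      z + ⟨1 + F.rl c (r + 1), 1 / Real.sqrt 3⟩
    apply Complex.ext <;> simp; ring
  · rw [H_tt, H_tt, show c + 1 - 1 = c by ring]
    change z + ⟨2, 0⟩ + ⟨-1 - F.rl c (r + 1), -(1 / Real.sqrt 3)⟩ =
      z + ⟨1 - F.rl c (r + 1), -(1 / Real.sqrt 3)⟩
    apply Complex.ext <;> simp; ring

/-- upper right neighbour -/
lemma disj_ne (c : ℤ) (r : ℕ) (z : ℂ) :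
    Disjoint (interior (F.bd c r z)) (interior (F.bd c (r + 1) (z + ⟨1, Real.sqrt 3⟩))) := by
  obtain ⟨s1, s2⟩ := sqrt3_inv
  apply F.bd_disj_adj 1
  · rw [H_tt, H_tt]
    change z + ⟨1, Real.sqrt 3⟩ + ⟨-1 - F.rl (c - 1) (r + 1 + 1), -(1 / Real.sqrt 3)⟩ =
      z + ⟨-F.rl (c - 1) (r + 2), 2 / Real.sqrt 3⟩
    apply Complex.ext
    · simp only [add_re]; ring
    · simp only [add_im]; rw [s2]; linear_combination s1
  · rw [H_tt, H_tt]
    change z + ⟨1, Real.sqrt 3⟩ + ⟨F.rl c (r + 1), -(2 / Real.sqrt 3)⟩ =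
      z + ⟨1 + F.rl c (r + 1), 1 / Real.sqrt 3⟩
    apply Complex.ext
    · simp only [add_re]; ring
    · simp only [add_im]; rw [s2]; linear_combination s1

/-- upper left neighbour -/
lemma disj_nw (c : ℤ) (r : ℕ) (z : ℂ) :
    Disjoint (interior (F.bd c r z)) (interior (F.bd (c - 1) (r + 1) (z + ⟨-1, Real.sqrt 3⟩))) := by
  obtain ⟨s1, s2⟩ := sqrt3_inv
  apply F.bd_disj_adj 2
  · rw [H_tt, H_tt]
    change z + ⟨-1, Real.sqrt 3⟩ + ⟨F.rl (c - 1) (r + 1), -(2 / Real.sqrt 3)⟩ =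
      z + ⟨-1 + F.rl (c - 1) (r + 1), 1 / Real.sqrt 3⟩
    apply Complex.ext
    · simp only [add_re]; ring
    · simp only [add_im]; rw [s2]; linear_combination s1
  · rw [H_tt, H_tt]
    change z + ⟨-1, Real.sqrt 3⟩ + ⟨1 - F.rl (c - 1) (r + 1 + 1), -(1 / Real.sqrt 3)⟩ =
      z + ⟨-F.rl (c - 1) (r + 2), 2 / Real.sqrt 3⟩
    apply Complex.ext
    · simp only [add_re]; ring
    · simp only [add_im]; rw [s2]; linear_combination s1

/-- bodies at different lattice points; adjacent ones belong to the same patch -/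
lemma disj_all {c c' : ℤ} {r r' : ℕ} {x y x' y' : ℤ} (hne : (x, y) ≠ (x', y'))
    (hadj : |x' - x| ≤ 1 → |y' - y| ≤ 1 → x' - x = c' - c ∧ y' - y = (r' : ℤ) - r) :
    Disjoint (interior (F.bd c r (pos x y))) (interior (F.bd c' r' (pos x' y'))) := by
  by_cases hfar : 3 ≤ (x' - x) ^ 2 + (x' - x) * (y' - y) + (y' - y) ^ 2
  · apply F.bd_disj_far
    have h1 : ‖pos x y - pos x' y'‖ ^ 2 =
        4 * (((x' - x) ^ 2 + (x' - x) * (y' - y) + (y' - y) ^ 2 : ℤ) : ℝ) := by
      rw [← dot_self]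
      simp only [dot, pos, sub_re, sub_im]
      push_cast
      have := sqrt3_sq
      linear_combination ((y - y' : ℝ)) ^ 2 * this
    have h2 : (3 : ℝ) ≤ (((x' - x) ^ 2 + (x' - x) * (y' - y) + (y' - y) ^ 2 : ℤ) : ℝ) := by
      exact_mod_cast hfar
    have h3 : (3 : ℝ) ^ 2 ≤ ‖pos x y - pos x' y'‖ ^ 2 := by rw [h1]; linarith
    exact le_of_sq_le_sq h3 (norm_nonneg _)
  · push Not at hfar
    obtain ⟨p, hp⟩ : ∃ p, x' = x + p := ⟨x' - x, by ring⟩
    obtain ⟨q, hq⟩ : ∃ q, y' = y + q := ⟨y' - y, by ring⟩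
    subst hp hq
    rw [add_sub_cancel_left, add_sub_cancel_left] at hfar hadj
    have hpq : ¬ (p = 0 ∧ q = 0) := by
      rintro ⟨rfl, rfl⟩; simp at hne
    have hp1 : p ≤ 1 := by nlinarith [sq_nonneg (p + 2 * q)]
    have hp2 : -1 ≤ p := by nlinarith [sq_nonneg (p + 2 * q)]
    have hq1 : q ≤ 1 := by nlinarith [sq_nonneg (q + 2 * p)]
    have hq2 : -1 ≤ q := by nlinarith [sq_nonneg (q + 2 * p)]
    obtain ⟨a1, a2⟩ := hadj (abs_le.2 ⟨hp2, hp1⟩) (abs_le.2 ⟨hq2, hq1⟩)
    have hp : p = -1 ∨ p = 0 ∨ p = 1 := by omega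
    have hq : q = -1 ∨ q = 0 ∨ q = 1 := by omega
    rcases hp with rfl | rfl | rfl <;> rcases hq with rfl | rfl | rfl
    · norm_num at hfar
    · -- left neighbour
      have e1 : c = c' + 1 := by omega
      have e2 : r = r' := by omega
      subst e1 e2
      have := F.disj_right c' r (pos (x + -1) (y + 0))
      have e3 : pos (x + -1) (y + 0) + ⟨2, 0⟩ = pos x y := by
        apply Complex.ext <;> simp [pos]; ring
      rw [e3] at this
      exact this.symm
    · have e1 : c' = c - 1 := by omega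
      have e2 : r' = r + 1 := by omega
      subst e1 e2
      have := F.disj_nw c r (pos x y)
      have e3 : pos x y + ⟨-1, Real.sqrt 3⟩ = pos (x + -1) (y + 1) := by
        apply Complex.ext
        · simp [pos]; ring
        · simp [pos]; ring
      rw [e3] at this
      exact this
    · have e1 : c' = c := by omega
      have e2 : r = r' + 1 := by omega
      subst e1 e2
      have := F.disj_ne c' r' (pos (x + 0) (y + -1))
      have e3 : pos (x + 0) (y + -1) + ⟨1, Real.sqrt 3⟩ = pos x y := by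
        apply Complex.ext
        · simp [pos]; ring
        · simp [pos]; ring
      rw [e3] at this
      exact this.symm
    · exact absurd ⟨rfl, rfl⟩ hpq
    · have e1 : c' = c := by omega
      have e2 : r' = r + 1 := by omega
      subst e1 e2
      have := F.disj_ne c' r (pos x y)
      have e3 : pos x y + ⟨1, Real.sqrt 3⟩ = pos (x + 0) (y + 1) := by
        apply Complex.ext
        · simp [pos]; ring
        · simp [pos]; ring
      rw [e3] at this
      exact this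
    · have e1 : c = c' - 1 := by omega
      have e2 : r = r' + 1 := by omega
      subst e1 e2
      have := F.disj_nw c' r' (pos (x + 1) (y + -1))
      have e3 : pos (x + 1) (y + -1) + ⟨-1, Real.sqrt 3⟩ = pos x y := by
        apply Complex.ext
        · simp [pos]; ring
        · simp [pos]; ring
      rw [e3] at this
      exact this.symm
    · have e1 : c' = c + 1 := by omega
      have e2 : r' = r := by omega
      subst e1 e2
      have := F.disj_right c r' (pos x y)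
      have e3 : pos x y + ⟨2, 0⟩ = pos (x + 1) (y + 0) := by
        apply Complex.ext <;> simp [pos]; ring
      rw [e3] at this
      exact this
    · norm_num at hfar

end Fam

end Pool.Agent.Y370.Q
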