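import Pool.Agent.Y370.Q31

set_option autoImplicit false

namespace Pool.Agent.Y370.Q

open MeasureTheory Complex

lemma volume_par2 (u w : ℂ) : volume (parallelepiped ![u, w]) = ENNReal.ofReal |crs u w| := by
  have h := Measure.addHaar_parallelepiped Complex.orthonormalBasisOneI.toBasis ![u, w]
  rw [OrthonormalBasis.addHaar_eq_volume] at h
  rw [h, Module.Basis.det_apply, Matrix.det_fin_two]
  congr 2
  simp only [Module.Basis.toMatrix_apply, Matrix.cons_val_zero, Matrix.cons_val_one, crs]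
  simp [Complex.orthonormalBasisOneI]
  ring

namespace Fam

variable (F : Fam)

lemma mod_div_bounds {N : ℕ} (p : Fin (N * N)) : p.1 % N < N ∧ p.1 / N < N := by
  have hN : 0 < N := by
    rcases Nat.eq_zero_or_pos N with h | h
    · subst h; exact absurd p.2 (by simp)
    · exact h
  exact ⟨Nat.mod_lt _ hN, Nat.div_lt_of_lt_mul p.2⟩

lemma pos_shift (L : ℕ) (c r a b : ℤ) :
    pos c r + ((a : ℝ) • (⟨2 * (L : ℝ), 0⟩ : ℂ) + (b : ℝ) • (⟨(L : ℝ), Real.sqrt 3 * L⟩ : ℂ)) =
    pos (c + L * a) (r + L * b) := by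
  apply Complex.ext
  · simp [pos]; ring
  · simp [pos]; ring

lemma body_patch (L : ℕ) (c r : ℕ) (a b : ℤ) :
    (fun x => ((F.rot c r).toIsometryEquiv.trans (IsometryEquiv.addRight (pos c r))) x +
      ((a : ℝ) • (⟨2 * (L : ℝ), 0⟩ : ℂ) + (b : ℝ) • (⟨(L : ℝ), Real.sqrt 3 * L⟩ : ℂ))) '' F.K =
    F.bd c r (pos ((c : ℤ) + L * a) ((r : ℤ) + L * b)) := by
  rw [bd, ← pos_shift]
  apply Set.image_congr
  intro x _
  simp only [IsometryEquiv.trans_apply, IsometryEquiv.addRight_apply,
    LinearIsometryEquiv.coe_toIsometryEquiv]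
  ring

/-- the patch packing -/
noncomputable def patch (N : ℕ) : Pack F (N * N) where
  g p := (F.rot ((p.1 % N : ℕ) : ℤ) (p.1 / N)).toIsometryEquiv.trans
    (IsometryEquiv.addRight (pos ((p.1 % N : ℕ) : ℤ) ((p.1 / N : ℕ) : ℤ)))
  u := ⟨2 * ((N + 2 : ℕ) : ℝ), 0⟩
  w := ⟨((N + 2 : ℕ) : ℝ), Real.sqrt 3 * ((N + 2 : ℕ) : ℝ)⟩
  lin := by
    rw [LinearIndependent.pair_iff]
    intro s t h
    have hL : (0 : ℝ) < ((N + 2 : ℕ) : ℝ) := by positivity
    have h3 : 0 < Real.sqrt 3 := by positivity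
    have h1 := congrArg Complex.im h
    have h2 := congrArg Complex.re h
    simp only [add_im, real_smul, mul_im, ofReal_re, ofReal_im, mul_zero, zero_mul, add_zero,
      zero_im, zero_add] at h1
    simp only [add_re, real_smul, mul_re, ofReal_re, ofReal_im, mul_zero, zero_mul, sub_zero,
      zero_re] at h2
    have ht : t = 0 := by
      rcases mul_eq_zero.1 h1 with h | h
      · exact h
      · exact absurd h (by positivity)
    refine ⟨?_, ht⟩
    rw [ht, zero_mul, add_zero] at h2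
    rcases mul_eq_zero.1 h2 with h | h
    · exact h
    · exact absurd h (by positivity)
  disj := by
    intro i j a b c e hne
    rw [F.body_patch, F.body_patch]
    obtain ⟨hi1, hi2⟩ := mod_div_bounds i
    obtain ⟨hj1, hj2⟩ := mod_div_bounds j
    have key : ∀ p q s t : ℤ, 0 ≤ p → p < N → 0 ≤ q → q < N →
        |(q + ((N + 2 : ℕ) : ℤ) * t) - (p + ((N + 2 : ℕ) : ℤ) * s)| ≤ 1 → s = t := by
      intro p q s t hp0 hp1 hq0 hq1 h
      rw [abs_le] at h
      push_cast at h
      obtain ⟨h1, h2⟩ := h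
      by_contra hst
      rcases lt_or_gt_of_ne hst with g | g
      · have : ((N : ℤ) + 2) * 1 ≤ ((N : ℤ) + 2) * (t - s) :=
          mul_le_mul_of_nonneg_left (by omega) (by omega)
        have e : ((N : ℤ) + 2) * (t - s) = ((N : ℤ) + 2) * t - ((N : ℤ) + 2) * s := by ring
        rw [e] at this
        omega
      · have : ((N : ℤ) + 2) * 1 ≤ ((N : ℤ) + 2) * (s - t) :=
          mul_le_mul_of_nonneg_left (by omega) (by omega)
        have e : ((N : ℤ) + 2) * (s - t) = ((N : ℤ) + 2) * s - ((N : ℤ) + 2) * t := by ring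
        rw [e] at this
        omega
    apply F.disj_all
    · intro h
      apply hne
      rw [Prod.mk.injEq] at h
      obtain ⟨h1, h2⟩ := h
      have e1 := key ((i.1 % N : ℕ) : ℤ) ((j.1 % N : ℕ) : ℤ) a c
        (Int.natCast_nonneg _) (by exact_mod_cast hi1) (Int.natCast_nonneg _)
        (by exact_mod_cast hj1) (by rw [h1]; simp)
      have e2 := key ((i.1 / N : ℕ) : ℤ) ((j.1 / N : ℕ) : ℤ) b e
        (Int.natCast_nonneg _) (by exact_mod_cast hi2) (Int.natCast_nonneg _)
        (by exact_mod_cast hj2) (by rw [h2]; simp)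
      subst e1 e2
      have h3 : i.1 % N = j.1 % N := by exact_mod_cast add_right_cancel h1
      have h4 : i.1 / N = j.1 / N := by exact_mod_cast add_right_cancel h2
      have h5 : i = j := by
        apply Fin.ext
        rw [← Nat.mod_add_div i.1 N, ← Nat.mod_add_div j.1 N, h3, h4]
      rw [h5]
    · intro h1 h2
      have e1 := key ((i.1 % N : ℕ) : ℤ) ((j.1 % N : ℕ) : ℤ) a c
        (Int.natCast_nonneg _) (by exact_mod_cast hi1) (Int.natCast_nonneg _)
        (by exact_mod_cast hj1) h1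
      have e2 := key ((i.1 / N : ℕ) : ℤ) ((j.1 / N : ℕ) : ℤ) b e
        (Int.natCast_nonneg _) (by exact_mod_cast hi2) (Int.natCast_nonneg _)
        (by exact_mod_cast hj2) h2
      subst e1 e2
      constructor <;> ring

lemma patch_vol (N : ℕ) : volume (parallelepiped ![(F.patch N).u, (F.patch N).w]) =
    ENNReal.ofReal (2 * Real.sqrt 3 * ((N : ℝ) + 2) ^ 2) := by
  rw [volume_par2]
  congr 1
  have : crs (F.patch N).u (F.patch N).w = 2 * Real.sqrt 3 * ((N : ℝ) + 2) ^ 2 := by
    change 2 * ((N + 2 : ℕ) : ℝ) * (Real.sqrt 3 * ((N + 2 : ℕ) : ℝ)) - 0 * ((N + 2 : ℕ) : ℝ) = _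
    push_cast
    ring
  rw [this, abs_of_nonneg (by positivity)]

end Fam

end Pool.Agent.Y370.Q
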