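import Pool.Agent.Y370.Q3

set_option autoImplicit false

namespace Pool.Agent.Y370.Q

open MeasureTheory Complex

lemma unit_eq {n : ℂ} (hn : ‖n‖ = 1) : n.re * n.re + n.im * n.im = 1 := by
  have := dot_self n
  rw [hn] at this
  simpa [dot] using this

/-- intersection point of the lines dot z n = h and dot z n' = h' -/
noncomputable def Wv (n n' : ℂ) (h h' : ℝ) : ℂ :=
  h • n + ((h' - h * dot n n') / crs n n') • (I * n)

lemma dot_I_left (n m : ℂ) : dot (I * n) m = crs n m := by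
  simp [dot, crs]; ring

lemma dot_Wv_left {n n' : ℂ} (hn : ‖n‖ = 1) (h h' : ℝ) : dot (Wv n n' h h') n = h := by
  rw [Wv, dot_add_left, dot_smul_left, dot_smul_left, dot_I_left, crs_self, dot_self, hn]
  ring

lemma dot_Wv_right {n n' : ℂ} (hc : crs n n' ≠ 0) (h h' : ℝ) :
    dot (Wv n n' h h') n' = h' := by
  rw [Wv, dot_add_left, dot_smul_left, dot_smul_left, dot_I_left]
  field_simp
  ring

lemma Wv_alt {n n' : ℂ} (hn : ‖n‖ = 1) (hn' : ‖n'‖ = 1) (hc : crs n n' ≠ 0) (h h' : ℝ) :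
    Wv n n' h h' = h' • n' - ((h - h' * dot n n') / crs n n') • (I * n') := by
  have e1 := unit_eq hn
  have e2 := unit_eq hn'
  have hc' : n.re * n'.im - n.im * n'.re ≠ 0 := hc
  apply Complex.ext
  · simp only [Wv, dot, crs, real_smul, add_re, sub_re, mul_re, ofReal_re, ofReal_im, I_re, I_im,
      mul_im]
    field_simp
    linear_combination (h' * n.im) * e2 + h * n'.im * e1
  · simp only [Wv, dot, crs, real_smul, add_im, sub_im, mul_re, ofReal_re, ofReal_im, I_re, I_im,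
      mul_im]
    field_simp
    linear_combination (-h' * n.re) * e2 - h * n'.re * e1

lemma crs_Wv {n n' n'' : ℂ} (hn : ‖n‖ = 1) (hn' : ‖n'‖ = 1) (hc : crs n n' ≠ 0)
    (h h' h'' : ℝ) :
    crs (Wv n n' h h') (Wv n' n'' h' h'') =
      h' * ((h'' - h' * dot n' n'') / crs n' n'') + h' * ((h - h' * dot n n') / crs n n') := by
  rw [Wv_alt hn hn' hc]
  rw [Wv]
  have e2 := unit_eq hn'
  generalize (h'' - h' * dot n' n'') / crs n' n'' = b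
  generalize (h - h' * dot n n') / crs n n' = c
  simp only [crs, real_smul, add_re, sub_re, mul_re, ofReal_re, ofReal_im, I_re, I_im,
      mul_im, add_im, sub_im]
  linear_combination (h' * b + h' * c) * e2

/-- area of the kite with sides a, b and angle with cosine C, sine S -/
noncomputable def Fk (a b C S : ℝ) : ℝ := (2 * a * b - (a ^ 2 + b ^ 2) * C) / (2 * S)

lemma area_formula (n : Fin 6 → ℂ) (h : Fin 6 → ℝ) (hn : ∀ κ, ‖n κ‖ = 1)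
    (hc : ∀ κ, 0 < crs (n κ) (n (κ + 1))) :
    (1 / 2) * ∑ κ, crs (Wv (n κ) (n (κ + 1)) (h κ) (h (κ + 1)))
        (Wv (n (κ + 1)) (n (κ + 1 + 1)) (h (κ + 1)) (h (κ + 1 + 1))) =
      ∑ κ, Fk (h κ) (h (κ + 1)) (dot (n κ) (n (κ + 1))) (crs (n κ) (n (κ + 1))) := by
  have h1 : ∀ κ, crs (Wv (n κ) (n (κ + 1)) (h κ) (h (κ + 1)))
        (Wv (n (κ + 1)) (n (κ + 1 + 1)) (h (κ + 1)) (h (κ + 1 + 1))) =
      h (κ + 1) * ((h (κ + 1 + 1) - h (κ + 1) * dot (n (κ + 1)) (n (κ + 1 + 1))) /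
        crs (n (κ + 1)) (n (κ + 1 + 1))) +
      h (κ + 1) * ((h κ - h (κ + 1) * dot (n κ) (n (κ + 1))) / crs (n κ) (n (κ + 1))) :=
    fun κ => crs_Wv (hn κ) (hn _) (hc κ).ne' _ _ _
  rw [Finset.sum_congr rfl (fun κ _ => h1 κ), Finset.sum_add_distrib]
  have h2 : ∑ κ : Fin 6, h (κ + 1) * ((h (κ + 1 + 1) - h (κ + 1) *
      dot (n (κ + 1)) (n (κ + 1 + 1))) / crs (n (κ + 1)) (n (κ + 1 + 1))) =
      ∑ κ : Fin 6, h κ * ((h (κ + 1) - h κ * dot (n κ) (n (κ + 1))) / crs (n κ) (n (κ + 1))) :=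
    Equiv.sum_comp (Equiv.addRight (1 : Fin 6)) (fun κ => h κ * ((h (κ + 1) - h κ *
      dot (n κ) (n (κ + 1))) / crs (n κ) (n (κ + 1))))
  rw [h2, ← Finset.sum_add_distrib, Finset.mul_sum]
  apply Finset.sum_congr rfl
  intro κ _
  have := (hc κ).ne'
  unfold Fk
  field_simp
  ring

/-- lower bound of the kite area -/
lemma Fk_lower {a b C S μ : ℝ} (hμ : 0.9999 ≤ μ) (_hμ1 : μ ≤ 1) (ha : μ ≤ a) (hb : μ ≤ b)
    (ha2 : a ≤ 1.04)
    (hb2 : b ≤ 1.04) (hC : 0.18 ≤ C) (hC2 : C ≤ 0.5505) (hS : 0 < S) (hSC : S ^ 2 = 1 - C ^ 2) :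
    μ ^ 2 * ((1 - C) / S) + (1 / 2) * ((a - μ) + (b - μ)) ≤ Fk a b C S := by
  unfold Fk
  have hS1 : S ≤ 1.9998 - 2.0402 * C := by
    apply le_of_sq_le_sq _ (by nlinarith)
    rw [hSC]
    nlinarith
  rw [show μ ^ 2 * ((1 - C) / S) + (1 / 2) * ((a - μ) + (b - μ)) =
    (2 * μ ^ 2 * (1 - C) + S * ((a - μ) + (b - μ))) / (2 * S) by field_simp]
  apply div_le_div_of_nonneg_right _ (by positivity)
  obtain ⟨e, rfl⟩ : ∃ e, a = μ + e := ⟨a - μ, by ring⟩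
  obtain ⟨f, rfl⟩ : ∃ f, b = μ + f := ⟨b - μ, by ring⟩
  have he : 0 ≤ e := by linarith
  have hf : 0 ≤ f := by linarith
  have he2 : e ≤ 0.0401 := by linarith
  have hf2 : f ≤ 0.0401 := by linarith
  have h1 : 2 * (μ + e) * (μ + f) - ((μ + e) ^ 2 + (μ + f) ^ 2) * C =
    2 * μ ^ 2 * (1 - C) + 2 * μ * (1 - C) * (e + f) + 2 * (e * f) - (e ^ 2 + f ^ 2) * C := by ring
  rw [h1]
  have h2 : (e ^ 2 + f ^ 2) * C ≤ (0.0401 * C) * (e + f) := by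
    have : e ^ 2 + f ^ 2 ≤ 0.0401 * (e + f) := by nlinarith
    nlinarith
  have h3 : S * (e + f) ≤ (1.9998 - 2.0402 * C) * (e + f) :=
    mul_le_mul_of_nonneg_right hS1 (by linarith)
  have h4 : (1.9998 - 2.0402 * C) * (e + f) ≤ (2 * μ * (1 - C) - 0.0401 * C) * (e + f) := by
    apply mul_le_mul_of_nonneg_right _ (by linarith)
    nlinarith
  have h5 : 0 ≤ e * f := mul_nonneg he hf
  have h6 : S * ((μ + e - μ) + (μ + f - μ)) = S * (e + f) := by ring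
  rw [h6]
  nlinarith

lemma tan_half {γ : ℝ} (hs : Real.sin γ ≠ 0) (hc : Real.cos (γ / 2) ≠ 0) :
    (1 - Real.cos γ) / Real.sin γ = Real.tan (γ / 2) := by
  have h1 : γ = 2 * (γ / 2) := by ring
  have h2 : Real.sin γ = 2 * Real.sin (γ / 2) * Real.cos (γ / 2) := by
    conv_lhs => rw [h1]
    rw [Real.sin_two_mul]
  have h3 : Real.cos γ = 2 * Real.cos (γ / 2) ^ 2 - 1 := by
    conv_lhs => rw [h1]
    rw [Real.cos_two_mul]
  rw [h2] at hs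
  have hs2 : Real.sin (γ / 2) ≠ 0 := by
    intro h; apply hs; rw [h]; ring
  rw [h2, h3, Real.tan_eq_sin_div_cos]
  field_simp
  have := Real.sin_sq_add_cos_sq (γ / 2)
  nlinarith

/-- the coarse estimate: a hexagon of area at most 2√3 containing almost the unit disc is almost
regular -/
theorem coarse (γ h : Fin 6 → ℝ) {ζ : ℝ} (hζ : 0 ≤ ζ) (hζ1 : ζ ≤ 0.0001)
    (hγ1 : ∀ κ, 0.98 ≤ γ κ) (hγ2 : ∀ κ, γ κ ≤ 1.384) (hsum : ∑ κ, γ κ = 2 * Real.pi)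
    (hcos1 : ∀ κ, Real.cos (γ κ) ≤ 0.5505) (hcos2 : ∀ κ, 0.18 ≤ Real.cos (γ κ))
    (hh1 : ∀ κ, 1 - ζ ≤ h κ) (hh2 : ∀ κ, h κ ≤ 1.04)
    (hA : ∑ κ, Fk (h κ) (h (κ + 1)) (Real.cos (γ κ)) (Real.sin (γ κ)) ≤ 2 * Real.sqrt 3) :
    (∀ κ, h κ ≤ 1 + 6 * ζ) ∧ (∀ κ, (γ κ - Real.pi / 3) ^ 2 ≤ 60 * ζ) := by
  have hp1 := Real.pi_gt_d4
  have hp2 := Real.pi_lt_d4
  have hs1 := sqrt3_lo
  have hs2 := sqrt3_hi
  have hs := sqrt3_sq
  set μ : ℝ := 1 - ζ with hμ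
  have hterm : ∀ κ, μ ^ 2 * (1 / Real.sqrt 3 + 4 / 3 * (γ κ / 2 - Real.pi / 6) +
      1 / 2 * (γ κ / 2 - Real.pi / 6) ^ 2) + 1 / 2 * ((h κ - μ) + (h (κ + 1) - μ)) ≤
      Fk (h κ) (h (κ + 1)) (Real.cos (γ κ)) (Real.sin (γ κ)) := by
    intro κ
    have g1 := hγ1 κ
    have g2 := hγ2 κ
    have hsin : 0 < Real.sin (γ κ) := Real.sin_pos_of_pos_of_lt_pi (by linarith) (by linarith)
    have hcos : 0 < Real.cos (γ κ / 2) :=
      Real.cos_pos_of_mem_Ioo ⟨by linarith, by linarith⟩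
    have h1 := Fk_lower (a := h κ) (b := h (κ + 1)) (C := Real.cos (γ κ)) (S := Real.sin (γ κ))
      (μ := μ) (by linarith) (by linarith) (hh1 κ) (hh1 _) (hh2 κ) (hh2 _) (hcos2 κ) (hcos1 κ)
      hsin (by have := Real.sin_sq_add_cos_sq (γ κ); linarith)
    rw [tan_half hsin.ne' hcos.ne'] at h1
    have h2 := tan_lower (x := γ κ / 2) (by linarith) (by linarith)
    have h3 : μ ^ 2 * (1 / Real.sqrt 3 + 4 / 3 * (γ κ / 2 - Real.pi / 6) +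
      1 / 2 * (γ κ / 2 - Real.pi / 6) ^ 2) ≤ μ ^ 2 * Real.tan (γ κ / 2) :=
      mul_le_mul_of_nonneg_left h2 (by positivity)
    linarith
  have hsumle := (Finset.sum_le_sum (fun κ (_ : κ ∈ Finset.univ) => hterm κ)).trans hA
  have hshift : ∑ κ : Fin 6, (h (κ + 1) - μ) = ∑ κ : Fin 6, (h κ - μ) :=
    Equiv.sum_comp (Equiv.addRight (1 : Fin 6)) (fun κ => h κ - μ)
  have hlin : ∑ κ : Fin 6, (γ κ / 2 - Real.pi / 6) = 0 := by
    rw [Finset.sum_sub_distrib, ← Finset.sum_div, hsum]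
    simp
    ring
  have hsq3 : (6 : ℝ) * (1 / Real.sqrt 3) = 2 * Real.sqrt 3 := by
    have : Real.sqrt 3 ≠ 0 := by positivity
    field_simp
    rw [hs]; norm_num
  have hexp : ∑ κ : Fin 6, (μ ^ 2 * (1 / Real.sqrt 3 + 4 / 3 * (γ κ / 2 - Real.pi / 6) +
      1 / 2 * (γ κ / 2 - Real.pi / 6) ^ 2) + 1 / 2 * ((h κ - μ) + (h (κ + 1) - μ))) =
      μ ^ 2 * (2 * Real.sqrt 3) + μ ^ 2 / 2 * ∑ κ : Fin 6, (γ κ / 2 - Real.pi / 6) ^ 2 +
      ∑ κ : Fin 6, (h κ - μ) := by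
    have e1 : ∀ κ : Fin 6, (μ ^ 2 * (1 / Real.sqrt 3 + 4 / 3 * (γ κ / 2 - Real.pi / 6) +
      1 / 2 * (γ κ / 2 - Real.pi / 6) ^ 2) + 1 / 2 * ((h κ - μ) + (h (κ + 1) - μ))) =
      μ ^ 2 * (1 / Real.sqrt 3) + (μ ^ 2 * (4 / 3)) * (γ κ / 2 - Real.pi / 6) +
      (μ ^ 2 / 2) * (γ κ / 2 - Real.pi / 6) ^ 2 + (1 / 2) * (h κ - μ) +
      (1 / 2) * (h (κ + 1) - μ) := by intro κ; ring
    rw [Finset.sum_congr rfl (fun κ _ => e1 κ)]
    simp only [Finset.sum_add_distrib, ← Finset.mul_sum]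
    rw [hlin, hshift]
    simp only [Finset.sum_const, Finset.card_univ, Fintype.card_fin, nsmul_eq_mul]
    linear_combination μ ^ 2 * hsq3
  rw [hexp] at hsumle
  have hbound : μ ^ 2 / 2 * ∑ κ : Fin 6, (γ κ / 2 - Real.pi / 6) ^ 2 +
      ∑ κ : Fin 6, (h κ - μ) ≤ 7 * ζ := by
    have : 2 * Real.sqrt 3 - μ ^ 2 * (2 * Real.sqrt 3) ≤ 7 * ζ := by
      rw [hμ]; nlinarith
    linarith
  have hnn1 : 0 ≤ ∑ κ : Fin 6, (γ κ / 2 - Real.pi / 6) ^ 2 :=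
    Finset.sum_nonneg fun κ _ => sq_nonneg _
  have hnn2 : ∀ κ : Fin 6, 0 ≤ h κ - μ := fun κ => by have := hh1 κ; linarith
  have hnn3 : 0 ≤ ∑ κ : Fin 6, (h κ - μ) := Finset.sum_nonneg fun κ _ => hnn2 κ
  have hμ2 : (0.9 : ℝ) ≤ μ ^ 2 := by nlinarith
  constructor
  · intro κ
    have h1 : h κ - μ ≤ ∑ κ : Fin 6, (h κ - μ) :=
      Finset.single_le_sum (f := fun κ => h κ - μ) (fun i _ => hnn2 i) (Finset.mem_univ κ)
    have h2 : 0 ≤ μ ^ 2 / 2 * ∑ κ : Fin 6, (γ κ / 2 - Real.pi / 6) ^ 2 := by positivity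
    linarith
  · intro κ
    have h1 : (γ κ / 2 - Real.pi / 6) ^ 2 ≤ ∑ κ : Fin 6, (γ κ / 2 - Real.pi / 6) ^ 2 :=
      Finset.single_le_sum (f := fun κ => (γ κ / 2 - Real.pi / 6) ^ 2)
        (fun i _ => sq_nonneg _) (Finset.mem_univ κ)
    have h2 : (0.45 : ℝ) * ∑ κ : Fin 6, (γ κ / 2 - Real.pi / 6) ^ 2 ≤ 7 * ζ := by
      nlinarith
    have h3 : (γ κ - Real.pi / 3) ^ 2 = 4 * (γ κ / 2 - Real.pi / 6) ^ 2 := by ring
    rw [h3]
    nlinarith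

end Pool.Agent.Y370.Q
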