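import Pool.Agent.Y370.Q0

set_option autoImplicit false

namespace Pool.Agent.Y370.Q

open MeasureTheory Complex

/-- local minimality of a hexagon whose sides touch a convex set in segments around their
midpoints -/
theorem fine (V W : Fin 6 → ℂ) {ρ η : ℝ} (hρ : 0 < ρ) (hρ2 : ρ ≤ 1 / 2) (hη : η ≤ ρ / 10)
    (hE : ∀ κ, ‖V (κ + 1) - V κ‖ ≤ 1.2)
    (hX : ∀ κ, 1.1 ≤ crs (V (κ + 1) - V κ) (V (κ + 1 + 1) - V (κ + 1)))
    (hp1 : ∀ κ, 0 ≤ crs (W (κ + 1) - W κ) (V κ + (1 / 2 + ρ) • (V (κ + 1) - V κ) - W κ))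
    (hp2 : ∀ κ, 0 ≤ crs (W (κ + 1) - W κ) (V κ + (1 / 2 - ρ) • (V (κ + 1) - V κ) - W κ))
    (hw : ∀ κ, ‖W κ - V κ‖ ≤ η) :
    ∑ κ, crs (V κ) (V (κ + 1)) ≤ ∑ κ, crs (W κ) (W (κ + 1)) ∧
    (∑ κ, crs (W κ) (W (κ + 1)) ≤ ∑ κ, crs (V κ) (V (κ + 1)) → W = V) := by
  set w : Fin 6 → ℂ := fun κ => W κ - V κ with hwdef
  set E : Fin 6 → ℂ := fun κ => V (κ + 1) - V κ with hEdef
  set A : Fin 6 → ℝ := fun κ => crs (w (κ + 1)) (E κ) with hA
  set B : Fin 6 → ℝ := fun κ => crs (w κ) (E κ) with hB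
  set C : Fin 6 → ℝ := fun κ => crs (w κ) (w (κ + 1)) with hC
  set Q : Fin 6 → ℝ := fun κ => (A κ + B κ) / 2 + C κ with hQ
  have hW : ∀ κ, W κ = V κ + w κ := fun κ => by simp [hwdef]
  have hη0 : 0 ≤ η := (norm_nonneg _).trans (hw 0)
  -- the support condition
  have hQ1 : ∀ κ, ρ * |A κ - B κ| ≤ Q κ := by
    intro κ
    have h1 := hp1 κ
    have h2 := hp2 κ
    have e1 : crs (W (κ + 1) - W κ) (V κ + (1 / 2 + ρ) • (V (κ + 1) - V κ) - W κ) =
        Q κ + ρ * (A κ - B κ) := by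
      simp only [hQ, hA, hB, hC, hwdef, hEdef]
      simp only [crs, sub_re, sub_im, add_re, add_im, real_smul, mul_re, mul_im, ofReal_re,
        ofReal_im]
      ring
    have e2 : crs (W (κ + 1) - W κ) (V κ + (1 / 2 - ρ) • (V (κ + 1) - V κ) - W κ) =
        Q κ - ρ * (A κ - B κ) := by
      simp only [hQ, hA, hB, hC, hwdef, hEdef]
      simp only [crs, sub_re, sub_im, add_re, add_im, real_smul, mul_re, mul_im, ofReal_re,
        ofReal_im]
      ring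
    rw [e1] at h1
    rw [e2] at h2
    rcases abs_cases (A κ - B κ) with ⟨h3, _⟩ | ⟨h3, _⟩ <;> rw [h3] <;> linarith
  have hQ0 : ∀ κ, 0 ≤ Q κ := fun κ => by
    have := hQ1 κ
    have h2 : 0 ≤ ρ * |A κ - B κ| := by positivity
    linarith
  -- area difference
  have hdiff : ∑ κ, crs (W κ) (W (κ + 1)) - ∑ κ, crs (V κ) (V (κ + 1)) =
      ∑ κ, (2 * Q κ - C κ) := by
    have h1 : ∀ κ, crs (W κ) (W (κ + 1)) - crs (V κ) (V (κ + 1)) - (2 * Q κ - C κ) =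
        crs (w κ) (V κ) - crs (w (κ + 1)) (V (κ + 1)) := by
      intro κ
      simp only [hQ, hA, hB, hC, hwdef, hEdef]
      simp only [crs, sub_re, sub_im]
      ring
    have h2 : ∑ κ : Fin 6, crs (w (κ + 1)) (V (κ + 1)) = ∑ κ : Fin 6, crs (w κ) (V κ) :=
      Equiv.sum_comp (Equiv.addRight (1 : Fin 6)) (fun κ => crs (w κ) (V κ))
    have h3 : ∑ κ, (crs (W κ) (W (κ + 1)) - crs (V κ) (V (κ + 1)) - (2 * Q κ - C κ)) = 0 := by
      rw [Finset.sum_congr rfl (fun κ _ => h1 κ), Finset.sum_sub_distrib, h2, sub_self]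
    rw [Finset.sum_sub_distrib, Finset.sum_sub_distrib] at h3
    linarith
  -- size of w
  have hwn : ∀ κ, ‖w (κ + 1)‖ ≤ 1.1 * (|A κ| + |B (κ + 1)|) := by
    intro κ
    have hid : (crs (E κ) (E (κ + 1))) • w (κ + 1) =
        (B (κ + 1)) • E κ - (A κ) • E (κ + 1) := by
      simp only [hA, hB]
      apply Complex.ext
      · simp only [crs, sub_re, real_smul, mul_re, ofReal_re, ofReal_im]
        ring
      · simp only [crs, sub_im, real_smul, mul_im, ofReal_re, ofReal_im]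
        ring
    have h1 : 1.1 ≤ crs (E κ) (E (κ + 1)) := hX κ
    have h2 : ‖(crs (E κ) (E (κ + 1))) • w (κ + 1)‖ ≤ 1.2 * (|A κ| + |B (κ + 1)|) := by
      rw [hid]
      refine (norm_sub_le _ _).trans ?_
      rw [norm_smul, norm_smul, Real.norm_eq_abs, Real.norm_eq_abs]
      have g1 : ‖E κ‖ ≤ 1.2 := hE κ
      have g2 : ‖E (κ + 1)‖ ≤ 1.2 := hE (κ + 1)
      nlinarith [abs_nonneg (B (κ + 1)), abs_nonneg (A κ)]
    rw [norm_smul, Real.norm_eq_abs, abs_of_pos (by linarith)] at h2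
    have h3 : 1.1 * ‖w (κ + 1)‖ ≤ crs (E κ) (E (κ + 1)) * ‖w (κ + 1)‖ :=
      mul_le_mul_of_nonneg_right h1 (norm_nonneg _)
    nlinarith [abs_nonneg (B (κ + 1)), abs_nonneg (A κ)]
  set Z : ℝ := ∑ κ, (|A κ| + |B κ|) with hZ
  have hZ0 : 0 ≤ Z := Finset.sum_nonneg fun κ _ => by positivity
  have hwsum : ∑ κ, ‖w κ‖ ≤ 1.1 * Z := by
    have h1 : ∑ κ : Fin 6, ‖w (κ + 1)‖ = ∑ κ : Fin 6, ‖w κ‖ :=
      Equiv.sum_comp (Equiv.addRight (1 : Fin 6)) (fun κ => ‖w κ‖)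
    have h2 : ∑ κ : Fin 6, |B (κ + 1)| = ∑ κ : Fin 6, |B κ| :=
      Equiv.sum_comp (Equiv.addRight (1 : Fin 6)) (fun κ => |B κ|)
    rw [← h1]
    refine (Finset.sum_le_sum fun κ _ => hwn κ).trans ?_
    rw [← Finset.mul_sum, Finset.sum_add_distrib, h2, ← Finset.sum_add_distrib]
  have hCle : ∀ κ, |C κ| ≤ η * ‖w κ‖ := by
    intro κ
    refine (abs_crs_le _ _).trans ?_
    rw [mul_comm]
    exact mul_le_mul_of_nonneg_right (hw (κ + 1)) (norm_nonneg _)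
  have hCsum : ∑ κ, |C κ| ≤ η * (1.1 * Z) := by
    refine (Finset.sum_le_sum fun κ _ => hCle κ).trans ?_
    rw [← Finset.mul_sum]
    exact mul_le_mul_of_nonneg_left hwsum hη0
  set S : ℝ := ∑ κ, Q κ with hS
  have hS0 : 0 ≤ S := Finset.sum_nonneg fun κ _ => hQ0 κ
  have hAB : ∀ κ, ρ * (|A κ| + |B κ|) ≤ 2 * Q κ + |C κ| := by
    intro κ
    have h1 := hQ1 κ
    have h2 : |A κ + B κ| ≤ 2 * Q κ + 2 * |C κ| := by
      have : A κ + B κ = 2 * Q κ - 2 * C κ := by simp only [hQ]; ring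
      rw [this]
      have h0 := hQ0 κ
      rw [abs_le]
      constructor <;> cases abs_cases (C κ) <;> linarith
    have h3 : |A κ| + |B κ| ≤ max |A κ + B κ| |A κ - B κ| := by
      rcases abs_cases (A κ) with ⟨g1, _⟩ | ⟨g1, _⟩ <;>
      rcases abs_cases (B κ) with ⟨g2, _⟩ | ⟨g2, _⟩ <;> rw [g1, g2] <;>
      simp only [le_max_iff]
      · left; exact le_abs_self _
      · right; exact le_abs_self _
      · right; refine le_trans ?_ (neg_le_abs _); linarith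
      · left; refine le_trans ?_ (neg_le_abs _); linarith
    rcases le_max_iff.1 h3 with h4 | h4
    · have := abs_nonneg (C κ)
      have h0 := hQ0 κ
      nlinarith [mul_le_mul_of_nonneg_left h4 hρ.le]
    · have := abs_nonneg (C κ)
      have h0 := hQ0 κ
      nlinarith [mul_le_mul_of_nonneg_left h4 hρ.le]
  have hZS : ρ * Z ≤ 2 * S + η * (1.1 * Z) := by
    have h1 : ρ * Z ≤ ∑ κ, (2 * Q κ + |C κ|) := by
      rw [hZ, Finset.mul_sum]
      exact Finset.sum_le_sum fun κ _ => hAB κ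
    rw [Finset.sum_add_distrib, ← Finset.mul_sum] at h1
    linarith
  have hZ2 : 0.89 * ρ * Z ≤ 2 * S := by nlinarith
  have hC2 : ∑ κ, |C κ| ≤ S / 2 := by
    have : η * (1.1 * Z) ≤ ρ / 10 * (1.1 * Z) := by
      apply mul_le_mul_of_nonneg_right hη (by positivity)
    nlinarith
  have hdiff2 : 3 / 2 * S ≤ ∑ κ, (2 * Q κ - C κ) := by
    rw [Finset.sum_sub_distrib, ← Finset.mul_sum]
    have : ∑ κ, C κ ≤ ∑ κ, |C κ| := Finset.sum_le_sum fun κ _ => le_abs_self _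
    linarith
  refine ⟨by linarith, ?_⟩
  intro hle
  have hS1 : S = 0 := by linarith
  have hZ1 : Z = 0 := by
    rw [hS1] at hZ2
    have : 0 < 0.89 * ρ := by positivity
    nlinarith
  have hw0 : ∑ κ, ‖w κ‖ ≤ 0 := by rw [hZ1] at hwsum; linarith
  funext κ
  have h1 : ‖w κ‖ ≤ 0 :=
    (Finset.single_le_sum (f := fun κ => ‖w κ‖) (fun i _ => norm_nonneg _)
      (Finset.mem_univ κ)).trans hw0
  have h2 : w κ = 0 := norm_le_zero_iff.1 h1
  rw [hW κ, h2, add_zero]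

end Pool.Agent.Y370.Q
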