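import Pool.Agent.Y370.Q4

set_option autoImplicit false

namespace Pool.Agent.Y370.Q

open MeasureTheory Complex

/-- unit vector with argument x -/
noncomputable def ev (x : ℝ) : ℂ := ⟨Real.cos x, Real.sin x⟩

lemma dot_ev (x y : ℝ) : dot (ev x) (ev y) = Real.cos (y - x) := by
  simp only [dot, ev]; rw [Real.cos_sub]; ring

lemma crs_ev (x y : ℝ) : crs (ev x) (ev y) = Real.sin (y - x) := by
  simp only [crs, ev]; rw [Real.sin_sub]; ring

lemma norm_ev (x : ℝ) : ‖ev x‖ = 1 := by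
  have h : ‖ev x‖ ^ 2 = 1 := by
    rw [← dot_self, dot_ev]; simp
  have := norm_nonneg (ev x)
  nlinarith

lemma I_mul_ev (x : ℝ) : I * ev x = ev (x + Real.pi / 2) := by
  apply Complex.ext <;> simp [ev, Real.cos_add, Real.sin_add]

lemma ev_add_int (x : ℝ) (m : ℤ) : ev (x + m * (2 * Real.pi)) = ev x := by
  simp [ev, Real.cos_add_int_mul_two_pi, Real.sin_add_int_mul_two_pi]

lemma eq_ev_arg {z : ℂ} (hz : ‖z‖ = 1) : z = ev (arg z) := by
  apply Complex.ext
  · have := Complex.norm_mul_cos_arg z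
    rw [hz, one_mul] at this
    exact this.symm
  · have := Complex.norm_mul_sin_arg z
    rw [hz, one_mul] at this
    exact this.symm

lemma norm_ev_sub (x y : ℝ) : ‖ev x - ev y‖ ≤ |x - y| := by
  have h : ‖ev x - ev y‖ ^ 2 ≤ |x - y| ^ 2 := by
    rw [← dot_self, dot_sub_left, dot_sub_right, dot_sub_right, dot_ev, dot_ev, dot_ev, dot_ev,
      sq_abs]
    have h1 : Real.cos (y - x) = Real.cos (x - y) := by rw [← Real.cos_neg]; congr 1; ring
    rw [h1, sub_self, sub_self, Real.cos_zero]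
    have := Real.one_sub_sq_div_two_le_cos (x := x - y)
    linarith
  exact le_of_sq_le_sq h (abs_nonneg _)

/-- sorting unit vectors that are pairwise at angle at least α -/
theorem sorted_angles {m : ℕ} (ν : Fin m → ℂ) (hν : ∀ j, ‖ν j‖ = 1) {α : ℝ} (_hα0 : 0 < α)
    (hα : α ≤ Real.pi) (hpair : ∀ j k, j ≠ k → dot (ν j) (ν k) ≤ Real.cos α) :
    ∃ (p : Equiv.Perm (Fin m)) (φ : Fin m → ℝ), (∀ j, ν (p j) = ev (φ j)) ∧
      (∀ j, -Real.pi < φ j ∧ φ j ≤ Real.pi) ∧
      (∀ j k, j < k → α ≤ φ k - φ j ∧ φ k - φ j ≤ 2 * Real.pi - α) := by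
  let φ0 : Fin m → ℝ := fun j => arg (ν j)
  refine ⟨Tuple.sort φ0, fun j => φ0 (Tuple.sort φ0 j), ?_, ?_, ?_⟩
  · intro j
    exact eq_ev_arg (hν _)
  · intro j
    exact ⟨neg_pi_lt_arg _, arg_le_pi _⟩
  · intro j k hjk
    have hmono : φ0 (Tuple.sort φ0 j) ≤ φ0 (Tuple.sort φ0 k) := Tuple.monotone_sort φ0 hjk.le
    have h1 : -Real.pi < φ0 (Tuple.sort φ0 j) := neg_pi_lt_arg _
    have h2 : φ0 (Tuple.sort φ0 k) ≤ Real.pi := arg_le_pi _
    have h3 : dot (ν (Tuple.sort φ0 j)) (ν (Tuple.sort φ0 k)) ≤ Real.cos α :=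
      hpair _ _ (fun h => hjk.ne ((Tuple.sort φ0).injective h))
    rw [eq_ev_arg (hν (Tuple.sort φ0 j)), eq_ev_arg (hν (Tuple.sort φ0 k)), dot_ev] at h3
    change Real.cos (φ0 (Tuple.sort φ0 k) - φ0 (Tuple.sort φ0 j)) ≤ Real.cos α at h3
    set d := φ0 (Tuple.sort φ0 k) - φ0 (Tuple.sort φ0 j) with hd
    have hd0 : 0 ≤ d := by linarith
    constructor
    · by_contra hc
      push Not at hc
      have := Real.cos_lt_cos_of_nonneg_of_le_pi hd0 hα hc
      linarith
    · by_contra hc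
      push Not at hc
      have h4 : Real.cos (2 * Real.pi - d) = Real.cos d := Real.cos_two_pi_sub d
      have := Real.cos_lt_cos_of_nonneg_of_le_pi (x := 2 * Real.pi - d) (by linarith) hα
        (by linarith)
      linarith

lemma no_seven (ν : Fin 7 → ℂ) (hν : ∀ j, ‖ν j‖ = 1)
    (hpair : ∀ j k, j ≠ k → dot (ν j) (ν k) ≤ 0.597) : False := by
  have hp1 := Real.pi_gt_d4
  have hp2 := Real.pi_lt_d4
  have hcos : (0.597 : ℝ) ≤ Real.cos 0.8977 := by
    have := Real.one_sub_sq_div_two_le_cos (x := 0.8977)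
    norm_num at this ⊢
    linarith
  obtain ⟨p, φ, _, _, h⟩ := sorted_angles ν hν (α := 0.8977) (by norm_num) (by linarith)
    (fun j k hjk => (hpair j k hjk).trans hcos)
  have h01 := (h 0 1 (by decide)).1
  have h12 := (h 1 2 (by decide)).1
  have h23 := (h 2 3 (by decide)).1
  have h34 := (h 3 4 (by decide)).1
  have h45 := (h 4 5 (by decide)).1
  have h56 := (h 5 6 (by decide)).1
  have h06 := (h 0 6 (by decide)).2
  linarith

lemma cos_098 : (0.5505 : ℝ) ≤ Real.cos 0.98 := by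
  have h1 : (0.9697 : ℝ) ≤ Real.cos 0.245 := by
    have := Real.cos_bound (x := 0.245) (by rw [abs_of_pos (by norm_num)]; norm_num)
    rw [abs_le] at this
    have h2 := this.1
    rw [abs_of_pos (by norm_num)] at h2
    norm_num at h2 ⊢
    linarith
  have h2 : Real.cos 0.49 = 2 * Real.cos 0.245 ^ 2 - 1 := by
    rw [← Real.cos_two_mul]; norm_num
  have h3 : Real.cos 0.98 = 2 * Real.cos 0.49 ^ 2 - 1 := by
    rw [← Real.cos_two_mul]; norm_num
  have h4 : (0.8806 : ℝ) ≤ Real.cos 0.49 := by rw [h2]; nlinarith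
  rw [h3]; nlinarith

/-- six sorted unit vectors and their gaps -/
theorem six_sorted (ν : Fin 6 → ℂ) (hν : ∀ j, ‖ν j‖ = 1)
    (hpair : ∀ j k, j ≠ k → dot (ν j) (ν k) ≤ 0.5505) :
    ∃ (p : Equiv.Perm (Fin 6)) (φ γ : Fin 6 → ℝ), (∀ j, ν (p j) = ev (φ j)) ∧
      (∑ κ, γ κ = 2 * Real.pi) ∧ (∀ κ, 0.98 ≤ γ κ) ∧ (∀ κ, γ κ ≤ 1.3833) ∧
      (∀ κ : Fin 6, (κ : ℕ) < 5 → γ κ = φ (κ + 1) - φ κ) ∧
      γ 5 = φ 0 + 2 * Real.pi - φ 5 ∧
      (∀ y : ℂ, ‖y‖ = 1 → ∃ κ, 0.76 ≤ dot y (ν κ)) := by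
  have hp1 := Real.pi_gt_d4
  have hp2 := Real.pi_lt_d4
  obtain ⟨p, φ, h0, hrange, h⟩ := sorted_angles ν hν (α := 0.98) (by norm_num) (by linarith)
    (fun j k hjk => (hpair j k hjk).trans cos_098)
  have h01 := (h 0 1 (by decide)).1
  have h12 := (h 1 2 (by decide)).1
  have h23 := (h 2 3 (by decide)).1
  have h34 := (h 3 4 (by decide)).1
  have h45 := (h 4 5 (by decide)).1
  have h05 := (h 0 5 (by decide)).2
  refine ⟨p, φ, ![φ 1 - φ 0, φ 2 - φ 1, φ 3 - φ 2, φ 4 - φ 3, φ 5 - φ 4,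
    φ 0 + 2 * Real.pi - φ 5], h0, ?_, ?_, ?_, ?_, rfl, ?_⟩
  · simp [Fin.sum_univ_succ]
  · intro κ
    fin_cases κ <;> simp <;> linarith
  · intro κ
    fin_cases κ <;> simp <;> linarith
  · intro κ hκ
    fin_cases κ
    · rfl
    · rfl
    · rfl
    · rfl
    · rfl
    · simp at hκ
  · intro y hy
    have key : ∃ κ, |arg y - φ κ| ≤ 0.6917 ∨ 2 * Real.pi - 0.6917 ≤ |arg y - φ κ| := by
      by_contra hcon
      push Not at hcon
      have g : ∀ κ, (arg y - φ κ < -0.6917 ∨ 0.6917 < arg y - φ κ) ∧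
          -(2 * Real.pi - 0.6917) < arg y - φ κ ∧ arg y - φ κ < 2 * Real.pi - 0.6917 := by
        intro κ
        have ⟨g1, g2⟩ := hcon κ
        rw [abs_lt] at g2
        refine ⟨?_, g2⟩
        rw [lt_abs] at g1
        rcases g1 with g1 | g1
        · right; exact g1
        · left; linarith
      obtain ⟨a0, b0, c0⟩ := g 0
      obtain ⟨a1, b1, c1⟩ := g 1
      obtain ⟨a2, b2, c2⟩ := g 2
      obtain ⟨a3, b3, c3⟩ := g 3
      obtain ⟨a4, b4, c4⟩ := g 4
      obtain ⟨a5, b5, c5⟩ := g 5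
      rcases a0 with a0 | a0
      · linarith
      rcases a1 with a1 | a1
      · linarith
      rcases a2 with a2 | a2
      · linarith
      rcases a3 with a3 | a3
      · linarith
      rcases a4 with a4 | a4
      · linarith
      rcases a5 with a5 | a5
      · linarith
      linarith
    obtain ⟨κ, hκ⟩ := key
    refine ⟨p κ, ?_⟩
    rw [h0 κ, eq_ev_arg hy, dot_ev]
    have hc1 : (0.76 : ℝ) ≤ Real.cos 0.6917 := by
      have := Real.one_sub_sq_div_two_le_cos (x := 0.6917)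
      norm_num at this ⊢
      linarith
    have habs : Real.cos (φ κ - arg y) = Real.cos |arg y - φ κ| := by
      rw [Real.cos_abs, ← Real.cos_neg]; congr 1; ring
    rw [habs]
    rcases hκ with hκ | hκ
    · refine hc1.trans ?_
      exact Real.cos_le_cos_of_nonneg_of_le_pi (abs_nonneg _) (by linarith) hκ
    · have hr1 := hrange κ
      have hr2 := neg_pi_lt_arg y
      have hr3 := arg_le_pi y
      have hlt : |arg y - φ κ| ≤ 2 * Real.pi := by
        rw [abs_le]; constructor <;> linarith [hr1.1, hr1.2]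
      rw [← Real.cos_two_pi_sub]
      refine hc1.trans ?_
      exact Real.cos_le_cos_of_nonneg_of_le_pi (by linarith) (by linarith) (by linarith)

end Pool.Agent.Y370.Q
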