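import Pool.Agent.Y370.Q2
import Pool.Agent.Y370.Q5
import Pool.Agent.Y370.Q6

set_option autoImplicit false

namespace Pool.Agent.Y370.Q

open MeasureTheory Complex

/-- the cell -/
def cell {ι : Type*} (ν : ι → ℂ) (η : ι → ℝ) : Set ℂ := {z | ∀ j, dot z (ν j) ≤ η j}

/-- hypotheses on the neighbours of a body -/
structure NbHyp {ι : Type*} (c ν : ι → ℂ) (η : ι → ℝ) : Prop where
  hν : ∀ j, ‖ν j‖ = 1
  hη : ∀ j, 1 - 1e-6 ≤ η j
  hc : ∀ j, η j + (1 - 1e-6) ≤ dot (c j) (ν j)
  hsep : ∀ j k, j ≠ k → 2 * (1 - 1e-6) ≤ ‖c j - c k‖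
  hfar : ∀ j, 2 * (1 + 1e-6) ≤ ‖c j‖ → ‖c j‖ • ν j = c j ∧ η j = ‖c j‖ / 2

namespace NbHyp

variable {ι : Type*} {c ν : ι → ℂ} {η : ι → ℝ}

lemma norm_ge (H : NbHyp c ν η) (j : ι) : 2 * (1 - 1e-6) ≤ ‖c j‖ := by
  have h1 := H.hc j
  have h2 := H.hη j
  have h3 := (le_abs_self _).trans (abs_dot_le (c j) (ν j))
  rw [H.hν j, mul_one] at h3
  linarith

lemma dot_c (j k : ι) : dot (c j) (c k) =
    (‖c j‖ ^ 2 + ‖c k‖ ^ 2 - ‖c j - c k‖ ^ 2) / 2 := by
  rw [← dot_self, ← dot_self, ← dot_self, dot_sub_left, dot_sub_right, dot_sub_right,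
    dot_comm (c k) (c j)]
  ring

lemma dot_c_le (H : NbHyp c ν η) {j k : ι} (hjk : j ≠ k) : dot (c j) (c k) ≤
    (‖c j‖ ^ 2 + ‖c k‖ ^ 2 - 3.99999) / 2 := by
  rw [dot_c]
  have h1 := H.hsep j k hjk
  have : (3.99999 : ℝ) ≤ ‖c j - c k‖ ^ 2 := by nlinarith
  linarith

/-- at most six near neighbours -/
lemma near_le_six (H : NbHyp c ν η) (f : Fin 7 → ι) (hf : Function.Injective f)
    (hn : ∀ i, ‖c (f i)‖ < 2.22) : False := by
  have hpos : ∀ i, 0 < ‖c (f i)‖ := fun i => by
    have := H.norm_ge (f i); linarith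
  apply no_seven (fun i => (1 / ‖c (f i)‖) • c (f i))
  · intro i
    rw [norm_smul, Real.norm_eq_abs, abs_of_pos (by have := hpos i; positivity)]
    have := (hpos i).ne'
    field_simp
  · intro i k hik
    rw [dot_smul_left, dot_smul_right]
    have h1 := H.dot_c_le (fun h => hik (hf h))
    have h2 := hpos i
    have h3 := hpos k
    have h4 := hn i
    have h5 := hn k
    have h6 := H.norm_ge (f i)
    have h7 := H.norm_ge (f k)
    set x := ‖c (f i)‖
    set y := ‖c (f k)‖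
    have h8 : (x ^ 2 + y ^ 2 - 3.99999) / 2 ≤ 0.597 * (x * y) := by
      nlinarith [mul_nonneg (sub_nonneg.2 h6) (sub_nonneg.2 h7),
        mul_nonneg (sub_nonneg.2 h4.le) (sub_nonneg.2 h5.le), sq_nonneg (x - y),
        mul_nonneg (sub_nonneg.2 h6) (sub_nonneg.2 h4.le),
        mul_nonneg (sub_nonneg.2 h7) (sub_nonneg.2 h5.le)]
    calc 1 / x * (1 / y * dot (c (f i)) (c (f k)))
        ≤ 1 / x * (1 / y * (0.597 * (x * y))) := by
          apply mul_le_mul_of_nonneg_left _ (by positivity)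
          apply mul_le_mul_of_nonneg_left _ (by positivity)
          linarith
      _ = 0.597 := by field_simp

lemma near_finite (H : NbHyp c ν η) : {j | ‖c j‖ < 2.22}.Finite := by
  by_contra hinf
  have hinf : {j | ‖c j‖ < 2.22}.Infinite := hinf
  let g := hinf.natEmbedding
  exact H.near_le_six (fun i => (g (i : ℕ) : ι))
    (fun a b hab => Fin.val_injective (g.injective (Subtype.ext hab))) (fun i => (g (i : ℕ)).2)

lemma near_card (H : NbHyp c ν η) : (H.near_finite.toFinset).card ≤ 6 := by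
  by_contra hc
  push Not at hc
  obtain ⟨t, ht, htc⟩ := Finset.exists_subset_card_eq (s := H.near_finite.toFinset) (n := 7)
    (by omega)
  let e := (t.equivFinOfCardEq htc).symm
  refine H.near_le_six (fun i => (e i : ι)) (fun a b hab => e.injective (Subtype.ext hab)) ?_
  intro i
  have := ht (e i).2
  simpa using this

lemma cap_small (H : NbHyp c ν η) (j : ι) :
    volume (cap 1.11 (η j) (ν j)) ≤ ENNReal.ofReal 0.0731 := by
  have h1 : cap 1.11 (η j) (ν j) ⊆ cap 1.11 0.9999 (ν j) := by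
    rintro z ⟨hz1, hz2⟩
    exact ⟨hz1, by have := H.hη j; linarith⟩
  refine (measure_mono h1).trans ((volume_cap_le (H.hν j) (by norm_num)).trans ?_)
  apply ENNReal.ofReal_le_ofReal
  norm_num

lemma cap_small2 (H : NbHyp c ν η) {j : ι} (hj : 1.04 ≤ η j) :
    volume (cap 1.11 (η j) (ν j)) ≤ ENNReal.ofReal 0.0376 := by
  have h1 : cap 1.11 (η j) (ν j) ⊆ cap 1.11 1.04 (ν j) := by
    rintro z ⟨hz1, hz2⟩
    exact ⟨hz1, by linarith⟩
  refine (measure_mono h1).trans ((volume_cap_le (H.hν j) (by norm_num)).trans ?_)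
  apply ENNReal.ofReal_le_ofReal
  norm_num

lemma vol_ball : ENNReal.ofReal 3.8706 ≤ volume {z : ℂ | ‖z‖ < 1.11} := by
  have h1 : {z : ℂ | ‖z‖ < 1.11} = Metric.ball (0 : ℂ) 1.11 := by
    ext z; simp
  rw [h1, Complex.volume_ball, ← ENNReal.ofReal_pow (by norm_num)]
  have h2 : (NNReal.pi : ENNReal) = ENNReal.ofReal Real.pi := by
    rw [← NNReal.coe_real_pi, ENNReal.ofReal_coe_nnreal]
  rw [h2, ← ENNReal.ofReal_mul (by positivity)]
  apply ENNReal.ofReal_le_ofReal
  have := Real.pi_gt_d4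
  nlinarith

lemma ball_cover (H : NbHyp c ν η) :
    {z : ℂ | ‖z‖ < 1.11} ⊆ cell ν η ∪ ⋃ j ∈ H.near_finite.toFinset, cap 1.11 (η j) (ν j) := by
  intro z hz
  by_cases hc : z ∈ cell ν η
  · left; exact hc
  · right
    simp only [cell, Set.mem_ofPred_eq] at hc
    push Not at hc
    obtain ⟨j, hj⟩ := hc
    simp only [Set.mem_iUnion]
    refine ⟨j, ?_, hz, hj⟩
    simp only [Set.Finite.mem_toFinset, Set.mem_ofPred_eq]
    by_contra hfar
    push Not at hfar
    have h1 := (H.hfar j (by linarith)).2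
    have h2 := (le_abs_self _).trans (abs_dot_le z (ν j))
    rw [H.hν j, mul_one] at h2
    have hz' : ‖z‖ < 1.11 := hz
    linarith

/-- if the cell is not larger than 2√3 there are exactly six near neighbours, at height at
most 1.04 -/
lemma six_near (H : NbHyp c ν η) (hvol : volume (cell ν η) ≤ ENNReal.ofReal (2 * Real.sqrt 3)) :
    (H.near_finite.toFinset).card = 6 ∧ ∀ j, ‖c j‖ < 2.22 → η j ≤ 1.04 := by
  classical
  have hs2 := sqrt3_hi
  set S := H.near_finite.toFinset with hS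
  have h1 : ENNReal.ofReal 3.8706 ≤
      ENNReal.ofReal (2 * Real.sqrt 3) + ∑ j ∈ S, volume (cap 1.11 (η j) (ν j)) := by
    calc ENNReal.ofReal 3.8706 ≤ volume {z : ℂ | ‖z‖ < 1.11} := vol_ball
      _ ≤ volume (cell ν η ∪ ⋃ j ∈ S, cap 1.11 (η j) (ν j)) := measure_mono H.ball_cover
      _ ≤ volume (cell ν η) + volume (⋃ j ∈ S, cap 1.11 (η j) (ν j)) := measure_union_le _ _
      _ ≤ _ := add_le_add hvol (measure_biUnion_finset_le _ _)
  have hcard : S.card = 6 := by
    by_contra hne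
    have h5 : S.card ≤ 5 := by
      have : S.card ≤ 6 := H.near_card
      omega
    have h2 : ∑ j ∈ S, volume (cap 1.11 (η j) (ν j)) ≤ ENNReal.ofReal (5 * 0.0731) := by
      calc ∑ j ∈ S, volume (cap 1.11 (η j) (ν j)) ≤ ∑ _j ∈ S, ENNReal.ofReal 0.0731 :=
            Finset.sum_le_sum fun j _ => H.cap_small j
        _ = S.card • ENNReal.ofReal 0.0731 := by rw [Finset.sum_const]
        _ ≤ 5 • ENNReal.ofReal 0.0731 := nsmul_le_nsmul_left zero_le h5
        _ = ENNReal.ofReal (5 * 0.0731) := by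
          rw [ENNReal.ofReal_mul (by norm_num)]; simp
    have h3 := h1.trans (add_le_add_right h2 _)
    rw [← ENNReal.ofReal_add (by positivity) (by norm_num),
      ENNReal.ofReal_le_ofReal_iff (by positivity)] at h3
    linarith
  refine ⟨hcard, ?_⟩
  intro j hj
  by_contra hc
  push Not at hc
  have hjS : j ∈ S := by simpa [hS] using hj
  have h2 : ∑ j ∈ S, volume (cap 1.11 (η j) (ν j)) ≤ ENNReal.ofReal (0.0376 + 5 * 0.0731) := by
    rw [← Finset.add_sum_erase S _ hjS, ENNReal.ofReal_add (by norm_num) (by norm_num)]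
    apply add_le_add (H.cap_small2 hc.le)
    calc ∑ j ∈ S.erase j, volume (cap 1.11 (η j) (ν j)) ≤ ∑ _j ∈ S.erase j, ENNReal.ofReal 0.0731 :=
            Finset.sum_le_sum fun j _ => H.cap_small j
        _ = (S.erase j).card • ENNReal.ofReal 0.0731 := by rw [Finset.sum_const]
        _ = 5 • ENNReal.ofReal 0.0731 := by rw [Finset.card_erase_of_mem hjS, hcard]
        _ = ENNReal.ofReal (5 * 0.0731) := by
          rw [ENNReal.ofReal_mul (by norm_num)]; simp
  have h3 := h1.trans (add_le_add_right h2 _)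
  rw [← ENNReal.ofReal_add (by positivity) (by norm_num),
    ENNReal.ofReal_le_ofReal_iff (by positivity)] at h3
  linarith

end NbHyp

end Pool.Agent.Y370.Q
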