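import Pool.Agent.Y370.Q7

set_option autoImplicit false

namespace Pool.Agent.Y370.Q

open MeasureTheory Complex

namespace NbHyp

variable {ι : Type*} {c ν : ι → ℂ} {η : ι → ℝ}

lemma norm_le_of_near (H : NbHyp c ν η) {j : ι} (hη : η j ≤ 1.04) : ‖c j‖ ≤ 2.0801 := by
  by_contra h
  push Not at h
  have := (H.hfar j (by linarith)).2
  linarith

/-- near a near neighbour the normal points to the centre -/
lemma normal_close (H : NbHyp c ν η) (j : ι) : ‖c j - ‖c j‖ • ν j‖ ≤ 0.0041 := by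
  by_cases h : 2 * (1 + 1e-6) ≤ ‖c j‖
  · rw [(H.hfar j h).1, sub_self, norm_zero]; norm_num
  · push Not at h
    have h1 := H.hc j
    have h2 := H.hη j
    have h3 := H.norm_ge j
    have h4 : ‖c j - ‖c j‖ • ν j‖ ^ 2 = 2 * ‖c j‖ * (‖c j‖ - dot (c j) (ν j)) := by
      rw [← dot_self, dot_sub_left, dot_sub_right, dot_sub_right, dot_smul_left, dot_smul_left,
        dot_smul_right, dot_smul_right, dot_self, dot_self, H.hν j, dot_comm (ν j) (c j)]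
      ring
    have h5 : ‖c j - ‖c j‖ • ν j‖ ^ 2 ≤ 0.0041 ^ 2 := by
      rw [h4]
      nlinarith
    exact le_of_sq_le_sq h5 (by norm_num)

lemma dot_normals (H : NbHyp c ν η) {j k : ι} (hjk : j ≠ k) (hj : η j ≤ 1.04)
    (hk : η k ≤ 1.04) : dot (ν j) (ν k) ≤ 0.5505 := by
  have h1 := H.norm_le_of_near hj
  have h2 := H.norm_le_of_near hk
  have h3 := H.norm_ge j
  have h4 := H.norm_ge k
  have h5 := H.normal_close j
  have h6 := H.normal_close k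
  have h7 := H.dot_c_le hjk
  have hid : ‖c j‖ * ‖c k‖ * dot (ν j) (ν k) = dot (c j) (c k) -
      dot (c j - ‖c j‖ • ν j) (‖c k‖ • ν k) - dot (c j) (c k - ‖c k‖ • ν k) := by
    rw [dot_sub_left, dot_sub_right]
    simp only [dot_smul_left, dot_smul_right]
    ring
  have h8 : |dot (c j - ‖c j‖ • ν j) (‖c k‖ • ν k)| ≤ 0.0041 * ‖c k‖ := by
    refine (abs_dot_le _ _).trans ?_
    rw [norm_smul, norm_norm, H.hν k, mul_one]
    exact mul_le_mul_of_nonneg_right h5 (norm_nonneg _)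
  have h9 : |dot (c j) (c k - ‖c k‖ • ν k)| ≤ ‖c j‖ * 0.0041 := by
    refine (abs_dot_le _ _).trans ?_
    exact mul_le_mul_of_nonneg_left h6 (norm_nonneg _)
  rw [abs_le] at h8 h9
  set x := ‖c j‖
  set y := ‖c k‖
  have hxy : 0 < x * y := by nlinarith
  by_contra hcon
  push Not at hcon
  have h10 : 0.5505 * (x * y) < x * y * dot (ν j) (ν k) := by nlinarith
  rw [hid] at h10
  nlinarith [mul_nonneg (sub_nonneg.2 h3) (sub_nonneg.2 h4),
        mul_nonneg (sub_nonneg.2 h1) (sub_nonneg.2 h2), sq_nonneg (x - y),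
        mul_nonneg (sub_nonneg.2 h3) (sub_nonneg.2 h1),
        mul_nonneg (sub_nonneg.2 h4) (sub_nonneg.2 h2), h8.1, h8.2, h9.1, h9.2]

/-- the combinatorial set-up: six sorted near neighbours -/
theorem setup (H : NbHyp c ν η) (hvol : volume (cell ν η) ≤ ENNReal.ofReal (2 * Real.sqrt 3)) :
    ∃ (J : Fin 6 → ι) (φ γ : Fin 6 → ℝ), Function.Injective J ∧ (∀ κ, ν (J κ) = ev (φ κ)) ∧
      (∑ κ, γ κ = 2 * Real.pi) ∧ (∀ κ, 0.98 ≤ γ κ) ∧ (∀ κ, γ κ ≤ 1.3833) ∧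
      (∀ κ : Fin 6, (κ : ℕ) < 5 → γ κ = φ (κ + 1) - φ κ) ∧
      γ 5 = φ 0 + 2 * Real.pi - φ 5 ∧ (∀ κ, η (J κ) ≤ 1.04) ∧
      (∀ j, ‖c j‖ < 2.8 → ∃ κ, J κ = j) := by
  classical
  obtain ⟨hcard, hη⟩ := H.six_near hvol
  set S := H.near_finite.toFinset with hS
  have hmem : ∀ j, j ∈ S ↔ ‖c j‖ < 2.22 := by intro j; simp [hS]
  let e := (S.equivFinOfCardEq hcard).symm
  let J0 : Fin 6 → ι := fun i => (e i : ι)
  have hJ0 : Function.Injective J0 := fun a b hab => e.injective (Subtype.ext hab)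
  have hJ0n : ∀ i, ‖c (J0 i)‖ < 2.22 := fun i => (hmem _).1 (e i).2
  have hJ0s : ∀ j, ‖c j‖ < 2.22 → ∃ i, J0 i = j := by
    intro j hj
    exact ⟨e.symm ⟨j, (hmem j).2 hj⟩, by simp [J0]⟩
  obtain ⟨p, φ, γ, h1, h2, h3, h4, h5, h6, h7⟩ := six_sorted (fun i => ν (J0 i))
    (fun i => H.hν _) (fun i k hik => H.dot_normals (fun h => hik (hJ0 h)) (hη _ (hJ0n i))
      (hη _ (hJ0n k)))
  refine ⟨J0 ∘ p, φ, γ, hJ0.comp p.injective, h1, h2, h3, h4, h5, h6,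
    fun κ => hη _ (hJ0n _), ?_⟩
  intro l hl
  have hnear : ‖c l‖ < 2.22 := by
    by_contra hcon
    push Not at hcon
    have hpos : 0 < ‖c l‖ := by linarith
    obtain ⟨κ, hκ⟩ := h7 ((1 / ‖c l‖) • c l) (by
      rw [norm_smul, Real.norm_eq_abs, abs_of_pos (by positivity)]
      field_simp)
    rw [dot_smul_left] at hκ
    have g0 : 0.76 * ‖c l‖ ≤ dot (c l) (ν (J0 κ)) := by
      rw [div_mul_eq_mul_div, one_mul, le_div_iff₀ hpos] at hκ
      exact hκ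
    have hne : l ≠ J0 κ := by
      intro h
      rw [h] at hcon
      linarith [hJ0n κ]
    have g1 := H.norm_le_of_near (hη _ (hJ0n κ))
    have g2 := H.norm_ge (J0 κ)
    have g3 := H.normal_close (J0 κ)
    have g4 := H.dot_c_le hne
    have g5 : |dot (c l) (c (J0 κ) - ‖c (J0 κ)‖ • ν (J0 κ))| ≤ ‖c l‖ * 0.0041 :=
      (abs_dot_le _ _).trans (mul_le_mul_of_nonneg_left g3 (norm_nonneg _))
    rw [abs_le, dot_sub_right, dot_smul_right] at g5
    have g6 : ‖c (J0 κ)‖ * (0.76 * ‖c l‖) ≤ ‖c (J0 κ)‖ * dot (c l) (ν (J0 κ)) :=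
      mul_le_mul_of_nonneg_left g0 (norm_nonneg _)
    set x := ‖c (J0 κ)‖
    set X := ‖c l‖
    nlinarith [g5.1, mul_nonneg (sub_nonneg.2 hcon) (sub_nonneg.2 hl.le),
      mul_nonneg (sub_nonneg.2 g1) (sub_nonneg.2 g2),
      mul_nonneg (sub_nonneg.2 hl.le) (sub_nonneg.2 g1),
      mul_nonneg (sub_nonneg.2 hl.le) (sub_nonneg.2 g2),
      mul_nonneg (sub_nonneg.2 hcon) (sub_nonneg.2 g1),
      mul_nonneg (sub_nonneg.2 hcon) (sub_nonneg.2 g2)]
  obtain ⟨i, hi⟩ := hJ0s l hnear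
  exact ⟨p.symm i, by simp [hi]⟩

end NbHyp

end Pool.Agent.Y370.Q
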