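import Pool.Agent.Y370.Q8

set_option autoImplicit false

namespace Pool.Agent.Y370.Q

open MeasureTheory Complex

lemma gap_formula {φ γ : Fin 6 → ℝ} (h1 : ∀ κ : Fin 6, (κ : ℕ) < 5 → γ κ = φ (κ + 1) - φ κ)
    (h2 : γ 5 = φ 0 + 2 * Real.pi - φ 5) (κ : Fin 6) :
    dot (ev (φ κ)) (ev (φ (κ + 1))) = Real.cos (γ κ) ∧
    crs (ev (φ κ)) (ev (φ (κ + 1))) = Real.sin (γ κ) := by
  rw [dot_ev, crs_ev]
  by_cases hκ : (κ : ℕ) < 5
  · rw [h1 κ hκ]; exact ⟨rfl, rfl⟩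
  · have : κ = 5 := by
      apply Fin.ext
      have := κ.2
      simp only [show ((5 : Fin 6) : ℕ) = 5 from rfl]
      omega
    subst this
    rw [h2, show (5 : Fin 6) + 1 = 0 from rfl]
    constructor
    · rw [show φ 0 + 2 * Real.pi - φ 5 = (φ 0 - φ 5) + 2 * Real.pi by ring, Real.cos_add_two_pi]
    · rw [show φ 0 + 2 * Real.pi - φ 5 = (φ 0 - φ 5) + 2 * Real.pi by ring, Real.sin_add_two_pi]

lemma smul_Wv {n n' : ℂ} (hn : ‖n‖ = 1) (hn' : ‖n'‖ = 1) (hc : crs n n' ≠ 0) (h h' : ℝ) :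
    (crs n n' ^ 2) • Wv n n' h h' = (h - h' * dot n n') • n + (h' - h * dot n n') • n' := by
  have e1 := unit_eq hn
  have e2 := unit_eq hn'
  have hS : crs n n' ^ 2 = 1 - dot n n' ^ 2 := by
    have := crs_sq_add_dot_sq n n'
    rw [hn, hn'] at this
    linarith
  have hI : crs n n' • (I * n) = n' - dot n n' • n := by
    apply Complex.ext
    · simp only [crs, dot, real_smul, mul_re, ofReal_re, ofReal_im, I_re, I_im, mul_im, sub_re]
      linear_combination n'.re * e1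
    · simp only [crs, dot, real_smul, mul_re, ofReal_re, ofReal_im, I_re, I_im, mul_im, sub_im]
      linear_combination n'.im * e1
  rw [Wv, smul_add, smul_smul, smul_smul]
  have h3 : crs n n' ^ 2 * ((h' - h * dot n n') / crs n n') =
      (h' - h * dot n n') * crs n n' := by field_simp
  rw [h3, mul_smul _ (crs n n') (I * n), hI, hS, smul_sub, smul_smul]
  module

lemma sq_norm_Wv {n n' : ℂ} (hn : ‖n‖ = 1) (h h' : ℝ) :
    ‖Wv n n' h h'‖ ^ 2 = h ^ 2 + ((h' - h * dot n n') / crs n n') ^ 2 := by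
  have e1 := unit_eq hn
  rw [← dot_self, Wv]
  generalize (h' - h * dot n n') / crs n n' = b
  simp only [dot, real_smul, add_re, mul_re, ofReal_re, ofReal_im, I_re, I_im, mul_im, add_im]
  linear_combination (h ^ 2 + b ^ 2) * e1

lemma cos_gap_lower {γ : ℝ} (h1 : 0 ≤ γ) (h2 : γ ≤ 1.3833) : 0.18 ≤ Real.cos γ := by
  have hp1 := Real.pi_gt_d4
  have hp2 := Real.pi_lt_d4
  have h3 : Real.cos 1.3833 ≤ Real.cos γ :=
    Real.cos_le_cos_of_nonneg_of_le_pi h1 (by linarith) h2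
  have h4 : Real.cos 1.3833 = Real.sin (Real.pi / 2 - 1.3833) := by rw [Real.sin_pi_div_two_sub]
  have h5 := Real.sin_gt_sub_cube (x := Real.pi / 2 - 1.3833) (by linarith)
  have h6 : (Real.pi / 2 - 1.3833) ^ 3 ≤ 0.1876 ^ 3 := by
    apply pow_le_pow_left₀ (by linarith); linarith
  norm_num at h6
  rw [h4] at h3
  linarith

namespace NbHyp

variable {ι : Type*} {c ν : ι → ℂ} {η : ι → ℝ}

theorem hexagon (H : NbHyp c ν η) {J : Fin 6 → ι} {φ γ : Fin 6 → ℝ}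
    (hJν : ∀ κ, ν (J κ) = ev (φ κ)) (hJ : Function.Injective J)
    (hγ1 : ∀ κ, 0.98 ≤ γ κ) (hγ2 : ∀ κ, γ κ ≤ 1.3833)
    (hg1 : ∀ κ : Fin 6, (κ : ℕ) < 5 → γ κ = φ (κ + 1) - φ κ)
    (hg2 : γ 5 = φ 0 + 2 * Real.pi - φ 5) (hη : ∀ κ, η (J κ) ≤ 1.04)
    (hnear : ∀ j, ‖c j‖ < 2.8 → ∃ κ, J κ = j) :
    (∀ κ, Real.cos (γ κ) ≤ 0.5505) ∧
    ENNReal.ofReal ((1 / 2) * ∑ κ, crs
      (Wv (ev (φ κ)) (ev (φ (κ + 1))) (η (J κ)) (η (J (κ + 1))))
      (Wv (ev (φ (κ + 1))) (ev (φ (κ + 1 + 1))) (η (J (κ + 1))) (η (J (κ + 1 + 1))))) ≤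
      volume (cell ν η) ∧
    (1 / 2) * ∑ κ, crs
      (Wv (ev (φ κ)) (ev (φ (κ + 1))) (η (J κ)) (η (J (κ + 1))))
      (Wv (ev (φ (κ + 1))) (ev (φ (κ + 1 + 1))) (η (J (κ + 1))) (η (J (κ + 1 + 1)))) =
      ∑ κ, Fk (η (J κ)) (η (J (κ + 1))) (Real.cos (γ κ)) (Real.sin (γ κ)) := by
  have hp1 := Real.pi_gt_d4
  have hp2 := Real.pi_lt_d4
  have hgap := gap_formula hg1 hg2
  have hdot : ∀ j k, j ≠ k → dot (ev (φ j)) (ev (φ k)) ≤ 0.5505 := by
    intro j k hjk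
    rw [← hJν, ← hJν]
    exact H.dot_normals (fun h => hjk (hJ h)) (hη _) (hη _)
  have hne1 : ∀ κ : Fin 6, κ ≠ κ + 1 := by decide
  have hC2 : ∀ κ, Real.cos (γ κ) ≤ 0.5505 := by
    intro κ
    rw [← (hgap κ).1]
    exact hdot _ _ (hne1 κ)
  have hC1 : ∀ κ, 0.18 ≤ Real.cos (γ κ) := fun κ =>
    cos_gap_lower (by linarith [hγ1 κ]) (hγ2 κ)
  have hS : ∀ κ, 0 < Real.sin (γ κ) := fun κ =>
    Real.sin_pos_of_pos_of_lt_pi (by linarith [hγ1 κ]) (by linarith [hγ2 κ])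
  have hSC : ∀ κ, Real.sin (γ κ) ^ 2 = 1 - Real.cos (γ κ) ^ 2 := fun κ => by
    have := Real.sin_sq_add_cos_sq (γ κ); linarith
  have hcrs : ∀ κ, 0 < crs (ev (φ κ)) (ev (φ (κ + 1))) := fun κ => by
    rw [(hgap κ).2]; exact hS κ
  have hη1 : ∀ κ, 0.99999 ≤ η (J κ) := fun κ => by have := H.hη (J κ); linarith
  set h : Fin 6 → ℝ := fun κ => η (J κ) with hh
  set W : Fin 6 → ℂ := fun κ => Wv (ev (φ κ)) (ev (φ (κ + 1))) (h κ) (h (κ + 1)) with hW
  have hW1 : ∀ κ, dot (W κ) (ev (φ κ)) = h κ := fun κ => dot_Wv_left (norm_ev _) _ _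
  have hW2 : ∀ κ, dot (W κ) (ev (φ (κ + 1))) = h (κ + 1) := fun κ =>
    dot_Wv_right (hcrs κ).ne' _ _
  -- the vertices are strictly inside the other half planes
  have hW3 : ∀ κ j, j ≠ κ → j ≠ κ + 1 → dot (W κ) (ev (φ j)) < h j := by
    intro κ j hj1 hj2
    have e1 := smul_Wv (norm_ev (φ κ)) (norm_ev (φ (κ + 1))) (hcrs κ).ne' (h κ) (h (κ + 1))
    have e2 : Real.sin (γ κ) ^ 2 * dot (W κ) (ev (φ j)) =
        (h κ - h (κ + 1) * Real.cos (γ κ)) * dot (ev (φ κ)) (ev (φ j)) +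
        (h (κ + 1) - h κ * Real.cos (γ κ)) * dot (ev (φ (κ + 1))) (ev (φ j)) := by
      rw [← dot_smul_left, ← dot_smul_left, ← dot_smul_left, ← dot_add_left, ← (hgap κ).1,
        ← (hgap κ).2, ← e1]
    have g1 := hdot κ j hj1.symm
    have g2 := hdot (κ + 1) j hj2.symm
    have g3 := hη κ
    have g4 := hη (κ + 1)
    have g5 := hη1 κ
    have g6 := hη1 (κ + 1)
    have g7 := hη1 j
    have g8 := hC1 κ
    have g9 := hC2 κ
    have g10 := hSC κ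
    change h κ ≤ 1.04 at g3
    change h (κ + 1) ≤ 1.04 at g4
    change 0.99999 ≤ h κ at g5
    change 0.99999 ≤ h (κ + 1) at g6
    change 0.99999 ≤ h j at g7
    set C := Real.cos (γ κ)
    have k1 : 0 ≤ h κ - h (κ + 1) * C := by nlinarith
    have k2 : 0 ≤ h (κ + 1) - h κ * C := by nlinarith
    have k3 : Real.sin (γ κ) ^ 2 * dot (W κ) (ev (φ j)) ≤
        0.5505 * ((h κ + h (κ + 1)) * (1 - C)) := by
      rw [e2]
      nlinarith [mul_le_mul_of_nonneg_left g1 k1, mul_le_mul_of_nonneg_left g2 k2]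
    by_contra hcon
    push Not at hcon
    have k4 : Real.sin (γ κ) ^ 2 * 0.99999 ≤ Real.sin (γ κ) ^ 2 * dot (W κ) (ev (φ j)) :=
      mul_le_mul_of_nonneg_left (by linarith) (by positivity)
    rw [g10] at k3 k4
    have k5 : (1 - C ^ 2) * 0.99999 = (1 - C) * ((1 + C) * 0.99999) := by ring
    have k6 : 0.5505 * ((h κ + h (κ + 1)) * (1 - C)) =
      (1 - C) * (0.5505 * (h κ + h (κ + 1))) := by ring
    rw [k5] at k4
    rw [k6] at k3
    have k7 : (1 - C) * ((1 + C) * 0.99999) ≤ (1 - C) * (0.5505 * (h κ + h (κ + 1))) :=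
      k4.trans k3
    have k8 : (1 + C) * 0.99999 ≤ 0.5505 * (h κ + h (κ + 1)) :=
      le_of_mul_le_mul_left k7 (by linarith)
    linarith
  have hWn : ∀ κ, ‖W κ‖ ≤ 1.4 := by
    intro κ
    have e1 := sq_norm_Wv (n' := ev (φ (κ + 1))) (norm_ev (φ κ)) (h κ) (h (κ + 1))
    rw [(hgap κ).1, (hgap κ).2] at e1
    have g3 : h κ ≤ 1.04 := hη κ
    have g4 : h (κ + 1) ≤ 1.04 := hη (κ + 1)
    have g5 : 0.99999 ≤ h κ := hη1 κ
    have g6 : 0.99999 ≤ h (κ + 1) := hη1 (κ + 1)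
    have g8 := hC1 κ
    have g9 := hC2 κ
    have g10 := hSC κ
    have g11 := hS κ
    set C := Real.cos (γ κ)
    set S := Real.sin (γ κ)
    have e2 : ‖W κ‖ ^ 2 * S ^ 2 = h κ ^ 2 * S ^ 2 + (h (κ + 1) - h κ * C) ^ 2 := by
      change ‖Wv (ev (φ κ)) (ev (φ (κ + 1))) (h κ) (h (κ + 1))‖ ^ 2 * S ^ 2 = _
      rw [e1]
      field_simp
    have e3 : ‖W κ‖ ^ 2 * S ^ 2 ≤ 1.4 ^ 2 * S ^ 2 := by
      rw [e2, g10]
      have e4 : h κ ^ 2 * (1 - C ^ 2) + (h (κ + 1) - h κ * C) ^ 2 =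
        (h κ - h (κ + 1)) ^ 2 + (1 - C) * (2 * (h κ * h (κ + 1))) := by ring
      rw [e4]
      have e5 : (h κ - h (κ + 1)) ^ 2 ≤ 0.0017 := by nlinarith
      have e6 : h κ * h (κ + 1) ≤ 1.0816 := by nlinarith
      have e7 : (1 - C) * (2 * (h κ * h (κ + 1))) ≤ (1 - C) * 2.1632 :=
        mul_le_mul_of_nonneg_left (by linarith) (by linarith)
      nlinarith
    have e4 : ‖W κ‖ ^ 2 ≤ 1.4 ^ 2 := le_of_mul_le_mul_right e3 (by positivity)
    exact le_of_sq_le_sq e4 (by norm_num)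
  have hWc : ∀ κ, 0 < crs (W κ) (W (κ + 1)) := by
    intro κ
    have e1 := crs_Wv (n := ev (φ κ)) (n' := ev (φ (κ + 1))) (n'' := ev (φ (κ + 1 + 1)))
      (norm_ev _) (norm_ev _) (hcrs κ).ne' (h κ) (h (κ + 1)) (h (κ + 1 + 1))
    change crs (W κ) (W (κ + 1)) = _ at e1
    rw [e1, (hgap κ).1, (hgap κ).2, (hgap (κ + 1)).1, (hgap (κ + 1)).2]
    have g3 : h κ ≤ 1.04 := hη κ
    have g4 : h (κ + 1) ≤ 1.04 := hη (κ + 1)
    have g4' : h (κ + 1 + 1) ≤ 1.04 := hη (κ + 1 + 1)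
    have g5 : 0.99999 ≤ h κ := hη1 κ
    have g6 : 0.99999 ≤ h (κ + 1) := hη1 (κ + 1)
    have g6' : 0.99999 ≤ h (κ + 1 + 1) := hη1 (κ + 1 + 1)
    have g7 := hC2 κ
    have g8 := hC2 (κ + 1)
    have g9 := hC1 κ
    have g10 := hC1 (κ + 1)
    have k1 : 0 < h (κ + 1 + 1) - h (κ + 1) * Real.cos (γ (κ + 1)) := by nlinarith
    have k2 : 0 < h κ - h (κ + 1) * Real.cos (γ κ) := by nlinarith
    have k3 := hS κ
    have k4 := hS (κ + 1)
    have k5 : 0 < h (κ + 1) := by linarith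
    positivity
  have hconv : Convex ℝ (cell ν η) := by
    have : cell ν η = ⋂ j, {z | dot z (ν j) ≤ η j} := by ext z; simp [cell]
    rw [this]
    apply convex_iInter
    intro j
    have : {z : ℂ | dot z (ν j) ≤ η j} = {z | inner ℝ (ν j) z ≤ η j} := by
      ext z; rw [Set.mem_ofPred_eq, Set.mem_ofPred_eq, dot_comm, dot_eq_inner]
    rw [this]
    exact convex_halfSpace_le (innerₛₗ ℝ (ν j)).isLinear _
  have h0 : (0:ℂ) ∈ cell ν η := by
    intro j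
    have := H.hη j
    simp [dot]
    linarith
  have hWcell : ∀ κ, W κ ∈ cell ν η := by
    intro κ j
    by_cases hj : ‖c j‖ < 2.8
    · obtain ⟨k, rfl⟩ := hnear j hj
      rw [hJν k]
      by_cases hk1 : k = κ
      · rw [hk1, hW1]
      by_cases hk2 : k = κ + 1
      · rw [hk2, hW2]
      exact (hW3 κ k hk1 hk2).le
    · push Not at hj
      have e1 := (H.hfar j (by linarith)).2
      have e2 := (le_abs_self _).trans (abs_dot_le (W κ) (ν j))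
      rw [H.hν j, mul_one] at e2
      have := hWn κ
      linarith
  refine ⟨hC2, ?_, ?_⟩
  · exact poly_area (fun κ => ev (φ κ)) W h (fun κ => by have := hη1 κ; change 0 < h κ; linarith)
      hW1 hW2 hW3 hWc hconv h0 hWcell
  · have := area_formula (fun κ => ev (φ κ)) h (fun κ => norm_ev _) hcrs
    refine this.trans ?_
    apply Finset.sum_congr rfl
    intro κ _
    rw [(hgap κ).1, (hgap κ).2]

end NbHyp

end Pool.Agent.Y370.Q
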