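import Mathlib

set_option autoImplicit false

/-!
# Seven points in a Minkowski plane: the real-number core

The planar norm is only used through upper bounds coming from the octagon spanned by
`(1,0)`, `(0,1)` and two more difference vectors; everything in this file is polynomial arithmetic.
-/

namespace Pool.Agent.Y370

/-- Key inequality. -/
theorem seven_key (k l k' l' A B A' X : ℝ) (hk0 : 0 ≤ k) (hk1 : k ≤ 1) (hl0 : 0 ≤ l)
    (hl1 : l ≤ 1) (hk0' : 0 ≤ k') (hk1' : k' ≤ 1) (hl0' : 0 ≤ l') (hX0 : 0 ≤ X)
    (hX : X = l' * A') (hA' : A' + k' * (1 - X) = 1)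
    (hA : A * (1 - k * l) = 1 - k) (hB : 1 - B = l * A) (hkl : k * l < 1)
    (hSl : 1 / 2 < A' + k * X)
    (hNu : 1 / 2 < A + k' * (1 - B) ∨ 1 / 2 < (1 - B) + l' * A) :
    0 ≤ (1 - k - k' - k * l) / 2 + (k + k') * (X + l * A') := by
  have hkl' : 0 < 1 - k * l := by linarith
  set E0 : ℝ := (1 - k - k') / 2 + (k + k') * X with hE0
  set E1 : ℝ := -k / 2 + (k + k') * A' with hE1
  have hE : (1 - k - k' - k * l) / 2 + (k + k') * (X + l * A') = E0 + l * E1 := by
    rw [hE0, hE1]; ring
  rw [hE]
  by_cases h1 : E1 < 0
  · have h2 : E0 + E1 ≤ E0 + l * E1 := by nlinarith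
    have h3 : 0 ≤ E0 + E1 := by
      rw [hE0, hE1]
      have : (k + k') * (1 / 2) ≤ (k + k') * (X + A') := by
        apply mul_le_mul_of_nonneg_left _ (by linarith)
        nlinarith
      nlinarith
    linarith
  · push Not at h1
    rcases hNu with hNu | hNu
    · -- n0 + l n1 > 0
      have hn : 0 < (1 / 2 - k) + l * (k / 2 + k' * (1 - k)) := by
        have h4 : 1 / 2 < A * (1 + k' * l) := by rw [hB] at hNu; linarith
        have h5 : (1 / 2) * (1 - k * l) < A * (1 - k * l) * (1 + k' * l) := by nlinarith
        rw [hA] at h5
        nlinarith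
      set n1 : ℝ := k / 2 + k' * (1 - k) with hn1
      have hn1' : 0 ≤ n1 := by rw [hn1]; have := mul_nonneg hk0' (sub_nonneg.2 hk1); linarith
      have hid : n1 * E0 - (1 / 2 - k) * E1 = (k + k') / 4 *
          (k * (2 * X * (k + k') - (2 * k' - 1)) + 2 * (1 - k) * X * (k + k')) := by
        have hA'' : A' = 1 - k' * (1 - X) := by linarith
        rw [hE0, hE1, hn1, hA'']; ring
      have hy : 0 < 2 * X * (k + k') - (2 * k' - 1) := by
        have hA'' : A' = 1 - k' * (1 - X) := by linarith
        rw [hA''] at hSl; linarith
      have hpos : 0 ≤ n1 * E0 - (1 / 2 - k) * E1 := by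
        rw [hid]
        apply mul_nonneg (by linarith)
        have := mul_nonneg hk0 hy.le
        have h6 : 0 ≤ 2 * (1 - k) * X * (k + k') := by
          apply mul_nonneg (mul_nonneg (by linarith) hX0) (by linarith)
        linarith
      have h7 : 0 ≤ n1 * (E0 + l * E1) := by nlinarith
      rcases hn1'.lt_or_eq with h8 | h8
      · by_contra hcon
        push Not at hcon
        have := mul_neg_of_pos_of_neg h8 hcon
        linarith
      · -- n1 = 0
        have h9 : 0 ≤ k' * (1 - k) := mul_nonneg hk0' (by linarith)
        have hk : k = 0 := by rw [hn1] at h8; linarith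
        have hk'0 : k' = 0 := by rw [hn1, hk] at h8; linarith
        rw [hE0, hE1, hk, hk'0]; norm_num
    · have hn : 0 < (l' * (1 - k) - 1 / 2) + l * (1 - k / 2) := by
        have h4 : 1 / 2 < (l + l') * A := by rw [hB] at hNu; linarith
        have h5 : (1 / 2) * (1 - k * l) < (l + l') * (A * (1 - k * l)) := by nlinarith
        rw [hA] at h5
        nlinarith
      have hid : (1 - k / 2) * E0 - (l' * (1 - k) - 1 / 2) * E1 =
          (k + k') / 2 * (A' + k * X) + (1 - k - k') / 2 * (1 - k / 2) - k / 4
            + k * (1 - k) * l' / 2 := by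
        rw [hE0, hE1, hX]; ring
      have hpos : 0 ≤ (1 - k / 2) * E0 - (l' * (1 - k) - 1 / 2) * E1 := by
        rw [hid]
        have h6 : (k + k') / 2 * (1 / 2) ≤ (k + k') / 2 * (A' + k * X) :=
          mul_le_mul_of_nonneg_left hSl.le (by linarith)
        have h7 : 0 ≤ k * (1 - k) * l' / 2 := by
          have := mul_nonneg (mul_nonneg hk0 (sub_nonneg.2 hk1)) hl0'
          linarith
        have h8 : 0 ≤ (1 - k) * (2 - k - k') := mul_nonneg (by linarith) (by linarith)
        nlinarith
      have h7 : 0 ≤ (1 - k / 2) * (E0 + l * E1) := by nlinarith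
      by_contra hcon
      push Not at hcon
      have := mul_neg_of_pos_of_neg (show (0:ℝ) < 1 - k / 2 by linarith) hcon
      linarith

/-- The main case: the ten far-conditions are contradictory. -/
theorem seven_main' (r s A B A' X c b k l k' l' : ℝ)
    (hr0 : 0 ≤ r) (hc0 : 0 ≤ c) (hsb : s ≤ b) (hbbu : b ≤ B)
    (hA0' : 0 ≤ A') (hbl0 : 0 ≤ X) (hbls : X ≤ s)
    (hWS : 1 / 2 < r + s) (hWN : 1 / 2 < r + (1 - s)) (hpN : 1 / 2 < c + (1 - b))
    (hk0 : 0 ≤ k) (hk1 : k < 1) (hl0 : 0 ≤ l) (hl1 : l < 1)
    (hk0' : 0 ≤ k') (hk1' : k' < 1) (hl0' : 0 ≤ l') (hl1' : l' < 1)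
    (hAB1 : A + k * B = 1) (hAB2 : B + l * A = 1)
    (hA'X : A' + k' * (1 - X) = 1) (hX : X = l' * A')
    (hWp : 1 / 2 < (c + r) + k * (b - s) ∨ 1 / 2 < (b - s) + l * (c + r))
    (hpu : 1 / 2 < (A - c) + k * (B - b) ∨ 1 / 2 < (B - b) + l * (A - c))
    (hpl : 1 / 2 < (A' - c) + k' * (b - X) ∨ 1 / 2 < (b - X) + l' * (A' - c))
    (hSl : 1 / 2 < A' + k * X ∨ 1 / 2 < X + l * A')
    (hlE : 1 / 2 < (1 - (A' + r)) + k * (s - X) ∨ 1 / 2 < (s - X) + l * (1 - (A' + r)))
    (hNu : 1 / 2 < A + k' * (1 - B) ∨ 1 / 2 < (1 - B) + l' * A)
    (huE : 1 / 2 < (1 - (A + r)) + k' * (B - s) ∨ 1 / 2 < (B - s) + l' * (1 - (A + r))) :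
    False := by
  have hkl0 : 0 ≤ k * l := mul_nonneg hk0 hl0
  have hkl : k * l < 1 := mul_lt_one_of_nonneg_of_lt_one_left hk0 hk1 hl1.le
  have hkl' : 0 < 1 - k * l := by linarith
  have hAk : A * (1 - k * l) = 1 - k := by linear_combination hAB1 - k * hAB2
  have hBl : B * (1 - k * l) = 1 - l := by linear_combination hAB2 - l * hAB1
  have hApos : 0 < A := by
    by_contra h; push Not at h
    have := mul_nonneg (neg_nonneg.2 h) hkl'.le
    linarith
  have hBpos : 0 < B := by
    by_contra h; push Not at h
    have := mul_nonneg (neg_nonneg.2 h) hkl'.le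
    linarith
  have hA'pos : 0 < A' := by
    have := mul_nonneg hk0' hbl0
    linarith
  -- Y := X + l A' is at least l/2
  have hY : l / 2 ≤ X + l * A' := by
    rcases hSl with h | h
    · have h1 : l * (1 / 2) ≤ l * (A' + k * X) := mul_le_mul_of_nonneg_left h.le hl0
      have h2 : 0 ≤ (1 - k * l) * X := mul_nonneg hkl'.le hbl0
      linarith
    · linarith
  have hXA' : X ≤ A' := by
    have := mul_nonneg (sub_nonneg.2 hl1'.le) hA0'
    linarith
  -- key inequality under Sl-f
  have hkey : 1 / 2 < A' + k * X →
      0 ≤ (1 - k - k' - k * l) / 2 + (k + k') * (X + l * A') := by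
    intro h
    exact seven_key k l k' l' A B A' X hk0 hk1.le hl0 hl1.le hk0' hk1'.le hl0' hbl0 hX hA'X hAk
      (by linarith) hkl h hNu
  rcases hpu with hpu | hpu
  · -- case alpha
    have hα : c + k * b < 1 / 2 := by linarith
    rcases hWp with hWp | hWp
    · -- α1
      have hrks : k * s < r := by linarith
      rcases hlE with hlE | hlE
      · have h1 : A' + k * X < 1 / 2 + k * s - r := by linarith
        rcases hSl with hSl | hSl
        · linarith
        · -- Sl g
          have h2 : A' * (1 - l) < X * (1 - k) := by linarith
          rcases huE with huE | huE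
          · -- uE f
            have h3 : A < 1 / 2 + k' * (B - 1 / 2) := by
              have e1 : 0 ≤ (1 + k') * (r + s - 1 / 2) := mul_nonneg (by linarith) (by linarith)
              have e2 : 0 ≤ (1 - k') * (r + (1 - s) - 1 / 2) :=
                mul_nonneg (by linarith) (by linarith)
              linarith
            have h5 : k < l := by
              by_contra h; push Not at h
              have : X * (1 - k) ≤ A' * (1 - l) := by
                apply mul_le_mul hXA' (by linarith) (by linarith) hA0'
              linarith
            have h6 : B < A := by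
              have h7 : A * (1 - l) = B * (1 - k) := by linear_combination hAB1 - hAB2
              have h8 : A * (1 - l) < A * (1 - k) := mul_lt_mul_of_pos_left (by linarith) hApos
              exact lt_of_mul_lt_mul_right (by linarith) (show (0:ℝ) ≤ 1 - k by linarith)
            have h8 : 1 - B ≤ A := by
              have := mul_nonneg (sub_nonneg.2 hk1.le) hBpos.le
              linarith
            by_cases h9 : B ≤ 1 / 2
            · have := mul_nonneg hk0' (sub_nonneg.2 h9)
              linarith
            · push Not at h9
              have := mul_nonneg (sub_nonneg.2 hk1'.le) (sub_nonneg.2 h9.le)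
              linarith
          · -- uE g
            have h3 : 1 - l < l' * (1 - k) := by
              have : A' * (1 - l) < A' * (l' * (1 - k)) := by
                rw [hX] at h2; linarith
              exact lt_of_mul_lt_mul_left this hA0'
            have h4 : B < l' * A := by
              have h5 : A * (1 - l) = B * (1 - k) := by linear_combination hAB1 - hAB2
              have h6 : A * (1 - l) < A * (l' * (1 - k)) := mul_lt_mul_of_pos_left h3 hApos
              exact lt_of_mul_lt_mul_right (by linarith) (show (0:ℝ) ≤ 1 - k by linarith)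
            have h5 : B * (1 + k * l') < l' := by
              have : l' * (A + k * B) = l' := by rw [hAB1]; ring
              linarith
            -- certificate
            have e1 : 0 < (1 + k * l') * (r + s - 1 / 2) := by
              apply mul_pos _ (by linarith)
              have := mul_nonneg hk0 hl0'; linarith
            have e2 : 0 < (1 + k) * ((B - s) + l' * (1 - (A + r)) - 1 / 2) :=
              mul_pos (by linarith) (by linarith)
            have e3 : 0 ≤ (1 - l') * (1 / 2 - A' - k * X + k * s - r) :=
              mul_nonneg (by linarith) (by linarith)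
            have e4 : (1 + k * l') * (r + s - 1 / 2) +
                (1 + k) * ((B - s) + l' * (1 - (A + r)) - 1 / 2) +
                (1 - l') * (1 / 2 - A' - k * X + k * s - r) =
                - (1 + k * l') / 2 + (1 + k) * (B * (1 + k * l') - 1 / 2) +
                (1 - l') * (1 / 2 - A' - k * X) := by
              have : 1 - A = k * B := by linarith
              linear_combination (1 + k) * l' * this
            have e5 : (1 + k) * (B * (1 + k * l') - 1 / 2) ≤ (1 + k) * (l' - 1 / 2) :=
              mul_le_mul_of_nonneg_left (by linarith) (by linarith)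
            have e6 : (1 - l') * (1 / 2 - A' - k * X) ≤ (1 - l') * (1 / 2) := by
              apply mul_le_mul_of_nonneg_left _ (by linarith)
              have := mul_nonneg hk0 hbl0
              linarith
            have e7 : 0 ≤ k * (1 - l') := mul_nonneg hk0 (by linarith)
            linarith
      · -- lE g
        have h1 : 1 / 2 - l + (X + l * A') < s - l * r := by linarith
        have h2 : s - l * r ≤ s * (1 - k * l) := by
          have := mul_le_mul_of_nonneg_left hrks.le hl0
          linarith
        have h4 : 1 / 2 - l + (X + l * A') < s * (1 - k * l) := by linarith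
        rcases hSl with hSl | hSl
        · rcases huE with huE | huE
          · have h3 : (k + k') * s < 1 / 2 - A + k' * B := by linarith
            have h5 := hkey hSl
            have e1 : (1 - k * l) * ((k + k') * s) < (1 - k * l) * (1 / 2 - A + k' * B) :=
              mul_lt_mul_of_pos_left h3 hkl'
            have e2 : (k + k') * (1 / 2 - l + (X + l * A')) ≤ (k + k') * (s * (1 - k * l)) :=
              mul_le_mul_of_nonneg_left h4.le (by linarith)
            have e3 : k' * (B * (1 - k * l)) = k' * (1 - l) := by rw [hBl]
            linarith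
          · have h3 : s * (1 + k * l') < B * (1 + k * l') - 1 / 2 := by
              have h4 : l' * (1 - A) = l' * (k * B) := by
                have : 1 - A = k * B := by linarith
                rw [this]
              have h5 : l' * (k * s) ≤ l' * r := mul_le_mul_of_nonneg_left hrks.le hl0'
              linarith
            have hkl1 : 0 < 1 + k * l' := by
              have := mul_nonneg hk0 hl0'; linarith
            have e1 : (1 - k * l) * (s * (1 + k * l')) < (1 - k * l) * (B * (1 + k * l') - 1 / 2) :=
              mul_lt_mul_of_pos_left h3 hkl'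
            have e2 : (1 + k * l') * (1 / 2 - l + (X + l * A')) < (1 + k * l') * (s * (1 - k * l)) :=
              mul_lt_mul_of_pos_left h4 hkl1
            have e3 : (l + l') * (1 / 2) ≤ (l + l') * (A' + k * X) :=
              mul_le_mul_of_nonneg_left hSl.le (by linarith)
            have e4 : (l + l') * (A' + k * X) = (1 + k * l') * (X + l * A') := by
              rw [hX]; ring
            have e5 : 0 ≤ (1 - k) * (l + l') := mul_nonneg (by linarith) (by linarith)
            have e6 : (B * (1 - k * l)) * (1 + k * l') = (1 - l) * (1 + k * l') := by rw [hBl]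
            linarith
        · have h3 : 1 - l < s * (1 - k * l) := by linarith
          have := mul_nonneg (show (0:ℝ) ≤ B - s by linarith) hkl'.le
          linarith
    · -- α2
      have h0 : l * (c + k * b) ≤ l * (1 / 2) := mul_le_mul_of_nonneg_left hα.le hl0
      have hbc : b + l * c ≤ 1 - l / 2 := by
        have h2 : (1 - k * l) * b ≤ (1 - k * l) * B := mul_le_mul_of_nonneg_left hbbu hkl'.le
        linarith
      have hsr : s - l * r < 1 / 2 - l / 2 := by linarith
      rcases hlE with hlE | hlE
      · have h1 : A' + k * X < 1 / 2 + k * s - r := by linarith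
        rcases hSl with hSl | hSl
        · -- Sl f
          have h2 : r < k * s := by linarith
          have h3 : 1 / 2 < s * (1 + k) := by linarith
          have h4 : s * (1 - k * l) ≤ s - l * r := by
            have := mul_le_mul_of_nonneg_left h2.le hl0
            linarith
          have h5 : b + l * c ≤ b * (1 - k * l) + l / 2 := by linarith
          have h6 : (1 - k * l) * s < (1 - k * l) * (b - B / 2) := by linarith
          have h7 : s < b - B / 2 := lt_of_mul_lt_mul_left h6 hkl'.le
          have h8 : 1 < B * (1 + k) := by
            have : 0 < (B / 2 - s) * (1 + k) := mul_pos (by linarith) (by linarith)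
            linarith
          have h9 : b * (1 + k) < 1 := by linarith
          have : 0 < (1 + k) * (b - B / 2 - s) := mul_pos (by linarith) (by linarith)
          linarith
        · have h2 : 1 / 2 < A' * (1 + l) := by linarith
          have h3 : (1 + k) / 2 < (1 + l) * (A' + k * X) := by
            have e1 : k * (1 + l) * (1 / 2) ≤ k * (1 + l) * (X + l * A') :=
              mul_le_mul_of_nonneg_left hSl.le (mul_nonneg hk0 (by linarith))
            have e2 : (1 - k * l) * (1 / 2) < (1 - k * l) * (A' * (1 + l)) :=
              mul_lt_mul_of_pos_left h2 hkl'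
            linarith
          have h5 : (1 + k) * (s - l * r) < (1 + k) * (1 / 2 - l / 2) :=
            mul_lt_mul_of_pos_left hsr (by linarith)
          have h6 : (1 - k * l) * (1 / 2) < (1 - k * l) * (r + s) :=
            mul_lt_mul_of_pos_left hWS hkl'
          have h7 : (1 + l) * (A' + k * X) < (1 + l) * (1 / 2 + (k * s - r)) :=
            mul_lt_mul_of_pos_left (by linarith) (by linarith)
          linarith
      · linarith
  · -- case beta
    have hβ : b + l * c < 1 / 2 := by linarith
    rcases hpl with hpl | hpl
    swap
    · have h1 : 1 - b + l' * c < 1 / 2 := by linarith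
      have h2 : 0 ≤ (l + l') * c := mul_nonneg (by linarith) hc0
      linarith
    have hpl' : c + k' * (1 - b) < 1 / 2 := by linarith
    rcases hWp with hWp | hWp
    · rcases hlE with hlE | hlE
      · have h1 : A' + k * X < 1 / 2 + k * s - r := by linarith
        have h2 : A' + k * X < c + k * b := by linarith
        have h3 : 1 / 2 < (k + k') * (b - X) := by linarith
        have h4 : (b - X) * (1 - k * l) + (X + l * A') ≤ 1 / 2 := by
          have e1 : l * (A' + k * X) ≤ l * (c + k * b) := mul_le_mul_of_nonneg_left h2.le hl0
          linarith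
        have hbX : 0 ≤ b - X := by linarith
        rcases hSl with hSl | hSl
        · have h5 := hkey hSl
          have e1 : (1 - k * l) * (1 / 2) < (1 - k * l) * ((k + k') * (b - X)) :=
            mul_lt_mul_of_pos_left h3 hkl'
          have e2 : (k + k') * ((b - X) * (1 - k * l) + (X + l * A')) ≤ (k + k') * (1 / 2) :=
            mul_le_mul_of_nonneg_left h4 (by linarith)
          linarith
        · have := mul_nonneg hbX hkl'.le
          linarith
      · have h1 : 1 / 2 - l + (X + l * A') < s - l * r := by linarith
        have h2 : l * (c + k * b) ≤ 1 / 2 - (1 - k * l) * s := by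
          have e1 : (1 - k * l) * s ≤ (1 - k * l) * b := mul_le_mul_of_nonneg_left hsb hkl'.le
          linarith
        have h3 : l * (1 / 2) ≤ l * (c + r + k * (b - s)) := mul_le_mul_of_nonneg_left hWp.le hl0
        linarith
    · have hsr : s < l * r := by linarith
      rcases hlE with hlE | hlE
      · have h1 : A' + k * X < 1 / 2 + k * s - r := by linarith
        have h2 : k * s ≤ k * (l * r) := mul_le_mul_of_nonneg_left hsr.le hk0
        rcases hSl with hSl | hSl
        · have := mul_nonneg hkl'.le hr0
          linarith
        · have e1 : l * (A' + k * X) ≤ l * (1 / 2 - (1 - k * l) * r) :=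
            mul_le_mul_of_nonneg_left (by linarith) hl0
          have e2 : (1 - k * l) * X ≤ (1 - k * l) * (l * r) :=
            mul_le_mul_of_nonneg_left (by linarith) hkl'.le
          linarith
      · linarith

end Pool.Agent.Y370
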