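import Pool.Agent.Y370.Seven1

set_option autoImplicit false

/-!
# Seven points in a Minkowski plane: the frame and the combinatorial cases
-/

namespace Pool.Agent.Y370

/-- Seven points with coordinates `x i, y i` in the unit square, a gauge `n` on `ℝ²`, and four
extreme points `W, E, S, N` such that `E - W = (1,0)` and `N - S = (0,1)`; all gauge distances
are at most `1` and more than `1/2`. -/
structure SevenCfg (n : ℝ → ℝ → ℝ) (x y : Fin 7 → ℝ) (W E S N : Fin 7) : Prop where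
  add : ∀ a b c d, n (a + c) (b + d) ≤ n a b + n c d
  smul : ∀ t a b, 0 ≤ t → n (t * a) (t * b) = t * n a b
  neg : ∀ a b, n (-a) (-b) = n a b
  x0 : ∀ i, 0 ≤ x i
  x1 : ∀ i, x i ≤ 1
  y0 : ∀ i, 0 ≤ y i
  y1 : ∀ i, y i ≤ 1
  xW : x W = 0
  xE : x E = 1
  yEW : y E = y W
  yS : y S = 0
  yN : y N = 1
  xNS : x N = x S
  near : ∀ i j, n (x i - x j) (y i - y j) ≤ 1
  far : ∀ i j, i ≠ j → 1 / 2 < n (x i - x j) (y i - y j)

namespace SevenCfg

variable {n : ℝ → ℝ → ℝ} {x y : Fin 7 → ℝ} {W E S N : Fin 7}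

theorem reflX (h : SevenCfg n x y W E S N) :
    SevenCfg (fun a b => n (-a) b) (fun i => 1 - x i) y E W S N where
  add a b c d := by
    have := h.add (-a) b (-c) d
    rwa [show -a + -c = -(a + c) by ring] at this
  smul t a b ht := by
    have := h.smul t (-a) b ht
    rwa [show t * -a = -(t * a) by ring] at this
  neg a b := h.neg (-a) b
  x0 i := by have := h.x1 i; linarith
  x1 i := by have := h.x0 i; linarith
  y0 := h.y0
  y1 := h.y1
  xW := by rw [h.xE]; ring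
  xE := by rw [h.xW]; ring
  yEW := h.yEW.symm
  yS := h.yS
  yN := h.yN
  xNS := by rw [h.xNS]
  near i j := by
    have := h.near i j
    rwa [show -(1 - x i - (1 - x j)) = x i - x j by ring]
  far i j hij := by
    have := h.far i j hij
    rwa [show -(1 - x i - (1 - x j)) = x i - x j by ring]

theorem reflY (h : SevenCfg n x y W E S N) :
    SevenCfg (fun a b => n a (-b)) x (fun i => 1 - y i) W E N S where
  add a b c d := by
    have := h.add a (-b) c (-d)
    rwa [show -b + -d = -(b + d) by ring] at this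
  smul t a b ht := by
    have := h.smul t a (-b) ht
    rwa [show t * -b = -(t * b) by ring] at this
  neg a b := h.neg a (-b)
  x0 := h.x0
  x1 := h.x1
  y0 i := by have := h.y1 i; linarith
  y1 i := by have := h.y0 i; linarith
  xW := h.xW
  xE := h.xE
  yEW := by rw [h.yEW]
  yS := by rw [h.yN]; ring
  yN := by rw [h.yS]; ring
  xNS := h.xNS.symm
  near i j := by
    have := h.near i j
    rwa [show -(1 - y i - (1 - y j)) = y i - y j by ring]
  far i j hij := by
    have := h.far i j hij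
    rwa [show -(1 - y i - (1 - y j)) = y i - y j by ring]

theorem swap (h : SevenCfg n x y W E S N) :
    SevenCfg (fun a b => n b a) y x S N W E where
  add a b c d := h.add b a d c
  smul t a b ht := h.smul t b a ht
  neg a b := h.neg b a
  x0 := h.y0
  x1 := h.y1
  y0 := h.x0
  y1 := h.x1
  xW := h.yS
  xE := h.yN
  yEW := h.xNS
  yS := h.xW
  yN := h.xE
  xNS := h.yEW
  near := h.near
  far := h.far

theorem ex (h : SevenCfg n x y W E S N) : n 1 0 ≤ 1 := by
  have := h.near E W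
  rw [h.xE, h.xW, h.yEW] at this
  simpa using this

theorem ey (h : SevenCfg n x y W E S N) : n 0 1 ≤ 1 := by
  have := h.near N S
  rw [h.yN, h.yS, h.xNS] at this
  simpa using this

theorem l1 (h : SevenCfg n x y W E S N) (u v : ℝ) (hu : 0 ≤ u) (hv : 0 ≤ v) :
    n u v ≤ u + v := by
  have h1 := h.add u 0 0 v
  have h2 := h.smul u 1 0 hu
  have h3 := h.smul v 0 1 hv
  simp only [mul_one, mul_zero, add_zero, zero_add] at h1 h2 h3
  have h4 := mul_le_mul_of_nonneg_left h.ex hu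
  have h5 := mul_le_mul_of_nonneg_left h.ey hv
  linarith

theorem comb (h : SevenCfg n x y W E S N) (A B t u v : ℝ) (hD : n A B ≤ 1) (ht : 0 ≤ t)
    (hu : 0 ≤ u) (hv : 0 ≤ v) : n (t * A + u) (t * B + v) ≤ t + u + v := by
  have h1 := h.add (t * A) (t * B) u v
  have h2 := h.smul t A B ht
  have h3 := h.l1 u v hu hv
  have h4 := mul_le_mul_of_nonneg_left hD ht
  linarith

theorem fg (h : SevenCfg n x y W E S N) (A B k l u v : ℝ) (hD : n A B ≤ 1) (hA : 0 < A)
    (hB : 0 < B) (hk : A + k * B = 1) (hl : B + l * A = 1) (hu : 0 ≤ u) (hv : 0 ≤ v) :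
    n u v ≤ u + k * v ∨ n u v ≤ v + l * u := by
  by_cases hc : v * A ≤ u * B
  · left
    have h1 : v / B * B = v := by field_simp
    have h2 : v / B * A ≤ u := by
      rw [div_mul_eq_mul_div, div_le_iff₀ hB]; exact hc
    have h3 := h.comb A B (v / B) (u - v / B * A) 0 hD (div_nonneg hv hB.le) (by linarith) le_rfl
    have h4 : v / B * A + (u - v / B * A) = u := by ring
    rw [h4, h1, add_zero, add_zero] at h3
    have h5 : v / B * (1 - A) = k * v := by
      have : 1 - A = k * B := by linarith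
      rw [this]; field_simp
    linarith
  · right
    push Not at hc
    have h1 : u / A * A = u := by field_simp
    have h2 : u / A * B ≤ v := by
      rw [div_mul_eq_mul_div, div_le_iff₀ hA]; exact hc.le
    have h3 := h.comb A B (u / A) 0 (v - u / A * B) hD (div_nonneg hu hA.le) le_rfl (by linarith)
    have h4 : u / A * B + (v - u / A * B) = v := by ring
    rw [h4, h1, add_zero, add_zero] at h3
    have h5 : u / A * (1 - B) = l * u := by
      have : 1 - B = l * A := by linarith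
      rw [this]; field_simp
    linarith

theorem box (h : SevenCfg n x y W E S N) (A B u v : ℝ) (hD : n A B ≤ 1) (hA : 0 ≤ A)
    (hB : 0 ≤ B) (hA1 : A ≤ 1) (hB1 : B ≤ 1) (hu : 0 ≤ u) (hv : 0 ≤ v)
    (huA : u ≤ A / 2) (hvB : v ≤ B / 2) : n u v ≤ 1 / 2 := by
  rcases hA.lt_or_eq with hA' | hA'
  · rcases hB.lt_or_eq with hB' | hB'
    · have h1 := h.fg A B ((1 - A) / B) ((1 - B) / A) u v hD hA' hB'
        (by field_simp; ring) (by field_simp; ring) hu hv
      rcases h1 with h1 | h1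
      · have h2 : (1 - A) / B * v ≤ (1 - A) / 2 := by
          rw [div_mul_eq_mul_div, div_le_iff₀ hB']
          have := mul_le_mul_of_nonneg_left hvB (show (0:ℝ) ≤ 1 - A by linarith)
          linarith
        linarith
      · have h2 : (1 - B) / A * u ≤ (1 - B) / 2 := by
          rw [div_mul_eq_mul_div, div_le_iff₀ hA']
          have := mul_le_mul_of_nonneg_left huA (show (0:ℝ) ≤ 1 - B by linarith)
          linarith
        linarith
    · have := h.l1 u v hu hv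
      linarith
  · have := h.l1 u v hu hv
    linarith

theorem boxfar (h : SevenCfg n x y W E S N) (A B u v : ℝ) (hD : n A B ≤ 1) (hA : 0 ≤ A)
    (hB : 0 ≤ B) (hA1 : A ≤ 1) (hB1 : B ≤ 1) (hu : 0 ≤ u) (hv : 0 ≤ v)
    (hf : 1 / 2 < n u v) : A / 2 < u ∨ B / 2 < v := by
  by_contra hcon
  push Not at hcon
  have := h.box A B u v hD hA hB hA1 hB1 hu hv hcon.1 hcon.2
  linarith

/-- No four points form a chain for the product order. -/
theorem chain (h : SevenCfg n x y W E S N) (q0 q1 q2 q3 : Fin 7)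
    (h01 : q1 ≠ q0) (h02 : q2 ≠ q0) (h12 : q2 ≠ q1) (h13 : q3 ≠ q1) (h23 : q3 ≠ q2)
    (x01 : x q0 ≤ x q1) (x12 : x q1 ≤ x q2) (x23 : x q2 ≤ x q3)
    (y01 : y q0 ≤ y q1) (y12 : y q1 ≤ y q2) (y23 : y q2 ≤ y q3) : False := by
  have hD := h.near q3 q0
  have a1 := h.x0 q0
  have a2 := h.x1 q3
  have a3 := h.y0 q0
  have a4 := h.y1 q3
  have b1 := h.boxfar _ _ _ _ hD (by linarith) (by linarith) (by linarith) (by linarith)
    (by linarith) (by linarith) (h.far q1 q0 h01)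
  have b2 := h.boxfar _ _ _ _ hD (by linarith) (by linarith) (by linarith) (by linarith)
    (by linarith) (by linarith) (h.far q2 q0 h02)
  have b3 := h.boxfar _ _ _ _ hD (by linarith) (by linarith) (by linarith) (by linarith)
    (by linarith) (by linarith) (h.far q3 q1 h13)
  have b4 := h.boxfar _ _ _ _ hD (by linarith) (by linarith) (by linarith) (by linarith)
    (by linarith) (by linarith) (h.far q3 q2 h23)
  have b5 := h.boxfar _ _ _ _ hD (by linarith) (by linarith) (by linarith) (by linarith)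
    (by linarith) (by linarith) (h.far q2 q1 h12)
  rcases b1 with b1 | b1 <;> rcases b2 with b2 | b2 <;> rcases b3 with b3 | b3 <;>
    rcases b4 with b4 | b4 <;> rcases b5 with b5 | b5 <;> linarith

/-- Three pairwise comparable points above `q0` give a chain. -/
theorem chain3 (h : SevenCfg n x y W E S N) (q0 q1 q2 q3 : Fin 7)
    (h01 : q1 ≠ q0) (h02 : q2 ≠ q0) (h03 : q3 ≠ q0) (h12 : q1 ≠ q2) (h13 : q1 ≠ q3)
    (h23 : q2 ≠ q3)
    (x01 : x q0 ≤ x q1) (x02 : x q0 ≤ x q2) (x03 : x q0 ≤ x q3)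
    (y01 : y q0 ≤ y q1) (y02 : y q0 ≤ y q2) (y03 : y q0 ≤ y q3)
    (c12 : (x q1 ≤ x q2 ∧ y q1 ≤ y q2) ∨ (x q2 ≤ x q1 ∧ y q2 ≤ y q1))
    (c13 : (x q1 ≤ x q3 ∧ y q1 ≤ y q3) ∨ (x q3 ≤ x q1 ∧ y q3 ≤ y q1))
    (c23 : (x q2 ≤ x q3 ∧ y q2 ≤ y q3) ∨ (x q3 ≤ x q2 ∧ y q3 ≤ y q2)) : False := by
  rcases c12 with ⟨c1, d1⟩ | ⟨c1, d1⟩ <;> rcases c13 with ⟨c2, d2⟩ | ⟨c2, d2⟩ <;>
    rcases c23 with ⟨c3, d3⟩ | ⟨c3, d3⟩
  · exact h.chain q0 q1 q2 q3 h01 h02 h12.symm h13.symm h23.symm x01 c1 c3 y01 d1 d3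
  · exact h.chain q0 q1 q3 q2 h01 h03 h13.symm h12.symm h23 x01 c2 c3 y01 d2 d3
  · exact h.chain q0 q1 q2 q3 h01 h02 h12.symm h13.symm h23.symm x01 c1 c3 y01 d1 d3
  · exact h.chain q0 q3 q1 q2 h03 h01 h13 h23 h12.symm x03 c2 c1 y03 d2 d1
  · exact h.chain q0 q2 q1 q3 h02 h01 h12 h23.symm h13.symm x02 c1 c2 y02 d1 d2
  · exact h.chain q0 q2 q1 q3 h02 h01 h12 h23.symm h13.symm x02 c1 c2 y02 d1 d2
  · exact h.chain q0 q2 q3 q1 h02 h03 h23.symm h12 h13 x02 c3 c2 y02 d3 d2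
  · exact h.chain q0 q3 q2 q1 h03 h02 h23 h13 h12 x03 c3 c1 y03 d3 d1

/-- The degenerate case `W = S`. -/
theorem deg (h : SevenCfg n x y W E S N) (hWS : W = S) : False := by
  subst hWS
  have hxN : x N = 0 := by rw [h.xNS, h.xW]
  have hyE : y E = 0 := by rw [h.yEW, h.yS]
  have hD : n (-1) 1 ≤ 1 := by
    have := h.near N E
    rw [hxN, h.xE, h.yN, hyE] at this
    simpa using this
  have hbox : ∀ u v : ℝ, 0 ≤ u → 0 ≤ v → u ≤ 1 / 2 → v ≤ 1 / 2 → n (-u) v ≤ 1 / 2 := by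
    intro u v hu hv hu2 hv2
    exact h.reflX.box 1 1 u v hD zero_le_one zero_le_one le_rfl le_rfl hu hv hu2 hv2
  have hcl : ∀ q : Fin 7, q ≠ E → q ≠ N →
      (x q < 1 / 2 ∧ y q < 1 / 2) ∨ (1 / 2 < x q ∧ 1 / 2 < y q) := by
    intro q hE hN
    have h1 := h.far q E hE
    have h2 := h.far N q hN.symm
    rw [h.xE, hyE] at h1
    rw [hxN, h.yN] at h2
    have g1 : 1 / 2 < 1 - x q ∨ 1 / 2 < y q := by
      by_contra hc
      push Not at hc
      have := hbox (1 - x q) (y q) (by have := h.x1 q; linarith) (h.y0 q) hc.1 hc.2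
      rw [show -(1 - x q) = x q - 1 by ring] at this
      rw [sub_zero] at h1
      linarith
    have g2 : 1 / 2 < x q ∨ 1 / 2 < 1 - y q := by
      by_contra hc
      push Not at hc
      have := hbox (x q) (1 - y q) (h.x0 q) (by have := h.y1 q; linarith) hc.1 hc.2
      rw [zero_sub] at h2
      linarith
    rcases g1 with g1 | g1 <;> rcases g2 with g2 | g2
    · linarith
    · left; constructor <;> linarith
    · right; exact ⟨g2, g1⟩
    · linarith
  have hanti : ∀ p q : Fin 7, p ≠ q → x q - x p ≤ 1 / 2 → y p - y q ≤ 1 / 2 →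
      x p ≤ x q → y q ≤ y p → False := by
    intro p q hpq h1 h2 h3 h4
    have h5 := h.far p q hpq
    have h6 := hbox (x q - x p) (y p - y q) (by linarith) (by linarith) h1 h2
    rw [show -(x q - x p) = x p - x q by ring] at h6
    linarith
  have hcomp : ∀ p q : Fin 7, p ≠ E → p ≠ N → q ≠ E → q ≠ N → p ≠ q →
      (x p ≤ x q ∧ y p ≤ y q) ∨ (x q ≤ x p ∧ y q ≤ y p) := by
    intro p q hpE hpN hqE hqN hpq
    have a1 := h.x0 p
    have a2 := h.x0 q
    have a3 := h.y0 p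
    have a4 := h.y0 q
    have a5 := h.x1 p
    have a6 := h.x1 q
    have a7 := h.y1 p
    have a8 := h.y1 q
    rcases hcl p hpE hpN with ⟨h1, h2⟩ | ⟨h1, h2⟩ <;> rcases hcl q hqE hqN with ⟨h3, h4⟩ | ⟨h3, h4⟩
    · rcases le_total (x p) (x q) with h5 | h5 <;> rcases le_total (y p) (y q) with h6 | h6
      · exact Or.inl ⟨h5, h6⟩
      · exact (hanti p q hpq (by linarith) (by linarith) h5 h6).elim
      · exact (hanti q p hpq.symm (by linarith) (by linarith) h5 h6).elim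
      · exact Or.inr ⟨h5, h6⟩
    · left; constructor <;> linarith
    · right; constructor <;> linarith
    · rcases le_total (x p) (x q) with h5 | h5 <;> rcases le_total (y p) (y q) with h6 | h6
      · exact Or.inl ⟨h5, h6⟩
      · exact (hanti p q hpq (by linarith) (by linarith) h5 h6).elim
      · exact (hanti q p hpq.symm (by linarith) (by linarith) h5 h6).elim
      · exact Or.inr ⟨h5, h6⟩
  have hcard : 2 < (Finset.univ \ ({W, E, N} : Finset (Fin 7))).card := by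
    have h1 : ({W, E, N} : Finset (Fin 7)).card ≤ 3 := Finset.card_le_three
    have h2 := Finset.le_card_sdiff ({W, E, N} : Finset (Fin 7)) Finset.univ
    rw [Finset.card_univ, Fintype.card_fin] at h2
    omega
  obtain ⟨a, b, c, ha, hb, hc, hab, hac, hbc⟩ := Finset.two_lt_card_iff.1 hcard
  simp only [Finset.mem_sdiff, Finset.mem_univ, true_and, Finset.mem_insert,
    Finset.mem_singleton, not_or] at ha hb hc
  have hx0 := h.xW
  have hy0 := h.yS
  exact h.chain3 W a b c ha.1 hb.1 hc.1 hab hac hbc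
    (by rw [hx0]; exact h.x0 a) (by rw [hx0]; exact h.x0 b) (by rw [hx0]; exact h.x0 c)
    (by rw [hy0]; exact h.y0 a) (by rw [hy0]; exact h.y0 b) (by rw [hy0]; exact h.y0 c)
    (hcomp a b ha.2.1 ha.2.2 hb.2.1 hb.2.2 hab)
    (hcomp a c ha.2.1 ha.2.2 hc.2.1 hc.2.2 hac)
    (hcomp b c hb.2.1 hb.2.2 hc.2.1 hc.2.2 hbc)

theorem farl1 (h : SevenCfg n x y W E S N) (i j : Fin 7) (hij : i ≠ j) :
    1 / 2 < |x i - x j| + |y i - y j| := by
  have h1 := h.far i j hij
  rcases le_total 0 (x i - x j) with hx | hx <;> rcases le_total 0 (y i - y j) with hy | hy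
  · rw [abs_of_nonneg hx, abs_of_nonneg hy]
    exact h1.trans_le (h.l1 _ _ hx hy)
  · rw [abs_of_nonneg hx, abs_of_nonpos hy]
    have h2 := h.reflY.l1 (x i - x j) (-(y i - y j)) hx (by linarith)
    simp only [neg_neg] at h2
    linarith
  · rw [abs_of_nonpos hx, abs_of_nonneg hy]
    have h2 := h.reflX.l1 (-(x i - x j)) (y i - y j) (by linarith) hy
    simp only [neg_neg] at h2
    linarith
  · rw [abs_of_nonpos hx, abs_of_nonpos hy]
    have h2 := h.l1 (-(x i - x j)) (-(y i - y j)) (by linarith) (by linarith)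
    rw [h.neg] at h2
    linarith

/-- The main case. -/
theorem mainCase (h : SevenCfg n x y W E S N) (hWS : W ≠ S) (hWN : W ≠ N)
    (p u l : Fin 7) (hpu : p ≠ u) (hpl : p ≠ l) (hul : u ≠ l)
    (hpS : p ≠ S) (hpN : p ≠ N) (hpW : p ≠ W) (huS : u ≠ S) (huN : u ≠ N) (huE : u ≠ E)
    (hlS : l ≠ S) (hlE : l ≠ E)
    (hxp : x S ≤ x p) (hxl : x S ≤ x l) (hxpu : x p ≤ x u) (hypu : y p ≤ y u)
    (hyp : y W ≤ y p) (hyl : y l ≤ y W) : False := by
  rcases le_total (x l) (x p) with hlp | hlp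
  · have hyS := h.yS
    have hyl0 := h.y0 l
    exact h.chain S l p u hlS hpS hpl hul hpu.symm hxl hlp hxpu (by linarith) (by linarith) hypu
  have hr0 := h.x0 S
  have hxS1 := h.x1 S
  have hs0 := h.y0 W
  have hs1 := h.y1 W
  have hu1 := h.x1 u
  have hyu1 := h.y1 u
  have hl1 := h.x1 l
  have hyl0 := h.y0 l
  have hyS := h.yS
  have hyN := h.yN
  have hxW := h.xW
  have hxE := h.xE
  have hyEW := h.yEW
  have hxNS := h.xNS
  -- l1 facts
  have fWS : 1 / 2 < x S + y W := by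
    have := h.farl1 W S hWS
    rw [hxW, hyS, abs_of_nonpos (by linarith), abs_of_nonneg (by linarith)] at this
    linarith
  have fWN : 1 / 2 < x S + (1 - y W) := by
    have := h.farl1 W N hWN
    rw [hxW, hyN, hxNS, abs_of_nonpos (by linarith), abs_of_nonpos (by linarith)] at this
    linarith
  have fpS : 1 / 2 < (x p - x S) + y p := by
    have := h.farl1 p S hpS
    rw [hyS, abs_of_nonneg (by linarith), abs_of_nonneg (by linarith)] at this
    linarith
  have fpN : 1 / 2 < (x p - x S) + (1 - y p) := by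
    have := h.farl1 p N hpN
    rw [hyN, hxNS, abs_of_nonneg (by linarith), abs_of_nonpos (by linarith)] at this
    linarith
  have fup : 1 / 2 < (x u - x p) + (y u - y p) := by
    have := h.farl1 u p hpu.symm
    rw [abs_of_nonneg (by linarith), abs_of_nonneg (by linarith)] at this
    linarith
  have flp : 1 / 2 < (x l - x p) + (y p - y l) := by
    have := h.farl1 l p hpl.symm
    rw [abs_of_nonneg (by linarith), abs_of_nonpos (by linarith)] at this
    linarith
  obtain ⟨A, hA⟩ : ∃ A, A = x u - x S := ⟨_, rfl⟩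
  obtain ⟨B, hB⟩ : ∃ B, B = y u := ⟨_, rfl⟩
  obtain ⟨A', hA'⟩ : ∃ A', A' = x l - x S := ⟨_, rfl⟩
  obtain ⟨X, hX⟩ : ∃ X, X = y l := ⟨_, rfl⟩
  have hApos : 0 < A := by linarith
  have hBpos : 0 < B := by linarith
  have hApos' : 0 < A' := by linarith
  have hBpos' : 0 < 1 - X := by linarith
  have hD1 : n A B ≤ 1 := by
    have := h.near u S
    rwa [hyS, sub_zero, ← hA, ← hB] at this
  have hD2 : n A' (-(1 - X)) ≤ 1 := by
    have := h.near l N
    rwa [hyN, hxNS, ← hA', ← hX, show X - 1 = -(1 - X) by ring] at this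
  obtain ⟨k, hk⟩ : ∃ k, k = (1 - A) / B := ⟨_, rfl⟩
  obtain ⟨m, hm⟩ : ∃ m, m = (1 - B) / A := ⟨_, rfl⟩
  obtain ⟨k', hk'⟩ : ∃ k', k' = (1 - A') / (1 - X) := ⟨_, rfl⟩
  obtain ⟨m', hm'⟩ : ∃ m', m' = (1 - (1 - X)) / A' := ⟨_, rfl⟩
  have hAB1 : A + k * B = 1 := by rw [hk]; field_simp; ring
  have hAB2 : B + m * A = 1 := by rw [hm]; field_simp; ring
  have hAB1' : A' + k' * (1 - X) = 1 := by rw [hk']; field_simp; ring
  have hAB2' : (1 - X) + m' * A' = 1 := by rw [hm']; field_simp; ring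
  have hk0 : 0 ≤ k := by rw [hk]; exact div_nonneg (by linarith) hBpos.le
  have hm0 : 0 ≤ m := by rw [hm]; exact div_nonneg (by linarith) hApos.le
  have hk0' : 0 ≤ k' := by rw [hk']; exact div_nonneg (by linarith) hBpos'.le
  have hm0' : 0 ≤ m' := by rw [hm']; exact div_nonneg (by linarith) hApos'.le
  have hk1 : k < 1 := by rw [hk, div_lt_one hBpos]; linarith
  have hm1 : m < 1 := by rw [hm, div_lt_one hApos]; linarith
  have hk1' : k' < 1 := by rw [hk', div_lt_one hBpos']; linarith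
  have hm1' : m' < 1 := by rw [hm', div_lt_one hApos']; linarith
  have hfg1 : ∀ a b : ℝ, 0 ≤ a → 0 ≤ b → 1 / 2 < n a b →
      1 / 2 < a + k * b ∨ 1 / 2 < b + m * a := by
    intro a b ha hb hf
    rcases h.fg A B k m a b hD1 hApos hBpos hAB1 hAB2 ha hb with h1 | h1
    · left; linarith
    · right; linarith
  have hfg2 : ∀ a b : ℝ, 0 ≤ a → 0 ≤ b → 1 / 2 < n a (-b) →
      1 / 2 < a + k' * b ∨ 1 / 2 < b + m' * a := by
    intro a b ha hb hf
    rcases h.reflY.fg A' (1 - X) k' m' a b hD2 hApos' hBpos' hAB1' hAB2' ha hb with h1 | h1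
    · left; linarith
    · right; linarith
  have tWp := hfg1 (x p) (y p - y W) (h.x0 p) (by linarith)
    (by have := h.far p W hpW; rwa [hxW, sub_zero] at this)
  have tpu := hfg1 (x u - x p) (y u - y p) (by linarith) (by linarith) (h.far u p hpu.symm)
  have tpl := hfg2 (x l - x p) (y p - y l) (by linarith) (by linarith)
    (by have := h.far l p hpl.symm; rwa [show y l - y p = -(y p - y l) by ring] at this)
  have tSl := hfg1 A' X hApos'.le (by linarith)
    (by have := h.far l S hlS; rwa [hyS, sub_zero, ← hA', ← hX] at this)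
  have tlE := hfg1 (1 - x l) (y W - y l) (by linarith) (by linarith)
    (by have := h.far E l hlE.symm; rwa [hxE, hyEW] at this)
  have tNu := hfg2 A (1 - B) hApos.le (by linarith)
    (by have := h.far u N huN
        rwa [hyN, hxNS, ← hA, ← hB, show B - 1 = -(1 - B) by ring] at this)
  have tuE := hfg2 (1 - x u) (y u - y W) (by linarith) (by linarith)
    (by have := h.far E u huE.symm
        rwa [hxE, hyEW, show y W - y u = -(y u - y W) by ring] at this)
  obtain ⟨c, hc⟩ : ∃ c, c = x p - x S := ⟨_, rfl⟩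
  have e1 : x p = c + x S := by linarith
  have e2 : x u = A + x S := by linarith
  have e3 : x l = A' + x S := by linarith
  rw [e1] at tWp
  rw [e1, e2, ← hB, show A + x S - (c + x S) = A - c by ring] at tpu
  rw [e1, e3, ← hX, show A' + x S - (c + x S) = A' - c by ring] at tpl
  rw [e3, ← hX] at tlE
  rw [e2, ← hB] at tuE
  exact seven_main' (x S) (y W) A B A' X c (y p) k m k' m' hr0 (by linarith) hyp (by linarith)
    hApos'.le (by linarith) (by linarith) fWS fWN (by linarith) hk0 hk1 hm0 hm1 hk0' hk1' hm0' hm1'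
    hAB1 hAB2 hAB1' (by linarith) tWp tpu tpl tSl tlE tNu tuE

/-- Two extra points with `y ≥ y W`. -/
theorem twoNE (h : SevenCfg n x y W E S N) (hWS : W ≠ S) (hWN : W ≠ N) (hES : E ≠ S)
    (hEN : E ≠ N) (e1 e2 e3 : Fin 7) (h12 : e1 ≠ e2) (h13 : e1 ≠ e3) (h23 : e2 ≠ e3)
    (w1 : e1 ≠ W ∧ e1 ≠ E ∧ e1 ≠ S ∧ e1 ≠ N) (w2 : e2 ≠ W ∧ e2 ≠ E ∧ e2 ≠ S ∧ e2 ≠ N)
    (w3 : e3 ≠ W ∧ e3 ≠ E ∧ e3 ≠ S ∧ e3 ≠ N)
    (hrs : x S ≤ y W) (hrs' : x S + y W ≤ 1)
    (hy1 : y W ≤ y e1) (hy2 : y W ≤ y e2) : False := by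
  have hr0 := h.x0 S
  have hxS1 := h.x1 S
  have hs0 := h.y0 W
  have hs1 := h.y1 W
  have hyS := h.yS
  have hyN := h.yN
  have hxW := h.xW
  have hxE := h.xE
  have hyEW := h.yEW
  have hxNS := h.xNS
  have fWS : 1 / 2 < x S + y W := by
    have := h.farl1 W S hWS
    rw [hxW, hyS, abs_of_nonpos (by linarith), abs_of_nonneg (by linarith)] at this
    linarith
  -- extras lie to the right of x S
  have hright : ∀ q : Fin 7, q ≠ W → q ≠ S → q ≠ N → x S ≤ x q := by
    intro q hqW hqS hqN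
    by_contra hc
    push Not at hc
    have a1 := h.x0 q
    have a2 := h.y0 q
    have a3 := h.y1 q
    have f1 := h.farl1 q W hqW
    rw [hxW, sub_zero, abs_of_nonneg a1] at f1
    rcases le_total (y q) (y W) with hq | hq
    · have f2 := h.farl1 q S hqS
      rw [hyS, sub_zero, abs_of_nonpos (by linarith), abs_of_nonneg a2] at f2
      rw [abs_of_nonpos (by linarith)] at f1
      linarith
    · have f2 := h.farl1 q N hqN
      rw [hyN, hxNS, abs_of_nonpos (by linarith), abs_of_nonpos (by linarith)] at f2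
      rw [abs_of_nonneg (by linarith)] at f1
      linarith
  -- no anti-monotone pair in NE
  have hanti : ∀ p q : Fin 7, p ≠ q → p ≠ N → q ≠ E → x S ≤ x p → y W ≤ y q →
      x p ≤ x q → y q ≤ y p → False := by
    intro p q hpq hpN hqE h1 h2 h3 h4
    have b1 := h.x1 q
    have b2 := h.y1 p
    have f1 := h.farl1 p N hpN
    have f2 := h.farl1 p q hpq
    have f3 := h.farl1 q E hqE
    rw [hyN, hxNS, abs_of_nonneg (by linarith), abs_of_nonpos (by linarith)] at f1
    rw [abs_of_nonpos (by linarith), abs_of_nonneg (by linarith)] at f2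
    rw [hxE, hyEW, abs_of_nonpos (by linarith), abs_of_nonneg (by linarith)] at f3
    linarith
  have hcomp : ∀ p q : Fin 7, p ≠ q → (p ≠ W ∧ p ≠ E ∧ p ≠ S ∧ p ≠ N) →
      (q ≠ W ∧ q ≠ E ∧ q ≠ S ∧ q ≠ N) → y W ≤ y p → y W ≤ y q →
      (x p ≤ x q ∧ y p ≤ y q) ∨ (x q ≤ x p ∧ y q ≤ y p) := by
    intro p q hpq wp wq h1 h2
    have g1 := hright p wp.1 wp.2.2.1 wp.2.2.2
    have g2 := hright q wq.1 wq.2.2.1 wq.2.2.2
    rcases le_total (x p) (x q) with h5 | h5 <;> rcases le_total (y p) (y q) with h6 | h6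
    · exact Or.inl ⟨h5, h6⟩
    · exact (hanti p q hpq wp.2.2.2 wq.2.1 g1 h2 h5 h6).elim
    · exact (hanti q p hpq.symm wq.2.2.2 wp.2.1 g2 h1 h5 h6).elim
    · exact Or.inr ⟨h5, h6⟩
  have g1 := hright e1 w1.1 w1.2.2.1 w1.2.2.2
  have g2 := hright e2 w2.1 w2.2.2.1 w2.2.2.2
  have g3 := hright e3 w3.1 w3.2.2.1 w3.2.2.2
  rcases le_total (y W) (y e3) with hy3 | hy3
  · refine h.chain3 W e1 e2 e3 w1.1 w2.1 w3.1 h12 h13 h23 ?_ ?_ ?_ hy1 hy2 hy3
      (hcomp e1 e2 h12 w1 w2 hy1 hy2) (hcomp e1 e3 h13 w1 w3 hy1 hy3)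
      (hcomp e2 e3 h23 w2 w3 hy2 hy3) <;> linarith
  · rcases hcomp e1 e2 h12 w1 w2 hy1 hy2 with ⟨c1, c2⟩ | ⟨c1, c2⟩
    · exact h.mainCase hWS hWN e1 e2 e3 h12 h13 h23 w1.2.2.1 w1.2.2.2 w1.1 w2.2.2.1 w2.2.2.2
        w2.2.1 w3.2.2.1 w3.2.1 g1 g3 c1 c2 hy1 hy3
    · exact h.mainCase hWS hWN e2 e1 e3 h12.symm h23 h13 w2.2.2.1 w2.2.2.2 w2.1 w1.2.2.1
        w1.2.2.2 w1.2.1 w3.2.2.1 w3.2.1 g2 g3 c1 c2 hy2 hy3

theorem nondegOrd (h : SevenCfg n x y W E S N) (hWS : W ≠ S) (hWN : W ≠ N) (hES : E ≠ S)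
    (hEN : E ≠ N) (hrs : x S ≤ y W) (hrs' : x S + y W ≤ 1) : False := by
  have hcard : 2 < (Finset.univ \ ({W, E, S, N} : Finset (Fin 7))).card := by
    have h1 : ({W, E, S, N} : Finset (Fin 7)).card ≤ 4 := Finset.card_le_four
    have h2 := Finset.le_card_sdiff ({W, E, S, N} : Finset (Fin 7)) Finset.univ
    rw [Finset.card_univ, Fintype.card_fin] at h2
    omega
  obtain ⟨a, b, c, ha, hb, hc, hab, hac, hbc⟩ := Finset.two_lt_card_iff.1 hcard
  simp only [Finset.mem_sdiff, Finset.mem_univ, true_and, Finset.mem_insert,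
    Finset.mem_singleton, not_or] at ha hb hc
  have up : ∀ e1 e2 e3 : Fin 7, e1 ≠ e2 → e1 ≠ e3 → e2 ≠ e3 →
      (e1 ≠ W ∧ e1 ≠ E ∧ e1 ≠ S ∧ e1 ≠ N) → (e2 ≠ W ∧ e2 ≠ E ∧ e2 ≠ S ∧ e2 ≠ N) →
      (e3 ≠ W ∧ e3 ≠ E ∧ e3 ≠ S ∧ e3 ≠ N) → y W ≤ y e1 → y W ≤ y e2 → False := by
    intro e1 e2 e3 h12 h13 h23 w1 w2 w3 h1 h2
    exact h.twoNE hWS hWN hES hEN e1 e2 e3 h12 h13 h23 w1 w2 w3 hrs hrs' h1 h2
  have down : ∀ e1 e2 e3 : Fin 7, e1 ≠ e2 → e1 ≠ e3 → e2 ≠ e3 →
      (e1 ≠ W ∧ e1 ≠ E ∧ e1 ≠ S ∧ e1 ≠ N) → (e2 ≠ W ∧ e2 ≠ E ∧ e2 ≠ S ∧ e2 ≠ N) →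
      (e3 ≠ W ∧ e3 ≠ E ∧ e3 ≠ S ∧ e3 ≠ N) → y e1 ≤ y W → y e2 ≤ y W → False := by
    intro e1 e2 e3 h12 h13 h23 w1 w2 w3 h1 h2
    have h' := h.reflY
    have hxNS := h.xNS
    exact h'.twoNE hWN hWS hEN hES e1 e2 e3 h12 h13 h23 ⟨w1.1, w1.2.1, w1.2.2.2, w1.2.2.1⟩
      ⟨w2.1, w2.2.1, w2.2.2.2, w2.2.2.1⟩ ⟨w3.1, w3.2.1, w3.2.2.2, w3.2.2.1⟩
      (by linarith) (by linarith) (by linarith)
      (by linarith)
  rcases le_total (y W) (y a) with h1 | h1 <;> rcases le_total (y W) (y b) with h2 | h2 <;>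
    rcases le_total (y W) (y c) with h3 | h3
  · exact up a b c hab hac hbc ha hb hc h1 h2
  · exact up a b c hab hac hbc ha hb hc h1 h2
  · exact up a c b hac hab hbc.symm ha hc hb h1 h3
  · exact down b c a hbc hab.symm hac.symm hb hc ha h2 h3
  · exact up b c a hbc hab.symm hac.symm hb hc ha h2 h3
  · exact down a c b hac hab hbc.symm ha hc hb h1 h3
  · exact down a b c hab hac hbc ha hb hc h1 h2
  · exact down a b c hab hac hbc ha hb hc h1 h2

theorem nondeg (h : SevenCfg n x y W E S N) (hWS : W ≠ S) (hWN : W ≠ N) (hES : E ≠ S)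
    (hEN : E ≠ N) : False := by
  have hxNS := h.xNS
  have hyEW := h.yEW
  -- reduce to x S ≤ 1/2, y W ≤ 1/2
  have key : ∀ (n : ℝ → ℝ → ℝ) (x y : Fin 7 → ℝ) (W E S N : Fin 7),
      SevenCfg n x y W E S N → W ≠ S → W ≠ N → E ≠ S → E ≠ N → x S ≤ 1 / 2 → y W ≤ 1 / 2 →
      False := by
    intro n x y W E S N h hWS hWN hES hEN hx hy
    rcases le_total (x S) (y W) with h1 | h1
    · exact h.nondegOrd hWS hWN hES hEN h1 (by linarith)
    · exact h.swap.nondegOrd hWS.symm hES.symm hWN.symm hEN.symm h1 (by linarith)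
  rcases le_total (x S) (1 / 2) with hx | hx <;> rcases le_total (y W) (1 / 2) with hy | hy
  · exact key _ _ _ _ _ _ _ h hWS hWN hES hEN hx hy
  · exact key _ _ _ _ _ _ _ h.reflY hWN hWS hEN hES (by linarith) (by linarith)
  · exact key _ _ _ _ _ _ _ h.reflX hES hEN hWS hWN (by linarith) (by linarith)
  · exact key _ _ _ _ _ _ _ h.reflX.reflY hEN hES hWN hWS (by linarith)
      (by linarith)

theorem false (h : SevenCfg n x y W E S N) : False := by
  by_cases h1 : W = S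
  · exact h.deg h1
  by_cases h2 : W = N
  · exact h.reflY.deg h2
  by_cases h3 : E = S
  · exact h.reflX.deg h3
  by_cases h4 : E = N
  · exact h.reflX.reflY.deg h4
  exact h.nondeg h1 h2 h3 h4

end SevenCfg

end Pool.Agent.Y370
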