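import Pool.Agent.Y370.Seven2

set_option autoImplicit false

/-!
# Seven points in a Minkowski plane: the extremal frame in a two-dimensional normed space
-/

namespace Pool.Agent.Y370

open Module

theorem cramer0 (v0 v1 x0 x1 y0 y1 : ℝ) (h : x0 * y1 - x1 * y0 ≠ 0) :
    (v0 * y1 - v1 * y0) / (x0 * y1 - x1 * y0) * x0
      + (x0 * v1 - x1 * v0) / (x0 * y1 - x1 * y0) * y0 = v0 := by
  rw [div_mul_eq_mul_div, div_mul_eq_mul_div, ← add_div, div_eq_iff h]; ring

theorem cramer1 (v0 v1 x0 x1 y0 y1 : ℝ) (h : x0 * y1 - x1 * y0 ≠ 0) :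
    (v0 * y1 - v1 * y0) / (x0 * y1 - x1 * y0) * x1
      + (x0 * v1 - x1 * v0) / (x0 * y1 - x1 * y0) * y1 = v1 := by
  rw [div_mul_eq_mul_div, div_mul_eq_mul_div, ← add_div, div_eq_iff h]; ring

/-- In a two-dimensional real normed space any seven distinct points have a pair at distance at
least twice the distance of some other pair of distinct points. -/
theorem seven_points (E : Type) [NormedAddCommGroup E] [NormedSpace ℝ E]
    (hE : Module.finrank ℝ E = 2) (p : Fin 7 → E) (hp : Function.Injective p) :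
    ∃ i j k l : Fin 7, k ≠ l ∧ 2 * dist (p k) (p l) ≤ dist (p i) (p j) := by
  by_contra hcon
  push Not at hcon
  have hlt : ∀ i j k l : Fin 7, k ≠ l → ‖p i - p j‖ < 2 * ‖p k - p l‖ := by
    intro i j k l hkl
    have := hcon i j k l hkl
    rwa [dist_eq_norm, dist_eq_norm] at this
  -- the largest distance
  obtain ⟨⟨i0, j0⟩, -, hmax⟩ := Finset.exists_max_image (Finset.univ : Finset (Fin 7 × Fin 7))
    (fun q => ‖p q.1 - p q.2‖) Finset.univ_nonempty
  set M : ℝ := ‖p i0 - p j0‖ with hM
  have hmax' : ∀ i j, ‖p i - p j‖ ≤ M := fun i j => hmax (i, j) (Finset.mem_univ _)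
  have hMpos : 0 < M := by
    have h1 : 0 < ‖p 0 - p 1‖ := norm_pos_iff.2 (sub_ne_zero.2 (fun h => by
      have := hp h; exact absurd this (by decide)))
    exact h1.trans_le (hmax' 0 1)
  have hfar' : ∀ k l, k ≠ l → M < 2 * ‖p k - p l‖ := fun k l hkl => hlt i0 j0 k l hkl
  -- a basis and the determinant
  haveI : Module.Finite ℝ E := Module.finite_of_finrank_pos (by rw [hE]; norm_num)
  let b : Basis (Fin 2) ℝ E := finBasisOfFinrankEq ℝ E hE
  let c0 : E →ₗ[ℝ] ℝ := b.coord 0
  let c1 : E →ₗ[ℝ] ℝ := b.coord 1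
  have hext : ∀ v w : E, c0 v = c0 w → c1 v = c1 w → v = w := by
    intro v w h0 h1
    apply b.ext_elem
    intro i
    fin_cases i
    · exact h0
    · exact h1
  let det : E → E → ℝ := fun v w => c0 v * c1 w - c1 v * c0 w
  obtain ⟨⟨⟨eE, eW⟩, ⟨eN, eS⟩⟩, -, hdet⟩ := Finset.exists_max_image
    (Finset.univ : Finset ((Fin 7 × Fin 7) × (Fin 7 × Fin 7)))
    (fun q => det (p q.1.1 - p q.1.2) (p q.2.1 - p q.2.2)) Finset.univ_nonempty
  set X : E := p eE - p eW with hX
  set Y : E := p eN - p eS with hY
  have hdet' : ∀ i j k l, det (p i - p j) (p k - p l) ≤ det X Y := fun i j k l =>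
    hdet ((i, j), (k, l)) (Finset.mem_univ _)
  -- positivity of the determinant
  have hpos : 0 < det X Y := by
    by_contra hneg
    push Not at hneg
    have hz : ∀ i j k l, det (p i - p j) (p k - p l) = 0 := by
      intro i j k l
      have h1 := hdet' i j k l
      have h2 := hdet' j i k l
      have h3 : det (p j - p i) (p k - p l) = - det (p i - p j) (p k - p l) := by
        simp only [det, map_sub]; ring
      linarith
    -- three collinear points
    have h0 : p 1 - p 0 ≠ 0 := sub_ne_zero.2 (fun h => by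
      have := hp h; exact absurd this (by decide))
    have h12 := hz 2 0 1 0
    obtain ⟨t, ht⟩ : ∃ t : ℝ, p 2 - p 0 = t • (p 1 - p 0) := by
      by_cases hc : c0 (p 1 - p 0) = 0
      · have hc1 : c1 (p 1 - p 0) ≠ 0 := by
          intro hc1
          apply h0
          apply hext
          · rw [hc, map_zero]
          · rw [hc1, map_zero]
        refine ⟨c1 (p 2 - p 0) / c1 (p 1 - p 0), hext _ _ ?_ ?_⟩
        · rw [map_smul, hc, smul_zero]
          have : c0 (p 2 - p 0) * c1 (p 1 - p 0) = 0 := by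
            have h13 : c0 (p 2 - p 0) * c1 (p 1 - p 0) - c1 (p 2 - p 0) * c0 (p 1 - p 0) = 0 := h12
            rw [hc] at h13; linarith
          rcases mul_eq_zero.1 this with h | h
          · exact h
          · exact absurd h hc1
        · rw [map_smul, smul_eq_mul, div_mul_cancel₀ _ hc1]
      · refine ⟨c0 (p 2 - p 0) / c0 (p 1 - p 0), hext _ _ ?_ ?_⟩
        · rw [map_smul, smul_eq_mul, div_mul_cancel₀ _ hc]
        · rw [map_smul, smul_eq_mul, div_mul_eq_mul_div, eq_div_iff hc]
          have h13 : c0 (p 2 - p 0) * c1 (p 1 - p 0) - c1 (p 2 - p 0) * c0 (p 1 - p 0) = 0 := h12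
          linarith
    have hw : 0 < ‖p 1 - p 0‖ := norm_pos_iff.2 h0
    have e1 : ‖p 2 - p 0‖ = |t| * ‖p 1 - p 0‖ := by rw [ht, norm_smul, Real.norm_eq_abs]
    have e2 : ‖p 2 - p 1‖ = |t - 1| * ‖p 1 - p 0‖ := by
      have : p 2 - p 1 = (t - 1) • (p 1 - p 0) := by
        rw [sub_smul, one_smul, ← ht]; abel
      rw [this, norm_smul, Real.norm_eq_abs]
    have a1 := hlt 1 0 2 0 (by decide)
    have a2 := hlt 1 0 2 1 (by decide)
    have a3 := hlt 2 0 1 0 (by decide)
    have a4 := hlt 2 0 2 1 (by decide)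
    have a5 := hlt 2 1 1 0 (by decide)
    have a6 := hlt 2 1 2 0 (by decide)
    rw [e1] at a1 a3 a4 a6
    rw [e2] at a2 a4 a5 a6
    have a1' : 1 < 2 * |t| := by
      by_contra h; push Not at h
      have := mul_le_mul_of_nonneg_right h hw.le; linarith
    have a2' : 1 < 2 * |t - 1| := by
      by_contra h; push Not at h
      have := mul_le_mul_of_nonneg_right h hw.le; linarith
    have a3' : |t| < 2 := by
      by_contra h; push Not at h
      have := mul_le_mul_of_nonneg_right h hw.le; linarith
    have a4' : |t| < 2 * |t - 1| := by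
      by_contra h; push Not at h
      have := mul_le_mul_of_nonneg_right h hw.le; linarith
    have a5' : |t - 1| < 2 := by
      by_contra h; push Not at h
      have := mul_le_mul_of_nonneg_right h hw.le; linarith
    have a6' : |t - 1| < 2 * |t| := by
      by_contra h; push Not at h
      have := mul_le_mul_of_nonneg_right h hw.le; linarith
    rcases abs_cases t with ⟨h1, h2⟩ | ⟨h1, h2⟩ <;>
      rcases abs_cases (t - 1) with ⟨h3, h4⟩ | ⟨h3, h4⟩ <;> linarith
  set δ : ℝ := det X Y with hδ
  -- the coordinate functionals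
  let al : E → ℝ := fun v => det v Y / δ
  let be : E → ℝ := fun v => det X v / δ
  have hal : ∀ v w, al (v - w) = al v - al w := by
    intro v w
    simp only [al, det, map_sub]; ring
  have hbe : ∀ v w, be (v - w) = be v - be w := by
    intro v w
    simp only [be, det, map_sub]; ring
  have hdecomp : ∀ v, al v • X + be v • Y = v := by
    intro v
    have hδ' : c0 X * c1 Y - c1 X * c0 Y ≠ 0 := hpos.ne'
    apply hext
    · rw [map_add, map_smul, map_smul, smul_eq_mul, smul_eq_mul]
      exact cramer0 (c0 v) (c1 v) (c0 X) (c1 X) (c0 Y) (c1 Y) hδ'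
    · rw [map_add, map_smul, map_smul, smul_eq_mul, smul_eq_mul]
      exact cramer1 (c0 v) (c1 v) (c0 X) (c1 X) (c0 Y) (c1 Y) hδ'
  have hal1 : ∀ i j, al (p i - p j) ≤ 1 := by
    intro i j
    show det (p i - p j) Y / δ ≤ 1
    rw [div_le_one hpos]
    exact hdet' i j eN eS
  have hbe1 : ∀ i j, be (p i - p j) ≤ 1 := by
    intro i j
    show det X (p i - p j) / δ ≤ 1
    rw [div_le_one hpos]
    exact hdet' eE eW i j
  have halX : al X = 1 := div_self hpos.ne'
  have hbeY : be Y = 1 := div_self hpos.ne'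
  have halY : al Y = 0 := by
    show (c0 Y * c1 Y - c1 Y * c0 Y) / δ = 0
    rw [show c0 Y * c1 Y - c1 Y * c0 Y = 0 by ring, zero_div]
  have hbeX : be X = 0 := by
    show (c0 X * c1 X - c1 X * c0 X) / δ = 0
    rw [show c0 X * c1 X - c1 X * c0 X = 0 by ring, zero_div]
  have hxE : al (p eE) - al (p eW) = 1 := by rw [← hal]; exact halX
  have hyN : be (p eN) - be (p eS) = 1 := by rw [← hbe]; exact hbeY
  have hxN : al (p eN) - al (p eS) = 0 := by rw [← hal]; exact halY
  have hyE : be (p eE) - be (p eW) = 0 := by rw [← hbe]; exact hbeX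
  have hal1' : ∀ i j, al (p i) - al (p j) ≤ 1 := fun i j => by rw [← hal]; exact hal1 i j
  have hbe1' : ∀ i j, be (p i) - be (p j) ≤ 1 := fun i j => by rw [← hbe]; exact hbe1 i j
  have hnorm : ∀ i j, ‖(al (p i) - al (p j)) • X + (be (p i) - be (p j)) • Y‖ = ‖p i - p j‖ := by
    intro i j
    rw [← hal, ← hbe, hdecomp]
  have hcfg : SevenCfg (fun a b => ‖a • X + b • Y‖ / M) (fun i => al (p i) - al (p eW))
      (fun i => be (p i) - be (p eS)) eW eE eS eN := by
    refine ⟨?_, ?_, ?_, ?_, ?_, ?_, ?_, ?_, ?_, ?_, ?_, ?_, ?_, ?_, ?_⟩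
    · intro a b c d
      show ‖(a + c) • X + (b + d) • Y‖ / M ≤ ‖a • X + b • Y‖ / M + ‖c • X + d • Y‖ / M
      rw [← add_div]
      apply div_le_div_of_nonneg_right _ hMpos.le
      have : (a + c) • X + (b + d) • Y = (a • X + b • Y) + (c • X + d • Y) := by
        rw [add_smul, add_smul]; abel
      rw [this]
      exact norm_add_le _ _
    · intro t a b ht
      show ‖(t * a) • X + (t * b) • Y‖ / M = t * (‖a • X + b • Y‖ / M)
      have : (t * a) • X + (t * b) • Y = t • (a • X + b • Y) := by
        rw [smul_add, smul_smul, smul_smul]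
      rw [this, norm_smul, Real.norm_eq_abs, abs_of_nonneg ht, mul_div_assoc]
    · intro a b
      show ‖(-a) • X + (-b) • Y‖ / M = ‖a • X + b • Y‖ / M
      have : (-a) • X + (-b) • Y = -(a • X + b • Y) := by
        rw [neg_smul, neg_smul]; abel
      rw [this, norm_neg]
    · intro i
      have := hal1' eE i
      show 0 ≤ al (p i) - al (p eW)
      linarith
    · intro i; exact hal1' i eW
    · intro i
      have := hbe1' eN i
      show 0 ≤ be (p i) - be (p eS)
      linarith
    · intro i; exact hbe1' i eS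
    · show al (p eW) - al (p eW) = 0
      ring
    · exact hxE
    · show be (p eE) - be (p eS) = be (p eW) - be (p eS)
      linarith
    · show be (p eS) - be (p eS) = 0
      ring
    · exact hyN
    · show al (p eN) - al (p eW) = al (p eS) - al (p eW)
      linarith
    · intro i j
      show ‖(al (p i) - al (p eW) - (al (p j) - al (p eW))) • X +
        (be (p i) - be (p eS) - (be (p j) - be (p eS))) • Y‖ / M ≤ 1
      rw [sub_sub_sub_cancel_right, sub_sub_sub_cancel_right, hnorm, div_le_one hMpos]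
      exact hmax' i j
    · intro i j hij
      show 1 / 2 < ‖(al (p i) - al (p eW) - (al (p j) - al (p eW))) • X +
        (be (p i) - be (p eS) - (be (p j) - be (p eS))) • Y‖ / M
      rw [sub_sub_sub_cancel_right, sub_sub_sub_cancel_right, hnorm, lt_div_iff₀ hMpos]
      have := hfar' i j hij
      linarith
  exact hcfg.false

end Pool.Agent.Y370
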