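import Pool.Agent.Y370.Seven3

set_option autoImplicit false

/-!
# Seven points in a plane with a sublinear even function
-/

namespace Pool.Agent.Y370

open Module

/-- Version of `seven_points` for an even sublinear function on a two-dimensional space. -/
theorem seven_points_gauge (E : Type) [AddCommGroup E] [Module ℝ E]
    (hE : Module.finrank ℝ E = 2) (N : E → ℝ) (hNadd : ∀ v w, N (v + w) ≤ N v + N w)
    (hNsmul : ∀ (t : ℝ) v, 0 ≤ t → N (t • v) = t * N v) (hNneg : ∀ v, N (-v) = N v)
    (p : Fin 7 → E) :
    ∃ i j k l : Fin 7, k ≠ l ∧ 2 * N (p k - p l) ≤ N (p i - p j) := by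
  by_contra hcon
  push Not at hcon
  have hlt : ∀ i j k l : Fin 7, k ≠ l → N (p i - p j) < 2 * N (p k - p l) := hcon
  have hN0 : N 0 = 0 := by
    have := hNsmul 0 0 le_rfl
    rwa [zero_smul, zero_mul] at this
  have hNabs : ∀ (t : ℝ) v, N (t • v) = |t| * N v := by
    intro t v
    rcases le_total 0 t with ht | ht
    · rw [abs_of_nonneg ht, hNsmul t v ht]
    · rw [abs_of_nonpos ht, ← hNneg, ← neg_smul, hNsmul _ v (by linarith)]
  have hp : Function.Injective p := by
    intro a b hab
    by_contra hne
    have := hlt a a a b hne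
    rw [hab, sub_self, hN0] at this
    linarith
  -- the largest distance
  obtain ⟨⟨i0, j0⟩, -, hmax⟩ := Finset.exists_max_image (Finset.univ : Finset (Fin 7 × Fin 7))
    (fun q => N (p q.1 - p q.2)) Finset.univ_nonempty
  set M : ℝ := N (p i0 - p j0) with hM
  have hmax' : ∀ i j, N (p i - p j) ≤ M := fun i j => hmax (i, j) (Finset.mem_univ _)
  have hMpos : 0 < M := by
    have h1 : 0 < N (p 0 - p 1) := by
      have := hlt 0 0 0 1 (by decide)
      rw [sub_self, hN0] at this
      linarith
    exact h1.trans_le (hmax' 0 1)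
  have hfar' : ∀ k l, k ≠ l → M < 2 * N (p k - p l) := fun k l hkl => hlt i0 j0 k l hkl
  -- a basis and the determinant
  haveI : Module.Finite ℝ E := Module.finite_of_finrank_pos (by rw [hE]; norm_num)
  let b : Basis (Fin 2) ℝ E := finBasisOfFinrankEq ℝ E hE
  let c0 : E →ₗ[ℝ] ℝ := b.coord 0
  let c1 : E →ₗ[ℝ] ℝ := b.coord 1
  have hext : ∀ v w : E, c0 v = c0 w → c1 v = c1 w → v = w := by
    intro v w h0 h1
    apply b.ext_elem
    intro i
    fin_cases i
    · exact h0
    · exact h1
  let det : E → E → ℝ := fun v w => c0 v * c1 w - c1 v * c0 w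
  obtain ⟨⟨⟨eE, eW⟩, ⟨eN, eS⟩⟩, -, hdet⟩ := Finset.exists_max_image
    (Finset.univ : Finset ((Fin 7 × Fin 7) × (Fin 7 × Fin 7)))
    (fun q => det (p q.1.1 - p q.1.2) (p q.2.1 - p q.2.2)) Finset.univ_nonempty
  set X : E := p eE - p eW with hX
  set Y : E := p eN - p eS with hY
  have hdet' : ∀ i j k l, det (p i - p j) (p k - p l) ≤ det X Y := fun i j k l =>
    hdet ((i, j), (k, l)) (Finset.mem_univ _)
  -- positivity of the determinant
  have hpos : 0 < det X Y := by
    by_contra hneg
    push Not at hneg
    have hz : ∀ i j k l, det (p i - p j) (p k - p l) = 0 := by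
      intro i j k l
      have h1 := hdet' i j k l
      have h2 := hdet' j i k l
      have h3 : det (p j - p i) (p k - p l) = - det (p i - p j) (p k - p l) := by
        simp only [det, map_sub]; ring
      linarith
    -- three collinear points
    have h0 : p 1 - p 0 ≠ 0 := sub_ne_zero.2 (fun h => by
      have := hp h; exact absurd this (by decide))
    have h12 := hz 2 0 1 0
    obtain ⟨t, ht⟩ : ∃ t : ℝ, p 2 - p 0 = t • (p 1 - p 0) := by
      by_cases hc : c0 (p 1 - p 0) = 0
      · have hc1 : c1 (p 1 - p 0) ≠ 0 := by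
          intro hc1
          apply h0
          apply hext
          · rw [hc, map_zero]
          · rw [hc1, map_zero]
        refine ⟨c1 (p 2 - p 0) / c1 (p 1 - p 0), hext _ _ ?_ ?_⟩
        · rw [map_smul, hc, smul_zero]
          have : c0 (p 2 - p 0) * c1 (p 1 - p 0) = 0 := by
            have h13 : c0 (p 2 - p 0) * c1 (p 1 - p 0) - c1 (p 2 - p 0) * c0 (p 1 - p 0) = 0 := h12
            rw [hc] at h13; linarith
          rcases mul_eq_zero.1 this with h | h
          · exact h
          · exact absurd h hc1
        · rw [map_smul, smul_eq_mul, div_mul_cancel₀ _ hc1]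
      · refine ⟨c0 (p 2 - p 0) / c0 (p 1 - p 0), hext _ _ ?_ ?_⟩
        · rw [map_smul, smul_eq_mul, div_mul_cancel₀ _ hc]
        · rw [map_smul, smul_eq_mul, div_mul_eq_mul_div, eq_div_iff hc]
          have h13 : c0 (p 2 - p 0) * c1 (p 1 - p 0) - c1 (p 2 - p 0) * c0 (p 1 - p 0) = 0 := h12
          linarith
    have hw : 0 < N (p 1 - p 0) := by
      have := hlt 0 0 1 0 (by decide)
      rw [sub_self, hN0] at this
      linarith
    have e1 : N (p 2 - p 0) = |t| * N (p 1 - p 0) := by rw [ht, hNabs]
    have e2 : N (p 2 - p 1) = |t - 1| * N (p 1 - p 0) := by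
      have : p 2 - p 1 = (t - 1) • (p 1 - p 0) := by
        rw [sub_smul, one_smul, ← ht]; abel
      rw [this, hNabs]
    have a1 := hlt 1 0 2 0 (by decide)
    have a2 := hlt 1 0 2 1 (by decide)
    have a3 := hlt 2 0 1 0 (by decide)
    have a4 := hlt 2 0 2 1 (by decide)
    have a5 := hlt 2 1 1 0 (by decide)
    have a6 := hlt 2 1 2 0 (by decide)
    rw [e1] at a1 a3 a4 a6
    rw [e2] at a2 a4 a5 a6
    have a1' : 1 < 2 * |t| := by
      by_contra h; push Not at h
      have := mul_le_mul_of_nonneg_right h hw.le; linarith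
    have a2' : 1 < 2 * |t - 1| := by
      by_contra h; push Not at h
      have := mul_le_mul_of_nonneg_right h hw.le; linarith
    have a3' : |t| < 2 := by
      by_contra h; push Not at h
      have := mul_le_mul_of_nonneg_right h hw.le; linarith
    have a4' : |t| < 2 * |t - 1| := by
      by_contra h; push Not at h
      have := mul_le_mul_of_nonneg_right h hw.le; linarith
    have a5' : |t - 1| < 2 := by
      by_contra h; push Not at h
      have := mul_le_mul_of_nonneg_right h hw.le; linarith
    have a6' : |t - 1| < 2 * |t| := by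
      by_contra h; push Not at h
      have := mul_le_mul_of_nonneg_right h hw.le; linarith
    rcases abs_cases t with ⟨h1, h2⟩ | ⟨h1, h2⟩ <;>
      rcases abs_cases (t - 1) with ⟨h3, h4⟩ | ⟨h3, h4⟩ <;> linarith
  set δ : ℝ := det X Y with hδ
  -- the coordinate functionals
  let al : E → ℝ := fun v => det v Y / δ
  let be : E → ℝ := fun v => det X v / δ
  have hal : ∀ v w, al (v - w) = al v - al w := by
    intro v w
    simp only [al, det, map_sub]; ring
  have hbe : ∀ v w, be (v - w) = be v - be w := by
    intro v w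
    simp only [be, det, map_sub]; ring
  have hdecomp : ∀ v, al v • X + be v • Y = v := by
    intro v
    have hδ' : c0 X * c1 Y - c1 X * c0 Y ≠ 0 := hpos.ne'
    apply hext
    · rw [map_add, map_smul, map_smul, smul_eq_mul, smul_eq_mul]
      exact cramer0 (c0 v) (c1 v) (c0 X) (c1 X) (c0 Y) (c1 Y) hδ'
    · rw [map_add, map_smul, map_smul, smul_eq_mul, smul_eq_mul]
      exact cramer1 (c0 v) (c1 v) (c0 X) (c1 X) (c0 Y) (c1 Y) hδ'
  have hal1 : ∀ i j, al (p i - p j) ≤ 1 := by
    intro i j
    show det (p i - p j) Y / δ ≤ 1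
    rw [div_le_one hpos]
    exact hdet' i j eN eS
  have hbe1 : ∀ i j, be (p i - p j) ≤ 1 := by
    intro i j
    show det X (p i - p j) / δ ≤ 1
    rw [div_le_one hpos]
    exact hdet' eE eW i j
  have halX : al X = 1 := div_self hpos.ne'
  have hbeY : be Y = 1 := div_self hpos.ne'
  have halY : al Y = 0 := by
    show (c0 Y * c1 Y - c1 Y * c0 Y) / δ = 0
    rw [show c0 Y * c1 Y - c1 Y * c0 Y = 0 by ring, zero_div]
  have hbeX : be X = 0 := by
    show (c0 X * c1 X - c1 X * c0 X) / δ = 0
    rw [show c0 X * c1 X - c1 X * c0 X = 0 by ring, zero_div]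
  have hxE : al (p eE) - al (p eW) = 1 := by rw [← hal]; exact halX
  have hyN : be (p eN) - be (p eS) = 1 := by rw [← hbe]; exact hbeY
  have hxN : al (p eN) - al (p eS) = 0 := by rw [← hal]; exact halY
  have hyE : be (p eE) - be (p eW) = 0 := by rw [← hbe]; exact hbeX
  have hal1' : ∀ i j, al (p i) - al (p j) ≤ 1 := fun i j => by rw [← hal]; exact hal1 i j
  have hbe1' : ∀ i j, be (p i) - be (p j) ≤ 1 := fun i j => by rw [← hbe]; exact hbe1 i j
  have hnorm : ∀ i j, N ((al (p i) - al (p j)) • X + (be (p i) - be (p j)) • Y) = N (p i - p j) := by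
    intro i j
    rw [← hal, ← hbe, hdecomp]
  have hcfg : SevenCfg (fun a b => N (a • X + b • Y) / M) (fun i => al (p i) - al (p eW))
      (fun i => be (p i) - be (p eS)) eW eE eS eN := by
    refine ⟨?_, ?_, ?_, ?_, ?_, ?_, ?_, ?_, ?_, ?_, ?_, ?_, ?_, ?_, ?_⟩
    · intro a b c d
      show N ((a + c) • X + (b + d) • Y) / M ≤ N (a • X + b • Y) / M + N (c • X + d • Y) / M
      rw [← add_div]
      apply div_le_div_of_nonneg_right _ hMpos.le
      have : (a + c) • X + (b + d) • Y = (a • X + b • Y) + (c • X + d • Y) := by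
        rw [add_smul, add_smul]; abel
      rw [this]
      exact hNadd _ _
    · intro t a b ht
      show N ((t * a) • X + (t * b) • Y) / M = t * (N (a • X + b • Y) / M)
      have : (t * a) • X + (t * b) • Y = t • (a • X + b • Y) := by
        rw [smul_add, smul_smul, smul_smul]
      rw [this, hNsmul _ _ ht, mul_div_assoc]
    · intro a b
      show N ((-a) • X + (-b) • Y) / M = N (a • X + b • Y) / M
      have : (-a) • X + (-b) • Y = -(a • X + b • Y) := by
        rw [neg_smul, neg_smul]; abel
      rw [this, hNneg]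
    · intro i
      have := hal1' eE i
      show 0 ≤ al (p i) - al (p eW)
      linarith
    · intro i; exact hal1' i eW
    · intro i
      have := hbe1' eN i
      show 0 ≤ be (p i) - be (p eS)
      linarith
    · intro i; exact hbe1' i eS
    · show al (p eW) - al (p eW) = 0
      ring
    · exact hxE
    · show be (p eE) - be (p eS) = be (p eW) - be (p eS)
      linarith
    · show be (p eS) - be (p eS) = 0
      ring
    · exact hyN
    · show al (p eN) - al (p eW) = al (p eS) - al (p eW)
      linarith
    · intro i j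
      show N ((al (p i) - al (p eW) - (al (p j) - al (p eW))) • X +
        (be (p i) - be (p eS) - (be (p j) - be (p eS))) • Y) / M ≤ 1
      rw [sub_sub_sub_cancel_right, sub_sub_sub_cancel_right, hnorm, div_le_one hMpos]
      exact hmax' i j
    · intro i j hij
      show 1 / 2 < N ((al (p i) - al (p eW) - (al (p j) - al (p eW))) • X +
        (be (p i) - be (p eS) - (be (p j) - be (p eS))) • Y) / M
      rw [sub_sub_sub_cancel_right, sub_sub_sub_cancel_right, hnorm, lt_div_iff₀ hMpos]
      have := hfar' i j hij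
      linarith
  exact hcfg.false

end Pool.Agent.Y370
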